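import Mathlib
import Pool.Agent.R245.OD.Sing
set_option autoImplicit false

/-! The angular integrals. -/

namespace Pool.Agent.R245.PB

open MeasureTheory Set Real
open scoped ENNReal
open Pool.Agent.R245.OD (P P_meas P_mul P_zero P_pos P_anti subst_aff C1 C1_lt P_shift)

/-- a fixed long interval -/
def J : Set ℝ := Icc (-8) 8

/-- the interval of angles -/
noncomputable def I0 : Set ℝ := Ioo (-π) π

lemma J_meas : MeasurableSet J := measurableSet_Icc
lemma I0_meas : MeasurableSet I0 := measurableSet_Ioo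

lemma I0_J : I0 ⊆ J := by
  intro x hx
  have := Real.pi_lt_four
  exact ⟨by linarith [hx.1], by linarith [hx.2]⟩

lemma sub_J {x y : ℝ} (hx : x ∈ I0) (hy : y ∈ I0) : x - y ∈ J := by
  have := Real.pi_lt_four
  exact ⟨by linarith [hx.1, hy.2], by linarith [hx.2, hy.1]⟩

lemma P_neg' (θ x : ℝ) : P θ (-x) = P θ x := by
  unfold P
  rw [abs_neg]

lemma shift_set (Φ : ℝ → ℝ≥0∞) (s : Set ℝ) (hs : MeasurableSet s) (c : ℝ) :
    ∫⁻ x in {x | x + c ∈ s}, Φ (x + c) = ∫⁻ y in s, Φ y := by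
  have hm : MeasurableSet {x : ℝ | x + c ∈ s} := (measurable_id.add_const c) hs
  rw [← lintegral_indicator hs, ← lintegral_add_right_eq_self (s.indicator Φ) c,
    ← lintegral_indicator hm]
  rfl

lemma sin_low {w : ℝ} (hw : |w| ≤ π / 2 + 1 / 2) : 1 / 4 * |w| ≤ |Real.sin w| := by
  have hpi := Real.pi_gt_three
  have hpi4 := Real.pi_lt_four
  have h0 := abs_nonneg w
  have e : |Real.sin w| = |Real.sin (|w|)| := by
    rcases abs_choice w with h | h
    · rw [h]
    · rw [h, Real.sin_neg, abs_neg]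
  rw [e]
  set x := |w| with hx
  rcases le_total x (π / 2) with h1 | h1
  · have h2 := Real.mul_le_sin h0 h1
    have h3 : 1 / 4 * x ≤ 2 / π * x := by
      apply mul_le_mul_of_nonneg_right _ h0
      rw [div_le_div_iff₀ (by norm_num) (by positivity)]
      linarith
    exact (h3.trans h2).trans (le_abs_self _)
  · have h2 : Real.sin x = Real.cos (x - π / 2) := by
      rw [Real.cos_sub_pi_div_two]
    rw [h2]
    have h3 := Real.one_sub_sq_div_two_le_cos (x := x - π / 2)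
    have h4 : (x - π / 2) ^ 2 ≤ (1 / 2) ^ 2 := by
      apply pow_le_pow_left₀ (by linarith)
      linarith
    refine le_trans ?_ (le_abs_self _)
    nlinarith

lemma sin_unit {θ : ℝ} (hθ0 : 0 ≤ θ) (A : ℝ) :
    ∫⁻ y in Icc A (A + 1), P θ (Real.sin y) ≤ P θ (1 / 4) * C1 θ := by
  set n : ℤ := round ((A + 1 / 2) / π) with hn
  have hpi := Real.pi_pos
  have h1 : |A + 1 / 2 - n * π| ≤ π / 2 := by
    have h2 := abs_sub_round ((A + 1 / 2) / π)
    have e : A + 1 / 2 - n * π = ((A + 1 / 2) / π - n) * π := by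
      field_simp
    rw [e, abs_mul, abs_of_pos hpi]
    calc |(A + 1 / 2) / π - n| * π ≤ 1 / 2 * π := by
          gcongr
      _ = π / 2 := by ring
  have h3 : ∀ y ∈ Icc A (A + 1), P θ (Real.sin y) ≤ P θ (1 / 4) * P θ (y - n * π) := by
    intro y hy
    rw [← P_mul]
    apply P_anti hθ0
    have h4 : |y - n * π| ≤ π / 2 + 1 / 2 := by
      have h5 : |y - (A + 1 / 2)| ≤ 1 / 2 := by
        rw [abs_le]
        constructor <;> linarith [hy.1, hy.2]
      have h6 := abs_add_le (y - (A + 1 / 2)) (A + 1 / 2 - n * π)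
      rw [show y - (A + 1 / 2) + (A + 1 / 2 - n * π) = y - n * π by ring] at h6
      linarith
    have h7 := sin_low h4
    have h8 : |Real.sin (y - n * π)| = |Real.sin y| := by
      rw [Real.sin_sub_int_mul_pi, abs_mul, abs_neg_one_zpow, one_mul]
    rw [h8] at h7
    rw [abs_mul, abs_of_pos (by norm_num : (0:ℝ) < 1 / 4)]
    exact h7
  calc ∫⁻ y in Icc A (A + 1), P θ (Real.sin y)
      ≤ ∫⁻ y in Icc A (A + 1), P θ (1 / 4) * P θ (y - n * π) :=
        setLIntegral_mono' measurableSet_Icc h3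
    _ = P θ (1 / 4) * ∫⁻ y in Icc A (A + 1), P θ (y - n * π) := by
        have hm : Measurable fun y : ℝ => P θ (y - n * π) :=
          (P_meas θ).comp (measurable_id.sub_const _)
        rw [lintegral_const_mul _ hm]
    _ ≤ P θ (1 / 4) * C1 θ := by
        gcongr
        have h8 := shift_set (fun y => P θ (y - n * π)) (Icc A (A + 1)) measurableSet_Icc A
        rw [← h8]
        have h9 : {x : ℝ | x + A ∈ Icc A (A + 1)} ⊆ Icc (-2) 2 := by
          intro x hx
          have := hx.1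
          have := hx.2
          constructor <;> linarith
        refine (lintegral_mono_set h9).trans ?_
        refine le_trans (le_of_eq ?_) (P_shift hθ0 (A - n * π))
        congr 1
        ext x
        congr 1
        ring

/-- the constant -/
noncomputable def Ks (θ : ℝ) : ℝ≥0∞ := 16 * (P θ (1 / 4) * C1 θ)

lemma P_quarter (θ : ℝ) : P θ (1 / 4) < ⊤ := by
  rw [P_pos _ _ (by norm_num)]
  exact ENNReal.ofReal_lt_top

lemma Ks_lt {θ : ℝ} (hθ1 : θ < 1) : Ks θ < ⊤ :=
  ENNReal.mul_lt_top (by norm_num) (ENNReal.mul_lt_top (P_quarter θ) (C1_lt hθ1))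

lemma sin_int {θ : ℝ} (hθ0 : 0 ≤ θ) (κ : ℝ) : ∫⁻ x in J, P θ (Real.sin (x + κ)) ≤ Ks θ := by
  have h1 : J ⊆ ⋃ k : Fin 16, Icc (-8 + (k : ℝ)) (-8 + (k : ℝ) + 1) := by
    intro x hx
    have hx1 : -8 ≤ x := hx.1
    have hx2 : x ≤ 8 := hx.2
    rw [mem_iUnion]
    set n : ℕ := ⌊x + 8⌋₊ with hn
    have h2 : (n : ℝ) ≤ x + 8 := Nat.floor_le (by linarith)
    have h3 : x + 8 < n + 1 := Nat.lt_floor_add_one _
    by_cases h4 : n < 16
    · exact ⟨⟨n, h4⟩, by constructor <;> simp <;> linarith⟩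
    · push Not at h4
      have h5 : (16 : ℝ) ≤ n := by exact_mod_cast h4
      refine ⟨⟨15, by norm_num⟩, ?_⟩
      constructor <;> norm_num <;> linarith
  refine (lintegral_mono_set h1).trans ((lintegral_iUnion_le _ _).trans ?_)
  rw [tsum_fintype]
  have h2 : ∀ k : Fin 16, ∫⁻ x in Icc (-8 + (k : ℝ)) (-8 + (k : ℝ) + 1), P θ (Real.sin (x + κ)) ≤
      P θ (1 / 4) * C1 θ := by
    intro k
    have h3 := shift_set (fun y => P θ (Real.sin y))
      (Icc (-8 + (k : ℝ) + κ) (-8 + (k : ℝ) + κ + 1)) measurableSet_Icc κ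
    have h4 : {x : ℝ | x + κ ∈ Icc (-8 + (k : ℝ) + κ) (-8 + (k : ℝ) + κ + 1)} =
        Icc (-8 + (k : ℝ)) (-8 + (k : ℝ) + 1) := by
      ext x
      simp only [mem_ofPred_eq, mem_Icc]
      constructor
      · rintro ⟨h, h'⟩
        constructor <;> linarith
      · rintro ⟨h, h'⟩
        constructor <;> linarith
    rw [h4] at h3
    rw [h3]
    exact sin_unit hθ0 _
  refine (Finset.sum_le_sum fun k _ => h2 k).trans (le_of_eq ?_)
  rw [Finset.sum_const, Finset.card_univ, Fintype.card_fin]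
  unfold Ks
  rw [nsmul_eq_mul]
  norm_num

lemma sin_half {θ : ℝ} (hθ0 : 0 ≤ θ) (κ : ℝ) :
    ∫⁻ x in J, P θ (Real.sin (x / 2 + κ)) ≤ 2 * Ks θ := by
  have hm : Measurable fun y => P θ (Real.sin (y + κ)) :=
    (P_meas θ).comp (Real.measurable_sin.comp (measurable_id.add_const κ))
  have h1 := subst_aff (J.indicator fun y => P θ (Real.sin (y + κ))) (hm.indicator J_meas)
    (a := 1 / 2) (by norm_num) 0
  rw [lintegral_indicator J_meas] at h1
  have h2 : ∫⁻ x in J, P θ (Real.sin (x / 2 + κ)) ≤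
      ∫⁻ x, (J.indicator fun y => P θ (Real.sin (y + κ))) (1 / 2 * x + 0) := by
    rw [← lintegral_indicator J_meas]
    apply lintegral_mono
    intro x
    by_cases hx : x ∈ J
    · have hx1 := hx.1
      have hx2 := hx.2
      have hx' : 1 / 2 * x + 0 ∈ J := by
        constructor <;> linarith
      simp only
      rw [indicator_of_mem hx, indicator_of_mem hx']
      apply le_of_eq
      congr 2
      ring
    · simp only
      rw [indicator_of_notMem hx]
      exact zero_le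
  refine h2.trans (h1.le.trans ?_)
  have h3 : ENNReal.ofReal |(1 / 2 : ℝ)⁻¹| = 2 := by norm_num
  rw [h3]
  gcongr
  exact sin_int hθ0 κ

lemma cos_eq (x : ℝ) : Real.cos x = Real.sin (x + π / 2) := (Real.sin_add_pi_div_two x).symm

lemma sin_sub_half {θ : ℝ} (hθ0 : 0 ≤ θ) (a κ : ℝ) :
    ∫⁻ b in J, P θ (Real.sin ((a - b) / 2 + κ)) ≤ 2 * Ks θ := by
  refine le_trans (le_of_eq ?_) (sin_half hθ0 (-a / 2 - κ))
  congr 1
  ext b
  rw [← P_neg', ← Real.sin_neg]
  congr 2
  ring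

lemma sin_add_half {θ : ℝ} (hθ0 : 0 ≤ θ) (a κ : ℝ) :
    ∫⁻ b in J, P θ (Real.sin ((a + b) / 2 + κ)) ≤ 2 * Ks θ := by
  refine le_trans (le_of_eq ?_) (sin_half hθ0 (a / 2 + κ))
  congr 1
  ext b
  congr 2
  ring

/-- measurability helper -/
lemma Psin_meas {X : Type*} [MeasurableSpace X] (θ : ℝ) {f : X → ℝ} (hf : Measurable f) :
    Measurable fun x => P θ (Real.sin (f x)) := (P_meas θ).comp (Real.measurable_sin.comp hf)

lemma pairA {θ : ℝ} (hθ0 : 0 ≤ θ) (κ1 κ2 : ℝ) :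
    ∫⁻ a in J, ∫⁻ b in J, P θ (Real.sin (a + κ1)) * P θ (Real.sin ((a + b) / 2 + κ2)) ≤
      2 * Ks θ * Ks θ := by
  calc _ ≤ ∫⁻ a in J, P θ (Real.sin (a + κ1)) * (2 * Ks θ) := by
        apply lintegral_mono
        intro a
        simp only
        rw [lintegral_const_mul _ (Psin_meas θ (by fun_prop))]
        gcongr
        exact sin_add_half hθ0 a κ2
    _ = (∫⁻ a in J, P θ (Real.sin (a + κ1))) * (2 * Ks θ) := by
        rw [lintegral_mul_const _ (Psin_meas θ (by fun_prop))]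
    _ ≤ Ks θ * (2 * Ks θ) := by
        gcongr
        exact sin_int hθ0 κ1
    _ = _ := by ring

lemma pairA' {θ : ℝ} (hθ0 : 0 ≤ θ) (κ1 κ2 : ℝ) :
    ∫⁻ a in J, ∫⁻ b in J, P θ (Real.sin (a + κ1)) * P θ (Real.sin ((a - b) / 2 + κ2)) ≤
      2 * Ks θ * Ks θ := by
  calc _ ≤ ∫⁻ a in J, P θ (Real.sin (a + κ1)) * (2 * Ks θ) := by
        apply lintegral_mono
        intro a
        simp only
        rw [lintegral_const_mul _ (Psin_meas θ (by fun_prop))]
        gcongr
        exact sin_sub_half hθ0 a κ2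
    _ = (∫⁻ a in J, P θ (Real.sin (a + κ1))) * (2 * Ks θ) := by
        rw [lintegral_mul_const _ (Psin_meas θ (by fun_prop))]
    _ ≤ Ks θ * (2 * Ks θ) := by
        gcongr
        exact sin_int hθ0 κ1
    _ = _ := by ring

lemma pairB {θ : ℝ} (hθ0 : 0 ≤ θ) (κ1 κ2 : ℝ) :
    ∫⁻ a in J, ∫⁻ b in J, P θ (Real.sin (b + κ1)) * P θ (Real.sin ((a + b) / 2 + κ2)) ≤
      2 * Ks θ * Ks θ := by
  rw [lintegral_lintegral_swap]
  · refine le_trans (le_of_eq ?_) (pairA hθ0 κ1 κ2)
    congr 1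
    ext b
    congr 1
    ext a
    rw [add_comm a b]
  · exact ((Psin_meas θ (by fun_prop)).mul (Psin_meas θ (by fun_prop))).aemeasurable

lemma pairB' {θ : ℝ} (hθ0 : 0 ≤ θ) (κ1 κ2 : ℝ) :
    ∫⁻ a in J, ∫⁻ b in J, P θ (Real.sin (b + κ1)) * P θ (Real.sin ((a - b) / 2 + κ2)) ≤
      2 * Ks θ * Ks θ := by
  rw [lintegral_lintegral_swap]
  · refine le_trans (le_of_eq ?_) (pairA' hθ0 κ1 (-κ2))
    congr 1
    ext b
    congr 1
    ext a
    congr 1
    rw [← P_neg', ← Real.sin_neg]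
    congr 2
    ring
  · exact ((Psin_meas θ (by fun_prop)).mul (Psin_meas θ (by fun_prop))).aemeasurable

lemma pairC {θ : ℝ} (hθ0 : 0 ≤ θ) (κ1 κ2 : ℝ) :
    ∫⁻ a in J, ∫⁻ b in J, P θ (Real.sin ((a + b) / 2 + κ1)) * P θ (Real.sin ((a - b) / 2 + κ2)) ≤
      2 * Ks θ * Ks θ := by
  have h1 : ∀ a ∈ J, ∫⁻ b in J, P θ (Real.sin ((a + b) / 2 + κ1)) *
      P θ (Real.sin ((a - b) / 2 + κ2)) ≤
      2 * ∫⁻ s in J, P θ (Real.sin (s + κ1)) * P θ (Real.sin (a + (κ2 - s))) := by
    intro a ha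
    have hm : Measurable fun s => P θ (Real.sin (s + κ1)) * P θ (Real.sin (a + (κ2 - s))) :=
      (Psin_meas θ (by fun_prop)).mul (Psin_meas θ (by fun_prop))
    have h2 := subst_aff (J.indicator fun s => P θ (Real.sin (s + κ1)) *
      P θ (Real.sin (a + (κ2 - s)))) (hm.indicator J_meas) (a := 1 / 2) (by norm_num) (a / 2)
    rw [lintegral_indicator J_meas] at h2
    have h3 : ENNReal.ofReal |(1 / 2 : ℝ)⁻¹| = 2 := by norm_num
    rw [h3] at h2
    rw [← h2, ← lintegral_indicator J_meas]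
    apply lintegral_mono
    intro b
    by_cases hb : b ∈ J
    · have ha1 := ha.1
      have ha2 := ha.2
      have hb1 := hb.1
      have hb2 := hb.2
      have hx' : 1 / 2 * b + a / 2 ∈ J := by
        constructor <;> linarith
      simp only
      rw [indicator_of_mem hb, indicator_of_mem hx']
      apply le_of_eq
      congr 2
      · congr 1
        ring
      · congr 1
        ring
    · simp only
      rw [indicator_of_notMem hb]
      exact zero_le
  calc _ ≤ ∫⁻ a in J, 2 * ∫⁻ s in J, P θ (Real.sin (s + κ1)) * P θ (Real.sin (a + (κ2 - s))) :=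
        setLIntegral_mono' J_meas h1
    _ = 2 * ∫⁻ a in J, ∫⁻ s in J, P θ (Real.sin (s + κ1)) * P θ (Real.sin (a + (κ2 - s))) := by
        rw [lintegral_const_mul' _ _ (by norm_num)]
    _ = 2 * ∫⁻ s in J, ∫⁻ a in J, P θ (Real.sin (s + κ1)) * P θ (Real.sin (a + (κ2 - s))) := by
        rw [lintegral_lintegral_swap]
        exact ((Psin_meas θ (by fun_prop)).mul (Psin_meas θ (by fun_prop))).aemeasurable
    _ ≤ 2 * ∫⁻ s in J, P θ (Real.sin (s + κ1)) * Ks θ := by
        gcongr with s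
        rw [lintegral_const_mul _ (Psin_meas θ (by fun_prop))]
        gcongr
        exact sin_int hθ0 _
    _ = 2 * ((∫⁻ s in J, P θ (Real.sin (s + κ1))) * Ks θ) := by
        rw [lintegral_mul_const _ (Psin_meas θ (by fun_prop))]
    _ ≤ 2 * (Ks θ * Ks θ) := by
        gcongr
        exact sin_int hθ0 κ1
    _ = _ := by ring

lemma tri {θ : ℝ} (hθ0 : 0 ≤ θ) (hθ1 : θ ≤ 1) {x y z : ℝ}
    (h : 1 / 2 ≤ |x| ∨ 1 / 2 ≤ |y| ∨ 1 / 2 ≤ |z|) :
    P θ x * P θ y * P θ z ≤ 2 * (P θ x * P θ y + P θ y * P θ z + P θ x * P θ z) := by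
  have key : ∀ w : ℝ, 1 / 2 ≤ |w| → P θ w ≤ 2 := by
    intro w hw
    have h1 : P θ w ≤ P θ (1 / 2) := by
      apply P_anti hθ0
      rw [abs_of_pos (by norm_num : (0:ℝ) < 1 / 2)]
      exact hw
    refine h1.trans ?_
    rw [P_pos _ _ (by norm_num), abs_of_pos (by norm_num : (0:ℝ) < 1 / 2), one_div,
      Real.inv_rpow (by norm_num), Real.rpow_neg (by norm_num), inv_inv]
    have h2 : (2 : ℝ) ^ θ ≤ 2 ^ (1 : ℝ) :=
      Real.rpow_le_rpow_of_exponent_le (by norm_num) hθ1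
    rw [Real.rpow_one] at h2
    calc ENNReal.ofReal (2 ^ θ) ≤ ENNReal.ofReal 2 := ENNReal.ofReal_le_ofReal h2
      _ = 2 := by norm_num
  rcases h with h | h | h
  · calc P θ x * P θ y * P θ z = P θ x * (P θ y * P θ z) := by ring
      _ ≤ 2 * (P θ y * P θ z) := by
          gcongr
          exact key x h
      _ ≤ _ := by
          gcongr
          calc P θ y * P θ z ≤ P θ x * P θ y + P θ y * P θ z := le_add_self
            _ ≤ _ := le_self_add
  · calc P θ x * P θ y * P θ z = P θ y * (P θ x * P θ z) := by ring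
      _ ≤ 2 * (P θ x * P θ z) := by
          gcongr
          exact key y h
      _ ≤ _ := by
          gcongr
          exact le_add_self
  · calc P θ x * P θ y * P θ z = P θ z * (P θ x * P θ y) := by ring
      _ ≤ 2 * (P θ x * P θ y) := by
          gcongr
          exact key z h
      _ ≤ _ := by
          gcongr
          calc P θ x * P θ y ≤ P θ x * P θ y + P θ y * P θ z := le_self_add
            _ ≤ _ := le_self_add

lemma half_sin (x y : ℝ) (h : |Real.cos (x + y)| < 1 / 2) : 1 / 2 ≤ |Real.sin x| ∨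
    1 / 2 ≤ |Real.sin y| := by
  by_contra hc
  push Not at hc
  obtain ⟨h1, h2⟩ := hc
  have e1 : Real.sin x ^ 2 ≤ 1 / 4 := by
    rw [← sq_abs]; nlinarith [abs_nonneg (Real.sin x)]
  have e2 : Real.sin y ^ 2 ≤ 1 / 4 := by
    rw [← sq_abs]; nlinarith [abs_nonneg (Real.sin y)]
  have c1 : 3 / 4 ≤ Real.cos x ^ 2 := by nlinarith [Real.sin_sq_add_cos_sq x]
  have c2 : 3 / 4 ≤ Real.cos y ^ 2 := by nlinarith [Real.sin_sq_add_cos_sq y]
  have c3 : (3 / 4) ^ 2 ≤ (Real.cos x * Real.cos y) ^ 2 := by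
    rw [mul_pow]
    nlinarith [sq_nonneg (Real.cos x), sq_nonneg (Real.cos y)]
  have c4 : 3 / 4 ≤ |Real.cos x * Real.cos y| := by
    have c3' := c3
    rw [← sq_abs (_ * _)] at c3'
    exact abs_le_of_sq_le_sq' c3' (abs_nonneg _) |>.2
  have s3 : |Real.sin x * Real.sin y| ≤ 1 / 4 := by
    rw [abs_mul]
    nlinarith [abs_nonneg (Real.sin x), abs_nonneg (Real.sin y)]
  rw [Real.cos_add] at h
  have h5 := abs_sub_abs_le_abs_sub (Real.cos x * Real.cos y) (Real.sin x * Real.sin y)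
  linarith

lemma half_cos (x y : ℝ) (h : |Real.cos (x + y)| < 1 / 2) : 1 / 2 ≤ |Real.cos x| ∨
    1 / 2 ≤ |Real.cos y| := by
  by_contra hc
  push Not at hc
  obtain ⟨h1, h2⟩ := hc
  have e1 : Real.cos x ^ 2 ≤ 1 / 4 := by
    rw [← sq_abs]; nlinarith [abs_nonneg (Real.cos x)]
  have e2 : Real.cos y ^ 2 ≤ 1 / 4 := by
    rw [← sq_abs]; nlinarith [abs_nonneg (Real.cos y)]
  have c1 : 3 / 4 ≤ Real.sin x ^ 2 := by nlinarith [Real.sin_sq_add_cos_sq x]
  have c2 : 3 / 4 ≤ Real.sin y ^ 2 := by nlinarith [Real.sin_sq_add_cos_sq y]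
  have c3 : (3 / 4) ^ 2 ≤ (Real.sin x * Real.sin y) ^ 2 := by
    rw [mul_pow]
    nlinarith [sq_nonneg (Real.sin x), sq_nonneg (Real.sin y)]
  have c4 : 3 / 4 ≤ |Real.sin x * Real.sin y| := by
    have c3' := c3
    rw [← sq_abs (_ * _)] at c3'
    exact abs_le_of_sq_le_sq' c3' (abs_nonneg _) |>.2
  have s3 : |Real.cos x * Real.cos y| ≤ 1 / 4 := by
    rw [abs_mul]
    nlinarith [abs_nonneg (Real.cos x), abs_nonneg (Real.cos y)]
  rw [Real.cos_add] at h
  have h5 := abs_sub_abs_le_abs_sub (Real.sin x * Real.sin y) (Real.cos x * Real.cos y)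
  rw [abs_sub_comm] at h5
  linarith

end Pool.Agent.R245.PB
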