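import Mathlib
import Pool.Agent.R245.PB.Ang
set_option autoImplicit false

/-! The angular integrals, part two. -/

namespace Pool.Agent.R245.PB

open MeasureTheory Set Real
open scoped ENNReal
open Pool.Agent.R245.OD (P P_meas P_mul P_zero P_pos P_anti subst_aff C1 C1_lt P_shift)

/-- first component -/
noncomputable def mA (a b c d : ℝ) : ℝ :=
  Real.cos a ^ 2 + Real.cos b ^ 2 - Real.cos c ^ 2 - Real.cos d ^ 2

/-- second component -/
noncomputable def mB (a b c d : ℝ) : ℝ :=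
  Real.cos a * Real.sin a + Real.cos b * Real.sin b - Real.cos c * Real.sin c -
    Real.cos d * Real.sin d

/-- the square of the size of the traceless matrix -/
noncomputable def mm (a b c d : ℝ) : ℝ := mA a b c d ^ 2 + mB a b c d ^ 2

lemma mm_nonneg (a b c d : ℝ) : 0 ≤ mm a b c d := by unfold mm; positivity

lemma mm_swap1 (a b c d : ℝ) : mm a b c d = mm b a c d := by
  unfold mm mA mB; ring

lemma mm_swap2 (a b c d : ℝ) : mm a b c d = mm a b d c := by
  unfold mm mA mB; ring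

lemma mm_swap3 (a b c d : ℝ) : mm a b c d = mm c d a b := by
  unfold mm mA mB; ring

lemma mm_eq (a b c d : ℝ) : mm a b c d = Real.cos (a - b) ^ 2 + Real.cos (c - d) ^ 2 -
    2 * Real.cos (a - b) * Real.cos (c - d) * Real.cos ((a + b) - (c + d)) := by
  have h1 : ∀ x y : ℝ, Real.cos x ^ 2 + Real.cos y ^ 2 =
      1 + Real.cos (x + y) * Real.cos (x - y) := by
    intro x y
    rw [Real.cos_add, Real.cos_sub]
    have hx := Real.sin_sq_add_cos_sq x
    have hy := Real.sin_sq_add_cos_sq y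
    linear_combination Real.sin y ^ 2 * hx + (1 - Real.cos x ^ 2) * hy
  have h2 : ∀ x y : ℝ, Real.cos x * Real.sin x + Real.cos y * Real.sin y =
      Real.sin (x + y) * Real.cos (x - y) := by
    intro x y
    rw [Real.sin_add, Real.cos_sub]
    have hx := Real.sin_sq_add_cos_sq x
    have hy := Real.sin_sq_add_cos_sq y
    linear_combination (-(Real.cos x * Real.sin x)) * hy - (Real.cos y * Real.sin y) * hx
  have e1 : mA a b c d = Real.cos (a + b) * Real.cos (a - b) -
      Real.cos (c + d) * Real.cos (c - d) := by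
    unfold mA
    have := h1 a b
    have := h1 c d
    linarith
  have e2 : mB a b c d = Real.sin (a + b) * Real.cos (a - b) -
      Real.sin (c + d) * Real.cos (c - d) := by
    unfold mB
    have := h2 a b
    have := h2 c d
    linarith
  unfold mm
  rw [e1, e2, Real.cos_sub (a + b) (c + d)]
  have hx := Real.sin_sq_add_cos_sq (a + b)
  have hy := Real.sin_sq_add_cos_sq (c + d)
  linear_combination Real.cos (a - b) ^ 2 * hx + Real.cos (c - d) ^ 2 * hy

/-- the majorant in the two differences -/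
noncomputable def G0 (θ a b : ℝ) : ℝ≥0∞ :=
  (P θ (Real.sin ((a + b) / 2)) * P θ (Real.sin ((a - b) / 2)) +
    P θ (Real.cos ((a + b) / 2)) * P θ (Real.cos ((a - b) / 2))) *
    (P θ (Real.cos a) + P θ (Real.cos b))

/-- the majorant in the last variable -/
noncomputable def H0 (θ w : ℝ) : ℝ≥0∞ := P θ (Real.sin w) + P θ (Real.cos w)

lemma sqrt_min (x y : ℝ) {θ : ℝ} (hθ : 0 ≤ θ) : P θ (√|x * y|) ≤ P θ x + P θ y := by
  rcases le_total |x| |y| with h | h
  · refine le_trans (P_anti hθ ?_) le_self_add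
    rw [abs_of_nonneg (Real.sqrt_nonneg _)]
    apply Real.le_sqrt_of_sq_le
    rw [abs_mul, pow_two]
    gcongr
  · refine le_trans (P_anti hθ ?_) le_add_self
    rw [abs_of_nonneg (Real.sqrt_nonneg _)]
    apply Real.le_sqrt_of_sq_le
    rw [abs_mul, pow_two]
    gcongr

lemma P_le_one {θ : ℝ} (hθ : 0 ≤ θ) {x : ℝ} (hx : 1 ≤ |x|) : P θ x ≤ 1 := by
  have h1 : P θ x ≤ P θ 1 := P_anti hθ (by simpa using hx)
  refine h1.trans ?_
  unfold P
  simp

lemma mm_bound {θ : ℝ} (hθ : 0 ≤ θ) (a b c d : ℝ) :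
    P θ (mm a b c d) ≤ G0 θ (a - b) (c - d) * H0 θ (((a + b) - (c + d)) / 2) := by
  set X := Real.cos (a - b) with hX
  set Y := Real.cos (c - d) with hY
  set w := ((a + b) - (c + d)) / 2 with hw
  set u := ((a - b) + (c - d)) / 2 with hu
  set v := ((a - b) - (c - d)) / 2 with hv
  have e0 : mm a b c d = X ^ 2 + Y ^ 2 - 2 * X * Y * Real.cos (2 * w) := by
    rw [mm_eq, hw]
    congr 2
    congr 1
    ring
  have eab : a - b = u + v := by rw [hu, hv]; ring
  have ecd : c - d = u - v := by rw [hu, hv]; ring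
  have hGH : G0 θ (a - b) (c - d) * H0 θ w =
      (P θ (Real.sin u) * P θ (Real.sin v) + P θ (Real.cos u) * P θ (Real.cos v)) *
        (P θ X + P θ Y) * (P θ (Real.sin w) + P θ (Real.cos w)) := rfl
  rw [hGH]
  rcases le_total 0 (X * Y) with hs | hs
  · -- same sign
    have e1 : mm a b c d = (X - Y) ^ 2 + 4 * |X * Y| * Real.sin w ^ 2 := by
      rw [e0, abs_of_nonneg hs, Real.cos_two_mul]
      have := Real.sin_sq_add_cos_sq w
      linear_combination (-(4 * X * Y)) * this
    have e2 : X - Y = -2 * Real.sin u * Real.sin v := by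
      rw [hX, hY, eab, ecd, Real.cos_add, Real.cos_sub]
      ring
    have e3 : 8 * |Real.sin u * Real.sin v * (√|X * Y| * Real.sin w)| ≤ mm a b c d := by
      have hsq : √|X * Y| ^ 2 = |X * Y| := Real.sq_sqrt (abs_nonneg _)
      have h1 : mm a b c d = |X - Y| ^ 2 + (2 * |√|X * Y| * Real.sin w|) ^ 2 := by
        rw [e1, sq_abs, mul_pow, sq_abs, mul_pow, hsq]
        ring
      have h2 : |X - Y| = 2 * |Real.sin u * Real.sin v| := by
        rw [e2, show -2 * Real.sin u * Real.sin v = -(2 * (Real.sin u * Real.sin v)) by ring,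
          abs_neg, abs_mul, abs_of_pos (by norm_num : (0:ℝ) < 2)]
      have h3 : 8 * |Real.sin u * Real.sin v * (√|X * Y| * Real.sin w)| =
          2 * |X - Y| * (2 * |√|X * Y| * Real.sin w|) := by
        rw [h2, abs_mul]
        ring
      rw [h1, h3]
      exact two_mul_le_add_sq _ _
    have e4 : P θ (mm a b c d) ≤ P θ (8 * (Real.sin u * Real.sin v * (√|X * Y| * Real.sin w))) := by
      apply P_anti hθ
      rw [abs_mul, abs_of_pos (by norm_num : (0:ℝ) < 8), abs_of_nonneg (mm_nonneg _ _ _ _)]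
      exact e3
    refine e4.trans ?_
    rw [P_mul, P_mul, P_mul, P_mul]
    calc P θ 8 * (P θ (Real.sin u) * P θ (Real.sin v) * (P θ (√|X * Y|) * P θ (Real.sin w)))
        ≤ 1 * (P θ (Real.sin u) * P θ (Real.sin v) * ((P θ X + P θ Y) * P θ (Real.sin w))) := by
          gcongr
          · exact P_le_one hθ (by norm_num)
          · exact sqrt_min X Y hθ
      _ = P θ (Real.sin u) * P θ (Real.sin v) * (P θ X + P θ Y) * P θ (Real.sin w) := by ring
      _ ≤ _ := by
          gcongr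
          · exact le_self_add
          · exact le_self_add
  · have e1 : mm a b c d = (X + Y) ^ 2 + 4 * |X * Y| * Real.cos w ^ 2 := by
      rw [e0, abs_of_nonpos hs, Real.cos_two_mul]
      ring
    have e2 : X + Y = 2 * Real.cos u * Real.cos v := by
      rw [hX, hY, eab, ecd, Real.cos_add, Real.cos_sub]
      ring
    have e3 : 8 * |Real.cos u * Real.cos v * (√|X * Y| * Real.cos w)| ≤ mm a b c d := by
      have hsq : √|X * Y| ^ 2 = |X * Y| := Real.sq_sqrt (abs_nonneg _)
      have h1 : mm a b c d = |X + Y| ^ 2 + (2 * |√|X * Y| * Real.cos w|) ^ 2 := by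
        rw [e1, sq_abs, mul_pow, sq_abs, mul_pow, hsq]
        ring
      have h2 : |X + Y| = 2 * |Real.cos u * Real.cos v| := by
        rw [e2, show 2 * Real.cos u * Real.cos v = 2 * (Real.cos u * Real.cos v) by ring,
          abs_mul, abs_of_pos (by norm_num : (0:ℝ) < 2)]
      have h3 : 8 * |Real.cos u * Real.cos v * (√|X * Y| * Real.cos w)| =
          2 * |X + Y| * (2 * |√|X * Y| * Real.cos w|) := by
        rw [h2, abs_mul]
        ring
      rw [h1, h3]
      exact two_mul_le_add_sq _ _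
    have e4 : P θ (mm a b c d) ≤ P θ (8 * (Real.cos u * Real.cos v * (√|X * Y| * Real.cos w))) := by
      apply P_anti hθ
      rw [abs_mul, abs_of_pos (by norm_num : (0:ℝ) < 8), abs_of_nonneg (mm_nonneg _ _ _ _)]
      exact e3
    refine e4.trans ?_
    rw [P_mul, P_mul, P_mul, P_mul]
    calc P θ 8 * (P θ (Real.cos u) * P θ (Real.cos v) * (P θ (√|X * Y|) * P θ (Real.cos w)))
        ≤ 1 * (P θ (Real.cos u) * P θ (Real.cos v) * ((P θ X + P θ Y) * P θ (Real.cos w))) := by
          gcongr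
          · exact P_le_one hθ (by norm_num)
          · exact sqrt_min X Y hθ
      _ = P θ (Real.cos u) * P θ (Real.cos v) * (P θ X + P θ Y) * P θ (Real.cos w) := by ring
      _ ≤ _ := by
          gcongr
          · exact le_add_self
          · exact le_add_self

lemma or3 {x y z : ℝ} (h : |z| < 1 / 2 → 1 / 2 ≤ |x| ∨ 1 / 2 ≤ |y|) :
    1 / 2 ≤ |x| ∨ 1 / 2 ≤ |y| ∨ 1 / 2 ≤ |z| := by
  by_cases hz : 1 / 2 ≤ |z|
  · exact Or.inr (Or.inr hz)
  · rcases h (not_le.1 hz) with h | h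
    · exact Or.inl h
    · exact Or.inr (Or.inl h)

/-- the sum of the products of pairs -/
noncomputable def G1 (θ a b κ1 κ2 κ3 κ4 : ℝ) : ℝ≥0∞ :=
  P θ (Real.sin ((a + b) / 2 + κ1)) * P θ (Real.sin ((a - b) / 2 + κ2)) +
    P θ (Real.sin ((a + b) / 2 + κ1)) * P θ (Real.sin (a + κ3)) +
    P θ (Real.sin ((a - b) / 2 + κ2)) * P θ (Real.sin (a + κ3)) +
    P θ (Real.sin ((a + b) / 2 + κ1)) * P θ (Real.sin (b + κ4)) +
    P θ (Real.sin ((a - b) / 2 + κ2)) * P θ (Real.sin (b + κ4))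

lemma G0_le {θ : ℝ} (hθ0 : 0 ≤ θ) (hθ1 : θ ≤ 1) (a b : ℝ) : G0 θ a b ≤
    4 * G1 θ a b 0 0 (π / 2) (π / 2) + 4 * G1 θ a b (π / 2) (π / 2) (π / 2) (π / 2) := by
  set u := (a + b) / 2 with hu
  set v := (a - b) / 2 with hv
  have ea : a = u + v := by rw [hu, hv]; ring
  have eb : b = u + -v := by rw [hu, hv]; ring
  have t1 := tri hθ0 hθ1 (x := Real.sin u) (y := Real.sin v) (z := Real.cos a)
    (or3 fun h => half_sin u v (by rwa [← ea]))
  have t2 := tri hθ0 hθ1 (x := Real.sin u) (y := Real.sin v) (z := Real.cos b)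
    (or3 fun h => by
      have := half_sin u (-v) (by rwa [← eb])
      rwa [Real.sin_neg, abs_neg] at this)
  have t3 := tri hθ0 hθ1 (x := Real.cos u) (y := Real.cos v) (z := Real.cos a)
    (or3 fun h => half_cos u v (by rwa [← ea]))
  have t4 := tri hθ0 hθ1 (x := Real.cos u) (y := Real.cos v) (z := Real.cos b)
    (or3 fun h => by
      have := half_cos u (-v) (by rwa [← eb])
      rwa [Real.cos_neg] at this)
  have k1 : G0 θ a b = P θ (Real.sin u) * P θ (Real.sin v) * P θ (Real.cos a) +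
      P θ (Real.sin u) * P θ (Real.sin v) * P θ (Real.cos b) +
      P θ (Real.cos u) * P θ (Real.cos v) * P θ (Real.cos a) +
      P θ (Real.cos u) * P θ (Real.cos v) * P θ (Real.cos b) := by
    unfold G0
    ring
  have k2 : G1 θ a b 0 0 (π / 2) (π / 2) = P θ (Real.sin u) * P θ (Real.sin v) +
      P θ (Real.sin u) * P θ (Real.cos a) + P θ (Real.sin v) * P θ (Real.cos a) +
      P θ (Real.sin u) * P θ (Real.cos b) + P θ (Real.sin v) * P θ (Real.cos b) := by
    unfold G1
    rw [cos_eq, cos_eq, add_zero, add_zero]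
  have k3 : G1 θ a b (π / 2) (π / 2) (π / 2) (π / 2) = P θ (Real.cos u) * P θ (Real.cos v) +
      P θ (Real.cos u) * P θ (Real.cos a) + P θ (Real.cos v) * P θ (Real.cos a) +
      P θ (Real.cos u) * P θ (Real.cos b) + P θ (Real.cos v) * P θ (Real.cos b) := by
    unfold G1
    rw [cos_eq, cos_eq, cos_eq, cos_eq]
  rw [k1, k2, k3]
  refine (add_le_add (add_le_add (add_le_add t1 t2) t3) t4).trans ?_
  have e : ∀ A B C D E A' B' C' D' E' : ℝ≥0∞,
      2 * (A + C + B) + 2 * (A + E + D) + 2 * (A' + C' + B') + 2 * (A' + E' + D') ≤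
      4 * (A + B + C + D + E) + 4 * (A' + B' + C' + D' + E') := by
    intro A B C D E A' B' C' D' E'
    have h1 : 4 * (A + B + C + D + E) + 4 * (A' + B' + C' + D' + E') =
        (2 * (A + C + B) + 2 * (A + E + D) + 2 * (A' + C' + B') + 2 * (A' + E' + D')) +
          (2 * (B + C + D + E) + 2 * (B' + C' + D' + E')) := by ring
    rw [h1]
    exact le_self_add
  exact e _ _ _ _ _ _ _ _ _ _

lemma G1_int {θ : ℝ} (hθ0 : 0 ≤ θ) (κ1 κ2 κ3 κ4 : ℝ) :
    ∫⁻ a in J, ∫⁻ b in J, G1 θ a b κ1 κ2 κ3 κ4 ≤ 10 * Ks θ * Ks θ := by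
  have mm1 : ∀ (f g : ℝ → ℝ → ℝ), (Measurable fun p : ℝ × ℝ => f p.1 p.2) →
      (Measurable fun p : ℝ × ℝ => g p.1 p.2) →
      Measurable fun p : ℝ × ℝ => P θ (Real.sin (f p.1 p.2)) * P θ (Real.sin (g p.1 p.2)) :=
    fun f g hf hg => (Psin_meas θ hf).mul (Psin_meas θ hg)
  have hadd : ∀ F G : ℝ → ℝ → ℝ≥0∞, (Measurable fun p : ℝ × ℝ => F p.1 p.2) →
      (Measurable fun p : ℝ × ℝ => G p.1 p.2) →
      ∫⁻ a in J, ∫⁻ b in J, (F a b + G a b) =
        (∫⁻ a in J, ∫⁻ b in J, F a b) + ∫⁻ a in J, ∫⁻ b in J, G a b := by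
    intro F G hF hG
    rw [← lintegral_add_left (hF.lintegral_prod_right')]
    congr 1
    ext a
    have hFa : Measurable fun b => F a b := hF.comp measurable_prodMk_left
    rw [lintegral_add_left hFa]
  have c1 := mm1 (fun a b => (a + b) / 2 + κ1) (fun a b => (a - b) / 2 + κ2) (by fun_prop)
    (by fun_prop)
  have c2 := mm1 (fun a b => (a + b) / 2 + κ1) (fun a b => a + κ3) (by fun_prop) (by fun_prop)
  have c3 := mm1 (fun a b => (a - b) / 2 + κ2) (fun a b => a + κ3) (by fun_prop) (by fun_prop)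
  have c4 := mm1 (fun a b => (a + b) / 2 + κ1) (fun a b => b + κ4) (by fun_prop) (by fun_prop)
  have c5 := mm1 (fun a b => (a - b) / 2 + κ2) (fun a b => b + κ4) (by fun_prop) (by fun_prop)
  unfold G1
  rw [hadd _ _ (((c1.add c2).add c3).add c4) c5, hadd _ _ ((c1.add c2).add c3) c4,
    hadd _ _ (c1.add c2) c3, hadd _ _ c1 c2]
  have b1 := pairC hθ0 κ1 κ2
  have b2 := pairA hθ0 κ3 κ1
  have b3 := pairA' hθ0 κ3 κ2
  have b4 := pairB hθ0 κ4 κ1
  have b5 := pairB' hθ0 κ4 κ2
  simp only [mul_comm (P θ (Real.sin (_ + κ3)))] at b2 b3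
  simp only [mul_comm (P θ (Real.sin (_ + κ4)))] at b4 b5
  refine (add_le_add (add_le_add (add_le_add (add_le_add b1 b2) b3) b4) b5).trans (le_of_eq ?_)
  ring

lemma G0_meas (θ : ℝ) : Measurable fun p : ℝ × ℝ => G0 θ p.1 p.2 := by
  unfold G0
  have hs : Measurable Real.sin := Real.measurable_sin
  have hc : Measurable Real.cos := Real.measurable_cos
  have hP := P_meas θ
  fun_prop

lemma G0_int {θ : ℝ} (hθ0 : 0 ≤ θ) (hθ1 : θ ≤ 1) :
    ∫⁻ a in J, ∫⁻ b in J, G0 θ a b ≤ 80 * Ks θ * Ks θ := by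
  have hm : ∀ κ1 κ2 κ3 κ4 : ℝ, Measurable fun p : ℝ × ℝ => G1 θ p.1 p.2 κ1 κ2 κ3 κ4 := by
    intro κ1 κ2 κ3 κ4
    unfold G1
    have hs : Measurable Real.sin := Real.measurable_sin
    have hP := P_meas θ
    fun_prop
  have h1 := G1_int hθ0 0 0 (π / 2) (π / 2) (θ := θ)
  have h2 := G1_int hθ0 (π / 2) (π / 2) (π / 2) (π / 2) (θ := θ)
  calc _ ≤ ∫⁻ a in J, ∫⁻ b in J, (4 * G1 θ a b 0 0 (π / 2) (π / 2) +
        4 * G1 θ a b (π / 2) (π / 2) (π / 2) (π / 2)) := by
        gcongr with a b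
        exact G0_le hθ0 hθ1 a b
    _ = 4 * (∫⁻ a in J, ∫⁻ b in J, G1 θ a b 0 0 (π / 2) (π / 2)) +
        4 * ∫⁻ a in J, ∫⁻ b in J, G1 θ a b (π / 2) (π / 2) (π / 2) (π / 2) := by
        rw [← lintegral_const_mul' _ _ (by norm_num), ← lintegral_const_mul' _ _ (by norm_num),
          ← lintegral_add_left]
        · congr 1
          ext a
          rw [lintegral_add_left, lintegral_const_mul' _ _ (by norm_num),
            lintegral_const_mul' _ _ (by norm_num)]
          exact ((hm _ _ _ _).comp measurable_prodMk_left).const_mul _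
        · exact ((hm _ _ _ _).lintegral_prod_right').const_mul _
    _ ≤ 4 * (10 * Ks θ * Ks θ) + 4 * (10 * Ks θ * Ks θ) := by gcongr
    _ = _ := by ring

lemma H0_int {θ : ℝ} (hθ0 : 0 ≤ θ) (κ : ℝ) : ∫⁻ x in I0, H0 θ (x + κ) ≤ 2 * Ks θ := by
  refine (lintegral_mono_set I0_J).trans ?_
  unfold H0
  rw [lintegral_add_left (Psin_meas θ (by fun_prop))]
  have h1 := sin_int hθ0 κ
  have h2 := sin_int hθ0 (κ + π / 2)
  have h3 : ∀ x : ℝ, Real.cos (x + κ) = Real.sin (x + (κ + π / 2)) := by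
    intro x
    rw [cos_eq]
    congr 1
    ring
  simp only [h3]
  refine (add_le_add h1 h2).trans (le_of_eq ?_)
  ring

/-- the integral over three of the four angles -/
theorem ang3 {θ : ℝ} (hθ0 : 0 ≤ θ) (hθ1 : θ ≤ 1) {d : ℝ} (hd : d ∈ I0) :
    ∫⁻ b in I0, ∫⁻ a in I0, ∫⁻ c in I0, P θ (mm a b c d) ≤
      160 * Ks θ * Ks θ * Ks θ := by
  have hHm : Measurable (H0 θ) := by
    unfold H0
    have hs : Measurable Real.sin := Real.measurable_sin
    have hc : Measurable Real.cos := Real.measurable_cos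
    have hP := P_meas θ
    fun_prop
  have hGm := G0_meas θ
  set Φ : ℝ → ℝ → ℝ → ℝ≥0∞ := fun b x y => G0 θ x y * H0 θ (b + ((x - y) / 2 - d)) with hΦ
  have hΦm : Measurable fun p : ℝ × ℝ × ℝ => Φ p.1 p.2.1 p.2.2 := by
    rw [hΦ]
    exact (hGm.comp measurable_snd).mul (hHm.comp (by fun_prop))
  have h1 : ∀ a b c, P θ (mm a b c d) ≤ Φ b (a - b) (c - d) := by
    intro a b c
    refine (mm_bound hθ0 a b c d).trans (le_of_eq ?_)
    simp only [hΦ]
    congr 2
    ring
  have shr : ∀ (y : ℝ), y ∈ I0 → ∀ F : ℝ → ℝ≥0∞, ∫⁻ x in I0, F (x - y) ≤ ∫⁻ x in J, F x := by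
    intro y hy F
    rw [← lintegral_indicator I0_meas, ← lintegral_indicator J_meas,
      ← lintegral_sub_right_eq_self (J.indicator F) y]
    apply lintegral_mono
    intro x
    by_cases hx : x ∈ I0
    · simp only
      rw [indicator_of_mem hx, indicator_of_mem (sub_J hx hy)]
    · simp only
      rw [indicator_of_notMem hx]
      exact zero_le
  calc _ ≤ ∫⁻ b in I0, ∫⁻ a in I0, ∫⁻ c in I0, Φ b (a - b) (c - d) := by
        gcongr with b a c
        exact h1 a b c
    _ ≤ ∫⁻ b in I0, ∫⁻ a in I0, ∫⁻ y in J, Φ b (a - b) y := by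
        apply lintegral_mono
        intro b
        apply lintegral_mono
        intro a
        exact shr d hd (Φ b (a - b))
    _ ≤ ∫⁻ b in I0, ∫⁻ x in J, ∫⁻ y in J, Φ b x y := by
        apply setLIntegral_mono' I0_meas
        intro b hb
        exact shr b hb fun x => ∫⁻ y in J, Φ b x y
    _ = ∫⁻ x in J, ∫⁻ b in I0, ∫⁻ y in J, Φ b x y := by
        rw [lintegral_lintegral_swap]
        have h2 : Measurable fun p : (ℝ × ℝ) × ℝ => Φ p.1.1 p.1.2 p.2 := by
          exact hΦm.comp (g := fun p : ℝ × ℝ × ℝ => Φ p.1 p.2.1 p.2.2)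
            (f := fun p : (ℝ × ℝ) × ℝ => (p.1.1, p.1.2, p.2)) (by fun_prop)
        exact h2.lintegral_prod_right'.aemeasurable
    _ = ∫⁻ x in J, ∫⁻ y in J, ∫⁻ b in I0, Φ b x y := by
        congr 1
        ext x
        rw [lintegral_lintegral_swap]
        have h2 : Measurable fun p : ℝ × ℝ => Φ p.1 x p.2 :=
          hΦm.comp (g := fun p : ℝ × ℝ × ℝ => Φ p.1 p.2.1 p.2.2)
            (f := fun p : ℝ × ℝ => (p.1, x, p.2)) (by fun_prop)
        exact h2.aemeasurable
    _ ≤ ∫⁻ x in J, ∫⁻ y in J, G0 θ x y * (2 * Ks θ) := by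
        gcongr with x y
        simp only [hΦ]
        have hH : Measurable fun b : ℝ => H0 θ (b + ((x - y) / 2 - d)) := hHm.comp (by fun_prop)
        rw [lintegral_const_mul _ hH]
        gcongr
        exact H0_int hθ0 _
    _ = (∫⁻ x in J, ∫⁻ y in J, G0 θ x y) * (2 * Ks θ) := by
        rw [← lintegral_mul_const _ hGm.lintegral_prod_right']
        congr 1
        ext x
        have hGa : Measurable fun y => G0 θ x y :=
          hGm.comp (g := fun p : ℝ × ℝ => G0 θ p.1 p.2) (f := fun y => (x, y))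
            measurable_prodMk_left
        rw [lintegral_mul_const _ hGa]
    _ ≤ (80 * Ks θ * Ks θ) * (2 * Ks θ) := by
        gcongr
        exact G0_int hθ0 hθ1
    _ = _ := by ring

end Pool.Agent.R245.PB
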