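import Mathlib
import Pool.Agent.R245.PB.Ang2
set_option autoImplicit false

/-! The angular integrals, part three: the fourfold form. -/

namespace Pool.Agent.R245.PB

open MeasureTheory Set Real
open scoped ENNReal
open Pool.Agent.R245.OD (P P_meas P_mul P_zero P_pos P_anti subst_aff C1 C1_lt P_shift)

/-- the measure on the angles -/
noncomputable def mu : Measure ℝ := volume.restrict I0

instance : IsFiniteMeasure mu := by
  unfold mu I0
  infer_instance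

/-- the fourfold measure -/
noncomputable def mu4 : Measure ((ℝ × ℝ) × (ℝ × ℝ)) := (mu.prod mu).prod (mu.prod mu)

instance : IsFiniteMeasure mu4 := by
  unfold mu4
  infer_instance

/-- the kernel -/
noncomputable def Nk (θ : ℝ) (p : (ℝ × ℝ) × (ℝ × ℝ)) : ℝ≥0∞ := P θ (mm p.1.1 p.1.2 p.2.1 p.2.2)

lemma mm_meas {X : Type*} [MeasurableSpace X] {a b c d : X → ℝ} (ha : Measurable a)
    (hb : Measurable b) (hc : Measurable c) (hd : Measurable d) :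
    Measurable fun x => mm (a x) (b x) (c x) (d x) := by
  unfold mm mA mB
  have hs : Measurable Real.sin := Real.measurable_sin
  have hc : Measurable Real.cos := Real.measurable_cos
  fun_prop

lemma Nk_meas (θ : ℝ) : Measurable (Nk θ) := by
  unfold Nk
  exact (P_meas θ).comp (mm_meas (by fun_prop) (by fun_prop) (by fun_prop) (by fun_prop))

lemma Pmm_meas {X : Type*} [MeasurableSpace X] (θ : ℝ) {a b c d : X → ℝ} (ha : Measurable a)
    (hb : Measurable b) (hc : Measurable c) (hd : Measurable d) :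
    Measurable fun x => P θ (mm (a x) (b x) (c x) (d x)) :=
  (P_meas θ).comp (mm_meas ha hb hc hd)

/-- the constant -/
noncomputable def Ka (θ : ℝ) : ℝ≥0∞ := 160 * Ks θ * Ks θ * Ks θ

lemma Ka_lt {θ : ℝ} (hθ1 : θ < 1) : Ka θ < ⊤ := by
  have := Ks_lt hθ1
  unfold Ka
  exact ENNReal.mul_lt_top (ENNReal.mul_lt_top (ENNReal.mul_lt_top (by norm_num) this) this) this

lemma ang3' {θ : ℝ} (hθ0 : 0 ≤ θ) (hθ1 : θ ≤ 1) {a : ℝ} (ha : a ∈ I0) :
    ∫⁻ b, ∫⁻ c, ∫⁻ d, P θ (mm a b c d) ∂mu ∂mu ∂mu ≤ Ka θ := by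
  have h := ang3 hθ0 hθ1 ha
  refine le_trans (le_of_eq ?_) h
  change _ = ∫⁻ d, ∫⁻ c, ∫⁻ b, P θ (mm c d b a) ∂mu ∂mu ∂mu
  have e : ∀ b c d, mm c d b a = mm a b c d := by
    intro b c d
    rw [mm_swap3, mm_swap1]
  simp only [e]
  -- swap b c
  rw [lintegral_lintegral_swap (f := fun b c => ∫⁻ d, P θ (mm a b c d) ∂mu)]
  · have h1 : ∀ c, ∫⁻ b, ∫⁻ d, P θ (mm a b c d) ∂mu ∂mu = ∫⁻ d, ∫⁻ b, P θ (mm a b c d) ∂mu ∂mu := by
      intro c
      rw [lintegral_lintegral_swap]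
      exact (Pmm_meas θ (by fun_prop) (by fun_prop) (by fun_prop) (by fun_prop)).aemeasurable
    simp only [h1]
    rw [lintegral_lintegral_swap (f := fun c d => ∫⁻ b, P θ (mm a b c d) ∂mu)]
    have h2 : Measurable fun q : (ℝ × ℝ) × ℝ => P θ (mm a q.2 q.1.1 q.1.2) :=
      Pmm_meas θ (by fun_prop) (by fun_prop) (by fun_prop) (by fun_prop)
    exact h2.lintegral_prod_right'.aemeasurable
  · have h2 : Measurable fun q : (ℝ × ℝ) × ℝ => P θ (mm a q.1.1 q.1.2 q.2) :=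
      Pmm_meas θ (by fun_prop) (by fun_prop) (by fun_prop) (by fun_prop)
    exact h2.lintegral_prod_right'.aemeasurable

lemma madd {X : Type*} [MeasurableSpace X] {f g : X → ℝ≥0∞} (hf : Measurable f)
    (hg : Measurable g) : Measurable fun x => f x + g x := hf.add hg

lemma mmul {X : Type*} [MeasurableSpace X] {f g : X → ℝ≥0∞} (hf : Measurable f)
    (hg : Measurable g) : Measurable fun x => f x * g x := hf.mul hg

lemma termA {θ : ℝ} (hθ0 : 0 ≤ θ) (hθ1 : θ ≤ 1) (h : ℝ → ℝ≥0∞) (hh : Measurable h) :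
    ∫⁻ p, h p.1.1 * Nk θ p ∂mu4 ≤ Ka θ * ∫⁻ x, h x ∂mu := by
  unfold mu4
  have m0 : Measurable fun p : (ℝ × ℝ) × (ℝ × ℝ) => h p.1.1 * Nk θ p :=
    mmul (hh.comp (by fun_prop)) (Nk_meas θ)
  rw [lintegral_prod _ m0.aemeasurable]
  simp only [Nk]
  have m1 : Measurable fun q : (ℝ × ℝ) × (ℝ × ℝ) => h q.1.1 * P θ (mm q.1.1 q.1.2 q.2.1 q.2.2) :=
    (hh.comp (by fun_prop)).mul (Nk_meas θ)
  have m1' : Measurable fun q : ℝ × ℝ => ∫⁻ y, h q.1 * P θ (mm q.1 q.2 y.1 y.2) ∂(mu.prod mu) :=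
    m1.lintegral_prod_right'
  rw [lintegral_prod (fun q : ℝ × ℝ => ∫⁻ y, h q.1 * P θ (mm q.1 q.2 y.1 y.2) ∂(mu.prod mu))
    m1'.aemeasurable]
  have h1 : ∀ a b : ℝ, ∫⁻ q, h a * P θ (mm a b q.1 q.2) ∂(mu.prod mu) =
      h a * ∫⁻ c, ∫⁻ d, P θ (mm a b c d) ∂mu ∂mu := by
    intro a b
    have m2 : Measurable fun q : ℝ × ℝ => P θ (mm a b q.1 q.2) :=
      Pmm_meas θ (by fun_prop) (by fun_prop) (by fun_prop) (by fun_prop)
    rw [lintegral_const_mul _ m2, lintegral_prod _ m2.aemeasurable]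
  have h2 : ∀ a : ℝ, a ∈ I0 → ∫⁻ b, ∫⁻ q, h a * P θ (mm a b q.1 q.2) ∂(mu.prod mu) ∂mu ≤
      h a * Ka θ := by
    intro a ha
    simp only [h1]
    have m3 : Measurable fun b : ℝ => ∫⁻ c, ∫⁻ d, P θ (mm a b c d) ∂mu ∂mu := by
      have m4 : Measurable fun q : (ℝ × ℝ) × ℝ => P θ (mm a q.1.1 q.1.2 q.2) :=
        Pmm_meas θ (by fun_prop) (by fun_prop) (by fun_prop) (by fun_prop)
      have m5 : Measurable fun q : ℝ × ℝ => ∫⁻ d, P θ (mm a q.1 q.2 d) ∂mu :=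
        m4.lintegral_prod_right'
      exact m5.lintegral_prod_right'
    rw [lintegral_const_mul _ m3]
    gcongr
    exact ang3' hθ0 hθ1 ha
  have h3 : ∫⁻ a, ∫⁻ b, ∫⁻ q, h a * P θ (mm a b q.1 q.2) ∂(mu.prod mu) ∂mu ∂mu ≤
      ∫⁻ a, h a * Ka θ ∂mu := by
    unfold mu
    exact setLIntegral_mono' I0_meas fun a ha => h2 a ha
  refine h3.trans (le_of_eq ?_)
  rw [lintegral_mul_const _ hh, mul_comm]

/-- the fourfold bound -/
theorem four_ang {θ : ℝ} (hθ0 : 0 ≤ θ) (hθ1 : θ ≤ 1) (h : ℝ → ℝ≥0∞) (hh : Measurable h) :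
    ∫⁻ p, h p.1.1 * h p.1.2 * (h p.2.1 * h p.2.2) * Nk θ p ∂mu4 ≤
      4 * Ka θ * ∫⁻ x, h x ^ 4 ∂mu := by
  have hm : Measurable fun x => h x ^ 4 := hh.pow_const 4
  have am : ∀ a b c d : ℝ≥0∞, a * b * (c * d) ≤ ((a ^ 4 + b ^ 4) + c ^ 4) + d ^ 4 := by
    intro a b c d
    set M := max (max a b) (max c d) with hM
    have ha : a ≤ M := (le_max_left a b).trans (le_max_left _ _)
    have hb : b ≤ M := (le_max_right a b).trans (le_max_left _ _)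
    have hc : c ≤ M := (le_max_left c d).trans (le_max_right _ _)
    have hd : d ≤ M := (le_max_right c d).trans (le_max_right _ _)
    have h1 : a * b * (c * d) ≤ M ^ 4 := by
      calc a * b * (c * d) ≤ M * M * (M * M) := by gcongr
        _ = M ^ 4 := by ring
    refine h1.trans ?_
    rcases max_choice (max a b) (max c d) with h2 | h2
    · rcases max_choice a b with h3 | h3
      · rw [hM, h2, h3]
        exact le_add_right (le_add_right le_self_add)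
      · rw [hM, h2, h3]
        exact le_add_right (le_add_right le_add_self)
    · rcases max_choice c d with h3 | h3
      · rw [hM, h2, h3]
        exact le_add_right le_add_self
      · rw [hM, h2, h3]
        exact le_add_self
  have A1 := termA hθ0 hθ1 _ hm
  -- the other terms
  have sw1 : ∀ F : (ℝ × ℝ) × (ℝ × ℝ) → ℝ≥0∞, ∫⁻ p, F p.swap ∂mu4 = ∫⁻ p, F p ∂mu4 := by
    intro F
    unfold mu4
    exact lintegral_prod_swap (μ := mu.prod mu) (ν := mu.prod mu) F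
  have sw2 : ∀ F : (ℝ × ℝ) × (ℝ × ℝ) → ℝ≥0∞, Measurable F →
      ∫⁻ p, F (p.1.swap, p.2) ∂mu4 = ∫⁻ p, F p ∂mu4 := by
    intro F hF
    unfold mu4
    have hF2 : Measurable fun p : (ℝ × ℝ) × (ℝ × ℝ) => F (p.1.swap, p.2) :=
      hF.comp (by fun_prop)
    rw [lintegral_prod _ hF2.aemeasurable, lintegral_prod _ hF.aemeasurable]
    exact lintegral_prod_swap (μ := mu) (ν := mu) (fun x => ∫⁻ y, F (x, y) ∂(mu.prod mu))
  have A2 : ∫⁻ p, h p.1.2 ^ 4 * Nk θ p ∂mu4 ≤ Ka θ * ∫⁻ x, h x ^ 4 ∂mu := by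
    refine le_trans (le_of_eq ?_) A1
    rw [← sw2 (fun p => h p.1.1 ^ 4 * Nk θ p) ((hm.comp (by fun_prop)).mul (Nk_meas θ))]
    congr 1
    ext p
    simp only [Prod.fst_swap, Nk, Prod.snd_swap]
    rw [mm_swap1]
  have A3 : ∫⁻ p, h p.2.1 ^ 4 * Nk θ p ∂mu4 ≤ Ka θ * ∫⁻ x, h x ^ 4 ∂mu := by
    refine le_trans (le_of_eq ?_) A1
    rw [← sw1 (fun p => h p.1.1 ^ 4 * Nk θ p)]
    congr 1
    ext p
    simp only [Prod.fst_swap, Nk, Prod.snd_swap]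
    rw [mm_swap3]
  have A4 : ∫⁻ p, h p.2.2 ^ 4 * Nk θ p ∂mu4 ≤ Ka θ * ∫⁻ x, h x ^ 4 ∂mu := by
    refine le_trans (le_of_eq ?_) A2
    rw [← sw1 (fun p => h p.1.2 ^ 4 * Nk θ p)]
    congr 1
    ext p
    simp only [Prod.fst_swap, Nk, Prod.snd_swap]
    rw [mm_swap3]
  have m1 : Measurable fun p : (ℝ × ℝ) × (ℝ × ℝ) => h p.1.1 ^ 4 * Nk θ p :=
    (hm.comp (by fun_prop)).mul (Nk_meas θ)
  have m2 : Measurable fun p : (ℝ × ℝ) × (ℝ × ℝ) => h p.1.2 ^ 4 * Nk θ p :=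
    (hm.comp (by fun_prop)).mul (Nk_meas θ)
  have m3 : Measurable fun p : (ℝ × ℝ) × (ℝ × ℝ) => h p.2.1 ^ 4 * Nk θ p :=
    (hm.comp (by fun_prop)).mul (Nk_meas θ)
  calc _ ≤ ∫⁻ p, (((h p.1.1 ^ 4 * Nk θ p + h p.1.2 ^ 4 * Nk θ p) + h p.2.1 ^ 4 * Nk θ p) +
        h p.2.2 ^ 4 * Nk θ p) ∂mu4 := by
        apply lintegral_mono
        intro p
        simp only
        rw [← add_mul, ← add_mul, ← add_mul]
        gcongr
        exact am _ _ _ _
    _ = ((∫⁻ p, h p.1.1 ^ 4 * Nk θ p ∂mu4 + ∫⁻ p, h p.1.2 ^ 4 * Nk θ p ∂mu4) +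
        ∫⁻ p, h p.2.1 ^ 4 * Nk θ p ∂mu4) + ∫⁻ p, h p.2.2 ^ 4 * Nk θ p ∂mu4 := by
        rw [lintegral_add_left (madd (madd m1 m2) m3), lintegral_add_left (madd m1 m2),
          lintegral_add_left m1]
    _ ≤ ((Ka θ * ∫⁻ x, h x ^ 4 ∂mu + Ka θ * ∫⁻ x, h x ^ 4 ∂mu) + Ka θ * ∫⁻ x, h x ^ 4 ∂mu) +
        Ka θ * ∫⁻ x, h x ^ 4 ∂mu := by gcongr
    _ = _ := by ring

end Pool.Agent.R245.PB
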