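import Mathlib
set_option autoImplicit false

/-! Moments of one and two dimensional complex Gaussians. -/

namespace Pool.Agent.R245.PB

open MeasureTheory Set Complex Filter Real
open scoped ENNReal Topology

/-- the exponent -/
noncomputable def qd (a w : ℂ) (x : ℝ) : ℂ := -(π * a) * x ^ 2 + 2 * π * w * x

/-- moments of a complex Gaussian -/
noncomputable def S (k : ℕ) (a w : ℂ) : ℂ := ∫ x : ℝ, (x : ℂ) ^ k * cexp (qd a w x)

lemma qd_re (a w : ℂ) (x : ℝ) : (qd a w x).re = -(π * a.re) * x ^ 2 + 2 * π * w.re * x := by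
  unfold qd
  simp [pow_two, Complex.mul_re, Complex.mul_im]

lemma S_int (k : ℕ) {a : ℂ} (ha : 0 < a.re) (w : ℂ) :
    Integrable fun x : ℝ => (x : ℂ) ^ k * cexp (qd a w x) := by
  have hb : 0 < π * a.re / 2 := by positivity
  have h1 := integrable_rpow_mul_exp_neg_mul_sq hb (s := k) (by
    have : (0 : ℝ) ≤ k := Nat.cast_nonneg k
    linarith)
  have h2 : Integrable fun x : ℝ => Real.exp (2 * π * w.re ^ 2 / a.re) *
      ‖x ^ (k : ℝ) * Real.exp (-(π * a.re / 2) * x ^ 2)‖ := h1.norm.const_mul _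
  refine h2.mono' ?_ (ae_of_all _ fun x => ?_)
  · apply Continuous.aestronglyMeasurable
    unfold qd
    fun_prop
  · rw [norm_mul, norm_pow, Complex.norm_real, Complex.norm_exp, qd_re, Real.rpow_natCast, norm_mul,
      norm_pow, Real.norm_of_nonneg (Real.exp_pos _).le]
    have h3 : -(π * a.re) * x ^ 2 + 2 * π * w.re * x ≤
        2 * π * w.re ^ 2 / a.re + -(π * a.re / 2) * x ^ 2 := by
      have e1 : 2 * π * w.re ^ 2 / a.re + -(π * a.re / 2) * x ^ 2 -
          (-(π * a.re) * x ^ 2 + 2 * π * w.re * x) =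
          π / (2 * a.re) * (a.re * x - 2 * w.re) ^ 2 := by
        field_simp
        ring
      have e2 : 0 ≤ π / (2 * a.re) * (a.re * x - 2 * w.re) ^ 2 := by positivity
      linarith
    calc ‖x‖ ^ k * Real.exp (-(π * a.re) * x ^ 2 + 2 * π * w.re * x)
        ≤ ‖x‖ ^ k * Real.exp (2 * π * w.re ^ 2 / a.re + -(π * a.re / 2) * x ^ 2) := by
          gcongr
      _ = _ := by
          rw [Real.exp_add]
          ring

lemma iadd {f g : ℝ → ℂ} (hf : Integrable f) (hg : Integrable g) :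
    Integrable fun x => f x + g x := hf.add hg

lemma icm {f : ℝ → ℂ} (hf : Integrable f) (c : ℂ) : Integrable fun x => c * f x :=
  hf.const_mul c

lemma S_zero {a : ℂ} (ha : 0 < a.re) (w : ℂ) :
    S 0 a w = (1 / a) ^ (1 / 2 : ℂ) * cexp (π * w ^ 2 / a) := by
  have ha0 : a ≠ 0 := by
    intro h
    rw [h] at ha
    simp at ha
  have hpi : (π : ℂ) ≠ 0 := by exact_mod_cast Real.pi_ne_zero
  have h := integral_cexp_quadratic (b := -(π * a)) (by
    have : 0 < π * a.re := by positivity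
    simpa using this) (2 * π * w) 0
  unfold S qd
  simp only [pow_zero, one_mul]
  have e1 : (π : ℂ) / -(-(π * a)) = 1 / a := by
    field_simp
    try ring
  have e2 : (0 : ℂ) - (2 * π * w) ^ 2 / (4 * -(π * a)) = π * w ^ 2 / a := by
    field_simp
    try ring
  rw [e1, e2] at h
  rw [← h]
  congr 1
  ext x
  ring_nf

lemma S_succ (k : ℕ) {a : ℂ} (ha : 0 < a.re) (w : ℂ) :
    S (k + 1) a w = (w / a) * S k a w + (k / (2 * π * a)) * S (k - 1) a w := by
  have ha0 : a ≠ 0 := by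
    intro h
    rw [h] at ha
    simp at ha
  have hpi : (π : ℂ) ≠ 0 := by exact_mod_cast Real.pi_ne_zero
  have hd : ∀ x : ℝ, HasDerivAt (fun x : ℝ => (x : ℂ) ^ k * cexp (qd a w x))
      ((k : ℂ) * ((x : ℂ) ^ (k - 1) * cexp (qd a w x)) +
        (-(2 * π * a) * ((x : ℂ) ^ (k + 1) * cexp (qd a w x)) +
          (2 * π * w) * ((x : ℂ) ^ k * cexp (qd a w x)))) x := by
    intro x
    have h1 : HasDerivAt (fun x : ℝ => (x : ℂ)) 1 x := Complex.ofRealCLM.hasDerivAt
    have h2 := h1.pow k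
    have h3 : HasDerivAt (fun x : ℝ => qd a w x) (-(2 * π * a) * x + 2 * π * w) x := by
      unfold qd
      have h4 := (h1.pow 2).const_mul (-(π * a))
      have h5 := h1.const_mul (2 * π * w)
      refine (h4.add h5).congr_deriv ?_
      simp
      ring
    have h6 := h2.mul h3.cexp
    refine h6.congr_deriv ?_
    simp only [Pi.pow_apply]
    ring
  have i0 := S_int (k - 1) ha w
  have i1 := S_int k ha w
  have i2 := S_int (k + 1) ha w
  have h := integral_eq_zero_of_hasDerivAt_of_integrable hd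
    (iadd (icm i0 _) (iadd (icm i2 _) (icm i1 _))) i1
  rw [integral_add (icm i0 _) (iadd (icm i2 _) (icm i1 _)),
    integral_add (icm i2 _) (icm i1 _), integral_const_mul, integral_const_mul,
    integral_const_mul] at h
  change (k : ℂ) * S (k - 1) a w + (-(2 * π * a) * S (k + 1) a w + 2 * π * w * S k a w) = 0 at h
  field_simp
  linear_combination (-1 : ℂ) * h

/-- the moments up to order four -/
lemma S_vals {a : ℂ} (ha : 0 < a.re) (w m v : ℂ) (hm : m = w / a) (hv : v = 1 / (2 * π * a)) :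
    S 1 a w = m * S 0 a w ∧ S 2 a w = (m ^ 2 + v) * S 0 a w ∧
      S 3 a w = (m ^ 3 + 3 * m * v) * S 0 a w ∧
      S 4 a w = (m ^ 4 + 6 * m ^ 2 * v + 3 * v ^ 2) * S 0 a w := by
  have h1 := S_succ 0 ha w
  have h2 := S_succ 1 ha w
  have h3 := S_succ 2 ha w
  have h4 := S_succ 3 ha w
  have e : ∀ k : ℂ, k / (2 * π * a) = k * v := by
    intro k
    rw [hv]
    ring
  simp only [e, ← hm] at h1 h2 h3 h4
  norm_num at h1 h2 h3 h4
  have k1 : S 1 a w = m * S 0 a w := by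
    rw [h1]
  have k2 : S 2 a w = (m ^ 2 + v) * S 0 a w := by
    rw [h2, k1]
    ring
  have k3 : S 3 a w = (m ^ 3 + 3 * m * v) * S 0 a w := by
    rw [h3, k2, k1]
    ring
  refine ⟨k1, k2, k3, ?_⟩
  rw [h4, k3, k2]
  ring

/-- a two dimensional complex Gaussian integral -/
theorem gauss2 (p q : Fin 4 → ℝ) {a b d D : ℂ} (ha : 0 < a.re) (hD : D = d - b ^ 2 / a)
    (hD0 : 0 < D.re) (B : Fin 4 → Fin 4 → ℂ)
    (hB : ∀ i j, B i j = p i * p j / a + (q i - p i * b / a) * (q j - p j * b / a) / D) :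
    ∫ y : ℝ, ∫ x : ℝ, (∏ i, ((p i * x + q i * y : ℝ) : ℂ)) *
      cexp (-π * (a * x ^ 2 + 2 * b * x * y + d * y ^ 2)) =
      (1 / a) ^ (1 / 2 : ℂ) * (1 / D) ^ (1 / 2 : ℂ) * (1 / (4 * π ^ 2)) *
        (B 0 1 * B 2 3 + B 0 2 * B 1 3 + B 0 3 * B 1 2) := by
  have ha0 : a ≠ 0 := by
    intro h
    rw [h] at ha
    simp at ha
  have hD00 : D ≠ 0 := by
    intro h
    rw [h] at hD0
    simp at hD0
  have hpi : (π : ℂ) ≠ 0 := by exact_mod_cast Real.pi_ne_zero
  set v : ℂ := 1 / (2 * π * a) with hv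
  set V : ℂ := 1 / (2 * π * D) with hV
  set η : Fin 4 → ℂ := fun i => q i - p i * b / a with hη
  set c4 : ℂ := η 0 * η 1 * η 2 * η 3 with hc4
  set c2 : ℂ := v * (p 0 * p 1 * η 2 * η 3 + p 0 * p 2 * η 1 * η 3 + p 0 * p 3 * η 1 * η 2 +
    p 1 * p 2 * η 0 * η 3 + p 1 * p 3 * η 0 * η 2 + p 2 * p 3 * η 0 * η 1) with hc2
  set c0 : ℂ := 3 * v ^ 2 * (p 0 * p 1 * p 2 * p 3) with hc0
  have inner : ∀ y : ℝ, ∫ x : ℝ, (∏ i, ((p i * x + q i * y : ℝ) : ℂ)) *
      cexp (-π * (a * x ^ 2 + 2 * b * x * y + d * y ^ 2)) =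
      (1 / a) ^ (1 / 2 : ℂ) * ((c4 * ((y : ℂ) ^ 4 * cexp (qd D 0 y)) +
        c2 * ((y : ℂ) ^ 2 * cexp (qd D 0 y))) + c0 * ((y : ℂ) ^ 0 * cexp (qd D 0 y))) := by
    intro y
    set w : ℂ := -(b * y) with hw
    set m : ℂ := w / a with hm
    obtain ⟨k1, k2, k3, k4⟩ := S_vals ha w m v hm hv
    have i0 := S_int 0 ha w
    have i1 := S_int 1 ha w
    have i2 := S_int 2 ha w
    have i3 := S_int 3 ha w
    have i4 := S_int 4 ha w
    set s0 : ℂ := q 0 * q 1 * q 2 * q 3 * y ^ 4 with hs0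
    set s1 : ℂ := (p 0 * q 1 * q 2 * q 3 + q 0 * p 1 * q 2 * q 3 + q 0 * q 1 * p 2 * q 3 +
      q 0 * q 1 * q 2 * p 3) * y ^ 3 with hs1
    set s2 : ℂ := (p 0 * p 1 * q 2 * q 3 + p 0 * q 1 * p 2 * q 3 + p 0 * q 1 * q 2 * p 3 +
      q 0 * p 1 * p 2 * q 3 + q 0 * p 1 * q 2 * p 3 + q 0 * q 1 * p 2 * p 3) * y ^ 2 with hs2
    set s3 : ℂ := (q 0 * p 1 * p 2 * p 3 + p 0 * q 1 * p 2 * p 3 + p 0 * p 1 * q 2 * p 3 +
      p 0 * p 1 * p 2 * q 3) * y with hs3
    set s4 : ℂ := p 0 * p 1 * p 2 * p 3 with hs4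
    have e1 : ∀ x : ℝ, (∏ i, ((p i * x + q i * y : ℝ) : ℂ)) *
        cexp (-π * (a * x ^ 2 + 2 * b * x * y + d * y ^ 2)) =
        cexp (-π * d * y ^ 2) * ((((s0 * ((x : ℂ) ^ 0 * cexp (qd a w x)) +
          s1 * ((x : ℂ) ^ 1 * cexp (qd a w x))) + s2 * ((x : ℂ) ^ 2 * cexp (qd a w x))) +
          s3 * ((x : ℂ) ^ 3 * cexp (qd a w x))) + s4 * ((x : ℂ) ^ 4 * cexp (qd a w x))) := by
      intro x
      have e2 : cexp (-π * (a * x ^ 2 + 2 * b * x * y + d * y ^ 2)) =
          cexp (-π * d * y ^ 2) * cexp (qd a w x) := by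
        rw [← Complex.exp_add]
        congr 1
        unfold qd
        rw [hw]
        ring
      rw [e2, Fin.prod_univ_four, hs0, hs1, hs2, hs3, hs4]
      push_cast
      ring
    simp only [e1]
    rw [integral_const_mul, integral_add (iadd (iadd (iadd (icm i0 _) (icm i1 _)) (icm i2 _))
      (icm i3 _)) (icm i4 _), integral_add (iadd (iadd (icm i0 _) (icm i1 _)) (icm i2 _))
      (icm i3 _), integral_add (iadd (icm i0 _) (icm i1 _)) (icm i2 _),
      integral_add (icm i0 _) (icm i1 _), integral_const_mul, integral_const_mul,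
      integral_const_mul, integral_const_mul, integral_const_mul]
    change cexp (-π * d * y ^ 2) * ((((s0 * S 0 a w + s1 * S 1 a w) + s2 * S 2 a w) +
      s3 * S 3 a w) + s4 * S 4 a w) = _
    rw [k1, k2, k3, k4, S_zero ha w]
    have e3 : cexp (qd D 0 y) = cexp (-π * d * y ^ 2) * cexp (π * w ^ 2 / a) := by
      rw [← Complex.exp_add]
      congr 1
      unfold qd
      rw [hD, hw]
      field_simp
      ring
    rw [e3]
    have e4 : ∀ i, η i = q i - p i * b / a := fun i => rfl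
    have e5 : m = -(b / a) * y := by
      rw [hm, hw]
      ring
    rw [hc4, hc2, hc0, e4 0, e4 1, e4 2, e4 3, hs0, hs1, hs2, hs3, hs4, e5]
    ring
  simp only [inner]
  have j0 := S_int 0 hD0 0
  have j2 := S_int 2 hD0 0
  have j4 := S_int 4 hD0 0
  obtain ⟨-, k2, -, k4⟩ := S_vals hD0 0 0 V (by simp) hV
  rw [integral_const_mul, integral_add (iadd (icm j4 _) (icm j2 _)) (icm j0 _),
    integral_add (icm j4 _) (icm j2 _), integral_const_mul, integral_const_mul,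
    integral_const_mul]
  change (1 / a) ^ (1 / 2 : ℂ) * ((c4 * S 4 D 0 + c2 * S 2 D 0) + c0 * S 0 D 0) = _
  rw [k2, k4, S_zero hD0 0]
  simp only [hB]
  have e4 : ∀ i, (q i - p i * b / a : ℂ) = η i := fun i => rfl
  simp only [e4]
  rw [hc4, hc2, hc0, hV, hv]
  have e6 : cexp (π * (0 : ℂ) ^ 2 / D) = 1 := by simp
  rw [e6]
  field_simp
  ring

end Pool.Agent.R245.PB
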