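import Mathlib
import Pool.Agent.R245.PB.Mom
set_option autoImplicit false

/-! The bound for the fourfold Gaussian kernel. -/

namespace Pool.Agent.R245.PB

open MeasureTheory Set Complex Filter Real
open scoped ENNReal Topology ComplexConjugate

/-- the data of the quadratic form -/
structure QF (p q : Fin 4 → ℝ) (α A1 A2 A3 m1 m2 β : ℝ) : Prop where
  hα : 0 < α
  hβ : β ≠ 0
  hp : ∀ i, |p i| ≤ 1
  hq : ∀ i, |q i| ≤ 1
  low : ∀ i (u v : ℝ), α * (p i * u + q i * v) ^ 2 ≤ A1 * u ^ 2 + 2 * A2 * u * v + A3 * v ^ 2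
  hA1 : 0 < A1
  hdet : 0 < A1 * A3 - A2 ^ 2
  b1 : |A1| ≤ 5 * α
  b2 : |A2| ≤ 5 * α
  b3 : |A3| ≤ 5 * α
  hm : 0 < m1 ^ 2 + m2 ^ 2

variable {p q : Fin 4 → ℝ} {α A1 A2 A3 m1 m2 β : ℝ}

/-- the entries -/
def ea (A1 m1 β : ℝ) : ℂ := ⟨A1, β * m1⟩
/-- the entries -/
def eb (A2 m2 β : ℝ) : ℂ := ⟨A2, β * m2⟩
/-- the entries -/
def ed (A3 m1 β : ℝ) : ℂ := ⟨A3, -(β * m1)⟩

/-- the determinant -/
def dt (A1 A2 A3 m1 m2 β : ℝ) : ℂ := ea A1 m1 β * ed A3 m1 β - eb A2 m2 β ^ 2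

lemma dt_re : (dt A1 A2 A3 m1 m2 β).re = (A1 * A3 - A2 ^ 2) + β ^ 2 * (m1 ^ 2 + m2 ^ 2) := by
  unfold dt ea eb ed
  simp [pow_two]
  ring

lemma QF.dt_pos (h : QF p q α A1 A2 A3 m1 m2 β) : 0 < (dt A1 A2 A3 m1 m2 β).re := by
  rw [dt_re]
  have := h.hdet
  have := h.hm
  positivity

lemma QF.dt_ne (h : QF p q α A1 A2 A3 m1 m2 β) : dt A1 A2 A3 m1 m2 β ≠ 0 := by
  intro h0
  have := h.dt_pos
  rw [h0] at this
  simp at this

lemma QF.dt_low (h : QF p q α A1 A2 A3 m1 m2 β) :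
    β ^ 2 * (m1 ^ 2 + m2 ^ 2) ≤ ‖dt A1 A2 A3 m1 m2 β‖ := by
  have h1 := Complex.re_le_norm (dt A1 A2 A3 m1 m2 β)
  rw [dt_re] at h1
  have := h.hdet
  linarith

lemma QF.ea_re (h : QF p q α A1 A2 A3 m1 m2 β) : 0 < (ea A1 m1 β).re := h.hA1

lemma QF.ea_ne (h : QF p q α A1 A2 A3 m1 m2 β) : ea A1 m1 β ≠ 0 := by
  intro h0
  have := h.ea_re
  rw [h0] at this
  simp at this

/-- the Schur complement -/
noncomputable def eD (A1 A2 A3 m1 m2 β : ℝ) : ℂ := ed A3 m1 β - eb A2 m2 β ^ 2 / ea A1 m1 β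

lemma QF.eD_eq (h : QF p q α A1 A2 A3 m1 m2 β) :
    eD A1 A2 A3 m1 m2 β = dt A1 A2 A3 m1 m2 β / ea A1 m1 β := by
  have := h.ea_ne
  unfold eD dt
  field_simp

/-- the energy identity -/
lemma energy (y1 y2 : ℂ) (s t : ℝ) (h1 : ea A1 m1 β * y1 + eb A2 m2 β * y2 = s)
    (h2 : eb A2 m2 β * y1 + ed A3 m1 β * y2 = t) :
    A1 * (y1.re ^ 2 + y1.im ^ 2) + 2 * A2 * (y1.re * y2.re + y1.im * y2.im) +
      A3 * (y2.re ^ 2 + y2.im ^ 2) = s * y1.re + t * y2.re := by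
  have r1 := congrArg Complex.re h1
  have i1 := congrArg Complex.im h1
  have r2 := congrArg Complex.re h2
  have i2 := congrArg Complex.im h2
  unfold ea eb at r1 i1
  unfold eb ed at r2 i2
  simp at r1 i1 r2 i2
  linear_combination y1.re * r1 + y1.im * i1 + y2.re * r2 + y2.im * i2

lemma QF.eD_re (h : QF p q α A1 A2 A3 m1 m2 β) : 0 < (eD A1 A2 A3 m1 m2 β).re := by
  have ha := h.ea_ne
  -- test vector `(-b/a, 1)`
  set y1 : ℂ := -(eb A2 m2 β / ea A1 m1 β) with hy1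
  have e1 : ea A1 m1 β * y1 + eb A2 m2 β * 1 = 0 := by
    rw [hy1]
    field_simp
    ring
  have e2 : eb A2 m2 β * y1 + ed A3 m1 β * 1 = eD A1 A2 A3 m1 m2 β := by
    rw [hy1]
    unfold eD
    field_simp
    ring
  have r1 := congrArg Complex.re e1
  have i1 := congrArg Complex.im e1
  have r2 := congrArg Complex.re e2
  unfold ea eb at r1 i1
  unfold eb ed at r2
  simp at r1 i1 r2
  have e3 : (eD A1 A2 A3 m1 m2 β).re = A1 * (y1.re ^ 2 + y1.im ^ 2) + 2 * A2 * y1.re + A3 := by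
    rw [← r2]
    linear_combination (-y1.re) * r1 - y1.im * i1
  rw [e3]
  have hA := h.hA1
  have hd := h.hdet
  have e4 : A1 * (A1 * (y1.re ^ 2 + y1.im ^ 2) + 2 * A2 * y1.re + A3) =
      (A1 * y1.re + A2) ^ 2 + (A1 * y1.im) ^ 2 + (A1 * A3 - A2 ^ 2) := by ring
  have e5 : 0 < A1 * (A1 * (y1.re ^ 2 + y1.im ^ 2) + 2 * A2 * y1.re + A3) := by
    rw [e4]
    positivity
  exact pos_of_mul_pos_right e5 hA.le

/-- the covariances -/
noncomputable def cv (p q : Fin 4 → ℝ) (A1 A2 A3 m1 m2 β : ℝ) (i j : Fin 4) : ℂ :=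
  p i * p j / ea A1 m1 β + (q i - p i * eb A2 m2 β / ea A1 m1 β) *
    (q j - p j * eb A2 m2 β / ea A1 m1 β) / eD A1 A2 A3 m1 m2 β

lemma QF.cv_eq (h : QF p q α A1 A2 A3 m1 m2 β) (i j : Fin 4) :
    cv p q A1 A2 A3 m1 m2 β i j = (p i * p j * ed A3 m1 β + q i * q j * ea A1 m1 β -
      eb A2 m2 β * (p i * q j + q i * p j)) / dt A1 A2 A3 m1 m2 β := by
  have ha := h.ea_ne
  have hd := h.dt_ne
  unfold cv
  rw [h.eD_eq]
  have e : dt A1 A2 A3 m1 m2 β = ea A1 m1 β * ed A3 m1 β - eb A2 m2 β ^ 2 := rfl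
  rw [e] at hd ⊢
  field_simp
  ring

lemma norm_mk_le (x y : ℝ) : ‖(⟨x, y⟩ : ℂ)‖ ≤ |x| + |y| := Complex.norm_le_abs_re_add_abs_im _

lemma QF.cv_le1 (h : QF p q α A1 A2 A3 m1 m2 β) (i j : Fin 4) :
    ‖cv p q A1 A2 A3 m1 m2 β i j‖ ≤
      (20 * α + 4 * (|β| * √(m1 ^ 2 + m2 ^ 2))) / (β ^ 2 * (m1 ^ 2 + m2 ^ 2)) := by
  rw [h.cv_eq, norm_div]
  have hm := h.hm
  have hβ := h.hβ
  have hpos : 0 < β ^ 2 * (m1 ^ 2 + m2 ^ 2) := by positivity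
  refine div_le_div₀ ?_ ?_ hpos h.dt_low
  · have := h.hα
    positivity
  · have k1 : |m1| ≤ √(m1 ^ 2 + m2 ^ 2) := by
      apply Real.abs_le_sqrt
      nlinarith [sq_nonneg m2]
    have k2 : |m2| ≤ √(m1 ^ 2 + m2 ^ 2) := by
      apply Real.abs_le_sqrt
      nlinarith [sq_nonneg m1]
    set c := √(m1 ^ 2 + m2 ^ 2) with hc
    have n1 : ‖ea A1 m1 β‖ ≤ 5 * α + |β| * c := by
      refine (norm_mk_le _ _).trans ?_
      rw [abs_mul]
      have := mul_le_mul_of_nonneg_left k1 (abs_nonneg β)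
      linarith [h.b1]
    have n2 : ‖eb A2 m2 β‖ ≤ 5 * α + |β| * c := by
      refine (norm_mk_le _ _).trans ?_
      rw [abs_mul]
      have := mul_le_mul_of_nonneg_left k2 (abs_nonneg β)
      linarith [h.b2]
    have n3 : ‖ed A3 m1 β‖ ≤ 5 * α + |β| * c := by
      refine (norm_mk_le _ _).trans ?_
      rw [abs_neg, abs_mul]
      have := mul_le_mul_of_nonneg_left k1 (abs_nonneg β)
      linarith [h.b3]
    have hp : ∀ i, ‖(p i : ℂ)‖ ≤ 1 := fun i => by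
      rw [Complex.norm_real]; exact h.hp i
    have hq : ∀ i, ‖(q i : ℂ)‖ ≤ 1 := fun i => by
      rw [Complex.norm_real]; exact h.hq i
    have t1 : ‖(p i : ℂ) * p j * ed A3 m1 β‖ ≤ 5 * α + |β| * c := by
      rw [norm_mul, norm_mul]
      have : ‖(p i : ℂ)‖ * ‖(p j : ℂ)‖ ≤ 1 := mul_le_one₀ (hp i) (norm_nonneg _) (hp j)
      calc _ ≤ 1 * ‖ed A3 m1 β‖ := by gcongr
        _ ≤ _ := by rw [one_mul]; exact n3
    have t2 : ‖(q i : ℂ) * q j * ea A1 m1 β‖ ≤ 5 * α + |β| * c := by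
      rw [norm_mul, norm_mul]
      have : ‖(q i : ℂ)‖ * ‖(q j : ℂ)‖ ≤ 1 := mul_le_one₀ (hq i) (norm_nonneg _) (hq j)
      calc _ ≤ 1 * ‖ea A1 m1 β‖ := by gcongr
        _ ≤ _ := by rw [one_mul]; exact n1
    have t3 : ‖eb A2 m2 β * ((p i : ℂ) * q j + q i * p j)‖ ≤ 2 * (5 * α + |β| * c) := by
      rw [norm_mul, mul_comm]
      have e1 : ‖(p i : ℂ) * q j + q i * p j‖ ≤ 2 := by
        refine (norm_add_le _ _).trans ?_
        rw [norm_mul, norm_mul]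
        have u1 := mul_le_one₀ (hp i) (norm_nonneg _) (hq j)
        have u2 := mul_le_one₀ (hq i) (norm_nonneg _) (hp j)
        linarith
      gcongr
    refine (norm_sub_le _ _).trans ?_
    have t4 := norm_add_le ((p i : ℂ) * p j * ed A3 m1 β) ((q i : ℂ) * q j * ea A1 m1 β)
    linarith

lemma QF.cv_energy (h : QF p q α A1 A2 A3 m1 m2 β) (i j : Fin 4) :
    α * ‖cv p q A1 A2 A3 m1 m2 β i j‖ ^ 2 ≤ (cv p q A1 A2 A3 m1 m2 β j j).re := by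
  have hd := h.dt_ne
  set Δ := dt A1 A2 A3 m1 m2 β with hΔ
  have hΔ' : Δ = ea A1 m1 β * ed A3 m1 β - eb A2 m2 β ^ 2 := rfl
  set y1 : ℂ := (ed A3 m1 β * p j - eb A2 m2 β * q j) / Δ with hy1
  set y2 : ℂ := (-eb A2 m2 β * p j + ea A1 m1 β * q j) / Δ with hy2
  have e1 : ea A1 m1 β * y1 + eb A2 m2 β * y2 = (p j : ℝ) := by
    rw [hy1, hy2]
    field_simp
    rw [hΔ']
    ring
  have e2 : eb A2 m2 β * y1 + ed A3 m1 β * y2 = (q j : ℝ) := by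
    rw [hy1, hy2]
    field_simp
    rw [hΔ']
    ring
  have e3 : ∀ k, cv p q A1 A2 A3 m1 m2 β k j = p k * y1 + q k * y2 := by
    intro k
    rw [h.cv_eq, hy1, hy2, ← hΔ]
    field_simp
    ring
  have en := energy y1 y2 (p j) (q j) e1 e2
  have l1 := h.low i y1.re y2.re
  have l2 := h.low i y1.im y2.im
  rw [e3 i, e3 j]
  have n1 : ‖(p i : ℂ) * y1 + q i * y2‖ ^ 2 = (p i * y1.re + q i * y2.re) ^ 2 +
      (p i * y1.im + q i * y2.im) ^ 2 := by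
    rw [← Complex.normSq_eq_norm_sq, Complex.normSq_apply]
    simp
    ring
  have n2 : ((p j : ℂ) * y1 + q j * y2).re = p j * y1.re + q j * y2.re := by simp
  rw [n1, n2, ← en]
  nlinarith

lemma QF.cv_le2 (h : QF p q α A1 A2 A3 m1 m2 β) (i j : Fin 4) :
    ‖cv p q A1 A2 A3 m1 m2 β i j‖ ≤ 1 / α := by
  have hα := h.hα
  have h1 := h.cv_energy j j
  have h2 := h.cv_energy i j
  have h3 := Complex.re_le_norm (cv p q A1 A2 A3 m1 m2 β j j)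
  set x := ‖cv p q A1 A2 A3 m1 m2 β j j‖ with hx
  have hx0 : 0 ≤ x := norm_nonneg _
  have h4 : x ≤ 1 / α := by
    rw [le_div_iff₀ hα]
    by_contra hc
    push Not at hc
    have h5 : 0 < x := by
      rcases hx0.eq_or_lt with h0 | h0
      · rw [← h0] at hc
        linarith
      · exact h0
    nlinarith [mul_pos h5 (sub_pos.2 hc)]
  have h6 : ‖cv p q A1 A2 A3 m1 m2 β i j‖ ^ 2 ≤ (1 / α) ^ 2 := by
    have h7 : α * ‖cv p q A1 A2 A3 m1 m2 β i j‖ ^ 2 ≤ 1 / α := h2.trans (h3.trans h4)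
    rw [← le_div_iff₀' hα] at h7
    refine h7.trans (le_of_eq ?_)
    field_simp
  exact abs_le_of_sq_le_sq' h6 (by positivity) |>.2

lemma QF.cv_le3 (h : QF p q α A1 A2 A3 m1 m2 β) (i j : Fin 4) :
    ‖cv p q A1 A2 A3 m1 m2 β i j‖ ≤ 24 / (|β| * √(m1 ^ 2 + m2 ^ 2)) := by
  have hm := h.hm
  have hβ := h.hβ
  have hα := h.hα
  set c := √(m1 ^ 2 + m2 ^ 2) with hc
  have hc0 : 0 < c := Real.sqrt_pos.2 hm
  have hc2 : c ^ 2 = m1 ^ 2 + m2 ^ 2 := Real.sq_sqrt hm.le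
  have hbc : 0 < |β| * c := by positivity
  rcases le_total α (|β| * c) with h1 | h1
  · refine (h.cv_le1 i j).trans ?_
    have e1 : β ^ 2 * (m1 ^ 2 + m2 ^ 2) = (|β| * c) ^ 2 := by
      rw [mul_pow, sq_abs, hc2]
    rw [e1, div_le_div_iff₀ (by positivity) hbc]
    nlinarith
  · refine (h.cv_le2 i j).trans ?_
    rw [div_le_div_iff₀ hα hbc]
    linarith

lemma QF.cv_mix (h : QF p q α A1 A2 A3 m1 m2 β) {e : ℝ} (he0 : 0 ≤ e) (he1 : e ≤ 1)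
    (i j k l : Fin 4) :
    ‖cv p q A1 A2 A3 m1 m2 β i j * cv p q A1 A2 A3 m1 m2 β k l‖ ≤
      24 * (α ^ (-(1 + e)) * (|β| * √(m1 ^ 2 + m2 ^ 2)) ^ (-(1 - e))) := by
  have hm := h.hm
  have hβ := h.hβ
  have hα := h.hα
  set c := √(m1 ^ 2 + m2 ^ 2) with hc
  have hc0 : 0 < c := Real.sqrt_pos.2 hm
  have hbc : 0 < |β| * c := by positivity
  set K := min (1 / α) (24 / (|β| * c)) with hK
  have hK0 : 0 < K := lt_min (by positivity) (by positivity)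
  have b1 : ‖cv p q A1 A2 A3 m1 m2 β i j‖ ≤ K := le_min (h.cv_le2 i j) (h.cv_le3 i j)
  have b2 : ‖cv p q A1 A2 A3 m1 m2 β k l‖ ≤ K := le_min (h.cv_le2 k l) (h.cv_le3 k l)
  rw [norm_mul]
  calc _ ≤ K * K := by gcongr
    _ = K ^ (1 + e) * K ^ (1 - e) := by
        rw [← Real.rpow_add hK0]
        norm_num
        ring
    _ ≤ (1 / α) ^ (1 + e) * (24 / (|β| * c)) ^ (1 - e) := by
        have := min_le_left (1 / α) (24 / (|β| * c))
        have := min_le_right (1 / α) (24 / (|β| * c))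
        gcongr
    _ ≤ α ^ (-(1 + e)) * (24 * (|β| * c) ^ (-(1 - e))) := by
        apply mul_le_mul
        · rw [one_div, Real.inv_rpow hα.le, Real.rpow_neg hα.le]
        · rw [div_eq_mul_inv, Real.mul_rpow (by norm_num) (by positivity), Real.inv_rpow hbc.le,
            Real.rpow_neg hbc.le]
          have : (24 : ℝ) ^ (1 - e) ≤ 24 ^ (1 : ℝ) :=
            Real.rpow_le_rpow_of_exponent_le (by norm_num) (by linarith)
          rw [Real.rpow_one] at this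
          gcongr
        · positivity
        · positivity
    _ = _ := by ring

/-- the fourfold kernel -/
theorem QF.ker (h : QF p q α A1 A2 A3 m1 m2 β) {e : ℝ} (he0 : 0 ≤ e) (he1 : e ≤ 1) :
    ‖∫ y : ℝ, ∫ x : ℝ, (∏ i, ((p i * x + q i * y : ℝ) : ℂ)) *
      cexp (-π * (ea A1 m1 β * x ^ 2 + 2 * eb A2 m2 β * x * y + ed A3 m1 β * y ^ 2))‖ ≤
      2 * (α ^ (-(1 + e)) * (|β| * √(m1 ^ 2 + m2 ^ 2)) ^ (-(2 - e))) := by
  have hm := h.hm
  have hβ := h.hβ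
  have hα := h.hα
  set c := √(m1 ^ 2 + m2 ^ 2) with hc
  have hc0 : 0 < c := Real.sqrt_pos.2 hm
  have hc2 : c ^ 2 = m1 ^ 2 + m2 ^ 2 := Real.sq_sqrt hm.le
  have hbc : 0 < |β| * c := by positivity
  rw [gauss2 p q (D := eD A1 A2 A3 m1 m2 β) h.ea_re rfl h.eD_re (cv p q A1 A2 A3 m1 m2 β)
    (fun i j => rfl)]
  have ha := h.ea_ne
  have hD : eD A1 A2 A3 m1 m2 β ≠ 0 := by
    intro h0
    have := h.eD_re
    rw [h0] at this
    simp at this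
  have n1 : ‖(1 / ea A1 m1 β) ^ (1 / 2 : ℂ) * (1 / eD A1 A2 A3 m1 m2 β) ^ (1 / 2 : ℂ)‖ ≤
      (|β| * c)⁻¹ := by
    have e1 : (1 / 2 : ℂ) = ((1 / 2 : ℝ) : ℂ) := by push_cast; rfl
    rw [norm_mul, e1, Complex.norm_cpow_real, Complex.norm_cpow_real,
      ← Real.mul_rpow (norm_nonneg _) (norm_nonneg _), ← norm_mul]
    have e2 : 1 / ea A1 m1 β * (1 / eD A1 A2 A3 m1 m2 β) = (dt A1 A2 A3 m1 m2 β)⁻¹ := by
      rw [h.eD_eq]
      have := h.dt_ne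
      field_simp
    rw [e2, norm_inv]
    have e3 : ‖dt A1 A2 A3 m1 m2 β‖⁻¹ ≤ ((|β| * c) ^ 2)⁻¹ := by
      apply inv_anti₀ (by positivity)
      rw [mul_pow, sq_abs, hc2]
      exact h.dt_low
    calc _ ≤ (((|β| * c) ^ 2)⁻¹) ^ (1 / 2 : ℝ) := by gcongr
      _ = _ := by
        rw [← Real.sqrt_eq_rpow, Real.sqrt_inv, Real.sqrt_sq hbc.le]
  have b1 := h.cv_mix he0 he1 0 1 2 3
  have b2 := h.cv_mix he0 he1 0 2 1 3
  have b3 := h.cv_mix he0 he1 0 3 1 2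
  rw [← hc] at b1 b2 b3
  set X := α ^ (-(1 + e)) * (|β| * c) ^ (-(1 - e)) with hX
  have hX0 : 0 < X := by positivity
  have hpi : (1 : ℝ) / (4 * π ^ 2) ≤ 1 / 36 := by
    apply one_div_le_one_div_of_le (by norm_num)
    nlinarith [Real.pi_gt_three]
  have n2 : ‖(1 / (4 * (π : ℂ) ^ 2))‖ ≤ 1 / 36 := by
    have : (1 / (4 * (π : ℂ) ^ 2)) = ((1 / (4 * π ^ 2) : ℝ) : ℂ) := by push_cast; rfl
    rw [this, Complex.norm_real, Real.norm_of_nonneg (by positivity)]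
    exact hpi
  rw [norm_mul, norm_mul]
  have n3 : ‖cv p q A1 A2 A3 m1 m2 β 0 1 * cv p q A1 A2 A3 m1 m2 β 2 3 +
      cv p q A1 A2 A3 m1 m2 β 0 2 * cv p q A1 A2 A3 m1 m2 β 1 3 +
      cv p q A1 A2 A3 m1 m2 β 0 3 * cv p q A1 A2 A3 m1 m2 β 1 2‖ ≤ 72 * X := by
    refine (norm_add_le _ _).trans ?_
    have := norm_add_le (cv p q A1 A2 A3 m1 m2 β 0 1 * cv p q A1 A2 A3 m1 m2 β 2 3)
      (cv p q A1 A2 A3 m1 m2 β 0 2 * cv p q A1 A2 A3 m1 m2 β 1 3)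
    linarith
  calc _ ≤ (|β| * c)⁻¹ * (1 / 36) * (72 * X) := by gcongr
    _ = 2 * (α ^ (-(1 + e)) * ((|β| * c) ^ (-(1 - e)) * (|β| * c) ^ (-1 : ℝ))) := by
        rw [hX, Real.rpow_neg_one]
        ring
    _ = _ := by
        rw [← Real.rpow_add hbc]
        congr 3
        ring

end Pool.Agent.R245.PB
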