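import Mathlib
import Pool.Agent.R245.PB.Ker
import Pool.Agent.R245.PB.Ang4
set_option autoImplicit false

/-! The fixed time `L^4` estimate for Gaussian superpositions over directions. -/

namespace Pool.Agent.R245.PB

open MeasureTheory Set Complex Filter Real
open scoped ENNReal Topology ComplexConjugate
open Pool.Agent.R245.OD (P P_meas P_mul P_zero P_pos P_anti)

/-- the inner product with a direction -/
noncomputable def ip (x : ℝ × ℝ) (θ : ℝ) : ℝ := x.1 * Real.cos θ + x.2 * Real.sin θ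

/-- the Gaussian kernel -/
noncomputable def Gk (κ : ℂ) (u : ℝ) : ℂ := u * cexp (-π * κ * u ^ 2)

lemma ip_le (x : ℝ × ℝ) (θ : ℝ) : |ip x θ| ≤ |x.1| + |x.2| := by
  unfold ip
  refine (abs_add_le _ _).trans ?_
  rw [abs_mul, abs_mul]
  have h1 := Real.abs_cos_le_one θ
  have h2 := Real.abs_sin_le_one θ
  have := mul_le_mul_of_nonneg_left h1 (abs_nonneg x.1)
  have := mul_le_mul_of_nonneg_left h2 (abs_nonneg x.2)
  linarith

lemma Gk_norm (κ : ℂ) (u : ℝ) : ‖Gk κ u‖ = |u| * Real.exp (-π * κ.re * u ^ 2) := by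
  unfold Gk
  rw [norm_mul, Complex.norm_real, Complex.norm_exp, Real.norm_eq_abs]
  congr 2
  simp [pow_two, Complex.mul_re, Complex.mul_im]

lemma Gk_le {κ : ℂ} (hκ : 0 ≤ κ.re) (u : ℝ) : ‖Gk κ u‖ ≤ |u| := by
  rw [Gk_norm]
  have h1 : Real.exp (-π * κ.re * u ^ 2) ≤ 1 := by
    rw [Real.exp_le_one_iff]
    have : 0 ≤ π * κ.re * u ^ 2 := by positivity
    linarith
  calc _ ≤ |u| * 1 := by gcongr
    _ = _ := mul_one _

lemma Gk_conj (κ : ℂ) (u : ℝ) : conj (Gk κ u) = Gk (conj κ) u := by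
  unfold Gk
  rw [map_mul, Complex.conj_ofReal, ← Complex.exp_conj]
  congr 2
  simp [map_mul, map_pow, Complex.conj_ofReal]

lemma Gk_meas : Measurable fun p : ℂ × ℝ => Gk p.1 p.2 := by
  unfold Gk
  apply Continuous.measurable
  fun_prop

lemma ip_meas : Measurable fun p : (ℝ × ℝ) × ℝ => ip p.1 p.2 := by
  unfold ip
  apply Continuous.measurable
  fun_prop

/-- the superposition over directions -/
noncomputable def W (κ : ℂ) (g : ℝ → ℂ) (x : ℝ × ℝ) : ℂ := ∫ θ, g θ * Gk κ (ip x θ) ∂mu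

/-- the product of the amplitudes -/
noncomputable def ampl (g : ℝ → ℂ) (p : (ℝ × ℝ) × (ℝ × ℝ)) : ℂ :=
  g p.1.1 * g p.1.2 * (conj (g p.2.1) * conj (g p.2.2))

/-- the product of the kernels -/
noncomputable def kprod (κ : ℂ) (x : ℝ × ℝ) (p : (ℝ × ℝ) × (ℝ × ℝ)) : ℂ :=
  Gk κ (ip x p.1.1) * Gk κ (ip x p.1.2) * (Gk (conj κ) (ip x p.2.1) * Gk (conj κ) (ip x p.2.2))

lemma W4 (κ : ℂ) (g : ℝ → ℂ) (x : ℝ × ℝ) :
    ((‖W κ g x‖ ^ 4 : ℝ) : ℂ) = ∫ p, ampl g p * kprod κ x p ∂mu4 := by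
  have h1 : ((‖W κ g x‖ ^ 4 : ℝ) : ℂ) = (W κ g x * W κ g x) * (conj (W κ g x) * conj (W κ g x)) := by
    have h2 := Complex.mul_conj' (W κ g x)
    push_cast
    linear_combination (-(W κ g x * conj (W κ g x)) - (‖W κ g x‖ : ℂ) ^ 2) * h2
  have h3 : conj (W κ g x) = ∫ θ, conj (g θ) * Gk (conj κ) (ip x θ) ∂mu := by
    unfold W
    rw [← integral_conj]
    congr 1
    ext θ
    rw [map_mul, Gk_conj]
  rw [h1, h3]
  unfold W
  rw [← integral_prod_mul, ← integral_prod_mul, ← integral_prod_mul]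
  unfold mu4
  congr 1
  ext p
  unfold ampl kprod
  ring

/-- the dominating function -/
noncomputable def dom (ε : ℝ) (x : ℝ × ℝ) : ℝ :=
  (|x.1| + |x.2|) ^ 4 * Real.exp (-(π * ε) * (x.1 ^ 2 + x.2 ^ 2))

lemma dom_int {ε : ℝ} (hε : 0 < ε) : Integrable (dom ε) := by
  have hb : 0 < π * ε := by positivity
  have h4 : Integrable fun x : ℝ => x ^ 4 * Real.exp (-(π * ε) * x ^ 2) := by
    have h := integrable_rpow_mul_exp_neg_mul_sq hb (s := ((4 : ℕ) : ℝ)) (by norm_num)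
    simpa only [Real.rpow_natCast] using h
  have h0 : Integrable fun x : ℝ => Real.exp (-(π * ε) * x ^ 2) := integrable_exp_neg_mul_sq hb
  have h1 := (h4.mul_prod h0).const_mul 8
  have h2 := (h0.mul_prod h4).const_mul 8
  have h3 : Integrable (fun x : ℝ × ℝ => 8 * (x.1 ^ 4 * Real.exp (-(π * ε) * x.1 ^ 2) *
      Real.exp (-(π * ε) * x.2 ^ 2)) + 8 * (Real.exp (-(π * ε) * x.1 ^ 2) *
      (x.2 ^ 4 * Real.exp (-(π * ε) * x.2 ^ 2)))) (volume.prod volume) := h1.add h2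
  refine Integrable.mono' h3 ?_ (ae_of_all _ fun x => ?_)
  · apply Continuous.aestronglyMeasurable
    unfold dom
    fun_prop
  · unfold dom
    rw [Real.norm_of_nonneg (by positivity)]
    have e1 : Real.exp (-(π * ε) * (x.1 ^ 2 + x.2 ^ 2)) =
        Real.exp (-(π * ε) * x.1 ^ 2) * Real.exp (-(π * ε) * x.2 ^ 2) := by
      rw [← Real.exp_add]
      congr 1
      ring
    have e2 : (|x.1| + |x.2|) ^ 4 ≤ 8 * (x.1 ^ 4 + x.2 ^ 4) := by
      have h5 : x.1 ^ 4 = |x.1| ^ 4 := by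
        rw [← abs_pow]; exact (abs_of_nonneg (by positivity)).symm
      have h6 : x.2 ^ 4 = |x.2| ^ 4 := by
        rw [← abs_pow]; exact (abs_of_nonneg (by positivity)).symm
      rw [h5, h6]
      set a := |x.1|
      set b := |x.2|
      have ha : 0 ≤ a := abs_nonneg _
      have hb : 0 ≤ b := abs_nonneg _
      have h7 : (a + b) ^ 2 ≤ 2 * (a ^ 2 + b ^ 2) := by nlinarith [sq_nonneg (a - b)]
      have h8 : (a ^ 2 + b ^ 2) ^ 2 ≤ 2 * (a ^ 4 + b ^ 4) := by nlinarith [sq_nonneg (a ^ 2 - b ^ 2)]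
      calc (a + b) ^ 4 = ((a + b) ^ 2) ^ 2 := by ring
        _ ≤ (2 * (a ^ 2 + b ^ 2)) ^ 2 := by gcongr
        _ = 4 * (a ^ 2 + b ^ 2) ^ 2 := by ring
        _ ≤ 4 * (2 * (a ^ 4 + b ^ 4)) := by gcongr
        _ = _ := by ring
    rw [e1]
    calc (|x.1| + |x.2|) ^ 4 * (Real.exp (-(π * ε) * x.1 ^ 2) * Real.exp (-(π * ε) * x.2 ^ 2))
        ≤ 8 * (x.1 ^ 4 + x.2 ^ 4) *
          (Real.exp (-(π * ε) * x.1 ^ 2) * Real.exp (-(π * ε) * x.2 ^ 2)) := by gcongr
      _ = _ := by ring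

/-- the damping -/
noncomputable def dmp (ε : ℝ) (x : ℝ × ℝ) : ℂ := cexp (-π * ε * (x.1 ^ 2 + x.2 ^ 2))

lemma dmp_eq (ε : ℝ) (x : ℝ × ℝ) :
    dmp ε x = ((Real.exp (-(π * ε) * (x.1 ^ 2 + x.2 ^ 2)) : ℝ) : ℂ) := by
  unfold dmp
  push_cast
  congr 1
  ring

lemma dmp_norm (ε : ℝ) (x : ℝ × ℝ) :
    ‖dmp ε x‖ = Real.exp (-(π * ε) * (x.1 ^ 2 + x.2 ^ 2)) := by
  rw [dmp_eq, Complex.norm_real, Real.norm_of_nonneg (Real.exp_pos _).le]

lemma kprod_le {κ : ℂ} (hκ : 0 ≤ κ.re) (x : ℝ × ℝ) (p : (ℝ × ℝ) × (ℝ × ℝ)) :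
    ‖kprod κ x p‖ ≤ (|x.1| + |x.2|) ^ 4 := by
  have hκ' : 0 ≤ (conj κ).re := by simpa using hκ
  have k1 : ∀ θ, ‖Gk κ (ip x θ)‖ ≤ |x.1| + |x.2| := fun θ => (Gk_le hκ _).trans (ip_le x θ)
  have k2 : ∀ θ, ‖Gk (conj κ) (ip x θ)‖ ≤ |x.1| + |x.2| := fun θ => (Gk_le hκ' _).trans (ip_le x θ)
  unfold kprod
  rw [norm_mul, norm_mul, norm_mul]
  set m := |x.1| + |x.2| with hm
  have hm0 : 0 ≤ m := by positivity
  calc _ ≤ m * m * (m * m) := by
        gcongr
        · exact k1 _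
        · exact k1 _
        · exact k2 _
        · exact k2 _
    _ = m ^ 4 := by ring

lemma ampl_le {g : ℝ → ℂ} {M : ℝ} (hM0 : 0 ≤ M) (hM : ∀ θ, ‖g θ‖ ≤ M) (p : (ℝ × ℝ) × (ℝ × ℝ)) :
    ‖ampl g p‖ ≤ M ^ 4 := by
  unfold ampl
  rw [norm_mul, norm_mul, norm_mul, RCLike.norm_conj, RCLike.norm_conj]
  calc _ ≤ M * M * (M * M) := by
        gcongr
        · exact hM _
        · exact hM _
        · exact hM _
        · exact hM _
    _ = M ^ 4 := by ring

lemma kprod_meas (κ : ℂ) : Measurable fun q : (ℝ × ℝ) × ((ℝ × ℝ) × (ℝ × ℝ)) =>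
    kprod κ q.1 q.2 := by
  unfold kprod Gk ip
  apply Continuous.measurable
  fun_prop

lemma ampl_meas {g : ℝ → ℂ} (hg : Measurable g) : Measurable (ampl g) := by
  unfold ampl
  have hc : Measurable (conj : ℂ → ℂ) := Complex.continuous_conj.measurable
  exact ((hg.comp (by fun_prop)).mul (hg.comp (by fun_prop))).mul
    ((hc.comp (hg.comp (by fun_prop))).mul (hc.comp (hg.comp (by fun_prop))))

/-- the quadratic form of four directions -/
lemma qf {α β ε : ℝ} (hα : 0 < α) (hβ : β ≠ 0) (hε : 0 < ε) (hεα : ε ≤ α) {a b c d : ℝ}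
    (hm : 0 < mm a b c d) :
    QF ![Real.cos a, Real.cos b, Real.cos c, Real.cos d]
      ![Real.sin a, Real.sin b, Real.sin c, Real.sin d] α
      (α * (Real.cos a ^ 2 + Real.cos b ^ 2 + Real.cos c ^ 2 + Real.cos d ^ 2) + ε)
      (α * (Real.cos a * Real.sin a + Real.cos b * Real.sin b + Real.cos c * Real.sin c +
        Real.cos d * Real.sin d))
      (α * (Real.sin a ^ 2 + Real.sin b ^ 2 + Real.sin c ^ 2 + Real.sin d ^ 2) + ε)
      (mA a b c d) (mB a b c d) β := by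
  have ha := Real.sin_sq_add_cos_sq a
  have hb := Real.sin_sq_add_cos_sq b
  have hc := Real.sin_sq_add_cos_sq c
  have hd := Real.sin_sq_add_cos_sq d
  refine ⟨hα, hβ, ?_, ?_, ?_, ?_, ?_, ?_, ?_, ?_, hm⟩
  · intro i
    fin_cases i
    · exact Real.abs_cos_le_one a
    · exact Real.abs_cos_le_one b
    · exact Real.abs_cos_le_one c
    · exact Real.abs_cos_le_one d
  · intro i
    fin_cases i
    · exact Real.abs_sin_le_one a
    · exact Real.abs_sin_le_one b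
    · exact Real.abs_sin_le_one c
    · exact Real.abs_sin_le_one d
  · intro i u v
    have key : (α * (Real.cos a ^ 2 + Real.cos b ^ 2 + Real.cos c ^ 2 + Real.cos d ^ 2) + ε) * u ^ 2 +
        2 * (α * (Real.cos a * Real.sin a + Real.cos b * Real.sin b + Real.cos c * Real.sin c +
        Real.cos d * Real.sin d)) * u * v +
        (α * (Real.sin a ^ 2 + Real.sin b ^ 2 + Real.sin c ^ 2 + Real.sin d ^ 2) + ε) * v ^ 2 =
        α * (Real.cos a * u + Real.sin a * v) ^ 2 + α * (Real.cos b * u + Real.sin b * v) ^ 2 +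
        α * (Real.cos c * u + Real.sin c * v) ^ 2 + α * (Real.cos d * u + Real.sin d * v) ^ 2 +
        ε * (u ^ 2 + v ^ 2) := by ring
    rw [key]
    have t1 : 0 ≤ α * (Real.cos a * u + Real.sin a * v) ^ 2 := by positivity
    have t2 : 0 ≤ α * (Real.cos b * u + Real.sin b * v) ^ 2 := by positivity
    have t3 : 0 ≤ α * (Real.cos c * u + Real.sin c * v) ^ 2 := by positivity
    have t4 : 0 ≤ α * (Real.cos d * u + Real.sin d * v) ^ 2 := by positivity
    have t5 : 0 ≤ ε * (u ^ 2 + v ^ 2) := by positivity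
    fin_cases i
    · simp only [Fin.zero_eta, Matrix.cons_val_zero]
      linarith
    · simp only [Fin.mk_one, Matrix.cons_val_one, Matrix.cons_val_zero]
      linarith
    · simp only [Fin.reduceFinMk, Matrix.cons_val]
      linarith
    · simp only [Fin.reduceFinMk, Matrix.cons_val]
      linarith
  · positivity
  · have cs : (Real.cos a * Real.sin a + Real.cos b * Real.sin b + Real.cos c * Real.sin c +
        Real.cos d * Real.sin d) ^ 2 ≤
        (Real.cos a ^ 2 + Real.cos b ^ 2 + Real.cos c ^ 2 + Real.cos d ^ 2) *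
        (Real.sin a ^ 2 + Real.sin b ^ 2 + Real.sin c ^ 2 + Real.sin d ^ 2) := by
      nlinarith [sq_nonneg (Real.cos a * Real.sin b - Real.cos b * Real.sin a),
        sq_nonneg (Real.cos a * Real.sin c - Real.cos c * Real.sin a),
        sq_nonneg (Real.cos a * Real.sin d - Real.cos d * Real.sin a),
        sq_nonneg (Real.cos b * Real.sin c - Real.cos c * Real.sin b),
        sq_nonneg (Real.cos b * Real.sin d - Real.cos d * Real.sin b),
        sq_nonneg (Real.cos c * Real.sin d - Real.cos d * Real.sin c)]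
    set s1 := Real.cos a ^ 2 + Real.cos b ^ 2 + Real.cos c ^ 2 + Real.cos d ^ 2 with hs1
    set s3 := Real.sin a ^ 2 + Real.sin b ^ 2 + Real.sin c ^ 2 + Real.sin d ^ 2 with hs3
    set s2 := Real.cos a * Real.sin a + Real.cos b * Real.sin b + Real.cos c * Real.sin c +
        Real.cos d * Real.sin d with hs2
    have h1 : 0 ≤ s1 := by positivity
    have h3 : 0 ≤ s3 := by positivity
    have e : (α * s1 + ε) * (α * s3 + ε) - (α * s2) ^ 2 =
        α ^ 2 * (s1 * s3 - s2 ^ 2) + α * ε * s1 + α * ε * s3 + ε ^ 2 := by ring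
    rw [e]
    have h4 : 0 ≤ α ^ 2 * (s1 * s3 - s2 ^ 2) := mul_nonneg (by positivity) (by linarith)
    positivity
  · rw [abs_of_nonneg (by positivity)]
    have : Real.cos a ^ 2 + Real.cos b ^ 2 + Real.cos c ^ 2 + Real.cos d ^ 2 ≤ 4 := by
      nlinarith [sq_nonneg (Real.sin a), sq_nonneg (Real.sin b), sq_nonneg (Real.sin c),
        sq_nonneg (Real.sin d)]
    nlinarith
  · rw [abs_mul, abs_of_pos hα]
    have t : ∀ x : ℝ, |Real.cos x * Real.sin x| ≤ 1 := by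
      intro x
      rw [abs_mul]
      exact mul_le_one₀ (Real.abs_cos_le_one x) (abs_nonneg _) (Real.abs_sin_le_one x)
    have t2 : |Real.cos a * Real.sin a + Real.cos b * Real.sin b + Real.cos c * Real.sin c +
        Real.cos d * Real.sin d| ≤ 4 := by
      have h1 := abs_add_le (Real.cos a * Real.sin a + Real.cos b * Real.sin b +
        Real.cos c * Real.sin c) (Real.cos d * Real.sin d)
      have h2 := abs_add_le (Real.cos a * Real.sin a + Real.cos b * Real.sin b)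
        (Real.cos c * Real.sin c)
      have h3 := abs_add_le (Real.cos a * Real.sin a) (Real.cos b * Real.sin b)
      linarith [t a, t b, t c, t d]
    nlinarith
  · rw [abs_of_nonneg (by positivity)]
    have : Real.sin a ^ 2 + Real.sin b ^ 2 + Real.sin c ^ 2 + Real.sin d ^ 2 ≤ 4 := by
      nlinarith [sq_nonneg (Real.cos a), sq_nonneg (Real.cos b), sq_nonneg (Real.cos c),
        sq_nonneg (Real.cos d)]
    nlinarith

lemma kp_int {κ : ℂ} (hκ : 0 ≤ κ.re) {ε : ℝ} (hε : 0 < ε) (p : (ℝ × ℝ) × (ℝ × ℝ)) :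
    Integrable fun x : ℝ × ℝ => dmp ε x * kprod κ x p := by
  refine (dom_int hε).mono' ?_ (ae_of_all _ fun x => ?_)
  · apply Continuous.aestronglyMeasurable
    unfold dmp kprod Gk ip
    fun_prop
  · rw [norm_mul, dmp_norm]
    unfold dom
    rw [mul_comm]
    gcongr
    exact kprod_le hκ x p

lemma kern {κ : ℂ} (hα : 0 < κ.re) (hβ : κ.im ≠ 0) {ε : ℝ} (hε : 0 < ε) (hεα : ε ≤ κ.re)
    {e : ℝ} (he0 : 0 ≤ e) (he1 : e ≤ 1) (p : (ℝ × ℝ) × (ℝ × ℝ))
    (hm : 0 < mm p.1.1 p.1.2 p.2.1 p.2.2) :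
    ‖∫ x : ℝ × ℝ, dmp ε x * kprod κ x p‖ ≤
      2 * (κ.re ^ (-(1 + e)) * (|κ.im| * √(mm p.1.1 p.1.2 p.2.1 p.2.2)) ^ (-(2 - e))) := by
  obtain ⟨⟨a, b⟩, c, d⟩ := p
  simp only at hm ⊢
  have hq := qf hα hβ hε hεα hm
  have h := hq.ker he0 he1
  refine le_trans (le_of_eq ?_) h
  congr 1
  have hint := kp_int hα.le hε ((a, b), c, d)
  have h2 := integral_prod_symm (μ := (volume : Measure ℝ)) (ν := (volume : Measure ℝ)) _ hint
  refine Eq.trans h2 ?_
  congr 1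
  ext y
  congr 1
  ext x
  have ha := Real.sin_sq_add_cos_sq a
  have hb := Real.sin_sq_add_cos_sq b
  have hc := Real.sin_sq_add_cos_sq c
  have hd := Real.sin_sq_add_cos_sq d
  have e1 : ea (κ.re * (Real.cos a ^ 2 + Real.cos b ^ 2 + Real.cos c ^ 2 + Real.cos d ^ 2) + ε)
      (mA a b c d) κ.im = κ * Real.cos a ^ 2 + κ * Real.cos b ^ 2 + conj κ * Real.cos c ^ 2 +
      conj κ * Real.cos d ^ 2 + ε := by
    unfold ea mA
    apply Complex.ext
    · simp [pow_two, Complex.mul_re, Complex.mul_im, -Complex.ofReal_cos]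
      ring
    · simp [pow_two, Complex.mul_re, Complex.mul_im, -Complex.ofReal_cos]
      ring
  have e2 : eb (κ.re * (Real.cos a * Real.sin a + Real.cos b * Real.sin b +
      Real.cos c * Real.sin c + Real.cos d * Real.sin d)) (mB a b c d) κ.im =
      κ * (Real.cos a * Real.sin a) + κ * (Real.cos b * Real.sin b) +
      conj κ * (Real.cos c * Real.sin c) + conj κ * (Real.cos d * Real.sin d) := by
    unfold eb mB
    apply Complex.ext
    · simp [Complex.mul_re, Complex.mul_im, -Complex.ofReal_cos, -Complex.ofReal_sin]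
      ring
    · simp [Complex.mul_re, Complex.mul_im, -Complex.ofReal_cos, -Complex.ofReal_sin]
      ring
  have e3 : ed (κ.re * (Real.sin a ^ 2 + Real.sin b ^ 2 + Real.sin c ^ 2 + Real.sin d ^ 2) + ε)
      (mA a b c d) κ.im = κ * Real.sin a ^ 2 + κ * Real.sin b ^ 2 + conj κ * Real.sin c ^ 2 +
      conj κ * Real.sin d ^ 2 + ε := by
    unfold ed mA
    apply Complex.ext
    · simp [pow_two, Complex.mul_re, Complex.mul_im, -Complex.ofReal_sin]
      ring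
    · simp [pow_two, Complex.mul_re, Complex.mul_im, -Complex.ofReal_sin]
      linear_combination (-κ.im) * ha - κ.im * hb + κ.im * hc + κ.im * hd
  rw [e1, e2, e3, Fin.prod_univ_four]
  simp only [Matrix.cons_val_zero, Matrix.cons_val_one, Matrix.cons_val]
  unfold dmp kprod Gk ip
  simp only
  have e4 : ∀ z1 z2 z3 z4 z5 u1 u2 u3 u4 : ℂ, cexp z5 * (u1 * cexp z1 * (u2 * cexp z2) *
      (u3 * cexp z3 * (u4 * cexp z4))) = (u1 * u2 * u3 * u4) * cexp (z5 + z1 + z2 + z3 + z4) := by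
    intro z1 z2 z3 z4 z5 u1 u2 u3 u4
    rw [Complex.exp_add, Complex.exp_add, Complex.exp_add, Complex.exp_add]
    ring
  rw [e4]
  congr 1
  · push_cast
    ring
  · congr 1
    push_cast
    ring

lemma int_xp {κ : ℂ} (hκ : 0 ≤ κ.re) {ε : ℝ} (hε : 0 < ε) {g : ℝ → ℂ} (hg : Measurable g)
    {M : ℝ} (hM0 : 0 ≤ M) (hM : ∀ θ, ‖g θ‖ ≤ M) :
    Integrable (fun q : (ℝ × ℝ) × ((ℝ × ℝ) × (ℝ × ℝ)) => dmp ε q.1 *
      (ampl g q.2 * kprod κ q.1 q.2)) ((volume : Measure (ℝ × ℝ)).prod mu4) := by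
  have h1 : Integrable (fun q : (ℝ × ℝ) × ((ℝ × ℝ) × (ℝ × ℝ)) => dom ε q.1 * (M ^ 4))
      ((volume : Measure (ℝ × ℝ)).prod mu4) :=
    (dom_int hε).mul_prod (integrable_const (M ^ 4))
  refine h1.mono' ?_ (ae_of_all _ fun q => ?_)
  · have m1 : Measurable fun q : (ℝ × ℝ) × ((ℝ × ℝ) × (ℝ × ℝ)) => dmp ε q.1 := by
      unfold dmp
      apply Continuous.measurable
      fun_prop
    exact (m1.mul (((ampl_meas hg).comp measurable_snd).mul (kprod_meas κ))).aestronglyMeasurable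
  · rw [norm_mul, norm_mul, dmp_norm]
    unfold dom
    calc Real.exp (-(π * ε) * (q.1.1 ^ 2 + q.1.2 ^ 2)) * (‖ampl g q.2‖ * ‖kprod κ q.1 q.2‖)
        ≤ Real.exp (-(π * ε) * (q.1.1 ^ 2 + q.1.2 ^ 2)) * (M ^ 4 * (|q.1.1| + |q.1.2|) ^ 4) := by
          gcongr
          · exact ampl_le hM0 hM _
          · exact kprod_le hκ _ _
      _ = _ := by ring

lemma W_meas (κ : ℂ) {g : ℝ → ℂ} (hg : Measurable g) : Measurable (W κ g) := by
  unfold W
  have h1 : Measurable fun q : (ℝ × ℝ) × ℝ => g q.2 * Gk κ (ip q.1 q.2) := by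
    refine (hg.comp measurable_snd).mul ?_
    unfold Gk ip
    apply Continuous.measurable
    fun_prop
  exact (h1.stronglyMeasurable.integral_prod_right' (ν := mu)).measurable

/-- the damped estimate -/
lemma L4_eps {κ : ℂ} (hα : 0 < κ.re) (hβ : κ.im ≠ 0) {ε : ℝ} (hε : 0 < ε) (hεα : ε ≤ κ.re)
    {e : ℝ} (he0 : 0 ≤ e) (he1 : e ≤ 1) {g : ℝ → ℂ} (hg : Measurable g)
    {M : ℝ} (hM0 : 0 ≤ M) (hM : ∀ θ, ‖g θ‖ ≤ M) :
    ∫⁻ x : ℝ × ℝ, ‖W κ g x‖ₑ ^ 4 * ENNReal.ofReal (Real.exp (-(π * ε) * (x.1 ^ 2 + x.2 ^ 2))) ≤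
      ENNReal.ofReal (2 * (κ.re ^ (-(1 + e)) * |κ.im| ^ (-(2 - e)))) *
        (4 * Ka (1 - e / 2) * ∫⁻ θ, ‖g θ‖ₑ ^ 4 ∂mu) := by
  have hβ' : 0 < |κ.im| := abs_pos.2 hβ
  set R : (ℝ × ℝ) → ℝ := fun x => Real.exp (-(π * ε) * (x.1 ^ 2 + x.2 ^ 2)) * ‖W κ g x‖ ^ 4 with hR
  have hI := int_xp hα.le hε hg hM0 hM (κ := κ)
  have hRx : ∀ x, ((R x : ℝ) : ℂ) = ∫ p, dmp ε x * (ampl g p * kprod κ x p) ∂mu4 := by
    intro x
    rw [hR]
    simp only
    rw [Complex.ofReal_mul, ← dmp_eq, W4, integral_const_mul]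
  have hRint : Integrable (fun x => ((R x : ℝ) : ℂ)) := by
    have := hI.integral_prod_left
    refine this.congr (ae_of_all _ fun x => ?_)
    exact (hRx x).symm
  have hRint' : Integrable R := by
    have := hRint.re
    refine this.congr (ae_of_all _ fun x => ?_)
    simp
  have hR0 : ∀ x, 0 ≤ R x := fun x => by
    rw [hR]
    positivity
  have e1 : ∫⁻ x : ℝ × ℝ, ‖W κ g x‖ₑ ^ 4 *
      ENNReal.ofReal (Real.exp (-(π * ε) * (x.1 ^ 2 + x.2 ^ 2))) = ENNReal.ofReal (∫ x, R x) := by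
    rw [ofReal_integral_eq_lintegral_ofReal hRint' (ae_of_all _ hR0)]
    congr 1
    ext x
    rw [hR]
    simp only
    rw [ENNReal.ofReal_mul (Real.exp_pos _).le, ENNReal.ofReal_pow (norm_nonneg _), ofReal_norm,
      mul_comm]
  rw [e1]
  have e2 : ENNReal.ofReal (∫ x, R x) = ‖∫ x, ((R x : ℝ) : ℂ)‖ₑ := by
    rw [integral_complex_ofReal, ← ofReal_norm, Complex.norm_real,
      Real.norm_of_nonneg (integral_nonneg hR0)]
  rw [e2]
  have e3 : ∫ x, ((R x : ℝ) : ℂ) =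
      ∫ p, ampl g p * (∫ x : ℝ × ℝ, dmp ε x * kprod κ x p) ∂mu4 := by
    simp only [hRx]
    rw [integral_integral_swap hI]
    congr 1
    ext p
    rw [← integral_const_mul]
    congr 1
    ext x
    ring
  rw [e3]
  refine (enorm_integral_le_lintegral_enorm _).trans ?_
  have e4 : ∀ p, ‖ampl g p * (∫ x : ℝ × ℝ, dmp ε x * kprod κ x p)‖ₑ ≤
      ENNReal.ofReal (2 * (κ.re ^ (-(1 + e)) * |κ.im| ^ (-(2 - e)))) *
        (‖g p.1.1‖ₑ * ‖g p.1.2‖ₑ * (‖g p.2.1‖ₑ * ‖g p.2.2‖ₑ) * Nk (1 - e / 2) p) := by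
    intro p
    have hamp : ‖ampl g p‖ₑ = ‖g p.1.1‖ₑ * ‖g p.1.2‖ₑ * (‖g p.2.1‖ₑ * ‖g p.2.2‖ₑ) := by
      unfold ampl
      rw [enorm_mul, enorm_mul, enorm_mul]
      congr 2
      · rw [← ofReal_norm, RCLike.norm_conj, ofReal_norm]
      · rw [← ofReal_norm, RCLike.norm_conj, ofReal_norm]
    rw [enorm_mul, hamp]
    set A := ‖g p.1.1‖ₑ * ‖g p.1.2‖ₑ * (‖g p.2.1‖ₑ * ‖g p.2.2‖ₑ) with hA
    rcases (mm_nonneg p.1.1 p.1.2 p.2.1 p.2.2).eq_or_lt with h0 | h0
    · have hN : Nk (1 - e / 2) p = ⊤ := by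
        unfold Nk
        rw [← h0, P_zero (by linarith)]
      rw [hN]
      by_cases hA0 : A = 0
      · rw [hA0]
        simp
      · rw [ENNReal.mul_top hA0, ENNReal.mul_top]
        · exact le_top
        · rw [Ne, ENNReal.ofReal_eq_zero, not_le]
          positivity
    · have h1 := kern hα hβ hε hεα he0 he1 p h0
      have h2 : (|κ.im| * √(mm p.1.1 p.1.2 p.2.1 p.2.2)) ^ (-(2 - e)) =
          |κ.im| ^ (-(2 - e)) * (mm p.1.1 p.1.2 p.2.1 p.2.2) ^ (-(1 - e / 2)) := by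
        rw [Real.mul_rpow hβ'.le (Real.sqrt_nonneg _), Real.sqrt_eq_rpow, ← Real.rpow_mul h0.le]
        congr 2
        ring
      rw [h2] at h1
      have h3 : ‖∫ x : ℝ × ℝ, dmp ε x * kprod κ x p‖ₑ ≤
          ENNReal.ofReal (2 * (κ.re ^ (-(1 + e)) * |κ.im| ^ (-(2 - e)))) * Nk (1 - e / 2) p := by
        rw [← ofReal_norm]
        unfold Nk
        rw [P_pos _ _ h0.ne', abs_of_pos h0, ← ENNReal.ofReal_mul (by positivity)]
        apply ENNReal.ofReal_le_ofReal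
        refine h1.trans (le_of_eq ?_)
        ring
      calc A * ‖∫ x : ℝ × ℝ, dmp ε x * kprod κ x p‖ₑ
          ≤ A * (ENNReal.ofReal (2 * (κ.re ^ (-(1 + e)) * |κ.im| ^ (-(2 - e)))) *
            Nk (1 - e / 2) p) := by gcongr
        _ = _ := by ring
  refine (lintegral_mono e4).trans ?_
  rw [lintegral_const_mul' _ _ ENNReal.ofReal_ne_top]
  gcongr
  exact four_ang (by linarith) (by linarith) _ hg.enorm

/-- the `L^4` estimate -/
theorem L4w {κ : ℂ} (hα : 0 < κ.re) (hβ : κ.im ≠ 0) {e : ℝ} (he0 : 0 ≤ e) (he1 : e ≤ 1)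
    {g : ℝ → ℂ} (hg : Measurable g) {M : ℝ} (hM0 : 0 ≤ M) (hM : ∀ θ, ‖g θ‖ ≤ M) :
    ∫⁻ x : ℝ × ℝ, ‖W κ g x‖ₑ ^ 4 ≤
      ENNReal.ofReal (2 * (κ.re ^ (-(1 + e)) * |κ.im| ^ (-(2 - e)))) *
        (4 * Ka (1 - e / 2) * ∫⁻ θ, ‖g θ‖ₑ ^ 4 ∂mu) := by
  set B := ENNReal.ofReal (2 * (κ.re ^ (-(1 + e)) * |κ.im| ^ (-(2 - e)))) *
        (4 * Ka (1 - e / 2) * ∫⁻ θ, ‖g θ‖ₑ ^ 4 ∂mu) with hB
  set f : ℕ → (ℝ × ℝ) → ℝ≥0∞ := fun n x => ‖W κ g x‖ₑ ^ 4 *
    ENNReal.ofReal (Real.exp (-(π * (κ.re / (n + 1))) * (x.1 ^ 2 + x.2 ^ 2))) with hf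
  have h1 : ∀ n, ∫⁻ x, f n x ≤ B := by
    intro n
    have hn : (0 : ℝ) < n + 1 := by positivity
    apply L4_eps hα hβ (by positivity) _ he0 he1 hg hM0 hM
    apply div_le_self hα.le
    have : (0 : ℝ) ≤ n := Nat.cast_nonneg n
    linarith
  have hmf : ∀ n, Measurable (f n) := by
    intro n
    rw [hf]
    refine ((W_meas κ hg).enorm.pow_const 4).mul ?_
    apply Measurable.ennreal_ofReal
    apply Continuous.measurable
    fun_prop
  have h2 : ∀ x, ‖W κ g x‖ₑ ^ 4 = liminf (fun n => f n x) atTop := by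
    intro x
    symm
    apply Tendsto.liminf_eq
    have h3 : Tendsto (fun n : ℕ => Real.exp (-(π * (κ.re / (n + 1))) * (x.1 ^ 2 + x.2 ^ 2)))
        atTop (𝓝 (Real.exp (-(π * 0) * (x.1 ^ 2 + x.2 ^ 2)))) := by
      apply (Real.continuous_exp.tendsto _).comp
      apply Tendsto.mul_const
      apply Tendsto.neg
      apply Tendsto.const_mul
      exact tendsto_const_div_atTop_nhds_zero_nat κ.re |>.comp (tendsto_add_atTop_nat 1) |>.congr
        (fun n => by simp)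
    have h4 := ENNReal.tendsto_ofReal h3
    have h5 : ENNReal.ofReal (Real.exp (-(π * 0) * (x.1 ^ 2 + x.2 ^ 2))) = 1 := by simp
    rw [h5] at h4
    have h6 := ENNReal.Tendsto.const_mul (a := ‖W κ g x‖ₑ ^ 4) h4 (Or.inl one_ne_zero)
    rwa [mul_one] at h6
  calc ∫⁻ x : ℝ × ℝ, ‖W κ g x‖ₑ ^ 4 = ∫⁻ x, liminf (fun n => f n x) atTop := by
        congr 1
        ext x
        exact h2 x
    _ ≤ liminf (fun n => ∫⁻ x, f n x) atTop := lintegral_liminf_le hmf
    _ ≤ B := by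
        apply liminf_le_of_le
        · isBoundedDefault
        · intro b hb
          obtain ⟨n, hn⟩ := hb.exists
          exact hn.trans (h1 n)

end Pool.Agent.R245.PB
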