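import Mathlib
import Pool.Agent.R245.PB.L4
import Pool.Agent.H153R4.Pl
set_option autoImplicit false

/-! The planar extension operator, Plancherel, and polar coordinates. -/

namespace Pool.Agent.R245.PB

open MeasureTheory Set Complex Filter Real
open scoped ENNReal Topology ComplexConjugate FourierTransform RealInnerProductSpace

/-- `e(x) = exp (2 π i x)` -/
noncomputable def ec (x : ℝ) : ℂ := cexp (((2 * π * x : ℝ) : ℂ) * I)

lemma ec_norm (x : ℝ) : ‖ec x‖ = 1 := by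
  unfold ec
  rw [Complex.norm_exp_ofReal_mul_I]

lemma ec_add (x y : ℝ) : ec (x + y) = ec x * ec y := by
  unfold ec
  rw [← Complex.exp_add]
  congr 1
  push_cast
  ring

lemma ec_cont : Continuous ec := by
  unfold ec
  fun_prop

lemma ec_meas : Measurable ec := ec_cont.measurable

/-- the extension operator of the paraboloid over the plane -/
noncomputable def Ext (f : ℝ × ℝ → ℂ) (t : ℝ) (x : ℝ × ℝ) : ℂ :=
  ∫ ξ, f ξ * ec (ξ.1 * x.1 + ξ.2 * x.2 + (ξ.1 ^ 2 + ξ.2 ^ 2) * t)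

/-- the plane -/
abbrev V2 := EuclideanSpace ℝ (Fin 2)

/-- coordinates -/
noncomputable def pl : V2 ≃ᵐ ℝ × ℝ :=
  (MeasurableEquiv.toLp 2 (Fin 2 → ℝ)).symm.trans MeasurableEquiv.finTwoArrow

lemma pl_apply (v : V2) : pl v = (v 0, v 1) := rfl

lemma pl_mp : MeasurePreserving pl (volume : Measure V2) volume :=
  (PiLp.volume_preserving_ofLp (Fin 2)).trans (volume_preserving_finTwoArrow ℝ)

lemma neg_mp : MeasurePreserving (fun x : ℝ × ℝ => -x) volume volume :=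
  Measure.measurePreserving_neg _

lemma lint_neg (F : ℝ × ℝ → ℝ≥0∞) (hF : Measurable F) : ∫⁻ x, F (-x) = ∫⁻ x, F x :=
  neg_mp.lintegral_comp hF

lemma Ext_four (f : ℝ × ℝ → ℂ) (t : ℝ) (w : V2) :
    𝓕 (fun v : V2 => f (pl v) * ec (((pl v).1 ^ 2 + (pl v).2 ^ 2) * t)) w = Ext f t (-(pl w)) := by
  rw [Real.fourier_eq']
  unfold Ext
  rw [← pl_mp.integral_comp pl.measurableEmbedding]
  congr 1
  ext v
  rw [pl_apply, pl_apply]
  simp only [Prod.neg_mk]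
  have e1 : (⟪v, w⟫ : ℝ) = v 0 * w 0 + v 1 * w 1 := by
    rw [PiLp.inner_apply, Fin.sum_univ_two]
    simp only [RCLike.inner_apply, conj_trivial]
    ring
  rw [e1, smul_eq_mul]
  unfold ec
  rw [mul_left_comm, ← Complex.exp_add]
  congr 2
  push_cast
  ring

lemma Ext_meas {f : ℝ × ℝ → ℂ} (hf : Measurable f) (t : ℝ) : Measurable (Ext f t) := by
  unfold Ext
  have h1 : Measurable fun q : (ℝ × ℝ) × (ℝ × ℝ) =>
      f q.2 * ec (q.2.1 * q.1.1 + q.2.2 * q.1.2 + (q.2.1 ^ 2 + q.2.2 ^ 2) * t) :=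
    (hf.comp measurable_snd).mul (ec_meas.comp (by fun_prop))
  exact (h1.stronglyMeasurable.integral_prod_right' (ν := (volume : Measure (ℝ × ℝ)))).measurable

/-- Plancherel's theorem -/
theorem planch2 {f : ℝ × ℝ → ℂ} (hfm : Measurable f) (hf : Integrable f) (hf2 : MemLp f 2)
    (t : ℝ) : ∫⁻ x, ‖Ext f t x‖ₑ ^ 2 = ∫⁻ ξ, ‖f ξ‖ₑ ^ 2 := by
  set F : V2 → ℂ := fun v => f (pl v) * ec (((pl v).1 ^ 2 + (pl v).2 ^ 2) * t) with hF
  have hnorm : ∀ v, ‖F v‖ = ‖f (pl v)‖ := by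
    intro v
    rw [hF]
    simp only
    rw [norm_mul, ec_norm, mul_one]
  have hFm : Measurable F :=
    (hfm.comp pl.measurable).mul (ec_meas.comp (by
      have h1 : Measurable fun v : V2 => pl v := pl.measurable
      fun_prop))
  have hF1 : Integrable F := by
    have h1 : Integrable (f ∘ pl) := (pl_mp.integrable_comp_emb pl.measurableEmbedding).2 hf
    exact h1.mono hFm.aestronglyMeasurable (ae_of_all _ fun v => (hnorm v).le)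
  have hF2 : MemLp F 2 := by
    have h1 : MemLp (f ∘ pl) 2 := hf2.comp_measurePreserving pl_mp
    exact h1.mono hFm.aestronglyMeasurable (ae_of_all _ fun v => (hnorm v).le)
  have h := Pool.Agent.H153R4.plancherel F hF1 hF2
  have e1 : ∫⁻ ξ, ‖𝓕 F ξ‖ₑ ^ 2 = ∫⁻ x, ‖Ext f t x‖ₑ ^ 2 := by
    have hm : Measurable fun x => ‖Ext f t x‖ₑ ^ 2 := (Ext_meas hfm t).enorm.pow_const 2
    rw [← lint_neg _ hm]
    have hm' : Measurable fun x : ℝ × ℝ => ‖Ext f t (-x)‖ₑ ^ 2 := hm.comp measurable_neg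
    rw [← pl_mp.lintegral_comp hm']
    congr 1
    ext w
    rw [hF, Ext_four]
  have e2 : ∫⁻ x, ‖F x‖ₑ ^ 2 = ∫⁻ ξ, ‖f ξ‖ₑ ^ 2 := by
    rw [← pl_mp.lintegral_comp (hfm.enorm.pow_const 2)]
    congr 1
    ext v
    rw [← ofReal_norm, ← ofReal_norm, hnorm]
  rw [← e1, h, e2]

/-- substitution of the square -/
lemma sq_sub (G : ℝ → ℝ≥0∞) :
    ∫⁻ s in Ioi (0:ℝ), G s = 2 * ∫⁻ r in Ioi (0:ℝ), ENNReal.ofReal r * G (r ^ 2) := by
  have h1 : (fun r : ℝ => r ^ 2) '' Ioi (0:ℝ) = Ioi 0 := by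
    ext s
    simp only [mem_image, mem_Ioi]
    constructor
    · rintro ⟨r, hr, rfl⟩
      positivity
    · intro hs
      exact ⟨√s, Real.sqrt_pos.2 hs, Real.sq_sqrt hs.le⟩
  have h2 : ∀ r ∈ Ioi (0:ℝ), HasDerivWithinAt (fun r : ℝ => r ^ 2) (2 * r) (Ioi 0) r := by
    intro r _
    have := (hasDerivAt_pow 2 r).hasDerivWithinAt (s := Ioi 0)
    simpa using this
  have h3 : InjOn (fun r : ℝ => r ^ 2) (Ioi 0) := by
    intro a ha b hb hab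
    exact (pow_left_inj₀ (le_of_lt ha) (le_of_lt hb) (by norm_num)).1 hab
  have h := lintegral_image_eq_lintegral_abs_deriv_mul measurableSet_Ioi h2 h3 G
  rw [h1] at h
  rw [h, ← lintegral_const_mul' _ _ (by norm_num)]
  apply setLIntegral_congr_fun measurableSet_Ioi
  intro r hr
  have hr0 : (0:ℝ) < r := hr
  simp only
  rw [abs_of_pos (by positivity), ENNReal.ofReal_mul (by norm_num)]
  rw [mul_assoc]
  norm_num

/-- a function in polar form -/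
noncomputable def pf {β : Type*} (Φ : ℝ → ℝ → β) (ξ : ℝ × ℝ) : β :=
  Φ (polarCoord ξ).2 (ξ.1 ^ 2 + ξ.2 ^ 2)

lemma pf_meas {β : Type*} [MeasurableSpace β] {Φ : ℝ → ℝ → β}
    (hΦ : Measurable fun p : ℝ × ℝ => Φ p.1 p.2) : Measurable (pf Φ) := by
  unfold pf
  have h1 : Measurable fun ξ : ℝ × ℝ => (polarCoord ξ).2 := by
    have : (fun ξ : ℝ × ℝ => (polarCoord ξ).2) = fun ξ : ℝ × ℝ =>
        Complex.arg (Complex.equivRealProd.symm ξ) := by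
      ext ξ
      rfl
    rw [this]
    refine Complex.measurable_arg.comp ?_
    exact (Complex.measurableEquivRealProd.symm).measurable
  have h2 : Measurable fun ξ : ℝ × ℝ => ((polarCoord ξ).2, ξ.1 ^ 2 + ξ.2 ^ 2) :=
    h1.prodMk (by fun_prop)
  exact hΦ.comp h2

lemma pf_symm {β : Type*} (Φ : ℝ → ℝ → β) {p : ℝ × ℝ} (hp : p ∈ polarCoord.target) :
    pf Φ (polarCoord.symm p) = Φ p.2 (p.1 ^ 2) := by
  unfold pf
  rw [polarCoord.right_inv hp, polarCoord_symm_apply]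
  simp only
  congr 1
  have := Real.sin_sq_add_cos_sq p.2
  linear_combination p.1 ^ 2 * this

lemma targ : (volume : Measure (ℝ × ℝ)).restrict polarCoord.target =
    (volume.restrict (Ioi (0:ℝ))).prod mu := by
  rw [polarCoord_target]
  unfold mu I0
  rw [Measure.volume_eq_prod, Measure.prod_restrict]

lemma lint_pf {Φ : ℝ → ℝ → ℝ≥0∞} (hΦ : Measurable fun p : ℝ × ℝ => Φ p.1 p.2) :
    2 * ∫⁻ ξ, pf Φ ξ = ∫⁻ θ, (∫⁻ s in Ioi (0:ℝ), Φ θ s) ∂mu := by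
  rw [← lintegral_comp_polarCoord_symm]
  have h1 : ∫⁻ p in polarCoord.target, ENNReal.ofReal p.1 • pf Φ (polarCoord.symm p) =
      ∫⁻ p in polarCoord.target, ENNReal.ofReal p.1 * Φ p.2 (p.1 ^ 2) := by
    apply setLIntegral_congr_fun (polarCoord.open_target.measurableSet)
    intro p hp
    simp only [smul_eq_mul]
    rw [pf_symm Φ hp]
  have hm : Measurable fun p : ℝ × ℝ => ENNReal.ofReal p.1 * Φ p.2 (p.1 ^ 2) :=
    (measurable_fst.ennreal_ofReal).mul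
      (hΦ.comp (f := fun p : ℝ × ℝ => (p.2, p.1 ^ 2)) (by fun_prop))
  rw [h1, targ, lintegral_prod_symm _ hm.aemeasurable, ← lintegral_const_mul' _ _ (by norm_num)]
  congr 1
  ext θ
  rw [sq_sub (Φ θ)]

/-- the odd operator in polar coordinates -/
noncomputable def TT (Φ : ℝ → ℝ → ℂ) (t : ℝ) (x : ℝ × ℝ) : ℂ :=
  ∫ θ, (∫ r : ℝ, (r : ℂ) * Φ θ (r ^ 2) * ec (r * ip x θ + r ^ 2 * t)) ∂mu

/-- negation -/
lemma ip_neg (x : ℝ × ℝ) (θ : ℝ) : ip (-x) θ = -ip x θ := by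
  unfold ip
  simp
  ring

/-- the integrand in polar coordinates -/
noncomputable def pg (Φ : ℝ → ℝ → ℂ) (t : ℝ) (x : ℝ × ℝ) (p : ℝ × ℝ) : ℂ :=
  (p.1 : ℂ) * Φ p.2 (p.1 ^ 2) * ec (p.1 * ip x p.2 + p.1 ^ 2 * t)

lemma pg_meas {Φ : ℝ → ℝ → ℂ} (hΦ : Measurable fun p : ℝ × ℝ => Φ p.1 p.2) (t : ℝ) (x : ℝ × ℝ) :
    Measurable (pg Φ t x) := by
  unfold pg
  have h1 : Measurable fun p : ℝ × ℝ => Φ p.2 (p.1 ^ 2) :=
    hΦ.comp (f := fun p : ℝ × ℝ => (p.2, p.1 ^ 2)) (by fun_prop)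
  have h2 : Measurable fun p : ℝ × ℝ => ec (p.1 * ip x p.2 + p.1 ^ 2 * t) := by
    refine ec_meas.comp ?_
    unfold ip
    apply Continuous.measurable
    fun_prop
  exact ((Complex.measurable_ofReal.comp measurable_fst).mul h1).mul h2

lemma pg_norm (Φ : ℝ → ℝ → ℂ) (t : ℝ) (x : ℝ × ℝ) (p : ℝ × ℝ) :
    ‖pg Φ t x p‖ₑ = ‖p.1‖ₑ * ‖Φ p.2 (p.1 ^ 2)‖ₑ := by
  unfold pg
  rw [enorm_mul, enorm_mul, ← ofReal_norm (ec _), ec_norm, ENNReal.ofReal_one, mul_one,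
    ← ofReal_norm ((p.1 : ℝ) : ℂ), Complex.norm_real, ofReal_norm]

variable {Φ : ℝ → ℝ → ℂ}

lemma nPhi_meas (hΦ : Measurable fun p : ℝ × ℝ => Φ p.1 p.2) :
    Measurable fun p : ℝ × ℝ => ‖Φ p.1 p.2‖ₑ := hΦ.enorm

lemma pg_int (hΦ : Measurable fun p : ℝ × ℝ => Φ p.1 p.2)
    (hA : ∫⁻ θ, (∫⁻ s in Ioi (0:ℝ), ‖Φ θ s‖ₑ) ∂mu < ⊤) (t : ℝ) (x : ℝ × ℝ) :
    Integrable (pg Φ t x) ((volume.restrict (Ioi (0:ℝ))).prod mu) := by
  refine ⟨(pg_meas hΦ t x).aestronglyMeasurable, ?_⟩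
  unfold HasFiniteIntegral
  rw [lintegral_prod_symm _ (pg_meas hΦ t x).enorm.aemeasurable]
  have h1 : ∀ θ, 2 * ∫⁻ r in Ioi (0:ℝ), ‖pg Φ t x (r, θ)‖ₑ = ∫⁻ s in Ioi (0:ℝ), ‖Φ θ s‖ₑ := by
    intro θ
    rw [sq_sub (fun s => ‖Φ θ s‖ₑ)]
    congr 1
    apply setLIntegral_congr_fun measurableSet_Ioi
    intro r hr
    simp only
    rw [pg_norm]
    simp only
    congr 1
    rw [← ofReal_norm, Real.norm_of_nonneg (le_of_lt hr)]
  have h2 : 2 * ∫⁻ θ, (∫⁻ r in Ioi (0:ℝ), ‖pg Φ t x (r, θ)‖ₑ) ∂mu < ⊤ := by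
    rw [← lintegral_const_mul' _ _ (by norm_num)]
    simp only [h1]
    exact hA
  refine lt_of_le_of_lt ?_ h2
  rw [two_mul]
  exact le_self_add

lemma pf_int (hΦ : Measurable fun p : ℝ × ℝ => Φ p.1 p.2)
    (hA : ∫⁻ θ, (∫⁻ s in Ioi (0:ℝ), ‖Φ θ s‖ₑ) ∂mu < ⊤) : Integrable (pf Φ) := by
  refine ⟨(pf_meas hΦ).aestronglyMeasurable, ?_⟩
  unfold HasFiniteIntegral
  have h1 := lint_pf (Φ := fun θ s => ‖Φ θ s‖ₑ) (nPhi_meas hΦ)
  have h2 : ∫⁻ ξ, ‖pf Φ ξ‖ₑ ≤ 2 * ∫⁻ ξ, pf (fun θ s => ‖Φ θ s‖ₑ) ξ := by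
    rw [two_mul]
    exact le_self_add
  rw [h1] at h2
  exact lt_of_le_of_lt h2 hA

lemma Ext_polar (hΦ : Measurable fun p : ℝ × ℝ => Φ p.1 p.2)
    (hA : ∫⁻ θ, (∫⁻ s in Ioi (0:ℝ), ‖Φ θ s‖ₑ) ∂mu < ⊤) (t : ℝ) (x : ℝ × ℝ) :
    Ext (pf Φ) t x = ∫ θ, (∫ r in Ioi (0:ℝ), pg Φ t x (r, θ)) ∂mu := by
  unfold Ext
  rw [← integral_comp_polarCoord_symm]
  have h1 : ∫ p in polarCoord.target, p.1 • (pf Φ (polarCoord.symm p) *
      ec ((polarCoord.symm p).1 * x.1 + (polarCoord.symm p).2 * x.2 +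
        ((polarCoord.symm p).1 ^ 2 + (polarCoord.symm p).2 ^ 2) * t)) =
      ∫ p in polarCoord.target, pg Φ t x p := by
    apply setIntegral_congr_fun (polarCoord.open_target.measurableSet)
    intro p hp
    simp only
    rw [pf_symm Φ hp, polarCoord_symm_apply]
    simp only
    unfold pg
    have e1 : p.1 * Real.cos p.2 * x.1 + p.1 * Real.sin p.2 * x.2 +
        ((p.1 * Real.cos p.2) ^ 2 + (p.1 * Real.sin p.2) ^ 2) * t =
        p.1 * ip x p.2 + p.1 ^ 2 * t := by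
      unfold ip
      have := Real.sin_sq_add_cos_sq p.2
      linear_combination p.1 ^ 2 * t * this
    rw [Complex.real_smul, e1, mul_assoc]
  rw [h1, targ]
  exact integral_prod_symm _ (pg_int hΦ hA t x)

lemma TT_eq (hΦ : Measurable fun p : ℝ × ℝ => Φ p.1 p.2)
    (hA : ∫⁻ θ, (∫⁻ s in Ioi (0:ℝ), ‖Φ θ s‖ₑ) ∂mu < ⊤) (t : ℝ) (x : ℝ × ℝ) :
    TT Φ t x = Ext (pf Φ) t x - Ext (pf Φ) t (-x) := by
  rw [Ext_polar hΦ hA, Ext_polar hΦ hA]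
  have i1 := pg_int hΦ hA t x
  have i2 := pg_int hΦ hA t (-x)
  rw [← integral_sub i1.integral_prod_right i2.integral_prod_right]
  unfold TT
  apply integral_congr_ae
  filter_upwards [i1.prod_left_ae, i2.prod_left_ae] with θ h1 h2
  set F : ℝ → ℂ := fun r => (r : ℂ) * Φ θ (r ^ 2) * ec (r * ip x θ + r ^ 2 * t) with hF
  have e1 : ∀ r : ℝ, F (-r) = -pg Φ t (-x) (r, θ) := by
    intro r
    rw [hF]
    unfold pg
    simp only [ip_neg]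
    push_cast
    rw [neg_sq]
    have : -r * ip x θ + r ^ 2 * t = r * -ip x θ + r ^ 2 * t := by ring
    rw [this]
    ring
  have j1 : IntegrableOn F (Ioi 0) := h1
  have j2 : IntegrableOn F (Iic 0) := by
    have j3 : IntegrableOn (fun r => F (-r)) (Ioi 0) := by
      have : (fun r => F (-r)) = fun r => -pg Φ t (-x) (r, θ) := funext e1
      rw [this]
      exact h2.neg
    have j4 := (Measure.measurePreserving_neg (volume : Measure ℝ)).integrableOn_comp_preimage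
      (MeasurableEquiv.neg ℝ).measurableEmbedding (f := F) (s := Iio 0)
    have e : (Neg.neg : ℝ → ℝ) ⁻¹' Iio 0 = Ioi 0 := by
      ext r
      simp
    rw [e] at j4
    have j5 : IntegrableOn F (Iio 0) := j4.1 j3
    exact (integrableOn_Iic_iff_integrableOn_Iio (by simp)).2 j5
  have e2 : ∫ r : ℝ, F r = (∫ r in Iic (0:ℝ), F r) + ∫ r in Ioi (0:ℝ), F r := by
    rw [← setIntegral_union (Iic_disjoint_Ioi le_rfl) measurableSet_Ioi j2 j1, Iic_union_Ioi,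
      setIntegral_univ]
  have e3 : ∫ r in Iic (0:ℝ), F r = -∫ r in Ioi (0:ℝ), pg Φ t (-x) (r, θ) := by
    have h3 := integral_comp_neg_Ioi (0:ℝ) F
    rw [neg_zero] at h3
    rw [← h3, ← integral_neg]
    congr 1
    ext r
    exact e1 r
  change ∫ r : ℝ, F r = _
  rw [e2, e3]
  have e4 : ∫ r in Ioi (0:ℝ), F r = ∫ r in Ioi (0:ℝ), pg Φ t x (r, θ) := rfl
  rw [e4]
  ring

/-- the `L^2` bound -/
theorem TT_L2 (hΦ : Measurable fun p : ℝ × ℝ => Φ p.1 p.2)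
    (hA : ∫⁻ θ, (∫⁻ s in Ioi (0:ℝ), ‖Φ θ s‖ₑ) ∂mu < ⊤) (t : ℝ) :
    ∫⁻ x, ‖TT Φ t x‖ₑ ^ 2 ≤ 2 * ∫⁻ θ, (∫⁻ s in Ioi (0:ℝ), ‖Φ θ s‖ₑ ^ 2) ∂mu := by
  by_cases hB : ∫⁻ θ, (∫⁻ s in Ioi (0:ℝ), ‖Φ θ s‖ₑ ^ 2) ∂mu = ⊤
  · rw [hB, ENNReal.mul_top (by norm_num)]
    exact le_top
  have hI := pf_int hΦ hA
  have h1 := lint_pf (Φ := fun θ s => ‖Φ θ s‖ₑ ^ 2) ((nPhi_meas hΦ).pow_const 2)
  have h2 : ∫⁻ ξ, pf (fun θ s => ‖Φ θ s‖ₑ ^ 2) ξ = ∫⁻ ξ, ‖pf Φ ξ‖ₑ ^ 2 := rfl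
  have h3 : MemLp (pf Φ) 2 := by
    refine ⟨(pf_meas hΦ).aestronglyMeasurable, ?_⟩
    rw [eLpNorm_lt_top_iff_lintegral_rpow_enorm_lt_top (by norm_num) (by norm_num)]
    simp only [ENNReal.toReal_ofNat, ENNReal.rpow_ofNat]
    rw [← h2]
    refine lt_of_le_of_lt ?_ (lt_top_iff_ne_top.2 hB)
    rw [← h1, two_mul]
    exact le_self_add
  have h4 := planch2 (pf_meas hΦ) hI h3 t
  have hm : Measurable fun x => ‖Ext (pf Φ) t x‖ₑ ^ 2 := (Ext_meas (pf_meas hΦ) t).enorm.pow_const 2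
  have h5 : ∫⁻ x, ‖Ext (pf Φ) t (-x)‖ₑ ^ 2 = ∫⁻ x, ‖Ext (pf Φ) t x‖ₑ ^ 2 := lint_neg _ hm
  calc ∫⁻ x, ‖TT Φ t x‖ₑ ^ 2
      ≤ ∫⁻ x, (2 * ‖Ext (pf Φ) t x‖ₑ ^ 2 + 2 * ‖Ext (pf Φ) t (-x)‖ₑ ^ 2) := by
        apply lintegral_mono
        intro x
        simp only
        rw [TT_eq hΦ hA]
        have h6 : ‖Ext (pf Φ) t x - Ext (pf Φ) t (-x)‖ₑ ≤
            ‖Ext (pf Φ) t x‖ₑ + ‖Ext (pf Φ) t (-x)‖ₑ := enorm_sub_le
        refine (pow_le_pow_left₀ zero_le h6 2).trans ?_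
        have h7 := ENNReal.rpow_add_le_mul_rpow_add_rpow (‖Ext (pf Φ) t x‖ₑ)
          (‖Ext (pf Φ) t (-x)‖ₑ) (p := 2) (by norm_num)
        simp only [ENNReal.rpow_ofNat] at h7
        refine h7.trans (le_of_eq ?_)
        have h8 : (2 : ℝ≥0∞) ^ ((2 : ℝ) - 1) = 2 := by norm_num
        rw [h8, mul_add]
    _ = 2 * (∫⁻ x, ‖Ext (pf Φ) t x‖ₑ ^ 2) + 2 * ∫⁻ x, ‖Ext (pf Φ) t (-x)‖ₑ ^ 2 := by
        rw [lintegral_add_left (hm.const_mul 2), lintegral_const_mul' _ _ (by norm_num),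
          lintegral_const_mul' _ _ (by norm_num)]
    _ = 2 * (2 * ∫⁻ ξ, pf (fun θ s => ‖Φ θ s‖ₑ ^ 2) ξ) := by
        rw [h5, h4, h2]
        ring
    _ = _ := by rw [h1]

end Pool.Agent.R245.PB
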