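import Mathlib
import Pool.Agent.R245.PB.Pol
import Pool.Agent.H438R2.PD.A5
set_option autoImplicit false

/-! The fixed time `L^4` bound for all times. -/

namespace Pool.Agent.R245.PB

open MeasureTheory Set Complex Filter Real
open scoped ENNReal Topology ComplexConjugate

/-- the kernel of a direction -/
noncomputable def Kf (u τ : ℝ) : ℂ := ∫ r : ℝ, (r : ℂ) * cexp (-π * r ^ 2) * ec (r * u + r ^ 2 * τ)

/-- the complex time -/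
def zt (τ : ℝ) : ℂ := ⟨1, -(2 * τ)⟩

lemma zt_re (τ : ℝ) : (zt τ).re = 1 := rfl
lemma zt_im (τ : ℝ) : (zt τ).im = -(2 * τ) := rfl

lemma zt_ne (τ : ℝ) : zt τ ≠ 0 := by
  intro h
  have := congrArg Complex.re h
  simp [zt] at this

lemma zt_eq (τ : ℝ) : zt τ = 1 - 2 * τ * I := by
  apply Complex.ext <;> simp [zt]

lemma zt_sq (τ : ℝ) : Complex.normSq (zt τ) = 1 + 4 * τ ^ 2 := by
  rw [Complex.normSq_apply, zt_re, zt_im]
  ring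

lemma zt_norm_sq (τ : ℝ) : ‖zt τ‖ ^ 2 = 1 + 4 * τ ^ 2 := by
  rw [← Complex.normSq_eq_norm_sq, zt_sq]

lemma Kf_eq (u τ : ℝ) : Kf u τ = (I / zt τ) * (1 / zt τ) ^ (1 / 2 : ℂ) * Gk (1 / zt τ) u := by
  have hz := zt_ne τ
  have hre : 0 < (zt τ).re := by rw [zt_re]; norm_num
  have h1 : Kf u τ = S 1 (zt τ) (I * u) := by
    unfold Kf S
    congr 1
    ext r
    rw [pow_one, mul_assoc]
    congr 1
    unfold ec qd
    rw [← Complex.exp_add]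
    congr 1
    rw [zt_eq]
    push_cast
    ring
  obtain ⟨k1, -, -, -⟩ := S_vals hre (I * u) (I * u / zt τ) (1 / (2 * π * zt τ)) rfl rfl
  rw [h1, k1, S_zero hre]
  unfold Gk
  have e1 : (π : ℂ) * (I * u) ^ 2 / zt τ = -π * (1 / zt τ) * u ^ 2 := by
    rw [mul_pow, Complex.I_sq]
    ring
  rw [e1]
  ring

/-- the superposition of the kernels over the directions -/
noncomputable def Tw (g : ℝ → ℂ) (τ : ℝ) (x : ℝ × ℝ) : ℂ := ∫ θ, g θ * Kf (ip x θ) τ ∂mu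

lemma Tw_eq (g : ℝ → ℂ) (τ : ℝ) (x : ℝ × ℝ) :
    Tw g τ x = (I / zt τ) * (1 / zt τ) ^ (1 / 2 : ℂ) * W (1 / zt τ) g x := by
  unfold Tw W
  rw [← integral_const_mul]
  congr 1
  ext θ
  rw [Kf_eq]
  ring

lemma Tw_norm (g : ℝ → ℂ) (τ : ℝ) (x : ℝ × ℝ) :
    ‖Tw g τ x‖ ^ 4 = (‖zt τ‖ ^ 6)⁻¹ * ‖W (1 / zt τ) g x‖ ^ 4 := by
  rw [Tw_eq, norm_mul, norm_mul, mul_pow]
  congr 1
  have e1 : (1 / 2 : ℂ) = ((1 / 2 : ℝ) : ℂ) := by push_cast; rfl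
  rw [e1, Complex.norm_cpow_real, norm_div, Complex.norm_I, norm_div, norm_one]
  have hz : 0 < ‖zt τ‖ := norm_pos_iff.2 (zt_ne τ)
  rw [mul_pow, ← Real.rpow_natCast ((1 / ‖zt τ‖) ^ (1 / 2 : ℝ)) 4, ← Real.rpow_mul (by positivity)]
  norm_num
  rw [← mul_inv]
  congr 1
  ring

/-- the estimate away from time zero -/
lemma Tw4_far {e : ℝ} (he0 : 0 ≤ e) (he1 : e ≤ 1) {τ : ℝ} (hτ : τ ≠ 0) {g : ℝ → ℂ}
    (hg : Measurable g) {M : ℝ} (hM0 : 0 ≤ M) (hM : ∀ θ, ‖g θ‖ ≤ M) :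
    ∫⁻ x : ℝ × ℝ, ‖Tw g τ x‖ₑ ^ 4 ≤ ENNReal.ofReal (2 * (2 * |τ|) ^ (-(2 - e))) *
      (4 * Ka (1 - e / 2) * ∫⁻ θ, ‖g θ‖ₑ ^ 4 ∂mu) := by
  have hz := zt_ne τ
  have hN : 0 < 1 + 4 * τ ^ 2 := by positivity
  have hτ' : 0 < |τ| := abs_pos.2 hτ
  have hre : (1 / zt τ).re = 1 / (1 + 4 * τ ^ 2) := by
    rw [one_div, Complex.inv_re, zt_sq, zt_re]
  have him : (1 / zt τ).im = 2 * τ / (1 + 4 * τ ^ 2) := by
    rw [one_div, Complex.inv_im, zt_sq, zt_im]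
    ring
  have h1 := L4w (κ := 1 / zt τ) (by rw [hre]; positivity)
    (by rw [him]; exact div_ne_zero (mul_ne_zero two_ne_zero hτ) hN.ne') he0 he1 hg hM0 hM
  have e1 : ∀ x, ‖Tw g τ x‖ₑ ^ 4 = ENNReal.ofReal ((‖zt τ‖ ^ 6)⁻¹) * ‖W (1 / zt τ) g x‖ₑ ^ 4 := by
    intro x
    rw [← ofReal_norm, ← ofReal_norm, ← ENNReal.ofReal_pow (norm_nonneg _),
      ← ENNReal.ofReal_pow (norm_nonneg _), Tw_norm, ENNReal.ofReal_mul (by positivity)]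
  simp only [e1]
  rw [lintegral_const_mul' _ _ ENNReal.ofReal_ne_top]
  have e2 : 2 * ((1 / zt τ).re ^ (-(1 + e)) * |(1 / zt τ).im| ^ (-(2 - e))) =
      ‖zt τ‖ ^ 6 * (2 * (2 * |τ|) ^ (-(2 - e))) := by
    rw [hre, him, abs_div, abs_of_pos hN, abs_mul, abs_of_pos (by norm_num : (0:ℝ) < 2)]
    have e3 : ‖zt τ‖ ^ 6 = (1 + 4 * τ ^ 2) ^ (3 : ℝ) := by
      rw [← zt_norm_sq]
      norm_num
      ring
    have f1 : (1 / (1 + 4 * τ ^ 2)) ^ (-(1 + e)) = (1 + 4 * τ ^ 2) ^ (- -(1 + e)) := by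
      rw [one_div, Real.inv_rpow hN.le, ← Real.rpow_neg hN.le]
    have f2 : (2 * |τ| / (1 + 4 * τ ^ 2)) ^ (-(2 - e)) = (2 * |τ|) ^ (-(2 - e)) *
        (1 + 4 * τ ^ 2) ^ (- -(2 - e)) := by
      rw [Real.div_rpow (by positivity) hN.le, div_eq_mul_inv, ← Real.rpow_neg hN.le]
    rw [e3, f1, f2]
    have e4 : (1 + 4 * τ ^ 2) ^ (- -(1 + e)) * ((2 * |τ|) ^ (-(2 - e)) *
        (1 + 4 * τ ^ 2) ^ (- -(2 - e))) = ((1 + 4 * τ ^ 2) ^ (- -(1 + e)) *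
        (1 + 4 * τ ^ 2) ^ (- -(2 - e))) * (2 * |τ|) ^ (-(2 - e)) := by ring
    rw [e4, ← Real.rpow_add hN]
    have e5 : - -(1 + e) + - -(2 - e) = 3 := by ring
    rw [e5]
    ring
  rw [e2] at h1
  have hz6 : 0 < ‖zt τ‖ ^ 6 := by
    have : 0 < ‖zt τ‖ := norm_pos_iff.2 hz
    positivity
  calc ENNReal.ofReal ((‖zt τ‖ ^ 6)⁻¹) * ∫⁻ x : ℝ × ℝ, ‖W (1 / zt τ) g x‖ₑ ^ 4
      ≤ ENNReal.ofReal ((‖zt τ‖ ^ 6)⁻¹) *
        (ENNReal.ofReal (‖zt τ‖ ^ 6 * (2 * (2 * |τ|) ^ (-(2 - e)))) *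
          (4 * Ka (1 - e / 2) * ∫⁻ θ, ‖g θ‖ₑ ^ 4 ∂mu)) := by gcongr
    _ = _ := by
        rw [← mul_assoc, ← ENNReal.ofReal_mul (by positivity)]
        congr 2
        field_simp

/-- the Gaussian profile -/
noncomputable def gau (τ : ℝ) (g : ℝ → ℂ) (θ s : ℝ) : ℂ := g θ * (cexp (-π * s) * ec (τ * s))

lemma gau_meas (τ : ℝ) {g : ℝ → ℂ} (hg : Measurable g) :
    Measurable fun p : ℝ × ℝ => gau τ g p.1 p.2 := by
  unfold gau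
  refine (hg.comp measurable_fst).mul (Measurable.mul ?_ (ec_meas.comp (by fun_prop)))
  apply Continuous.measurable
  fun_prop

lemma gau_norm (τ : ℝ) (g : ℝ → ℂ) (θ s : ℝ) :
    ‖gau τ g θ s‖ₑ = ‖g θ‖ₑ * ENNReal.ofReal (Real.exp (-π * s)) := by
  unfold gau
  rw [enorm_mul, enorm_mul, ← ofReal_norm (ec _), ec_norm, ENNReal.ofReal_one, mul_one,
    ← ofReal_norm (cexp _), Complex.norm_exp]
  simp

lemma Tw_TT (g : ℝ → ℂ) (τ : ℝ) (x : ℝ × ℝ) : Tw g τ x = TT (gau τ g) 0 x := by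
  unfold Tw TT Kf gau
  congr 1
  ext θ
  rw [← integral_const_mul]
  congr 1
  ext r
  have e1 : ec (r * ip x θ + r ^ 2 * τ) = ec (τ * r ^ 2) * ec (r * ip x θ + r ^ 2 * 0) := by
    rw [← ec_add]
    congr 1
    ring
  rw [e1]
  push_cast
  ring

lemma exp_lint {c : ℝ} (hc : 0 < c) :
    ∫⁻ s in Ioi (0:ℝ), ENNReal.ofReal (Real.exp (-c * s)) = ENNReal.ofReal (1 / c) := by
  have h1 := integral_exp_mul_Ioi (a := -c) (by linarith) 0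
  have h2 : IntegrableOn (fun s : ℝ => Real.exp (-c * s)) (Ioi 0) :=
    integrableOn_exp_mul_Ioi (by linarith) 0
  rw [← ofReal_integral_eq_lintegral_ofReal h2 (ae_of_all _ fun s => (Real.exp_pos _).le), h1]
  congr 1
  simp

lemma gau_A (τ : ℝ) {g : ℝ → ℂ} (hg1 : ∫⁻ θ, ‖g θ‖ₑ ∂mu < ⊤) :
    ∫⁻ θ, (∫⁻ s in Ioi (0:ℝ), ‖gau τ g θ s‖ₑ) ∂mu < ⊤ := by
  simp only [gau_norm]
  have h1 : ∀ θ, ∫⁻ s in Ioi (0:ℝ), ‖g θ‖ₑ * ENNReal.ofReal (Real.exp (-π * s)) =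
      ‖g θ‖ₑ * ENNReal.ofReal (1 / π) := by
    intro θ
    rw [lintegral_const_mul' _ _ enorm_ne_top, exp_lint Real.pi_pos]
  simp only [h1]
  rw [lintegral_mul_const' _ _ ENNReal.ofReal_ne_top]
  exact ENNReal.mul_lt_top hg1 ENNReal.ofReal_lt_top

lemma Tw_L2 (τ : ℝ) {g : ℝ → ℂ} (hg : Measurable g) (hg1 : ∫⁻ θ, ‖g θ‖ₑ ∂mu < ⊤) :
    ∫⁻ x, ‖Tw g τ x‖ₑ ^ 2 ≤ ∫⁻ θ, ‖g θ‖ₑ ^ 2 ∂mu := by
  simp only [Tw_TT]
  refine (TT_L2 (gau_meas τ hg) (gau_A τ hg1) 0).trans ?_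
  simp only [gau_norm, mul_pow]
  have h1 : ∀ θ, ∫⁻ s in Ioi (0:ℝ), ‖g θ‖ₑ ^ 2 * ENNReal.ofReal (Real.exp (-π * s)) ^ 2 =
      ‖g θ‖ₑ ^ 2 * ENNReal.ofReal (1 / (2 * π)) := by
    intro θ
    rw [lintegral_const_mul' _ _ (ENNReal.pow_ne_top enorm_ne_top), ← exp_lint (by positivity)]
    congr 2
    ext s
    rw [← ENNReal.ofReal_pow (Real.exp_pos _).le, ← Real.exp_nat_mul]
    congr 2
    push_cast
    ring
  simp only [h1]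
  rw [lintegral_mul_const' _ _ ENNReal.ofReal_ne_top, mul_comm, mul_assoc]
  have h2 : ENNReal.ofReal (1 / (2 * π)) * 2 ≤ 1 := by
    have : (2 : ℝ≥0∞) = ENNReal.ofReal 2 := by norm_num
    rw [this, ← ENNReal.ofReal_mul (by positivity), ENNReal.ofReal_le_one]
    rw [one_div, inv_mul_le_iff₀ (by positivity)]
    linarith [Real.pi_gt_three]
  calc _ ≤ (∫⁻ θ, ‖g θ‖ₑ ^ 2 ∂mu) * 1 := by gcongr
    _ = _ := mul_one _

lemma Kf_sup (u τ : ℝ) : ‖Kf u τ‖ₑ ≤ 1 := by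
  unfold Kf
  refine (enorm_integral_le_lintegral_enorm _).trans ?_
  have h2 : ∀ r : ℝ, ‖(r : ℂ) * cexp (-π * r ^ 2) * ec (r * u + r ^ 2 * τ)‖ₑ =
      ENNReal.ofReal (|r| * Real.exp (-π * r ^ 2)) := by
    intro r
    rw [← ofReal_norm, norm_mul, norm_mul, ec_norm, mul_one, Complex.norm_real,
      Complex.norm_exp, Real.norm_eq_abs]
    congr 2
    simp [pow_two]
  simp only [h2]
  have h3 : ∫⁻ r : ℝ, ENNReal.ofReal (|r| * Real.exp (-π * r ^ 2)) =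
      2 * ∫⁻ r in Ioi (0:ℝ), ENNReal.ofReal r * ENNReal.ofReal (Real.exp (-π * r ^ 2)) := by
    have hF : Measurable fun r : ℝ => ENNReal.ofReal (|r| * Real.exp (-π * r ^ 2)) := by
      apply Measurable.ennreal_ofReal
      apply Continuous.measurable
      fun_prop
    have e1 : ∫⁻ r in Iic (0:ℝ), ENNReal.ofReal (|r| * Real.exp (-π * r ^ 2)) =
        ∫⁻ r in Ioi (0:ℝ), ENNReal.ofReal (|r| * Real.exp (-π * r ^ 2)) := by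
      rw [← setLIntegral_congr (Iio_ae_eq_Iic (a := (0:ℝ)) (μ := volume))]
      have h := (Measure.measurePreserving_neg (volume : Measure ℝ)).setLIntegral_comp_preimage
        (measurableSet_Iio (a := (0:ℝ))) hF
      rw [← h]
      have e : (fun x : ℝ => -x) ⁻¹' Iio 0 = Ioi 0 := by
        ext r
        simp
      simp only [e, abs_neg, neg_sq]
    have e2 : ∫⁻ r : ℝ, ENNReal.ofReal (|r| * Real.exp (-π * r ^ 2)) =
        (∫⁻ r in Iic (0:ℝ), ENNReal.ofReal (|r| * Real.exp (-π * r ^ 2))) +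
        ∫⁻ r in Ioi (0:ℝ), ENNReal.ofReal (|r| * Real.exp (-π * r ^ 2)) := by
      rw [← lintegral_union measurableSet_Ioi (Iic_disjoint_Ioi le_rfl), Iic_union_Ioi,
        setLIntegral_univ]
    rw [e2, e1, ← two_mul]
    congr 1
    apply setLIntegral_congr_fun measurableSet_Ioi
    intro r hr
    simp only
    rw [abs_of_pos hr, ENNReal.ofReal_mul (le_of_lt hr)]
  rw [h3]
  have h4 := sq_sub fun s => ENNReal.ofReal (Real.exp (-π * s))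
  rw [exp_lint Real.pi_pos] at h4
  rw [← h4, ENNReal.ofReal_le_one, div_le_one Real.pi_pos]
  linarith [Real.pi_gt_three]

lemma Kf_le (u τ : ℝ) : ‖Kf u τ‖ ≤ 1 := by
  have h := Kf_sup u τ
  rw [← ofReal_norm] at h
  exact ENNReal.ofReal_le_one.1 h

lemma Tw_sup (τ : ℝ) (g : ℝ → ℂ) (x : ℝ × ℝ) : ‖Tw g τ x‖ₑ ≤ ∫⁻ θ, ‖g θ‖ₑ ∂mu := by
  unfold Tw
  refine (enorm_integral_le_lintegral_enorm _).trans ?_
  apply lintegral_mono
  intro θ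
  simp only
  rw [enorm_mul]
  calc ‖g θ‖ₑ * ‖Kf (ip x θ) τ‖ₑ ≤ ‖g θ‖ₑ * 1 := mul_le_mul' le_rfl (Kf_sup _ _)
    _ = _ := mul_one _

lemma mu_univ : mu univ = ENNReal.ofReal (2 * π) := by
  unfold mu I0
  rw [Measure.restrict_apply_univ, Real.volume_Ioo]
  congr 1
  ring

lemma Tw4_near (τ : ℝ) {g : ℝ → ℂ} (hg : Measurable g) (hg1 : ∫⁻ θ, ‖g θ‖ₑ ∂mu < ⊤) :
    ∫⁻ x, ‖Tw g τ x‖ₑ ^ 4 ≤ ENNReal.ofReal ((2 * π) ^ 2) * ∫⁻ θ, ‖g θ‖ₑ ^ 4 ∂mu := by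
  set X := ∫⁻ θ, ‖g θ‖ₑ ∂mu with hX
  set Y := ∫⁻ θ, ‖g θ‖ₑ ^ 2 ∂mu with hY
  set Z := ∫⁻ θ, ‖g θ‖ₑ ^ 4 ∂mu with hZ
  have h1 : ∫⁻ x, ‖Tw g τ x‖ₑ ^ 4 ≤ X ^ 2 * Y := by
    calc ∫⁻ x, ‖Tw g τ x‖ₑ ^ 4 ≤ ∫⁻ x, X ^ 2 * ‖Tw g τ x‖ₑ ^ 2 := by
          apply lintegral_mono
          intro x
          simp only
          have : ‖Tw g τ x‖ₑ ^ 4 = ‖Tw g τ x‖ₑ ^ 2 * ‖Tw g τ x‖ₑ ^ 2 := by ring
          rw [this]
          gcongr
          exact Tw_sup τ g x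
      _ = X ^ 2 * ∫⁻ x, ‖Tw g τ x‖ₑ ^ 2 := by
          rw [lintegral_const_mul' _ _ (ENNReal.pow_ne_top hg1.ne)]
      _ ≤ X ^ 2 * Y := by
          gcongr
          exact Tw_L2 τ hg hg1
  refine h1.trans ?_
  have j1 := Pool.Agent.H438R2.PD.A5.jensenp mu (fun θ => ‖g θ‖ₑ) hg.enorm.aemeasurable 4 (by norm_num)
  have j2 := Pool.Agent.H438R2.PD.A5.jensenp mu (fun θ => ‖g θ‖ₑ ^ 2)
    (hg.enorm.pow_const 2).aemeasurable 2 (by norm_num)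
  rw [mu_univ] at j1 j2
  have e1 : ∀ y : ℝ≥0∞, y ^ (4 : ℝ) = y ^ 4 := fun y => ENNReal.rpow_ofNat y 4
  have e2 : ∀ y : ℝ≥0∞, y ^ (2 : ℝ) = y ^ 2 := fun y => ENNReal.rpow_ofNat y 2
  simp only [e1] at j1
  simp only [e2, ← pow_mul] at j2
  obtain ⟨c, hc⟩ : ∃ c : ℝ, c = 2 * π := ⟨_, rfl⟩
  have hc0 : 0 < c := by rw [hc]; positivity
  rw [← hc] at j1 j2 ⊢
  have p1 : ENNReal.ofReal c ^ ((4 : ℝ) - 1) = ENNReal.ofReal (c ^ 3) := by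
    rw [ENNReal.ofReal_rpow_of_pos hc0]
    congr 1
    norm_num
  have p2 : ENNReal.ofReal c ^ ((2 : ℝ) - 1) = ENNReal.ofReal c := by
    rw [ENNReal.ofReal_rpow_of_pos hc0]
    congr 1
    norm_num
  rw [p1] at j1
  rw [p2] at j2
  have j3 : Y ^ 2 ≤ ENNReal.ofReal c * Z := by
    refine j2.trans_eq ?_
    norm_num
    rfl
  have k : (X ^ 2 * Y) ^ 2 ≤ (ENNReal.ofReal (c ^ 2) * Z) ^ 2 := by
    calc (X ^ 2 * Y) ^ 2 = X ^ 4 * Y ^ 2 := by ring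
      _ ≤ (ENNReal.ofReal (c ^ 3) * Z) * (ENNReal.ofReal c * Z) := mul_le_mul' j1 j3
      _ = (ENNReal.ofReal (c ^ 3) * ENNReal.ofReal c) * Z ^ 2 := by ring
      _ = _ := by
          rw [← ENNReal.ofReal_mul (by positivity), mul_pow, ← ENNReal.ofReal_pow (by positivity)]
          congr 2
          ring
  exact (ENNReal.pow_le_pow_left_iff (two_ne_zero)).1 k

/-- the estimate for all times -/
theorem Tw4 {e : ℝ} (he0 : 0 < e) (he1 : e ≤ 1) : ∃ C : ℝ, 0 < C ∧ ∀ (τ : ℝ) (g : ℝ → ℂ),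
    Measurable g → ∀ M : ℝ, (∀ θ, ‖g θ‖ ≤ M) → ∫⁻ x : ℝ × ℝ, ‖Tw g τ x‖ₑ ^ 4 ≤
      ENNReal.ofReal (C * (1 + |τ|) ^ (-(2 - e))) * ∫⁻ θ, ‖g θ‖ₑ ^ 4 ∂mu := by
  have hK : Ka (1 - e / 2) < ⊤ := Ka_lt (by linarith)
  set k := (Ka (1 - e / 2)).toReal with hk
  have hk0 : 0 ≤ k := ENNReal.toReal_nonneg
  have hKk : Ka (1 - e / 2) = ENNReal.ofReal k := (ENNReal.ofReal_toReal hK.ne).symm
  refine ⟨8 * k + 4 * (2 * π) ^ 2, by positivity, ?_⟩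
  intro τ g hg M hM
  have hM0 : 0 ≤ M := (norm_nonneg _).trans (hM 0)
  have h1τ : 0 < 1 + |τ| := by positivity
  rcases le_total 1 |τ| with h | h
  · have hτ : τ ≠ 0 := by
      intro h0
      rw [h0, abs_zero] at h
      linarith
    refine (Tw4_far he0.le he1 hτ hg hM0 hM).trans ?_
    rw [hKk, ← mul_assoc]
    have e4 : (4 : ℝ≥0∞) = ENNReal.ofReal 4 := by norm_num
    rw [e4, ← ENNReal.ofReal_mul (by norm_num), ← ENNReal.ofReal_mul (by positivity)]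
    have h2 : (2 * |τ|) ^ (-(2 - e)) ≤ (1 + |τ|) ^ (-(2 - e)) := by
      apply Real.rpow_le_rpow_of_nonpos h1τ (by linarith) (by linarith)
    have h3 : 0 ≤ (1 + |τ|) ^ (-(2 - e)) := by positivity
    refine mul_le_mul' (ENNReal.ofReal_le_ofReal ?_) le_rfl
    nlinarith [mul_le_mul_of_nonneg_left h2 hk0, mul_nonneg (sq_nonneg (2 * π)) h3]
  · have hg1 : ∫⁻ θ, ‖g θ‖ₑ ∂mu < ⊤ := by
      calc ∫⁻ θ, ‖g θ‖ₑ ∂mu ≤ ∫⁻ _, ENNReal.ofReal M ∂mu := by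
            apply lintegral_mono
            intro θ
            simp only
            rw [← ofReal_norm]
            exact ENNReal.ofReal_le_ofReal (hM θ)
        _ < ⊤ := by
            rw [lintegral_const]
            exact ENNReal.mul_lt_top ENNReal.ofReal_lt_top (measure_lt_top _ _)
    refine (Tw4_near τ hg hg1).trans ?_
    refine mul_le_mul' (ENNReal.ofReal_le_ofReal ?_) le_rfl
    have h2 : (1 : ℝ) / 4 ≤ (1 + |τ|) ^ (-(2 - e)) := by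
      calc (1 : ℝ) / 4 = 2 ^ (-(2:ℝ)) := by
            rw [Real.rpow_neg (by norm_num)]
            norm_num
        _ ≤ (1 + |τ|) ^ (-(2:ℝ)) := by
            apply Real.rpow_le_rpow_of_nonpos h1τ (by linarith) (by norm_num)
        _ ≤ (1 + |τ|) ^ (-(2 - e)) := by
            apply Real.rpow_le_rpow_of_exponent_le
            · linarith [abs_nonneg τ]
            · linarith
    have h3 : 0 ≤ (1 + |τ|) ^ (-(2 - e)) := by positivity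
    nlinarith [mul_nonneg hk0 h3, mul_le_mul_of_nonneg_left h2 (sq_nonneg (2 * π))]

end Pool.Agent.R245.PB
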