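import Mathlib
import Pool.Agent.R245.PB.Fix
set_option autoImplicit false

/-! Profiles given by Fourier integrals: superposition over shifted times. -/

namespace Pool.Agent.R245.PB

open MeasureTheory Set Complex Filter Real
open scoped ENNReal Topology ComplexConjugate

lemma Kf_meas : Measurable fun p : ℝ × ℝ => Kf p.1 p.2 := by
  unfold Kf
  have h1 : Measurable fun q : (ℝ × ℝ) × ℝ => (q.2 : ℂ) * cexp (-π * q.2 ^ 2) *
      ec (q.2 * q.1.1 + q.2 ^ 2 * q.1.2) := by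
    refine Measurable.mul ?_ (ec_meas.comp (by fun_prop))
    apply Continuous.measurable
    fun_prop
  exact (h1.stronglyMeasurable.integral_prod_right' (ν := (volume : Measure ℝ))).measurable

lemma ip_cont : Continuous fun p : (ℝ × ℝ) × ℝ => ip p.1 p.2 := by
  unfold ip
  fun_prop

/-- the inverse Fourier transform in the frequency -/
noncomputable def IF (H : ℝ → ℝ → ℂ) (θ s : ℝ) : ℂ := ∫ ν, H ν θ * ec (ν * s)

/-- admissible densities -/
structure Adm (H : ℝ → ℝ → ℂ) (b : ℝ → ℝ) : Prop where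
  meas : Measurable fun p : ℝ × ℝ => H p.1 p.2
  bmeas : Measurable b
  bint : Integrable b
  le : ∀ ν θ, ‖H ν θ‖ ≤ b ν

variable {H : ℝ → ℝ → ℂ} {b : ℝ → ℝ}

lemma Adm.b0 (h : Adm H b) (ν : ℝ) : 0 ≤ b ν := (norm_nonneg _).trans (h.le ν 0)

lemma Adm.left (h : Adm H b) (θ : ℝ) : Measurable fun ν => H ν θ :=
  h.meas.comp (f := fun ν : ℝ => (ν, θ)) (by fun_prop)

lemma Adm.right (h : Adm H b) (ν : ℝ) : Measurable fun θ => H ν θ :=
  h.meas.comp (f := fun θ : ℝ => (ν, θ)) (by fun_prop)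

lemma Adm.intg (h : Adm H b) (θ s : ℝ) : Integrable fun ν => H ν θ * ec (ν * s) := by
  refine h.bint.mono ((h.left θ).mul (ec_meas.comp (by fun_prop))).aestronglyMeasurable ?_
  refine ae_of_all _ fun ν => ?_
  rw [norm_mul, ec_norm, mul_one, Real.norm_eq_abs, abs_of_nonneg (h.b0 ν)]
  exact h.le ν θ

lemma IF_meas (h : Adm H b) : Measurable fun p : ℝ × ℝ => IF H p.1 p.2 := by
  unfold IF
  have h1 : Measurable fun q : (ℝ × ℝ) × ℝ => H q.2 q.1.1 * ec (q.2 * q.1.2) := by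
    refine Measurable.mul ?_ (ec_meas.comp (by fun_prop))
    exact h.meas.comp (f := fun q : (ℝ × ℝ) × ℝ => (q.2, q.1.1)) (by fun_prop)
  exact (h1.stronglyMeasurable.integral_prod_right' (ν := (volume : Measure ℝ))).measurable

lemma IF_le (h : Adm H b) (θ s : ℝ) : ‖IF H θ s‖ ≤ ∫ ν, b ν := by
  unfold IF
  refine norm_integral_le_of_norm_le h.bint (ae_of_all _ fun ν => ?_)
  rw [norm_mul, ec_norm, mul_one]
  exact h.le ν θ

lemma rg_int : Integrable fun r : ℝ => |r| * Real.exp (-π * r ^ 2) := by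
  have h1 := (integrable_rpow_mul_exp_neg_mul_sq (b := π) Real.pi_pos (s := 1) (by norm_num)).norm
  refine h1.congr (ae_of_all _ fun r => ?_)
  simp only [Real.rpow_one, norm_mul, Real.norm_eq_abs, Real.abs_exp]

lemma swap1 (h : Adm H b) (u t θ : ℝ) :
    ∫ ν, H ν θ * Kf u (t + ν) =
      ∫ r : ℝ, (r : ℂ) * (cexp (-π * (r ^ 2 : ℝ)) * IF H θ (r ^ 2)) * ec (r * u + r ^ 2 * t) := by
  have hI : Integrable (fun p : ℝ × ℝ => H p.1 θ * ((p.2 : ℂ) * cexp (-π * p.2 ^ 2) *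
      ec (p.2 * u + p.2 ^ 2 * (t + p.1)))) (volume.prod volume) := by
    have h0 : Integrable (fun p : ℝ × ℝ => b p.1 * (|p.2| * Real.exp (-π * p.2 ^ 2)))
        (volume.prod volume) := h.bint.mul_prod rg_int
    refine h0.mono ?_ (ae_of_all _ fun p => ?_)
    · refine (Measurable.mul ?_ (Measurable.mul ?_ (ec_meas.comp (by fun_prop)))).aestronglyMeasurable
      · exact (h.left θ).comp measurable_fst
      · apply Continuous.measurable
        fun_prop
    · rw [norm_mul, norm_mul, norm_mul, ec_norm, mul_one, Real.norm_eq_abs, Complex.norm_real,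
        Complex.norm_exp, Real.norm_eq_abs, abs_mul, abs_of_nonneg (h.b0 _), abs_mul, abs_abs,
        Real.abs_exp]
      have e : (-(π : ℂ) * (p.2 : ℂ) ^ 2).re = -π * p.2 ^ 2 := by
        simp [pow_two]
      rw [e]
      exact mul_le_mul_of_nonneg_right (h.le _ _) (by positivity)
  calc ∫ ν, H ν θ * Kf u (t + ν)
      = ∫ ν, ∫ r : ℝ, H ν θ * ((r : ℂ) * cexp (-π * r ^ 2) * ec (r * u + r ^ 2 * (t + ν))) := by
        congr 1
        ext ν
        unfold Kf
        rw [integral_const_mul]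
    _ = ∫ r : ℝ, ∫ ν, H ν θ * ((r : ℂ) * cexp (-π * r ^ 2) * ec (r * u + r ^ 2 * (t + ν))) :=
        integral_integral_swap (f := fun (ν r : ℝ) => H ν θ * ((r : ℂ) * cexp (-π * r ^ 2) *
          ec (r * u + r ^ 2 * (t + ν)))) hI
    _ = _ := by
        congr 1
        ext r
        have e0 : (r : ℂ) * (cexp (-π * (r ^ 2 : ℝ)) * IF H θ (r ^ 2)) * ec (r * u + r ^ 2 * t) =
            IF H θ (r ^ 2) * ((r : ℂ) * cexp (-π * r ^ 2) * ec (r * u + r ^ 2 * t)) := by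
          push_cast
          ring
        rw [e0]
        unfold IF
        rw [← integral_mul_const]
        congr 1
        ext ν
        have e : ec (r * u + r ^ 2 * (t + ν)) = ec (ν * r ^ 2) * ec (r * u + r ^ 2 * t) := by
          rw [← ec_add]
          congr 1
          ring
        rw [e]
        ring

/-- the profile -/
noncomputable def prof (H : ℝ → ℝ → ℂ) (g : ℝ → ℂ) (θ s : ℝ) : ℂ :=
  g θ * (cexp (-π * s) * IF H θ s)

lemma prof_meas (h : Adm H b) {g : ℝ → ℂ} (hg : Measurable g) :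
    Measurable fun p : ℝ × ℝ => prof H g p.1 p.2 := by
  unfold prof
  refine (hg.comp measurable_fst).mul (Measurable.mul ?_ (IF_meas h))
  apply Continuous.measurable
  fun_prop

/-- the kernel of a direction with the profile -/
noncomputable def KH (H : ℝ → ℝ → ℂ) (t u θ : ℝ) : ℂ := ∫ ν, H ν θ * Kf u (t + ν)

lemma KH_int (h : Adm H b) (t u θ : ℝ) : Integrable fun ν => H ν θ * Kf u (t + ν) := by
  refine h.bint.mono ((h.left θ).mul (Kf_meas.comp (f := fun ν : ℝ => (u, t + ν))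
    (by fun_prop))).aestronglyMeasurable ?_
  refine ae_of_all _ fun ν => ?_
  rw [norm_mul, Real.norm_eq_abs, abs_of_nonneg (h.b0 ν)]
  calc ‖H ν θ‖ * ‖Kf u (t + ν)‖ ≤ b ν * 1 :=
        mul_le_mul (h.le _ _) (Kf_le _ _) (norm_nonneg _) (h.b0 ν)
    _ = b ν := mul_one _

lemma KH_le (h : Adm H b) (t u θ : ℝ) : ‖KH H t u θ‖ ≤ ∫ ν, b ν := by
  unfold KH
  refine norm_integral_le_of_norm_le h.bint (ae_of_all _ fun ν => ?_)
  rw [norm_mul]
  calc ‖H ν θ‖ * ‖Kf u (t + ν)‖ ≤ b ν * 1 :=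
        mul_le_mul (h.le _ _) (Kf_le _ _) (norm_nonneg _) (h.b0 ν)
    _ = b ν := mul_one _

lemma KH_meas (h : Adm H b) (t : ℝ) : Measurable fun p : ℝ × ℝ => KH H t p.1 p.2 := by
  unfold KH
  have h1 : Measurable fun q : (ℝ × ℝ) × ℝ => H q.2 q.1.2 * Kf q.1.1 (t + q.2) := by
    refine Measurable.mul ?_ ?_
    · exact h.meas.comp (f := fun q : (ℝ × ℝ) × ℝ => (q.2, q.1.2)) (by fun_prop)
    · exact Kf_meas.comp (f := fun q : (ℝ × ℝ) × ℝ => (q.1.1, t + q.2)) (by fun_prop)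
  exact (h1.stronglyMeasurable.integral_prod_right' (ν := (volume : Measure ℝ))).measurable

lemma TT_prof (h : Adm H b) (g : ℝ → ℂ) (t : ℝ) (x : ℝ × ℝ) :
    TT (prof H g) t x = ∫ θ, g θ * KH H t (ip x θ) θ ∂mu := by
  unfold TT KH
  congr 1
  ext θ
  rw [swap1 h, ← integral_const_mul]
  congr 1
  ext r
  unfold prof
  push_cast
  ring

lemma KHg_int (h : Adm H b) {g : ℝ → ℂ} (hg : Integrable g mu) (t : ℝ) (x : ℝ × ℝ) :
    Integrable (fun θ => g θ * KH H t (ip x θ) θ) mu := by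
  refine hg.mul_bdd (c := ∫ ν, b ν) ?_ (ae_of_all _ fun θ => KH_le h _ _ _)
  exact ((KH_meas h t).comp (f := fun θ : ℝ => (ip x θ, θ))
    ((ip_cont.measurable.comp (f := fun θ : ℝ => (x, θ)) (by fun_prop)).prodMk
      measurable_id)).aestronglyMeasurable

lemma TT_prof_add (h : Adm H b) {g1 g2 : ℝ → ℂ} (hg1 : Integrable g1 mu) (hg2 : Integrable g2 mu)
    (t : ℝ) (x : ℝ × ℝ) :
    TT (prof H (fun θ => g1 θ + g2 θ)) t x = TT (prof H g1) t x + TT (prof H g2) t x := by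
  rw [TT_prof h, TT_prof h, TT_prof h, ← integral_add (KHg_int h hg1 t x) (KHg_int h hg2 t x)]
  congr 1
  ext θ
  ring

lemma TT_prof_meas (h : Adm H b) {g : ℝ → ℂ} (hg : Measurable g) (t : ℝ) :
    Measurable fun x => TT (prof H g) t x := by
  simp only [TT_prof h]
  have h1 : Measurable fun q : (ℝ × ℝ) × ℝ => g q.2 * KH H t (ip q.1 q.2) q.2 := by
    refine Measurable.mul (hg.comp measurable_snd) ?_
    exact (KH_meas h t).comp (f := fun q : (ℝ × ℝ) × ℝ => (ip q.1 q.2, q.2))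
      (ip_cont.measurable.prodMk measurable_snd)
  exact (h1.stronglyMeasurable.integral_prod_right' (ν := mu)).measurable

lemma TT_prof_Tw (h : Adm H b) {g : ℝ → ℂ} (hg : Integrable g mu) (t : ℝ) (x : ℝ × ℝ) :
    TT (prof H g) t x = ∫ ν, Tw (fun θ => g θ * H ν θ) (t + ν) x := by
  have hI : Integrable (fun p : ℝ × ℝ => g p.1 * (H p.2 p.1 * Kf (ip x p.1) (t + p.2)))
      (mu.prod volume) := by
    have h0 : Integrable (fun p : ℝ × ℝ => g p.1 * (b p.2 : ℂ)) (mu.prod volume) :=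
      hg.mul_prod h.bint.ofReal
    refine h0.mono ?_ (ae_of_all _ fun p => ?_)
    · refine AEStronglyMeasurable.mul hg.aestronglyMeasurable.comp_fst ?_
      refine (Measurable.mul ?_ ?_).aestronglyMeasurable
      · exact h.meas.comp (f := fun q : ℝ × ℝ => (q.2, q.1)) (by fun_prop)
      · refine Kf_meas.comp (f := fun q : ℝ × ℝ => (ip x q.1, t + q.2)) (Measurable.prodMk ?_
          (by fun_prop))
        exact ip_cont.measurable.comp (f := fun q : ℝ × ℝ => (x, q.1)) (by fun_prop)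
    · rw [norm_mul, norm_mul, norm_mul, Complex.norm_real, Real.norm_eq_abs,
        abs_of_nonneg (h.b0 _)]
      refine mul_le_mul_of_nonneg_left ?_ (norm_nonneg _)
      calc ‖H p.2 p.1‖ * ‖Kf (ip x p.1) (t + p.2)‖ ≤ b p.2 * 1 :=
            mul_le_mul (h.le _ _) (Kf_le _ _) (norm_nonneg _) (h.b0 _)
        _ = b p.2 := mul_one _
  rw [TT_prof h]
  calc ∫ θ, g θ * KH H t (ip x θ) θ ∂mu
      = ∫ θ, (∫ ν, g θ * (H ν θ * Kf (ip x θ) (t + ν))) ∂mu := by
        congr 1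
        ext θ
        unfold KH
        rw [integral_const_mul]
    _ = ∫ ν, (∫ θ, g θ * (H ν θ * Kf (ip x θ) (t + ν)) ∂mu) :=
        integral_integral_swap (f := fun θ ν => g θ * (H ν θ * Kf (ip x θ) (t + ν))) hI
    _ = _ := by
        congr 1
        ext ν
        unfold Tw
        congr 1
        ext θ
        ring

/-- the `L^4` bound for a profile -/
theorem prof4 {e : ℝ} (he0 : 0 < e) (he1 : e ≤ 1) : ∃ C : ℝ, 0 < C ∧
    ∀ (H : ℝ → ℝ → ℂ) (b : ℝ → ℝ), Adm H b → ∀ (t : ℝ) (g : ℝ → ℂ), Measurable g → ∀ M : ℝ,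
    (∀ θ, ‖g θ‖ ≤ M) → ∫⁻ x : ℝ × ℝ, ‖TT (prof H g) t x‖ₑ ^ 4 ≤
      ENNReal.ofReal C * (∫⁻ θ, ‖g θ‖ₑ ^ 4 ∂mu) *
        (∫⁻ ν, ENNReal.ofReal (b ν * (1 + |t + ν|) ^ (-(2 - e) / 4))) ^ 4 := by
  obtain ⟨C, hC, hT⟩ := Tw4 he0 he1
  refine ⟨C, hC, ?_⟩
  intro H b h t g hg M hM
  have hM0 : 0 ≤ M := (norm_nonneg _).trans (hM 0)
  have hgI : Integrable g mu := Integrable.of_bound hg.aestronglyMeasurable M (ae_of_all _ hM)
  set Z := ∫⁻ θ, ‖g θ‖ₑ ^ 4 ∂mu with hZ
  have e1 : ∀ y : ℝ≥0∞, y ^ (4 : ℝ) = y ^ 4 := fun y => ENNReal.rpow_ofNat y 4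
  have hjm : Measurable fun q : (ℝ × ℝ) × ℝ => ‖Tw (fun θ => g θ * H q.2 θ) (t + q.2) q.1‖ₑ := by
    apply Measurable.enorm
    unfold Tw
    have h1 : Measurable fun z : ((ℝ × ℝ) × ℝ) × ℝ => g z.2 * H z.1.2 z.2 *
        Kf (ip z.1.1 z.2) (t + z.1.2) := by
      refine Measurable.mul (Measurable.mul (hg.comp measurable_snd) ?_) ?_
      · exact h.meas.comp (f := fun z : ((ℝ × ℝ) × ℝ) × ℝ => (z.1.2, z.2)) (by fun_prop)
      · refine Kf_meas.comp (f := fun z : ((ℝ × ℝ) × ℝ) × ℝ => (ip z.1.1 z.2, t + z.1.2))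
          (Measurable.prodMk ?_ (by fun_prop))
        exact ip_cont.measurable.comp (f := fun z : ((ℝ × ℝ) × ℝ) × ℝ => (z.1.1, z.2))
          (by fun_prop)
    exact (h1.stronglyMeasurable.integral_prod_right' (ν := mu)).measurable
  have hb : ∀ ν, (∫⁻ x : ℝ × ℝ, ‖Tw (fun θ => g θ * H ν θ) (t + ν) x‖ₑ ^ (4 : ℝ)) ^ ((1:ℝ) / 4) ≤
      (ENNReal.ofReal C * Z) ^ ((1:ℝ) / 4) *
        ENNReal.ofReal (b ν * (1 + |t + ν|) ^ (-(2 - e) / 4)) := by
    intro ν
    have h1 := hT (t + ν) (fun θ => g θ * H ν θ) (hg.mul (h.right ν)) (M * b ν) (by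
      intro θ
      rw [norm_mul]
      exact mul_le_mul (hM θ) (h.le ν θ) (norm_nonneg _) hM0)
    have h2 : ∫⁻ θ, ‖g θ * H ν θ‖ₑ ^ 4 ∂mu ≤ Z * ENNReal.ofReal (b ν) ^ 4 := by
      rw [hZ, ← lintegral_mul_const' _ _ (ENNReal.pow_ne_top ENNReal.ofReal_ne_top)]
      apply lintegral_mono
      intro θ
      simp only
      rw [enorm_mul, mul_pow]
      refine mul_le_mul' le_rfl ?_
      refine pow_le_pow_left' ?_ 4
      rw [← ofReal_norm]
      exact ENNReal.ofReal_le_ofReal (h.le ν θ)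
    have hp : 0 < (1 + |t + ν|) := by positivity
    simp only [e1]
    calc (∫⁻ x : ℝ × ℝ, ‖Tw (fun θ => g θ * H ν θ) (t + ν) x‖ₑ ^ 4) ^ ((1:ℝ) / 4)
        ≤ (ENNReal.ofReal (C * (1 + |t + ν|) ^ (-(2 - e))) * (Z * ENNReal.ofReal (b ν) ^ 4)) ^
          ((1:ℝ) / 4) := by
          refine ENNReal.rpow_le_rpow (h1.trans ?_) (by norm_num)
          exact mul_le_mul' le_rfl h2
      _ = ((ENNReal.ofReal C * Z) * ENNReal.ofReal (b ν * (1 + |t + ν|) ^ (-(2 - e) / 4)) ^ 4) ^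
          ((1:ℝ) / 4) := by
          congr 1
          have e2 : (1 + |t + ν|) ^ (-(2 - e)) = ((1 + |t + ν|) ^ (-(2 - e) / 4)) ^ 4 := by
            rw [← Real.rpow_natCast, ← Real.rpow_mul hp.le]
            congr 1
            push_cast
            ring
          rw [e2, ENNReal.ofReal_mul hC.le, ENNReal.ofReal_mul (h.b0 ν), mul_pow,
            ENNReal.ofReal_pow (by positivity)]
          ring
      _ = _ := by
          rw [ENNReal.mul_rpow_of_nonneg _ _ (by norm_num : (0:ℝ) ≤ 1 / 4)]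
          congr 1
          rw [← ENNReal.rpow_natCast, ← ENNReal.rpow_mul]
          norm_num
  calc ∫⁻ x : ℝ × ℝ, ‖TT (prof H g) t x‖ₑ ^ 4
      ≤ ∫⁻ x : ℝ × ℝ, (∫⁻ ν, ‖Tw (fun θ => g θ * H ν θ) (t + ν) x‖ₑ) ^ (4 : ℝ) := by
        apply lintegral_mono
        intro x
        simp only
        rw [e1, TT_prof_Tw h hgI]
        exact pow_le_pow_left' (enorm_integral_le_lintegral_enorm _) 4
    _ ≤ (∫⁻ ν, (∫⁻ x : ℝ × ℝ, ‖Tw (fun θ => g θ * H ν θ) (t + ν) x‖ₑ ^ (4 : ℝ)) ^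
        ((1:ℝ) / 4)) ^ (4 : ℝ) := by
        refine Pool.Agent.H438R2.PD.A5.mink volume volume
          (fun x ν => ‖Tw (fun θ => g θ * H ν θ) (t + ν) x‖ₑ) ?_ 4 (by norm_num)
        exact hjm
    _ ≤ (∫⁻ ν, (ENNReal.ofReal C * Z) ^ ((1:ℝ) / 4) *
        ENNReal.ofReal (b ν * (1 + |t + ν|) ^ (-(2 - e) / 4))) ^ (4 : ℝ) := by
        refine ENNReal.rpow_le_rpow (lintegral_mono fun ν => hb ν) (by norm_num)
    _ = _ := by
        have hbm : Measurable fun ν => ENNReal.ofReal (b ν * (1 + |t + ν|) ^ (-(2 - e) / 4)) := by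
          apply Measurable.ennreal_ofReal
          refine h.bmeas.mul ?_
          exact ((by fun_prop : Measurable fun ν : ℝ => 1 + |t + ν|)).pow_const _
        rw [lintegral_const_mul _ hbm, ENNReal.mul_rpow_of_nonneg _ _ (by norm_num : (0:ℝ) ≤ 4), e1,
          e1, ← ENNReal.rpow_natCast, ← ENNReal.rpow_mul]
        norm_num

end Pool.Agent.R245.PB
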