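import Mathlib
set_option autoImplicit false

/-! The weight in time. -/

namespace Pool.Agent.R245.PB

open MeasureTheory Set Filter
open scoped ENNReal Topology

/-- the Cauchy weight -/
noncomputable def cw (δ ν : ℝ) : ℝ := δ / (1 + δ ^ 2 * ν ^ 2)

lemma cw_den (δ ν : ℝ) : 0 < 1 + δ ^ 2 * ν ^ 2 := by positivity

lemma cw_nonneg {δ : ℝ} (hδ : 0 < δ) (ν : ℝ) : 0 ≤ cw δ ν :=
  div_nonneg hδ.le (cw_den δ ν).le

lemma cw_int {δ : ℝ} (hδ : 0 < δ) : Integrable (cw δ) := by
  have h1 : Integrable fun x : ℝ => (1 + x ^ 2)⁻¹ := integrable_inv_one_add_sq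
  have h2 := (h1.comp_mul_left' hδ.ne').const_mul δ
  refine h2.congr (ae_of_all _ fun ν => ?_)
  simp only
  unfold cw
  rw [mul_pow, div_eq_mul_inv]

lemma cw_val {δ : ℝ} (hδ : 0 < δ) : ∫ ν, cw δ ν = Real.pi := by
  have e1 : ∀ ν, cw δ ν = δ * (fun x : ℝ => (1 + x ^ 2)⁻¹) (δ * ν) := by
    intro ν
    simp only
    unfold cw
    rw [mul_pow, div_eq_mul_inv]
  simp only [e1]
  rw [integral_const_mul, Measure.integral_comp_mul_left (fun x : ℝ => (1 + x ^ 2)⁻¹) δ,
    integral_univ_inv_one_add_sq, abs_of_pos (inv_pos.2 hδ), smul_eq_mul, ← mul_assoc,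
    mul_inv_cancel₀ hδ.ne', one_mul]

lemma cw_meas (δ : ℝ) : Measurable (cw δ) := by
  unfold cw
  fun_prop

lemma cw_lint {δ : ℝ} (hδ : 0 < δ) : ∫⁻ ν, ENNReal.ofReal (cw δ ν) = ENNReal.ofReal Real.pi := by
  rw [← cw_val hδ, ofReal_integral_eq_lintegral_ofReal (cw_int hδ)
    (ae_of_all _ fun ν => cw_nonneg hδ ν)]

lemma cw_far {δ : ℝ} (hδ : 0 < δ) (hδ1 : δ ≤ 1) {ν t : ℝ} (h : |t| ≤ 2 * |ν|) :
    cw δ ν ≤ 4 / (1 + |t|) := by
  unfold cw
  rw [div_le_div_iff₀ (cw_den δ ν) (by positivity)]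
  have h1 : δ * |ν| ≤ (1 + δ ^ 2 * ν ^ 2) / 2 := by
    nlinarith [sq_nonneg (1 - δ * |ν|), sq_abs ν]
  have h2 : δ * (1 + |t|) ≤ 1 + 2 * (δ * |ν|) := by
    nlinarith [mul_le_mul_of_nonneg_left h hδ.le]
  have h3 : 0 ≤ δ ^ 2 * ν ^ 2 := by positivity
  linarith

lemma half_int {a : ℝ} (ha : a < 1) {T : ℝ} (hT : 0 ≤ T) :
    ∫⁻ u in Ioc 0 T, ENNReal.ofReal (u ^ (-a)) = ENNReal.ofReal (T ^ (1 - a) / (1 - a)) := by
  have h1 : IntervalIntegrable (fun u : ℝ => u ^ (-a)) volume 0 T :=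
    intervalIntegral.intervalIntegrable_rpow' (by linarith)
  have h2 := (intervalIntegrable_iff_integrableOn_Ioc_of_le hT).1 h1
  rw [← ofReal_integral_eq_lintegral_ofReal h2
    ((ae_restrict_iff' measurableSet_Ioc).2 (ae_of_all _ fun u hu =>
      Real.rpow_nonneg hu.1.le _)), ← intervalIntegral.integral_of_le hT,
    integral_rpow (Or.inl (by linarith))]
  congr 1
  have e : -a + 1 = 1 - a := by ring
  rw [e, Real.zero_rpow (by linarith), sub_zero]

lemma sym_lint {G : ℝ → ℝ≥0∞} (hG : Measurable G) :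
    ∫⁻ u, G |u| = 2 * ∫⁻ u in Ioi (0:ℝ), G u := by
  have hF : Measurable fun u : ℝ => G |u| := hG.comp measurable_abs
  have e1 : ∫⁻ u in Iic (0:ℝ), G |u| = ∫⁻ u in Ioi (0:ℝ), G |u| := by
    rw [← setLIntegral_congr (Iio_ae_eq_Iic (a := (0:ℝ)) (μ := volume))]
    have h := (Measure.measurePreserving_neg (volume : Measure ℝ)).setLIntegral_comp_preimage
      (measurableSet_Iio (a := (0:ℝ))) hF
    rw [← h]
    have e : (fun x : ℝ => -x) ⁻¹' Iio 0 = Ioi 0 := by
      ext r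
      simp
    simp only [e, abs_neg]
  have e2 : ∫⁻ u : ℝ, G |u| = (∫⁻ u in Iic (0:ℝ), G |u|) + ∫⁻ u in Ioi (0:ℝ), G |u| := by
    rw [← lintegral_union measurableSet_Ioi (Iic_disjoint_Ioi le_rfl), Iic_union_Ioi,
      setLIntegral_univ]
  rw [e2, e1, ← two_mul]
  congr 1
  apply setLIntegral_congr_fun measurableSet_Ioi
  intro r hr
  simp only
  rw [abs_of_pos hr]

lemma near_int {a : ℝ} (ha0 : 0 ≤ a) (ha : a < 1) {T : ℝ} (hT : 0 ≤ T) :
    ∫⁻ u in {u : ℝ | |u| ≤ T}, ENNReal.ofReal ((1 + |u|) ^ (-a)) ≤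
      ENNReal.ofReal (2 / (1 - a) * (1 + T) ^ (1 - a)) := by
  have h1a : 0 < 1 - a := by linarith
  have hms : MeasurableSet {u : ℝ | |u| ≤ T} := measurableSet_le measurable_abs measurable_const
  have hmG : Measurable fun u : ℝ => ENNReal.ofReal ((1 + u) ^ (-a)) :=
    (Measurable.pow_const (by fun_prop) _).ennreal_ofReal
  calc ∫⁻ u in {u : ℝ | |u| ≤ T}, ENNReal.ofReal ((1 + |u|) ^ (-a))
      = ∫⁻ u, (Iic T).indicator (fun u => ENNReal.ofReal ((1 + u) ^ (-a))) |u| := by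
        rw [← lintegral_indicator hms]
        apply lintegral_congr
        intro u
        by_cases hu : |u| ≤ T
        · rw [indicator_of_mem (show u ∈ {u : ℝ | |u| ≤ T} from hu),
            indicator_of_mem (show |u| ∈ Iic T from hu)]
        · rw [indicator_of_notMem (show u ∉ {u : ℝ | |u| ≤ T} from hu),
            indicator_of_notMem (show |u| ∉ Iic T from hu)]
    _ = 2 * ∫⁻ u in Ioi (0:ℝ), (Iic T).indicator (fun u => ENNReal.ofReal ((1 + u) ^ (-a))) u :=
        sym_lint (hmG.indicator measurableSet_Iic)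
    _ = 2 * ∫⁻ u in Ioc (0:ℝ) T, ENNReal.ofReal ((1 + u) ^ (-a)) := by
        rw [lintegral_indicator measurableSet_Iic, Measure.restrict_restrict measurableSet_Iic,
          Iic_inter_Ioi]
    _ ≤ 2 * ∫⁻ u in Ioc (0:ℝ) T, ENNReal.ofReal (u ^ (-a)) := by
        refine mul_le_mul' le_rfl ?_
        apply setLIntegral_mono' measurableSet_Ioc
        intro u hu
        apply ENNReal.ofReal_le_ofReal
        exact Real.rpow_le_rpow_of_nonpos hu.1 (by linarith [hu.1]) (by linarith)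
    _ = ENNReal.ofReal (2 / (1 - a) * T ^ (1 - a)) := by
        rw [half_int ha hT]
        have e2 : (2 : ℝ≥0∞) = ENNReal.ofReal 2 := by norm_num
        rw [e2, ← ENNReal.ofReal_mul (by norm_num)]
        congr 1
        ring
    _ ≤ _ := by
        apply ENNReal.ofReal_le_ofReal
        refine mul_le_mul_of_nonneg_left ?_ (by positivity)
        exact Real.rpow_le_rpow hT (by linarith) h1a.le

/-- the time weight is stable under averaging with the Cauchy weight -/
theorem time_lem {a : ℝ} (ha0 : 0 ≤ a) (ha : a < 1) {δ : ℝ} (hδ : 0 < δ) (hδ1 : δ ≤ 1) (t : ℝ) :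
    ∫⁻ ν, ENNReal.ofReal (cw δ ν * (1 + |t + ν|) ^ (-a)) ≤
      ENNReal.ofReal ((2 * Real.pi + 8 / (1 - a)) * (1 + |t|) ^ (-a)) := by
  have h1a : 0 < 1 - a := by linarith
  have ht : 0 < 1 + |t| := by positivity
  set S : Set ℝ := {ν : ℝ | |t + ν| ≤ |t| / 2} with hS
  have hSm : MeasurableSet S := measurableSet_le (by fun_prop) measurable_const
  have hp : ∀ ν, ENNReal.ofReal (cw δ ν * (1 + |t + ν|) ^ (-a)) ≤
      ENNReal.ofReal (2 * (1 + |t|) ^ (-a)) * ENNReal.ofReal (cw δ ν) +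
      ENNReal.ofReal (4 / (1 + |t|)) *
        S.indicator (fun ν => ENNReal.ofReal ((1 + |t + ν|) ^ (-a))) ν := by
    intro ν
    by_cases hν : ν ∈ S
    · rw [indicator_of_mem hν]
      refine le_trans ?_ le_add_self
      rw [← ENNReal.ofReal_mul (by positivity)]
      apply ENNReal.ofReal_le_ofReal
      refine mul_le_mul_of_nonneg_right ?_ (by positivity)
      apply cw_far hδ hδ1
      have h1 : |t + ν| ≤ |t| / 2 := hν
      have h2 : |t| ≤ |t + ν| + |ν| := by
        calc |t| = |(t + ν) - ν| := by ring_nf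
          _ ≤ _ := abs_sub _ _
      linarith
    · refine le_trans ?_ le_self_add
      rw [← ENNReal.ofReal_mul (by positivity)]
      apply ENNReal.ofReal_le_ofReal
      have h1 : |t| / 2 < |t + ν| := not_le.1 hν
      have h2 : (1 + |t + ν|) ^ (-a) ≤ ((1 + |t|) / 2) ^ (-a) := by
        apply Real.rpow_le_rpow_of_nonpos (by positivity) (by linarith) (by linarith)
      have h3 : ((1 + |t|) / 2) ^ (-a) = 2 ^ a * (1 + |t|) ^ (-a) := by
        rw [Real.div_rpow ht.le (by norm_num), Real.rpow_neg (by norm_num : (0:ℝ) ≤ 2), div_inv_eq_mul,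
          mul_comm]
      have h4 : (2:ℝ) ^ a ≤ 2 := by
        calc (2:ℝ) ^ a ≤ 2 ^ (1:ℝ) :=
              Real.rpow_le_rpow_of_exponent_le (by norm_num) ha.le
          _ = 2 := Real.rpow_one 2
      rw [mul_comm (cw δ ν)]
      refine mul_le_mul_of_nonneg_right ?_ (cw_nonneg hδ ν)
      refine h2.trans (h3.trans_le ?_)
      exact mul_le_mul_of_nonneg_right h4 (by positivity)
  calc ∫⁻ ν, ENNReal.ofReal (cw δ ν * (1 + |t + ν|) ^ (-a))
      ≤ ∫⁻ ν, (ENNReal.ofReal (2 * (1 + |t|) ^ (-a)) * ENNReal.ofReal (cw δ ν) +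
        ENNReal.ofReal (4 / (1 + |t|)) *
          S.indicator (fun ν => ENNReal.ofReal ((1 + |t + ν|) ^ (-a))) ν) := lintegral_mono hp
    _ = ENNReal.ofReal (2 * (1 + |t|) ^ (-a)) * ENNReal.ofReal Real.pi +
        ENNReal.ofReal (4 / (1 + |t|)) *
          ∫⁻ ν in S, ENNReal.ofReal ((1 + |t + ν|) ^ (-a)) := by
        rw [lintegral_add_left ((cw_meas δ).ennreal_ofReal.const_mul _),
          lintegral_const_mul' _ _ ENNReal.ofReal_ne_top, cw_lint hδ,
          lintegral_const_mul' _ _ ENNReal.ofReal_ne_top, lintegral_indicator hSm]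
    _ = ENNReal.ofReal (2 * (1 + |t|) ^ (-a)) * ENNReal.ofReal Real.pi +
        ENNReal.ofReal (4 / (1 + |t|)) *
          ∫⁻ u in {u : ℝ | |u| ≤ |t| / 2}, ENNReal.ofReal ((1 + |u|) ^ (-a)) := by
        congr 2
        have h := (measurePreserving_add_left (volume : Measure ℝ) t).setLIntegral_comp_preimage
          (s := {u : ℝ | |u| ≤ |t| / 2}) (measurableSet_le measurable_abs measurable_const)
          (f := fun u : ℝ => ENNReal.ofReal ((1 + |u|) ^ (-a)))
          (Measurable.ennreal_ofReal (Measurable.pow_const (by fun_prop) _))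
        exact h
    _ ≤ ENNReal.ofReal (2 * (1 + |t|) ^ (-a)) * ENNReal.ofReal Real.pi +
        ENNReal.ofReal (4 / (1 + |t|)) * ENNReal.ofReal (2 / (1 - a) * (1 + |t|) ^ (1 - a)) := by
        refine add_le_add le_rfl (mul_le_mul' le_rfl ((near_int ha0 ha (by positivity)).trans ?_))
        apply ENNReal.ofReal_le_ofReal
        refine mul_le_mul_of_nonneg_left ?_ (by positivity)
        refine Real.rpow_le_rpow (by positivity) ?_ h1a.le
        linarith [abs_nonneg t]
    _ = _ := by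
        rw [← ENNReal.ofReal_mul (by positivity), ← ENNReal.ofReal_mul (by positivity),
          ← ENNReal.ofReal_add (by positivity) (by positivity)]
        congr 1
        have e : (1 + |t|) ^ (1 - a) = (1 + |t|) * (1 + |t|) ^ (-a) := by
          rw [sub_eq_add_neg, Real.rpow_add ht, Real.rpow_one]
        rw [e]
        field_simp
        ring

end Pool.Agent.R245.PB
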