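import Mathlib
import Pool.Agent.R245.PB.Rep
import Pool.Agent.R245.PB.Tml
import Pool.Agent.H153R4.Pl
set_option autoImplicit false

/-! Littlewood Paley pieces of a profile. -/

namespace Pool.Agent.R245.PB

open MeasureTheory Set Complex Filter Real
open scoped ENNReal Topology ComplexConjugate FourierTransform

/-- normalised profiles -/
structure Pr (Ψ : ℝ → ℝ → ℂ) : Prop where
  meas : Measurable fun p : ℝ × ℝ => Ψ p.1 p.2
  le : ∀ θ s, ‖Ψ θ s‖ ≤ 1
  supp : ∀ θ s, s ∉ Icc (0:ℝ) 1 → Ψ θ s = 0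
  mod : ∀ θ h, ∫⁻ s, ‖Ψ θ (s + h) - Ψ θ s‖ₑ ≤ ENNReal.ofReal |h|

/-- Fourier transform -/
noncomputable def Fh (Ψ : ℝ → ℂ) (ν : ℝ) : ℂ := ∫ s, Ψ s * ec (-(ν * s))

/-- the scales -/
noncomputable def dl (k : ℕ) : ℝ := (1 / 2) ^ k

lemma dl_pos (k : ℕ) : 0 < dl k := by unfold dl; positivity
lemma dl_le (k : ℕ) : dl k ≤ 1 := pow_le_one₀ (by norm_num) (by norm_num)
lemma dl_zero : dl 0 = 1 := pow_zero _
lemma dl_succ (k : ℕ) : dl k = 2 * dl (k + 1) := by
  unfold dl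
  rw [pow_succ]
  ring

/-- Gaussian multipliers -/
noncomputable def ge (δ ν : ℝ) : ℝ := Real.exp (-π * (δ * ν) ^ 2)

lemma ge_pos (δ ν : ℝ) : 0 < ge δ ν := Real.exp_pos _

/-- the Littlewood Paley multipliers -/
noncomputable def gk : ℕ → ℝ → ℝ
  | 0, ν => ge 1 ν
  | (k + 1), ν => ge (dl (k + 1)) ν - ge (dl k) ν

lemma gk_sum (n : ℕ) (ν : ℝ) : ∑ k ∈ Finset.range (n + 1), gk k ν = ge (dl n) ν := by
  induction n with
  | zero => simp [gk, dl_zero]
  | succ n ih =>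
    rw [Finset.sum_range_succ, ih]
    simp only [gk]
    ring

lemma ge_meas (δ : ℝ) : Measurable (ge δ) := by
  unfold ge
  fun_prop

lemma gk_meas (k : ℕ) : Measurable (gk k) := by
  cases k with
  | zero => exact ge_meas 1
  | succ k => exact (ge_meas _).sub (ge_meas _)

section one

variable {Ψ : ℝ → ℂ}

lemma Fh_le (h : ∀ s, ‖Ψ s‖ ≤ 1) (hs : ∀ s, s ∉ Icc (0:ℝ) 1 → Ψ s = 0) (ν : ℝ) :
    ‖Fh Ψ ν‖ ≤ 1 := by
  unfold Fh
  have e1 : ∫ s, Ψ s * ec (-(ν * s)) = ∫ s in Icc (0:ℝ) 1, Ψ s * ec (-(ν * s)) := by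
    rw [setIntegral_eq_integral_of_forall_compl_eq_zero]
    intro s hs'
    rw [hs s hs', zero_mul]
  rw [e1]
  have h1 := norm_setIntegral_le_of_norm_le_const (μ := volume) (s := Icc (0:ℝ) 1) (C := 1)
    (f := fun s => Ψ s * ec (-(ν * s))) (by rw [Real.volume_Icc]; exact ENNReal.ofReal_lt_top)
    (fun s _ => by rw [norm_mul, ec_norm, mul_one]; exact h s)
  simpa using h1

lemma Pr_int (hm : Measurable Ψ) (h : ∀ s, ‖Ψ s‖ ≤ 1)
    (hs : ∀ s, s ∉ Icc (0:ℝ) 1 → Ψ s = 0) : Integrable Ψ := by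
  have h1 : IntegrableOn Ψ (Icc (0:ℝ) 1) :=
    Measure.integrableOn_of_bounded (by rw [Real.volume_Icc]; exact ENNReal.ofReal_ne_top)
      hm.aestronglyMeasurable (M := 1) (ae_of_all _ h)
  exact integrableOn_iff_integrable_of_support_subset (fun s hs' => by
    by_contra hc
    exact hs' (hs s hc)) |>.1 h1

lemma ec_mul_int {F : ℝ → ℂ} (hF : Integrable F) (ν : ℝ) :
    Integrable fun s => F s * ec (-(ν * s)) := by
  refine hF.mul_bdd (c := 1) (ec_meas.comp (by fun_prop)).aestronglyMeasurable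
    (ae_of_all _ fun s => (ec_norm _).le)

lemma ec_half : ec (-(1 / 2)) = -1 := by
  unfold ec
  have : (((2 * π * (-(1 / 2)) : ℝ) : ℂ)) * I = -(π * I) := by push_cast; ring
  rw [this, Complex.exp_neg, Complex.exp_pi_mul_I]
  norm_num

lemma Fh_dec (hm : Measurable Ψ) (h : ∀ s, ‖Ψ s‖ ≤ 1)
    (hs : ∀ s, s ∉ Icc (0:ℝ) 1 → Ψ s = 0)
    (hmod : ∀ h : ℝ, ∫⁻ s, ‖Ψ (s + h) - Ψ s‖ₑ ≤ ENNReal.ofReal |h|) {ν : ℝ} (hν : ν ≠ 0) :
    ‖Fh Ψ ν‖ ≤ 1 / (4 * |ν|) := by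
  have hI := Pr_int hm h hs
  set η : ℝ := 1 / (2 * ν) with hη
  have hI2 : Integrable fun s => Ψ (s + η) := hI.comp_add_right η
  have e1 : Fh Ψ ν = -∫ s, Ψ (s + η) * ec (-(ν * s)) := by
    unfold Fh
    rw [← integral_add_right_eq_self _ η, ← integral_neg]
    congr 1
    ext s
    have e2 : ec (-(ν * (s + η))) = ec (-(ν * s)) * ec (-(1 / 2)) := by
      rw [← ec_add]
      congr 1
      rw [hη]
      field_simp
      ring
    rw [e2, ec_half]
    ring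
  have e3 : (2 : ℂ) * Fh Ψ ν = -∫ s, (Ψ (s + η) - Ψ s) * ec (-(ν * s)) := by
    have e4 : ∀ s, (Ψ (s + η) - Ψ s) * ec (-(ν * s)) =
        Ψ (s + η) * ec (-(ν * s)) - Ψ s * ec (-(ν * s)) := fun s => by ring
    simp only [e4]
    rw [integral_sub (ec_mul_int hI2 ν) (ec_mul_int hI ν)]
    have : ∫ s, Ψ s * ec (-(ν * s)) = Fh Ψ ν := rfl
    rw [this, two_mul]
    nth_rewrite 1 [e1]
    ring
  have h5 : ‖(2 : ℂ) * Fh Ψ ν‖ₑ ≤ ENNReal.ofReal |η| := by
    rw [e3, enorm_neg]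
    refine (enorm_integral_le_lintegral_enorm _).trans (le_trans (le_of_eq ?_) (hmod η))
    congr 1
    ext s
    rw [enorm_mul, ← ofReal_norm (ec _), ec_norm, ENNReal.ofReal_one, mul_one]
  rw [← ofReal_norm, ENNReal.ofReal_le_ofReal_iff (abs_nonneg _), norm_mul] at h5
  have e6 : |η| = 1 / (2 * |ν|) := by
    rw [hη, abs_div, abs_one, abs_mul, abs_of_pos (by norm_num : (0:ℝ) < 2)]
  rw [e6] at h5
  norm_num at h5
  have hν' : 0 < |ν| := abs_pos.2 hν
  rw [le_div_iff₀ (by positivity)]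
  have h7 := mul_le_mul_of_nonneg_right h5 (show 0 ≤ 2 * |ν| by positivity)
  have e8 : (|ν|⁻¹ * (1 / 2)) * (2 * |ν|) = 1 := by field_simp
  nlinarith [h7, e8]

lemma ge_one (ν : ℝ) : ge 1 ν ≤ cw 1 ν := by
  unfold ge cw
  rw [neg_mul, Real.exp_neg, one_div, one_mul, one_pow, one_mul]
  apply inv_anti₀ (by positivity)
  have h1 := Real.add_one_le_exp (π * ν ^ 2)
  have h2 : ν ^ 2 ≤ π * ν ^ 2 := by nlinarith [Real.pi_gt_three, sq_nonneg ν]
  linarith

lemma gk_succ_bd (k : ℕ) {ν : ℝ} (hν : ν ≠ 0) :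
    |gk (k + 1) ν| * (1 / (4 * |ν|)) ≤ 3 * cw (dl (k + 1)) ν := by
  set δ := dl (k + 1) with hδ
  have hδ0 : 0 < δ := dl_pos _
  have hν' : 0 < |ν| := abs_pos.2 hν
  set z := δ * |ν| with hz
  have hz0 : 0 < z := mul_pos hδ0 hν'
  have hz2 : z ^ 2 = δ ^ 2 * ν ^ 2 := by rw [hz, mul_pow, sq_abs]
  have e1 : gk (k + 1) ν = Real.exp (-(π * z ^ 2)) * (1 - Real.exp (-(3 * (π * z ^ 2)))) := by
    simp only [gk]
    rw [dl_succ k, ← hδ, mul_sub, ← Real.exp_add, mul_one]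
    unfold ge
    congr 2
    · rw [hz2]
      ring
    · rw [hz2]
      ring
  have h2 := Real.add_one_le_exp (-(3 * (π * z ^ 2)))
  have h3 : Real.exp (-(3 * (π * z ^ 2))) ≤ 1 := by
    rw [Real.exp_le_one_iff]
    have : 0 ≤ 3 * (π * z ^ 2) := by positivity
    linarith
  have h4 : |gk (k + 1) ν| ≤ Real.exp (-(π * z ^ 2)) * (3 * (π * z ^ 2)) := by
    rw [e1, abs_mul, abs_of_pos (Real.exp_pos _), abs_of_nonneg (by linarith)]
    exact mul_le_mul_of_nonneg_left (by linarith) (Real.exp_pos _).le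
  have h5 : z * (1 + z ^ 2) * Real.exp (-(π * z ^ 2)) ≤ 1 := by
    rw [Real.exp_neg, ← div_eq_mul_inv, div_le_one (Real.exp_pos _)]
    have q := Real.quadratic_le_exp_of_nonneg (x := π * z ^ 2) (by positivity)
    have q1 : z ^ 2 ≤ π * z ^ 2 := by nlinarith [Real.pi_gt_three, sq_nonneg z]
    have q2 : z ^ 4 ≤ (π * z ^ 2) ^ 2 := by
      have : (π * z ^ 2) ^ 2 = π ^ 2 * z ^ 4 := by ring
      rw [this]
      have hp : 1 ≤ π ^ 2 := by nlinarith [Real.pi_gt_three]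
      nlinarith [pow_pos hz0 4]
    nlinarith [sq_nonneg (1 - z), sq_nonneg (z ^ 2), q, q1, q2, hz0, mul_nonneg (by positivity : 0 ≤ 1 + z ^ 2) (sq_nonneg (1 - z))]
  unfold cw
  rw [← hz2]
  have h6 : 0 < 1 + z ^ 2 := by positivity
  calc |gk (k + 1) ν| * (1 / (4 * |ν|))
      ≤ Real.exp (-(π * z ^ 2)) * (3 * (π * z ^ 2)) * (1 / (4 * |ν|)) :=
        mul_le_mul_of_nonneg_right h4 (by positivity)
    _ = (3 * π / 4) * δ * (z * Real.exp (-(π * z ^ 2))) := by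
        have : (1 : ℝ) / (4 * |ν|) = δ / (4 * z) := by
          rw [hz]
          field_simp
        rw [this]
        field_simp
    _ ≤ (3 * π / 4) * δ * (1 / (1 + z ^ 2)) := by
        refine mul_le_mul_of_nonneg_left ?_ (by positivity)
        rw [le_div_iff₀ h6]
        linarith
    _ ≤ 3 * (δ / (1 + z ^ 2)) := by
        have : (3 * π / 4) * δ * (1 / (1 + z ^ 2)) = (3 * π / 4) * (δ / (1 + z ^ 2)) := by ring
        rw [this]
        refine mul_le_mul_of_nonneg_right ?_ (by positivity)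
        linarith [Real.pi_lt_four]

end one

/-- the Littlewood Paley pieces -/
noncomputable def HL (Ψ : ℝ → ℝ → ℂ) (k : ℕ) (ν θ : ℝ) : ℂ := (gk k ν : ℂ) * Fh (Ψ θ) ν

variable {Ψ : ℝ → ℝ → ℂ}

lemma Pr.sec (h : Pr Ψ) (θ : ℝ) : Measurable (Ψ θ) :=
  h.meas.comp (f := fun s : ℝ => (θ, s)) (by fun_prop)

lemma Fh_meas (h : Pr Ψ) : Measurable fun p : ℝ × ℝ => Fh (Ψ p.2) p.1 := by
  unfold Fh
  have h1 : Measurable fun q : (ℝ × ℝ) × ℝ => Ψ q.1.2 q.2 * ec (-(q.1.1 * q.2)) := by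
    refine Measurable.mul ?_ (ec_meas.comp (by fun_prop))
    exact h.meas.comp (f := fun q : (ℝ × ℝ) × ℝ => (q.1.2, q.2)) (by fun_prop)
  exact (h1.stronglyMeasurable.integral_prod_right' (ν := (volume : Measure ℝ))).measurable

lemma HL_adm (h : Pr Ψ) (k : ℕ) : Adm (HL Ψ k) (fun ν => 3 * cw (dl k) ν) where
  meas := by
    unfold HL
    exact (Complex.measurable_ofReal.comp ((gk_meas k).comp measurable_fst)).mul (Fh_meas h)
  bmeas := (cw_meas _).const_mul _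
  bint := (cw_int (dl_pos k)).const_mul _
  le := by
    intro ν θ
    unfold HL
    rw [norm_mul, Complex.norm_real, Real.norm_eq_abs]
    cases k with
    | zero =>
      rw [dl_zero]
      simp only [gk]
      rw [abs_of_pos (ge_pos _ _)]
      have h1 := ge_one ν
      have h2 := Fh_le (h.le θ) (h.supp θ) ν
      have h3 := cw_nonneg (by norm_num : (0:ℝ) < 1) ν
      calc ge 1 ν * ‖Fh (Ψ θ) ν‖ ≤ cw 1 ν * 1 := mul_le_mul h1 h2 (norm_nonneg _) h3
        _ ≤ 3 * cw 1 ν := by linarith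
    | succ k =>
      rcases eq_or_ne ν 0 with hν | hν
      · have e : gk (k + 1) ν = 0 := by
          simp only [gk]
          unfold ge
          rw [hν]
          simp
        rw [e, abs_zero, zero_mul]
        have := cw_nonneg (dl_pos (k + 1)) ν
        positivity
      · exact (mul_le_mul_of_nonneg_left (Fh_dec (h.sec θ) (h.le θ) (h.supp θ) (h.mod θ) hν)
          (abs_nonneg _)).trans (gk_succ_bd k hν)

/-- the `L^2` norm of a piece -/
lemma IF_L2 {H : ℝ → ℝ → ℂ} {c δ : ℝ} (hc : 0 ≤ c) (hδ : 0 < δ)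
    (h : Adm H (fun ν => c * cw δ ν)) (θ : ℝ) :
    ∫⁻ s, ‖IF H θ s‖ₑ ^ 2 ≤ ENNReal.ofReal (c ^ 2 * δ * π) := by
  have hcw : ∀ ν, cw δ ν ≤ δ := by
    intro ν
    unfold cw
    apply div_le_self hδ.le
    have : 0 ≤ δ ^ 2 * ν ^ 2 := by positivity
    linarith
  have hI : Integrable fun ν => H ν θ := by
    refine h.bint.mono (h.left θ).aestronglyMeasurable (ae_of_all _ fun ν => ?_)
    rw [Real.norm_eq_abs, abs_of_nonneg (h.b0 ν)]
    exact h.le ν θ
  have h2 : ∫⁻ ν, ‖H ν θ‖ₑ ^ 2 ≤ ENNReal.ofReal (c ^ 2 * δ * π) := by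
    calc ∫⁻ ν, ‖H ν θ‖ₑ ^ 2 ≤ ∫⁻ ν, ENNReal.ofReal (c ^ 2 * δ) * ENNReal.ofReal (cw δ ν) := by
          apply lintegral_mono
          intro ν
          simp only
          rw [← ofReal_norm, ← ENNReal.ofReal_pow (norm_nonneg _), ← ENNReal.ofReal_mul (by positivity)]
          apply ENNReal.ofReal_le_ofReal
          have h3 := h.le ν θ
          have h4 := cw_nonneg hδ ν
          calc ‖H ν θ‖ ^ 2 ≤ (c * cw δ ν) ^ 2 := by
                exact pow_le_pow_left₀ (norm_nonneg _) h3 2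
            _ = c ^ 2 * (cw δ ν * cw δ ν) := by ring
            _ ≤ c ^ 2 * (δ * cw δ ν) := by
                refine mul_le_mul_of_nonneg_left ?_ (by positivity)
                exact mul_le_mul_of_nonneg_right (hcw ν) h4
            _ = _ := by ring
      _ = _ := by
          rw [lintegral_const_mul' _ _ ENNReal.ofReal_ne_top, cw_lint hδ,
            ← ENNReal.ofReal_mul (by positivity)]
  have hL2 : MemLp (fun ν => H ν θ) 2 := by
    refine ⟨(h.left θ).aestronglyMeasurable, ?_⟩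
    rw [eLpNorm_lt_top_iff_lintegral_rpow_enorm_lt_top (by norm_num) (by norm_num)]
    refine lt_of_le_of_lt (le_of_eq ?_) (lt_of_le_of_lt h2 ENNReal.ofReal_lt_top)
    congr 1
    ext ν
    norm_num
  have hpl := Pool.Agent.H153R4.plancherel (V := ℝ) (fun ν => H ν θ) hI hL2
  have e1 : ∀ s, IF H θ s = 𝓕 (fun ν => H ν θ) (-s) := by
    intro s
    rw [Real.fourier_eq']
    unfold IF ec
    congr 1
    ext ν
    rw [smul_eq_mul, mul_comm]
    congr 2
    simp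
    ring
  have hmF : Measurable fun w => ‖𝓕 (fun ν => H ν θ) w‖ₑ ^ 2 := by
    have h5 : Measurable fun w => 𝓕 (fun ν => H ν θ) w := by
      have e2 : (fun w => 𝓕 (fun ν => H ν θ) w) = fun w => IF H θ (-w) := by
        ext w
        rw [e1, neg_neg]
      rw [e2]
      exact (IF_meas h).comp (f := fun w : ℝ => (θ, -w)) (by fun_prop)
    exact h5.enorm.pow_const 2
  calc ∫⁻ s, ‖IF H θ s‖ₑ ^ 2 = ∫⁻ s, ‖𝓕 (fun ν => H ν θ) (-s)‖ₑ ^ 2 := by simp only [e1]
    _ = ∫⁻ s, ‖𝓕 (fun ν => H ν θ) s‖ₑ ^ 2 :=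
        (Measure.measurePreserving_neg (volume : Measure ℝ)).lintegral_comp hmF
    _ ≤ _ := by
        rw [hpl]
        exact h2

end Pool.Agent.R245.PB
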