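import Mathlib
import Pool.Agent.R245.PB.Lit
set_option autoImplicit false

/-! The Littlewood Paley series of a profile. -/

namespace Pool.Agent.R245.PB

open MeasureTheory Set Complex Filter Real
open scoped ENNReal Topology ComplexConjugate

/-- the Gaussian mollifier -/
noncomputable def ga (δ u : ℝ) : ℝ := δ⁻¹ * Real.exp (-π * (u / δ) ^ 2)

lemma ga_four {δ : ℝ} (hδ : 0 < δ) (u : ℝ) : ∫ ν, (ge δ ν : ℂ) * ec (ν * u) = (ga δ u : ℂ) := by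
  have hre : 0 < (((δ ^ 2 : ℝ) : ℂ)).re := by
    rw [Complex.ofReal_re]
    positivity
  have h1 : ∫ ν, (ge δ ν : ℂ) * ec (ν * u) = S 0 ((δ ^ 2 : ℝ) : ℂ) (I * u) := by
    unfold S
    congr 1
    ext ν
    rw [pow_zero, one_mul]
    unfold ge ec qd
    rw [Complex.ofReal_exp, ← Complex.exp_add]
    congr 1
    push_cast
    ring
  rw [h1, S_zero hre]
  unfold ga
  have e1 : (1 / ((δ ^ 2 : ℝ) : ℂ)) ^ (1 / 2 : ℂ) = ((δ⁻¹ : ℝ) : ℂ) := by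
    have e2 : (1 / ((δ ^ 2 : ℝ) : ℂ)) = (((δ⁻¹) ^ 2 : ℝ) : ℂ) := by
      push_cast
      rw [one_div, inv_pow]
    have e3 : (1 / 2 : ℂ) = ((1 / 2 : ℝ) : ℂ) := by push_cast; rfl
    rw [e2, e3, ← Complex.ofReal_cpow (by positivity), ← Real.sqrt_eq_rpow,
      Real.sqrt_sq (inv_pos.2 hδ).le]
  rw [e1]
  push_cast
  congr 2
  rw [mul_pow, Complex.I_sq]
  have : (δ : ℂ) ≠ 0 := by exact_mod_cast hδ.ne'
  field_simp

lemma ga_pos {δ : ℝ} (hδ : 0 < δ) (u : ℝ) : 0 < ga δ u := by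
  unfold ga
  positivity

lemma ga_meas (δ : ℝ) : Measurable (ga δ) := by
  unfold ga
  fun_prop

lemma lint_scale {δ : ℝ} (hδ : 0 < δ) {F : ℝ → ℝ≥0∞} (hF : Measurable F) :
    ∫⁻ u, F (δ⁻¹ * u) = ENNReal.ofReal δ * ∫⁻ u, F u := by
  have h1 := lintegral_map (μ := (volume : Measure ℝ)) hF (measurable_const_mul δ⁻¹)
  rw [Real.map_volume_mul_left (inv_pos.2 hδ).ne', lintegral_smul_measure, smul_eq_mul, inv_inv,
    abs_of_pos hδ] at h1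
  exact h1.symm

lemma rg_lint : ∫⁻ r : ℝ, ENNReal.ofReal (|r| * Real.exp (-π * r ^ 2)) ≤ 1 := by
  have hG : Measurable fun r : ℝ => ENNReal.ofReal (r * Real.exp (-π * r ^ 2)) := by
    apply Measurable.ennreal_ofReal
    fun_prop
  have h1 := sym_lint hG
  simp only [sq_abs] at h1
  rw [h1]
  have h4 := sq_sub fun s => ENNReal.ofReal (Real.exp (-π * s))
  rw [exp_lint Real.pi_pos] at h4
  have h5 : ∫⁻ r in Ioi (0:ℝ), ENNReal.ofReal (r * Real.exp (-π * r ^ 2)) =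
      ∫⁻ r in Ioi (0:ℝ), ENNReal.ofReal r * ENNReal.ofReal (Real.exp (-π * r ^ 2)) := by
    apply setLIntegral_congr_fun measurableSet_Ioi
    intro r hr
    simp only
    rw [ENNReal.ofReal_mul (le_of_lt hr)]
  rw [h5, ← h4, ENNReal.ofReal_le_one, div_le_one Real.pi_pos]
  linarith [Real.pi_gt_three]

lemma ga_abs {δ : ℝ} (hδ : 0 < δ) :
    ∫⁻ u, ENNReal.ofReal (ga δ u) * ENNReal.ofReal |u| ≤ ENNReal.ofReal δ := by
  have hm : Measurable fun r : ℝ => ENNReal.ofReal (|r| * Real.exp (-π * r ^ 2)) := by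
    apply Measurable.ennreal_ofReal
    fun_prop
  have e1 : ∀ u, ENNReal.ofReal (ga δ u) * ENNReal.ofReal |u| =
      (fun r : ℝ => ENNReal.ofReal (|r| * Real.exp (-π * r ^ 2))) (δ⁻¹ * u) := by
    intro u
    simp only
    rw [← ENNReal.ofReal_mul (ga_pos hδ u).le]
    congr 1
    unfold ga
    rw [abs_mul, abs_of_pos (inv_pos.2 hδ), div_eq_mul_inv, mul_comm u]
    ring
  simp only [e1]
  rw [lint_scale hδ hm]
  calc _ ≤ ENNReal.ofReal δ * 1 := mul_le_mul' le_rfl rg_lint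
    _ = _ := mul_one _

lemma ge_integrable {δ : ℝ} (hδ : 0 < δ) : Integrable (ge δ) := by
  have h1 : Integrable fun x : ℝ => Real.exp (-π * x ^ 2) := integrable_exp_neg_mul_sq Real.pi_pos
  exact h1.comp_mul_left' hδ.ne'

lemma ga_integrable {δ : ℝ} (hδ : 0 < δ) : Integrable (ga δ) := by
  have h1 : Integrable fun x : ℝ => Real.exp (-π * x ^ 2) := integrable_exp_neg_mul_sq Real.pi_pos
  exact ((h1.comp_div hδ.ne').const_mul δ⁻¹)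

lemma ga_one {δ : ℝ} (hδ : 0 < δ) : ∫ u, ga δ u = 1 := by
  unfold ga
  rw [integral_const_mul, Measure.integral_comp_div (fun x : ℝ => Real.exp (-π * x ^ 2)),
    integral_gaussian, div_self Real.pi_ne_zero, Real.sqrt_one, abs_of_pos hδ, smul_eq_mul, mul_one,
    inv_mul_cancel₀ hδ.ne']

/-- the smoothed profile -/
noncomputable def HS (Ψ : ℝ → ℝ → ℂ) (n : ℕ) (ν θ : ℝ) : ℂ := (ge (dl n) ν : ℂ) * Fh (Ψ θ) ν

variable {Ψ : ℝ → ℝ → ℂ}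

lemma HS_adm (h : Pr Ψ) (n : ℕ) : Adm (HS Ψ n) (ge (dl n)) where
  meas := by
    unfold HS
    exact (Complex.measurable_ofReal.comp ((ge_meas _).comp measurable_fst)).mul (Fh_meas h)
  bmeas := ge_meas _
  bint := ge_integrable (dl_pos n)
  le := by
    intro ν θ
    unfold HS
    rw [norm_mul, Complex.norm_real, Real.norm_eq_abs, abs_of_pos (ge_pos _ _)]
    calc ge (dl n) ν * ‖Fh (Ψ θ) ν‖ ≤ ge (dl n) ν * 1 :=
          mul_le_mul_of_nonneg_left (Fh_le (h.le θ) (h.supp θ) ν) (ge_pos _ _).le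
      _ = _ := mul_one _

lemma Pr.int (h : Pr Ψ) (θ : ℝ) : Integrable (Ψ θ) := Pr_int (h.sec θ) (h.le θ) (h.supp θ)

lemma HS_IF (h : Pr Ψ) (n : ℕ) (θ s : ℝ) :
    IF (HS Ψ n) θ s = ∫ u, (ga (dl n) u : ℂ) * Ψ θ (s - u) := by
  have hI : Integrable (fun p : ℝ × ℝ => ((ge (dl n) p.1 : ℝ) : ℂ) * (Ψ θ p.2 * ec (p.1 * (s - p.2))))
      (volume.prod volume) := by
    have h0 : Integrable (fun p : ℝ × ℝ => ((ge (dl n) p.1 : ℝ) : ℂ) * Ψ θ p.2)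
        (volume.prod volume) := (ge_integrable (dl_pos n)).ofReal.mul_prod (h.int θ)
    refine h0.mono ?_ (ae_of_all _ fun p => ?_)
    · refine (Measurable.mul ?_ (Measurable.mul ?_ (ec_meas.comp (by fun_prop)))).aestronglyMeasurable
      · exact Complex.measurable_ofReal.comp ((ge_meas _).comp measurable_fst)
      · exact (h.sec θ).comp measurable_snd
    · rw [norm_mul, norm_mul, norm_mul, ec_norm, mul_one]
  calc IF (HS Ψ n) θ s = ∫ ν, ∫ u, ((ge (dl n) ν : ℝ) : ℂ) * (Ψ θ u * ec (ν * (s - u))) := by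
        unfold IF HS Fh
        congr 1
        ext ν
        rw [integral_const_mul, mul_assoc, ← integral_mul_const]
        congr 2
        ext u
        have : ec (ν * (s - u)) = ec (-(ν * u)) * ec (ν * s) := by
          rw [← ec_add]
          congr 1
          ring
        rw [this]
        ring
    _ = ∫ u, ∫ ν, ((ge (dl n) ν : ℝ) : ℂ) * (Ψ θ u * ec (ν * (s - u))) :=
        integral_integral_swap (f := fun ν u : ℝ => ((ge (dl n) ν : ℝ) : ℂ) *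
          (Ψ θ u * ec (ν * (s - u)))) hI
    _ = ∫ u, (ga (dl n) (s - u) : ℂ) * Ψ θ u := by
        congr 1
        ext u
        rw [← ga_four (dl_pos n), ← integral_mul_const]
        congr 1
        ext ν
        ring
    _ = ∫ u, (ga (dl n) u : ℂ) * Ψ θ (s - u) := by
        rw [← integral_sub_left_eq_self _ volume s]
        congr 1
        ext u
        rw [sub_sub_cancel]

lemma HS_err (h : Pr Ψ) (n : ℕ) (θ : ℝ) :
    ∫⁻ s, ‖Ψ θ s - IF (HS Ψ n) θ s‖ₑ ≤ ENNReal.ofReal (dl n) := by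
  have hg1 : ∫ u, ((ga (dl n) u : ℝ) : ℂ) = 1 := by
    rw [integral_complex_ofReal, ga_one (dl_pos n), Complex.ofReal_one]
  have hp : ∀ s, ‖Ψ θ s - IF (HS Ψ n) θ s‖ₑ ≤
      ∫⁻ u, ENNReal.ofReal (ga (dl n) u) * ‖Ψ θ (s - u) - Ψ θ s‖ₑ := by
    intro s
    have e1 : Ψ θ s - IF (HS Ψ n) θ s = -∫ u, (ga (dl n) u : ℂ) * (Ψ θ (s - u) - Ψ θ s) := by
      have i1 : Integrable fun u => (ga (dl n) u : ℂ) * Ψ θ (s - u) := by
        refine (ga_integrable (dl_pos n)).ofReal.mul_bdd (c := 1)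
          ((h.sec θ).comp (by fun_prop)).aestronglyMeasurable (ae_of_all _ fun u => h.le θ _)
      have i2 : Integrable fun u => (ga (dl n) u : ℂ) * Ψ θ s :=
        (ga_integrable (dl_pos n)).ofReal.mul_const _
      simp only [mul_sub]
      rw [integral_sub i1 i2, integral_mul_const, hg1, HS_IF h]
      ring
    rw [e1, enorm_neg]
    refine (enorm_integral_le_lintegral_enorm _).trans (le_of_eq ?_)
    congr 1
    ext u
    rw [enorm_mul]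
    congr 1
    rw [← ofReal_norm, Complex.norm_real, Real.norm_eq_abs, abs_of_pos (ga_pos (dl_pos n) u)]
  have hm : Measurable fun q : ℝ × ℝ => ENNReal.ofReal (ga (dl n) q.2) *
      ‖Ψ θ (q.1 - q.2) - Ψ θ q.1‖ₑ := by
    refine Measurable.mul ((ga_meas _).comp measurable_snd).ennreal_ofReal (Measurable.enorm ?_)
    refine Measurable.sub ?_ ((h.sec θ).comp measurable_fst)
    exact (h.sec θ).comp (f := fun q : ℝ × ℝ => q.1 - q.2) (by fun_prop)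
  calc ∫⁻ s, ‖Ψ θ s - IF (HS Ψ n) θ s‖ₑ
      ≤ ∫⁻ s, ∫⁻ u, ENNReal.ofReal (ga (dl n) u) * ‖Ψ θ (s - u) - Ψ θ s‖ₑ := lintegral_mono hp
    _ = ∫⁻ u, ∫⁻ s, ENNReal.ofReal (ga (dl n) u) * ‖Ψ θ (s - u) - Ψ θ s‖ₑ :=
        lintegral_lintegral_swap hm.aemeasurable
    _ ≤ ∫⁻ u, ENNReal.ofReal (ga (dl n) u) * ENNReal.ofReal |u| := by
        apply lintegral_mono
        intro u
        simp only
        rw [lintegral_const_mul' _ _ ENNReal.ofReal_ne_top]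
        refine mul_le_mul' le_rfl ?_
        have := h.mod θ (-u)
        rw [abs_neg] at this
        simpa only [sub_eq_add_neg] using this
    _ ≤ _ := ga_abs (dl_pos n)

/-- the trivial bound -/
lemma TT_sup {Φ : ℝ → ℝ → ℂ} (t : ℝ) (x : ℝ × ℝ) (hΦ : Measurable fun p : ℝ × ℝ => Φ p.1 p.2) :
    ‖TT Φ t x‖ₑ ≤ ∫⁻ θ, (∫⁻ s in Ioi (0:ℝ), ‖Φ θ s‖ₑ) ∂mu := by
  unfold TT
  refine (enorm_integral_le_lintegral_enorm _).trans ?_
  apply lintegral_mono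
  intro θ
  simp only
  refine (enorm_integral_le_lintegral_enorm _).trans ?_
  have hsec : Measurable (Φ θ) := hΦ.comp (f := fun s : ℝ => (θ, s)) (by fun_prop)
  have h1 : ∀ r : ℝ, ‖(r : ℂ) * Φ θ (r ^ 2) * ec (r * ip x θ + r ^ 2 * t)‖ₑ =
      (fun u : ℝ => ENNReal.ofReal u * ‖Φ θ (u ^ 2)‖ₑ) |r| := by
    intro r
    simp only
    rw [enorm_mul, enorm_mul, ← ofReal_norm (ec _), ec_norm, ENNReal.ofReal_one, mul_one,
      ← ofReal_norm (r : ℂ), Complex.norm_real, Real.norm_eq_abs, sq_abs]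
  simp only [h1]
  have hm : Measurable fun u : ℝ => ENNReal.ofReal u * ‖Φ θ (u ^ 2)‖ₑ :=
    Measurable.mul (by fun_prop) (hsec.comp (by fun_prop)).enorm
  rw [sym_lint hm, sq_sub fun s => ‖Φ θ s‖ₑ]

lemma TT_sub {Φ1 Φ2 : ℝ → ℝ → ℂ} (hΦ1 : Measurable fun p : ℝ × ℝ => Φ1 p.1 p.2)
    (hΦ2 : Measurable fun p : ℝ × ℝ => Φ2 p.1 p.2)
    (hA1 : ∫⁻ θ, (∫⁻ s in Ioi (0:ℝ), ‖Φ1 θ s‖ₑ) ∂mu < ⊤)
    (hA2 : ∫⁻ θ, (∫⁻ s in Ioi (0:ℝ), ‖Φ2 θ s‖ₑ) ∂mu < ⊤) (t : ℝ) (x : ℝ × ℝ) :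
    TT Φ1 t x - TT Φ2 t x = TT (fun θ s => Φ1 θ s - Φ2 θ s) t x := by
  have hm : Measurable fun p : ℝ × ℝ => Φ1 p.1 p.2 - Φ2 p.1 p.2 := hΦ1.sub hΦ2
  have hA : ∫⁻ θ, (∫⁻ s in Ioi (0:ℝ), ‖Φ1 θ s - Φ2 θ s‖ₑ) ∂mu < ⊤ := by
    have s1 : Measurable fun θ => ∫⁻ s in Ioi (0:ℝ), ‖Φ1 θ s‖ₑ := hΦ1.enorm.lintegral_prod_right'
    calc ∫⁻ θ, (∫⁻ s in Ioi (0:ℝ), ‖Φ1 θ s - Φ2 θ s‖ₑ) ∂mu
        ≤ ∫⁻ θ, ((∫⁻ s in Ioi (0:ℝ), ‖Φ1 θ s‖ₑ) + ∫⁻ s in Ioi (0:ℝ), ‖Φ2 θ s‖ₑ) ∂mu := by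
          apply lintegral_mono
          intro θ
          simp only
          have s2 : Measurable (Φ1 θ) := hΦ1.comp (f := fun s : ℝ => (θ, s)) (by fun_prop)
          rw [← lintegral_add_left s2.enorm]
          exact lintegral_mono fun s => enorm_sub_le
      _ = _ := lintegral_add_left s1 _
      _ < ⊤ := ENNReal.add_lt_top.2 ⟨hA1, hA2⟩
  have hE : ∀ y, Ext (pf Φ1) t y - Ext (pf Φ2) t y = Ext (pf fun θ s => Φ1 θ s - Φ2 θ s) t y := by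
    intro y
    unfold Ext
    have hint : ∀ {Φ : ℝ → ℝ → ℂ}, Integrable (pf Φ) → Integrable fun ξ : ℝ × ℝ => pf Φ ξ *
        ec (ξ.1 * y.1 + ξ.2 * y.2 + (ξ.1 ^ 2 + ξ.2 ^ 2) * t) := by
      intro Φ hΦ
      refine hΦ.mul_bdd (c := 1) (ec_meas.comp (by fun_prop)).aestronglyMeasurable
        (ae_of_all _ fun s => (ec_norm _).le)
    rw [← integral_sub (hint (pf_int hΦ1 hA1)) (hint (pf_int hΦ2 hA2))]
    congr 1
    ext ξ
    unfold pf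
    ring
  rw [TT_eq hΦ1 hA1, TT_eq hΦ2 hA2, TT_eq hm hA, ← hE, ← hE]
  ring

variable {H : ℝ → ℝ → ℂ} {b : ℝ → ℝ}

lemma exp_le' {s : ℝ} (hs : 0 < s) : ‖cexp (-π * s)‖ₑ ≤ 1 := by
  rw [← ofReal_norm, Complex.norm_exp, ENNReal.ofReal_le_one, Real.exp_le_one_iff]
  simp
  positivity

lemma prof_A (h : Adm H b) {g : ℝ → ℂ} (hg1 : ∫⁻ θ, ‖g θ‖ₑ ∂mu < ⊤) :
    ∫⁻ θ, (∫⁻ s in Ioi (0:ℝ), ‖prof H g θ s‖ₑ) ∂mu < ⊤ := by
  have hp : ∀ θ, ∫⁻ s in Ioi (0:ℝ), ‖prof H g θ s‖ₑ ≤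
      ‖g θ‖ₑ * (ENNReal.ofReal (∫ ν, b ν) * ENNReal.ofReal (1 / π)) := by
    intro θ
    rw [← exp_lint Real.pi_pos, ← lintegral_const_mul' _ _ ENNReal.ofReal_ne_top,
      ← lintegral_const_mul' _ _ enorm_ne_top]
    apply lintegral_mono
    intro s
    simp only
    unfold prof
    rw [enorm_mul, enorm_mul, mul_comm ‖cexp _‖ₑ]
    refine mul_le_mul' le_rfl (mul_le_mul' ?_ ?_)
    · rw [← ofReal_norm]
      exact ENNReal.ofReal_le_ofReal (IF_le h θ s)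
    · rw [← ofReal_norm, Complex.norm_exp]
      simp
  calc ∫⁻ θ, (∫⁻ s in Ioi (0:ℝ), ‖prof H g θ s‖ₑ) ∂mu
      ≤ ∫⁻ θ, ‖g θ‖ₑ * (ENNReal.ofReal (∫ ν, b ν) * ENNReal.ofReal (1 / π)) ∂mu :=
        lintegral_mono hp
    _ = (∫⁻ θ, ‖g θ‖ₑ ∂mu) * (ENNReal.ofReal (∫ ν, b ν) * ENNReal.ofReal (1 / π)) :=
        lintegral_mul_const' _ _ (ENNReal.mul_ne_top ENNReal.ofReal_ne_top ENNReal.ofReal_ne_top)
    _ < ⊤ := ENNReal.mul_lt_top hg1 (ENNReal.mul_lt_top ENNReal.ofReal_lt_top ENNReal.ofReal_lt_top)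

/-- the full profile -/
noncomputable def pfl (Ψ : ℝ → ℝ → ℂ) (g : ℝ → ℂ) (θ s : ℝ) : ℂ := g θ * (cexp (-π * s) * Ψ θ s)

lemma pfl_meas (h : Pr Ψ) {g : ℝ → ℂ} (hg : Measurable g) :
    Measurable fun p : ℝ × ℝ => pfl Ψ g p.1 p.2 := by
  unfold pfl
  refine (hg.comp measurable_fst).mul (Measurable.mul ?_ h.meas)
  apply Continuous.measurable
  fun_prop

lemma pfl_A (h : Pr Ψ) {g : ℝ → ℂ} (hg1 : ∫⁻ θ, ‖g θ‖ₑ ∂mu < ⊤) :
    ∫⁻ θ, (∫⁻ s in Ioi (0:ℝ), ‖pfl Ψ g θ s‖ₑ) ∂mu < ⊤ := by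
  refine lt_of_le_of_lt (lintegral_mono fun θ => ?_) hg1
  have h1 : ∫⁻ s in Ioi (0:ℝ), ‖Ψ θ s‖ₑ ≤ 1 := by
    calc ∫⁻ s in Ioi (0:ℝ), ‖Ψ θ s‖ₑ ≤ ∫⁻ s, ‖Ψ θ s‖ₑ := setLIntegral_le_lintegral _ _
      _ = ∫⁻ s in Icc (0:ℝ) 1, ‖Ψ θ s‖ₑ := by
          rw [← lintegral_indicator measurableSet_Icc]
          congr 1
          ext s
          by_cases hs : s ∈ Icc (0:ℝ) 1
          · rw [indicator_of_mem hs]
          · rw [indicator_of_notMem hs, h.supp θ s hs, enorm_zero]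
      _ ≤ ∫⁻ s in Icc (0:ℝ) 1, 1 := by
          apply lintegral_mono
          intro s
          simp only
          rw [← ofReal_norm, ENNReal.ofReal_le_one]
          exact h.le θ s
      _ = 1 := by simp
  calc ∫⁻ s in Ioi (0:ℝ), ‖pfl Ψ g θ s‖ₑ ≤ ∫⁻ s in Ioi (0:ℝ), ‖g θ‖ₑ * ‖Ψ θ s‖ₑ := by
        apply setLIntegral_mono' measurableSet_Ioi
        intro s hs
        unfold pfl
        rw [enorm_mul, enorm_mul]
        refine mul_le_mul' le_rfl ?_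
        calc ‖cexp (-π * s)‖ₑ * ‖Ψ θ s‖ₑ ≤ 1 * ‖Ψ θ s‖ₑ := mul_le_mul' (exp_le' hs) le_rfl
          _ = _ := one_mul _
    _ = ‖g θ‖ₑ * ∫⁻ s in Ioi (0:ℝ), ‖Ψ θ s‖ₑ := lintegral_const_mul' _ _ enorm_ne_top
    _ ≤ ‖g θ‖ₑ * 1 := mul_le_mul' le_rfl h1
    _ = _ := mul_one _

lemma HL_sum (h : Pr Ψ) {g : ℝ → ℂ} (hg : Integrable g mu) (n : ℕ) (t : ℝ) (x : ℝ × ℝ) :
    ∑ k ∈ Finset.range (n + 1), TT (prof (HL Ψ k) g) t x = TT (prof (HS Ψ n) g) t x := by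
  have e1 : ∀ k, TT (prof (HL Ψ k) g) t x = ∫ θ, g θ * KH (HL Ψ k) t (ip x θ) θ ∂mu :=
    fun k => TT_prof (HL_adm h k) g t x
  simp only [e1]
  rw [TT_prof (HS_adm h n), ← integral_finsetSum _ fun k _ => KHg_int (HL_adm h k) hg t x]
  congr 1
  ext θ
  rw [← Finset.mul_sum]
  congr 1
  unfold KH
  rw [← integral_finsetSum _ fun k _ => KH_int (HL_adm h k) t _ θ]
  congr 1
  ext ν
  rw [← Finset.sum_mul]
  congr 1
  unfold HL HS
  rw [← Finset.sum_mul, ← gk_sum]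
  push_cast
  rfl

/-- the Littlewood Paley series -/
theorem LPsum (h : Pr Ψ) {g : ℝ → ℂ} (hg : Measurable g) (hgI : Integrable g mu) (t : ℝ)
    (x : ℝ × ℝ) : ‖TT (pfl Ψ g) t x‖ₑ ≤ ∑' k, ‖TT (prof (HL Ψ k) g) t x‖ₑ := by
  have hg1 : ∫⁻ θ, ‖g θ‖ₑ ∂mu < ⊤ := hgI.hasFiniteIntegral
  have key : ∀ n : ℕ, ‖TT (pfl Ψ g) t x‖ₑ ≤ (∑' k, ‖TT (prof (HL Ψ k) g) t x‖ₑ) +
      (∫⁻ θ, ‖g θ‖ₑ ∂mu) * ENNReal.ofReal (dl n) := by
    intro n
    have hmp := pfl_meas h hg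
    have hms := prof_meas (HS_adm h n) hg
    have hAp := pfl_A h hg1
    have hAs := prof_A (HS_adm h n) hg1
    have hd := TT_sub hmp hms hAp hAs t x
    have h1 : ‖TT (fun θ s => pfl Ψ g θ s - prof (HS Ψ n) g θ s) t x‖ₑ ≤
        (∫⁻ θ, ‖g θ‖ₑ ∂mu) * ENNReal.ofReal (dl n) := by
      refine (TT_sup t x (hmp.sub hms)).trans ?_
      rw [← lintegral_mul_const' _ _ ENNReal.ofReal_ne_top]
      apply lintegral_mono
      intro θ
      simp only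
      calc ∫⁻ s in Ioi (0:ℝ), ‖pfl Ψ g θ s - prof (HS Ψ n) g θ s‖ₑ
          ≤ ∫⁻ s in Ioi (0:ℝ), ‖g θ‖ₑ * ‖Ψ θ s - IF (HS Ψ n) θ s‖ₑ := by
            apply setLIntegral_mono' measurableSet_Ioi
            intro s hs
            unfold pfl prof
            rw [← mul_sub, ← mul_sub, enorm_mul, enorm_mul]
            refine mul_le_mul' le_rfl ?_
            calc ‖cexp (-π * s)‖ₑ * ‖Ψ θ s - IF (HS Ψ n) θ s‖ₑ ≤
                1 * ‖Ψ θ s - IF (HS Ψ n) θ s‖ₑ := mul_le_mul' (exp_le' hs) le_rfl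
              _ = _ := one_mul _
        _ ≤ ∫⁻ s, ‖g θ‖ₑ * ‖Ψ θ s - IF (HS Ψ n) θ s‖ₑ := setLIntegral_le_lintegral _ _
        _ = ‖g θ‖ₑ * ∫⁻ s, ‖Ψ θ s - IF (HS Ψ n) θ s‖ₑ := lintegral_const_mul' _ _ enorm_ne_top
        _ ≤ ‖g θ‖ₑ * ENNReal.ofReal (dl n) := mul_le_mul' le_rfl (HS_err h n θ)
    have h2 : ‖TT (prof (HS Ψ n) g) t x‖ₑ ≤ ∑' k, ‖TT (prof (HL Ψ k) g) t x‖ₑ := by
      rw [← HL_sum h hgI]
      exact (enorm_sum_le _ _).trans (ENNReal.sum_le_tsum _)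
    calc ‖TT (pfl Ψ g) t x‖ₑ = ‖TT (prof (HS Ψ n) g) t x +
          TT (fun θ s => pfl Ψ g θ s - prof (HS Ψ n) g θ s) t x‖ₑ := by
          rw [← hd]
          congr 1
          ring
      _ ≤ _ := (enorm_add_le _ _).trans (add_le_add h2 h1)
  have hlim : Tendsto (fun n : ℕ => (∑' k, ‖TT (prof (HL Ψ k) g) t x‖ₑ) +
      (∫⁻ θ, ‖g θ‖ₑ ∂mu) * ENNReal.ofReal (dl n)) atTop
      (𝓝 ((∑' k, ‖TT (prof (HL Ψ k) g) t x‖ₑ) + (∫⁻ θ, ‖g θ‖ₑ ∂mu) * ENNReal.ofReal 0)) := by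
    apply Tendsto.const_add
    apply ENNReal.Tendsto.const_mul
    · apply ENNReal.tendsto_ofReal
      exact tendsto_pow_atTop_nhds_zero_of_lt_one (by norm_num) (by norm_num)
    · exact Or.inr hg1.ne
  have := ge_of_tendsto' hlim key
  simpa using this

end Pool.Agent.R245.PB
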