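import Mathlib
import Pool.Agent.R245.PB.Cnv
import Pool.Agent.H438R2.RZ.M1
import Pool.Agent.TH335.RF.P4
set_option autoImplicit false

/-! The fixed time estimate for odd profiles. -/

namespace Pool.Agent.R245.PB

open MeasureTheory Set Complex Filter Real
open scoped ENNReal Topology ComplexConjugate

variable {Ψ : ℝ → ℝ → ℂ}

lemma lim0 {e : ℝ} (he0 : 0 < e) (he1 : e ≤ 1) : ∃ C : ℝ, 0 < C ∧ ∀ (Ψ : ℝ → ℝ → ℂ), Pr Ψ →
    ∀ (k : ℕ) (t : ℝ) (g : ℝ → ℂ), Measurable g → ∀ M : ℝ, (∀ θ, ‖g θ‖ ≤ M) →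
    ∫⁻ x : ℝ × ℝ, ‖TT (prof (HL Ψ k) g) t x‖ₑ ^ 4 ≤
      ENNReal.ofReal (C * (1 + |t|) ^ (-(2 - e))) * ∫⁻ θ, ‖g θ‖ₑ ^ 4 ∂mu := by
  obtain ⟨C, hC, h4⟩ := prof4 he0 he1
  set a : ℝ := (2 - e) / 4 with ha
  have ha0 : 0 ≤ a := by rw [ha]; linarith
  have ha1 : a < 1 := by rw [ha]; linarith
  have h1a : 0 < 1 - a := by linarith
  set D : ℝ := 2 * Real.pi + 8 / (1 - a) with hD
  have hD0 : 0 < D := by positivity
  refine ⟨C * (3 * D) ^ 4, by positivity, ?_⟩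
  intro Ψ hΨ k t g hg M hM
  refine (h4 _ _ (HL_adm hΨ k) t g hg M hM).trans ?_
  have h1t : 0 < 1 + |t| := by positivity
  have h1 : ∫⁻ ν, ENNReal.ofReal (3 * cw (dl k) ν * (1 + |t + ν|) ^ (-(2 - e) / 4)) ≤
      ENNReal.ofReal (3 * D * (1 + |t|) ^ (-a)) := by
    have h2 := time_lem ha0 ha1 (dl_pos k) (dl_le k) t
    have e1 : ∀ ν, ENNReal.ofReal (3 * cw (dl k) ν * (1 + |t + ν|) ^ (-(2 - e) / 4)) =
        ENNReal.ofReal 3 * ENNReal.ofReal (cw (dl k) ν * (1 + |t + ν|) ^ (-a)) := by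
      intro ν
      rw [← ENNReal.ofReal_mul (by norm_num), mul_assoc, ha, neg_div]
    simp only [e1]
    rw [lintegral_const_mul' _ _ ENNReal.ofReal_ne_top]
    refine (mul_le_mul' le_rfl h2).trans (le_of_eq ?_)
    rw [← ENNReal.ofReal_mul (by norm_num), ← hD]
    congr 1
    ring
  calc _ ≤ ENNReal.ofReal C * (∫⁻ θ, ‖g θ‖ₑ ^ 4 ∂mu) *
        ENNReal.ofReal (3 * D * (1 + |t|) ^ (-a)) ^ 4 :=
        mul_le_mul' le_rfl (pow_le_pow_left' h1 4)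
    _ = ENNReal.ofReal C * ENNReal.ofReal (3 * D * (1 + |t|) ^ (-a)) ^ 4 *
        (∫⁻ θ, ‖g θ‖ₑ ^ 4 ∂mu) := by ring
    _ = _ := by
        rw [← ENNReal.ofReal_pow (by positivity), ← ENNReal.ofReal_mul hC.le]
        congr 2
        rw [mul_pow, ← Real.rpow_natCast ((1 + |t|) ^ (-a)) 4, ← Real.rpow_mul h1t.le, ← mul_assoc]
        congr 2
        rw [ha]
        push_cast
        ring

lemma lim2 (h : Pr Ψ) (k : ℕ) (t : ℝ) {g : ℝ → ℂ} (hg : Measurable g)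
    (hgI : Integrable g mu) : ∫⁻ x : ℝ × ℝ, ‖TT (prof (HL Ψ k) g) t x‖ₑ ^ 2 ≤
      ENNReal.ofReal (18 * π * dl k) * ∫⁻ θ, ‖g θ‖ₑ ^ 2 ∂mu := by
  have hg1 : ∫⁻ θ, ‖g θ‖ₑ ∂mu < ⊤ := hgI.hasFiniteIntegral
  refine (TT_L2 (prof_meas (HL_adm h k) hg) (prof_A (HL_adm h k) hg1) t).trans ?_
  have hp : ∀ θ, ∫⁻ s in Ioi (0:ℝ), ‖prof (HL Ψ k) g θ s‖ₑ ^ 2 ≤
      ‖g θ‖ₑ ^ 2 * ENNReal.ofReal (9 * π * dl k) := by
    intro θ
    calc ∫⁻ s in Ioi (0:ℝ), ‖prof (HL Ψ k) g θ s‖ₑ ^ 2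
        ≤ ∫⁻ s in Ioi (0:ℝ), ‖g θ‖ₑ ^ 2 * ‖IF (HL Ψ k) θ s‖ₑ ^ 2 := by
          apply setLIntegral_mono' measurableSet_Ioi
          intro s hs
          rw [← mul_pow]
          refine pow_le_pow_left' ?_ 2
          unfold prof
          rw [enorm_mul, enorm_mul]
          refine mul_le_mul' le_rfl ?_
          calc ‖cexp (-π * s)‖ₑ * ‖IF (HL Ψ k) θ s‖ₑ ≤ 1 * ‖IF (HL Ψ k) θ s‖ₑ :=
                mul_le_mul' (exp_le' hs) le_rfl
            _ = _ := one_mul _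
      _ ≤ ∫⁻ s, ‖g θ‖ₑ ^ 2 * ‖IF (HL Ψ k) θ s‖ₑ ^ 2 := setLIntegral_le_lintegral _ _
      _ = ‖g θ‖ₑ ^ 2 * ∫⁻ s, ‖IF (HL Ψ k) θ s‖ₑ ^ 2 :=
          lintegral_const_mul' _ _ (ENNReal.pow_ne_top enorm_ne_top)
      _ ≤ _ := by
          refine mul_le_mul' le_rfl ((IF_L2 (by norm_num : (0:ℝ) ≤ 3) (dl_pos k)
            (HL_adm h k) θ).trans (le_of_eq ?_))
          congr 1
          ring
  calc 2 * ∫⁻ θ, (∫⁻ s in Ioi (0:ℝ), ‖prof (HL Ψ k) g θ s‖ₑ ^ 2) ∂mu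
      ≤ 2 * ∫⁻ θ, ‖g θ‖ₑ ^ 2 * ENNReal.ofReal (9 * π * dl k) ∂mu :=
        mul_le_mul' le_rfl (lintegral_mono hp)
    _ = _ := by
        have hk := dl_pos k
        rw [lintegral_mul_const' _ _ ENNReal.ofReal_ne_top, mul_comm (∫⁻ θ, _ ∂mu), ← mul_assoc]
        congr 1
        have e2 : (2 : ℝ≥0∞) = ENNReal.ofReal 2 := by norm_num
        rw [e2, ← ENNReal.ofReal_mul (by norm_num)]
        congr 1
        ring

/-- interpolation for one piece -/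
lemma limp {e : ℝ} (he0 : 0 < e) (he1 : e ≤ 1) {p : ℝ} (hp2 : 2 < p) (hp4 : p < 4) :
    ∃ C : ℝ, 0 < C ∧ ∀ (Ψ : ℝ → ℝ → ℂ), Pr Ψ →
    ∀ (k : ℕ) (t : ℝ) (g : ℝ → ℂ), Measurable g → Integrable g mu →
    ∫⁻ x : ℝ × ℝ, ‖TT (prof (HL Ψ k) g) t x‖ₑ ^ p ≤
      ENNReal.ofReal (C * dl k ^ ((4 - p) / 2) * (1 + |t|) ^ (-((2 - e) * ((p - 2) / 2)))) *
        ∫⁻ θ, ‖g θ‖ₑ ^ p ∂mu := by
  obtain ⟨C4, hC4, h4⟩ := lim0 he0 he1
  obtain ⟨Cm, hCm, hmc⟩ := Pool.Agent.H438R2.RZ.marc24 p hp2 hp4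
  refine ⟨Cm * (18 * π) ^ ((4 - p) / 2) * C4 ^ ((p - 2) / 2), by positivity, ?_⟩
  intro Ψ hΨ k t g hg hgI
  have h1t : 0 < 1 + |t| := by positivity
  have hk := dl_pos k
  have hmain := hmc (X := ℝ) (Y := ℝ × ℝ) mu volume
    (fun x => ‖TT (prof (HL Ψ k) g) t x‖) (fun θ => ‖g θ‖)
    (TT_prof_meas (HL_adm hΨ k) hg t).norm hg.norm (fun x => norm_nonneg _)
    (fun θ => norm_nonneg _) (18 * π * dl k) (C4 * (1 + |t|) ^ (-(2 - e))) (by positivity)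
    (by positivity) (by
      intro τ hτ
      set S : Set ℝ := {θ | τ < ‖g θ‖} with hS
      have hSm : MeasurableSet S := measurableSet_lt measurable_const hg.norm
      set g1 : ℝ → ℂ := S.indicator g with hg1
      set g2 : ℝ → ℂ := Sᶜ.indicator g with hg2
      have hg1m : Measurable g1 := hg.indicator hSm
      have hg2m : Measurable g2 := hg.indicator hSm.compl
      have hg1I : Integrable g1 mu := hgI.indicator hSm
      have hg2I : Integrable g2 mu := hgI.indicator hSm.compl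
      have hsum : g = fun θ => g1 θ + g2 θ := by
        ext θ
        exact (congrFun (indicator_self_add_compl S g) θ).symm
      refine ⟨fun x => ‖TT (prof (HL Ψ k) g1) t x‖ₑ, fun x => ‖TT (prof (HL Ψ k) g2) t x‖ₑ,
        (TT_prof_meas (HL_adm hΨ k) hg1m t).enorm, (TT_prof_meas (HL_adm hΨ k) hg2m t).enorm,
        ae_of_all _ fun x => ?_, ?_, ?_⟩
      · rw [ofReal_norm]
        conv_lhs => rw [hsum]
        rw [TT_prof_add (HL_adm hΨ k) hg1I hg2I]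
        exact enorm_add_le _ _
      · refine (lim2 hΨ k t hg1m hg1I).trans (le_of_eq ?_)
        congr 1
        rw [← lintegral_indicator hSm]
        congr 1
        ext θ
        by_cases hθ : θ ∈ S
        · rw [hg1, indicator_of_mem hθ, indicator_of_mem hθ, ofReal_norm]
        · rw [hg1, indicator_of_notMem hθ, indicator_of_notMem hθ]
          simp
      · refine (h4 Ψ hΨ k t g2 hg2m τ ?_).trans (le_of_eq ?_)
        · intro θ
          by_cases hθ : θ ∈ S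
          · rw [hg2, indicator_of_notMem (by simpa using hθ), norm_zero]
            exact hτ.le
          · rw [hg2, indicator_of_mem (by simpa using hθ)]
            exact not_lt.1 hθ
        · congr 1
          have e3 : {θ | ‖g θ‖ ≤ τ} = Sᶜ := by
            ext θ
            simp [hS]
          rw [e3, ← lintegral_indicator hSm.compl]
          congr 1
          ext θ
          by_cases hθ : θ ∈ Sᶜ
          · rw [hg2, indicator_of_mem hθ, indicator_of_mem hθ, ofReal_norm]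
          · rw [hg2, indicator_of_notMem hθ, indicator_of_notMem hθ]
            simp)
  simp only [ofReal_norm] at hmain
  refine hmain.trans (le_of_eq ?_)
  congr 2
  rw [Real.mul_rpow (by positivity) hk.le, Real.mul_rpow hC4.le (by positivity),
    ← Real.rpow_mul h1t.le]
  have e4 : -(2 - e) * ((p - 2) / 2) = -((2 - e) * ((p - 2) / 2)) := by ring
  rw [e4]
  ring

/-- the fixed time estimate for a full profile -/
theorem fxt {e : ℝ} (he0 : 0 < e) (he1 : e ≤ 1) {p : ℝ} (hp2 : 2 < p) (hp4 : p < 4) :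
    ∃ C : ℝ, 0 < C ∧ ∀ (Ψ : ℝ → ℝ → ℂ), Pr Ψ →
    ∀ (t : ℝ) (g : ℝ → ℂ), Measurable g → Integrable g mu →
    ∫⁻ x : ℝ × ℝ, ‖TT (pfl Ψ g) t x‖ₑ ^ p ≤
      ENNReal.ofReal (C * (1 + |t|) ^ (-((2 - e) * ((p - 2) / 2)))) *
        ∫⁻ θ, ‖g θ‖ₑ ^ p ∂mu := by
  obtain ⟨C, hC, hP⟩ := limp he0 he1 hp2 hp4
  have hp0 : 0 < p := by linarith
  set γ : ℝ := (4 - p) / 2 / p with hγ
  have hγ0 : 0 < γ := by
    rw [hγ]
    have : 0 < 4 - p := by linarith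
    positivity
  set ρ : ℝ := (1 / 2 : ℝ) ^ γ with hρ
  have hρ0 : 0 < ρ := by positivity
  have hρ1 : ρ < 1 := Real.rpow_lt_one (by norm_num) (by norm_num) hγ0
  have h1ρ : 0 < 1 - ρ := by linarith
  refine ⟨C * ((1 - ρ)⁻¹) ^ p, by positivity, ?_⟩
  intro Ψ hΨ t g hg hgI
  have h1t : 0 < 1 + |t| := by positivity
  set Z := ∫⁻ θ, ‖g θ‖ₑ ^ p ∂mu with hZ
  set w : ℝ := (1 + |t|) ^ (-((2 - e) * ((p - 2) / 2))) with hw
  have hw0 : 0 < w := by positivity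
  have hk : ∀ k, (∫⁻ x : ℝ × ℝ, ‖TT (prof (HL Ψ k) g) t x‖ₑ ^ p) ^ (1 / p) ≤
      (ENNReal.ofReal (C * w) * Z) ^ (1 / p) * ENNReal.ofReal (ρ ^ k) := by
    intro k
    have h1 := hP Ψ hΨ k t g hg hgI
    rw [← hZ, ← hw] at h1
    refine (ENNReal.rpow_le_rpow h1 (by positivity)).trans (le_of_eq ?_)
    have hdk := dl_pos k
    have e1 : C * dl k ^ ((4 - p) / 2) * w = (C * w) * (ρ ^ k) ^ p := by
      have e2 : (ρ ^ k) ^ p = dl k ^ ((4 - p) / 2) := by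
        rw [hρ, ← Real.rpow_natCast, ← Real.rpow_mul (by positivity), ← Real.rpow_mul (by positivity)]
        unfold dl
        rw [← Real.rpow_natCast, ← Real.rpow_mul (by norm_num)]
        congr 1
        rw [hγ]
        field_simp
      rw [e2]
      ring
    rw [e1, ENNReal.ofReal_mul (by positivity), mul_right_comm,
      ENNReal.mul_rpow_of_nonneg _ _ (by positivity)]
    congr 1
    rw [← ENNReal.ofReal_rpow_of_nonneg (by positivity) hp0.le, ← ENNReal.rpow_mul,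
      mul_one_div_cancel hp0.ne', ENNReal.rpow_one]
  have hsum : ∑' k : ℕ, ENNReal.ofReal (ρ ^ k) = ENNReal.ofReal ((1 - ρ)⁻¹) := by
    rw [← ENNReal.ofReal_tsum_of_nonneg (fun k => by positivity)
      (summable_geometric_of_lt_one hρ0.le hρ1), tsum_geometric_of_lt_one hρ0.le hρ1]
  calc ∫⁻ x : ℝ × ℝ, ‖TT (pfl Ψ g) t x‖ₑ ^ p
      ≤ ∫⁻ x : ℝ × ℝ, (∑' k, ‖TT (prof (HL Ψ k) g) t x‖ₑ) ^ p := by
        apply lintegral_mono
        intro x
        exact ENNReal.rpow_le_rpow (LPsum hΨ hg hgI t x) hp0.le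
    _ ≤ (∑' k, (∫⁻ x : ℝ × ℝ, ‖TT (prof (HL Ψ k) g) t x‖ₑ ^ p) ^ (1 / p)) ^ p :=
        Pool.Agent.TH335.RF.mink volume p (by linarith) _
          fun k => (TT_prof_meas (HL_adm hΨ k) hg t).enorm
    _ ≤ (∑' k : ℕ, (ENNReal.ofReal (C * w) * Z) ^ (1 / p) * ENNReal.ofReal (ρ ^ k)) ^ p :=
        ENNReal.rpow_le_rpow (ENNReal.tsum_le_tsum hk) hp0.le
    _ = _ := by
        rw [ENNReal.tsum_mul_left, hsum, ENNReal.mul_rpow_of_nonneg _ _ hp0.le, ← ENNReal.rpow_mul,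
          one_div_mul_cancel hp0.ne', ENNReal.rpow_one,
          ENNReal.ofReal_rpow_of_nonneg (by positivity) hp0.le, mul_right_comm,
          ← ENNReal.ofReal_mul (by positivity)]
        congr 2
        ring

end Pool.Agent.R245.PB
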