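import Mathlib
import Pool.Agent.R245.PB.Fxt
set_option autoImplicit false

/-! The even part by a convolution identity. -/

namespace Pool.Agent.R245.PB

open MeasureTheory Set Complex Filter Real
open scoped ENNReal Topology ComplexConjugate

/-- the odd convolution kernels -/
noncomputable def ps (c y : ℝ × ℝ) : ℂ :=
  I * (c.1 * y.1 + c.2 * y.2) * cexp (-π * (y.1 ^ 2 + y.2 ^ 2))

/-- one dimensional moments -/
noncomputable def gm (k : ℕ) (a : ℝ) (y : ℝ) : ℂ := (y : ℂ) ^ k * cexp (-π * y ^ 2) * ec (-(a * y))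

lemma gm_eq (k : ℕ) (a : ℝ) (y : ℝ) : gm k a y = (y : ℂ) ^ k * cexp (qd 1 (-(I * a)) y) := by
  unfold gm ec qd
  rw [mul_assoc, ← Complex.exp_add]
  congr 2
  push_cast
  ring

lemma gm_int (k : ℕ) (a : ℝ) : Integrable (gm k a) := by
  have h := S_int k (a := 1) (by norm_num) (-(I * a))
  refine h.congr (ae_of_all _ fun y => ?_)
  exact (gm_eq k a y).symm

lemma gm_zero (a : ℝ) : ∫ y, gm 0 a y = cexp (-π * a ^ 2) := by
  simp only [gm_eq]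
  have h := S_zero (a := 1) (by norm_num) (-(I * a))
  unfold S at h
  rw [h]
  simp only [div_one, Complex.one_cpow, one_mul]
  congr 1
  rw [neg_sq, mul_pow, Complex.I_sq]
  ring

lemma gm_one (a : ℝ) : ∫ y, gm 1 a y = -(I * a) * cexp (-π * a ^ 2) := by
  have h0 := gm_zero a
  simp only [gm_eq] at h0 ⊢
  obtain ⟨k1, -, -, -⟩ := S_vals (a := 1) (by norm_num) (-(I * a)) (-(I * a) / 1) (1 / (2 * π * 1))
    rfl rfl
  unfold S at k1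
  rw [k1, h0]
  ring

lemma ps_split (c ξ y : ℝ × ℝ) : ps c y * ec (-(ξ.1 * y.1 + ξ.2 * y.2)) =
    (I * c.1) * (gm 1 ξ.1 y.1 * gm 0 ξ.2 y.2) + (I * c.2) * (gm 0 ξ.1 y.1 * gm 1 ξ.2 y.2) := by
  unfold ps gm
  have e1 : ec (-(ξ.1 * y.1 + ξ.2 * y.2)) = ec (-(ξ.1 * y.1)) * ec (-(ξ.2 * y.2)) := by
    rw [← ec_add]
    congr 1
    ring
  have e2 : cexp (-π * ((y.1 : ℂ) ^ 2 + (y.2 : ℂ) ^ 2)) = cexp (-π * (y.1 : ℂ) ^ 2) *
      cexp (-π * (y.2 : ℂ) ^ 2) := by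
    rw [← Complex.exp_add]
    congr 1
    ring
  rw [e1, e2]
  ring

lemma ps_int' (c ξ : ℝ × ℝ) : Integrable fun y : ℝ × ℝ => ps c y * ec (-(ξ.1 * y.1 + ξ.2 * y.2)) := by
  simp only [ps_split]
  exact (((gm_int 1 ξ.1).mul_prod (gm_int 0 ξ.2)).const_mul _).add
    (((gm_int 0 ξ.1).mul_prod (gm_int 1 ξ.2)).const_mul _)

lemma ec_zero : ec 0 = 1 := by
  unfold ec
  simp

lemma ps_int (c : ℝ × ℝ) : Integrable (ps c) := by
  have h := ps_int' c 0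
  simpa [ec_zero] using h

lemma ps_meas (c : ℝ × ℝ) : Measurable (ps c) := by
  unfold ps
  apply Continuous.measurable
  fun_prop

lemma ps_four (c ξ : ℝ × ℝ) : ∫ y : ℝ × ℝ, ps c y * ec (-(ξ.1 * y.1 + ξ.2 * y.2)) =
    (c.1 * ξ.1 + c.2 * ξ.2) * cexp (-π * (ξ.1 ^ 2 + ξ.2 ^ 2)) := by
  simp only [ps_split]
  have i1 : Integrable fun y : ℝ × ℝ => gm 1 ξ.1 y.1 * gm 0 ξ.2 y.2 :=
    (gm_int 1 ξ.1).mul_prod (gm_int 0 ξ.2)
  have i2 : Integrable fun y : ℝ × ℝ => gm 0 ξ.1 y.1 * gm 1 ξ.2 y.2 :=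
    (gm_int 0 ξ.1).mul_prod (gm_int 1 ξ.2)
  have j1 : ∫ y : ℝ × ℝ, gm 1 ξ.1 y.1 * gm 0 ξ.2 y.2 =
      (∫ y, gm 1 ξ.1 y) * ∫ y, gm 0 ξ.2 y := integral_prod_mul _ _
  have j2 : ∫ y : ℝ × ℝ, gm 0 ξ.1 y.1 * gm 1 ξ.2 y.2 =
      (∫ y, gm 0 ξ.1 y) * ∫ y, gm 1 ξ.2 y := integral_prod_mul _ _
  rw [integral_add (i1.const_mul _) (i2.const_mul _), integral_const_mul, integral_const_mul,
    j1, j2, gm_one, gm_one, gm_zero, gm_zero]
  have e2 : cexp (-π * ((ξ.1 : ℂ) ^ 2 + (ξ.2 : ℂ) ^ 2)) = cexp (-π * (ξ.1 : ℂ) ^ 2) *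
      cexp (-π * (ξ.2 : ℂ) ^ 2) := by
    rw [← Complex.exp_add]
    congr 1
    ring
  rw [e2]
  linear_combination (-(c.1 * ξ.1 + c.2 * ξ.2) * cexp (-π * (ξ.1 : ℂ) ^ 2) *
      cexp (-π * (ξ.2 : ℂ) ^ 2)) * Complex.I_sq

lemma ps_neg (c y : ℝ × ℝ) : ps c (-y) = -ps c y := by
  unfold ps
  simp only [Prod.fst_neg, Prod.snd_neg]
  push_cast
  rw [neg_sq, neg_sq]
  ring

lemma Ext_le {h : ℝ × ℝ → ℂ} (t : ℝ) (x : ℝ × ℝ) : ‖Ext h t x‖ ≤ ∫ ξ, ‖h ξ‖ := by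
  unfold Ext
  refine (norm_integral_le_integral_norm _).trans (le_of_eq ?_)
  congr 1
  ext ξ
  rw [norm_mul, ec_norm, mul_one]

/-- convolution with the odd kernel is multiplication -/
lemma conv (c : ℝ × ℝ) {h : ℝ × ℝ → ℂ} (hm : Measurable h) (hI : Integrable h) (t : ℝ)
    (x : ℝ × ℝ) : ∫ y : ℝ × ℝ, ps c y * Ext h t (x - y) =
      Ext (fun ξ => (c.1 * ξ.1 + c.2 * ξ.2) * cexp (-π * (ξ.1 ^ 2 + ξ.2 ^ 2)) * h ξ) t x := by
  have hprod : Integrable (fun q : (ℝ × ℝ) × (ℝ × ℝ) => ps c q.1 * (h q.2 *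
      ec (q.2.1 * (x - q.1).1 + q.2.2 * (x - q.1).2 + (q.2.1 ^ 2 + q.2.2 ^ 2) * t)))
      (volume.prod volume) := by
    refine ((ps_int c).mul_prod hI).mono ?_ (ae_of_all _ fun q => ?_)
    · refine (Measurable.mul ((ps_meas c).comp measurable_fst) (Measurable.mul
        (hm.comp measurable_snd) (ec_meas.comp ?_))).aestronglyMeasurable
      apply Continuous.measurable
      fun_prop
    · rw [norm_mul, norm_mul, norm_mul, ec_norm, mul_one]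
  calc ∫ y : ℝ × ℝ, ps c y * Ext h t (x - y)
      = ∫ y : ℝ × ℝ, ∫ ξ : ℝ × ℝ, ps c y * (h ξ *
        ec (ξ.1 * (x - y).1 + ξ.2 * (x - y).2 + (ξ.1 ^ 2 + ξ.2 ^ 2) * t)) := by
        congr 1
        ext y
        unfold Ext
        rw [integral_const_mul]
    _ = ∫ ξ : ℝ × ℝ, ∫ y : ℝ × ℝ, ps c y * (h ξ *
        ec (ξ.1 * (x - y).1 + ξ.2 * (x - y).2 + (ξ.1 ^ 2 + ξ.2 ^ 2) * t)) :=
        integral_integral_swap (f := fun y ξ : ℝ × ℝ => ps c y * (h ξ *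
          ec (ξ.1 * (x - y).1 + ξ.2 * (x - y).2 + (ξ.1 ^ 2 + ξ.2 ^ 2) * t))) hprod
    _ = _ := by
        unfold Ext
        congr 1
        ext ξ
        beta_reduce
        rw [← ps_four c ξ]
        have e1 : ∀ y : ℝ × ℝ, ps c y * (h ξ *
            ec (ξ.1 * (x - y).1 + ξ.2 * (x - y).2 + (ξ.1 ^ 2 + ξ.2 ^ 2) * t)) =
            (ps c y * ec (-(ξ.1 * y.1 + ξ.2 * y.2))) *
              (h ξ * ec (ξ.1 * x.1 + ξ.2 * x.2 + (ξ.1 ^ 2 + ξ.2 ^ 2) * t)) := by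
          intro y
          have e2 : ec (ξ.1 * (x - y).1 + ξ.2 * (x - y).2 + (ξ.1 ^ 2 + ξ.2 ^ 2) * t) =
              ec (-(ξ.1 * y.1 + ξ.2 * y.2)) *
                ec (ξ.1 * x.1 + ξ.2 * x.2 + (ξ.1 ^ 2 + ξ.2 ^ 2) * t) := by
            rw [← ec_add]
            congr 1
            simp only [Prod.fst_sub, Prod.snd_sub]
            ring
          rw [e2]
          ring
        simp only [e1]
        rw [integral_mul_const]
        ring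

lemma psE_int (c : ℝ × ℝ) {h : ℝ × ℝ → ℂ} (hm : Measurable h) (t : ℝ) {u : ℝ × ℝ → ℝ × ℝ}
    (hu : Measurable u) : Integrable fun y : ℝ × ℝ => ps c y * Ext h t (u y) := by
  refine (ps_int c).mul_bdd (c := ∫ ξ, ‖h ξ‖) ((Ext_meas hm t).comp hu).aestronglyMeasurable
    (ae_of_all _ fun y => Ext_le t _)

/-- the even part is a convolution of an odd part -/
lemma even_part (c : ℝ × ℝ) {h : ℝ × ℝ → ℂ} (hm : Measurable h) (hI : Integrable h) (t : ℝ)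
    (x : ℝ × ℝ) : ∫ y : ℝ × ℝ, ps c y * (Ext h t (x - y) - Ext h t (-(x - y))) =
      Ext (fun ξ => (c.1 * ξ.1 + c.2 * ξ.2) * cexp (-π * (ξ.1 ^ 2 + ξ.2 ^ 2)) * h ξ) t x +
      Ext (fun ξ => (c.1 * ξ.1 + c.2 * ξ.2) * cexp (-π * (ξ.1 ^ 2 + ξ.2 ^ 2)) * h ξ) t (-x) := by
  simp only [mul_sub]
  rw [integral_sub (psE_int c hm t (by fun_prop)) (psE_int c hm t (by fun_prop)), conv c hm hI t x]
  have h1 : ∫ y : ℝ × ℝ, ps c y * Ext h t (-(x - y)) = -∫ y : ℝ × ℝ, ps c y * Ext h t (-x - y) := by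
    rw [← integral_neg_eq_self, ← integral_neg]
    congr 1
    ext y
    rw [ps_neg]
    have : -(x - -y) = -x - y := by ring
    rw [this]
    ring
  rw [h1, conv c hm hI t (-x)]
  ring

lemma lint_prod_mul {f g : ℝ → ℝ≥0∞} (hf : Measurable f) (hg : Measurable g) :
    ∫⁻ y : ℝ × ℝ, f y.1 * g y.2 = (∫⁻ y, f y) * ∫⁻ y, g y :=
  lintegral_prod_mul hf.aemeasurable hg.aemeasurable

lemma gauss_lint : ∫⁻ y : ℝ, ENNReal.ofReal (Real.exp (-π * y ^ 2)) = 1 := by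
  rw [← ofReal_integral_eq_lintegral_ofReal (integrable_exp_neg_mul_sq Real.pi_pos)
    (ae_of_all _ fun y => (Real.exp_pos _).le), integral_gaussian, div_self Real.pi_ne_zero,
    Real.sqrt_one, ENNReal.ofReal_one]

lemma ps_norm {c : ℝ × ℝ} (h1 : |c.1| ≤ 1) (h2 : |c.2| ≤ 1) : ∫⁻ y, ‖ps c y‖ₑ ≤ 2 := by
  set A : ℝ → ℝ≥0∞ := fun r => ENNReal.ofReal (|r| * Real.exp (-π * r ^ 2)) with hA
  set B : ℝ → ℝ≥0∞ := fun r => ENNReal.ofReal (Real.exp (-π * r ^ 2)) with hB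
  have hAm : Measurable A := by
    apply Measurable.ennreal_ofReal
    fun_prop
  have hBm : Measurable B := by
    apply Measurable.ennreal_ofReal
    fun_prop
  have hp : ∀ y, ‖ps c y‖ₑ ≤ A y.1 * B y.2 + B y.1 * A y.2 := by
    intro y
    rw [hA, hB]
    simp only
    rw [← ofReal_norm, ← ENNReal.ofReal_mul (by positivity), ← ENNReal.ofReal_mul (by positivity),
      ← ENNReal.ofReal_add (by positivity) (by positivity)]
    apply ENNReal.ofReal_le_ofReal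
    unfold ps
    rw [norm_mul, norm_mul, Complex.norm_I, one_mul, Complex.norm_exp]
    have e1 : (-(π : ℂ) * ((y.1 : ℂ) ^ 2 + (y.2 : ℂ) ^ 2)).re = -π * y.1 ^ 2 + -π * y.2 ^ 2 := by
      simp [pow_two]
      ring
    rw [e1, Real.exp_add]
    have e2 : ‖(c.1 : ℂ) * y.1 + c.2 * y.2‖ ≤ |y.1| + |y.2| := by
      refine (norm_add_le _ _).trans (add_le_add ?_ ?_)
      · rw [norm_mul, Complex.norm_real, Complex.norm_real, Real.norm_eq_abs, Real.norm_eq_abs]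
        nlinarith [abs_nonneg y.1]
      · rw [norm_mul, Complex.norm_real, Complex.norm_real, Real.norm_eq_abs, Real.norm_eq_abs]
        nlinarith [abs_nonneg y.2]
    calc _ ≤ (|y.1| + |y.2|) * (Real.exp (-π * y.1 ^ 2) * Real.exp (-π * y.2 ^ 2)) :=
          mul_le_mul_of_nonneg_right e2 (by positivity)
      _ = _ := by ring
  calc ∫⁻ y, ‖ps c y‖ₑ ≤ ∫⁻ y : ℝ × ℝ, (A y.1 * B y.2 + B y.1 * A y.2) := lintegral_mono hp
    _ = (∫⁻ y, A y) * (∫⁻ y, B y) + (∫⁻ y, B y) * ∫⁻ y, A y := by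
        have m1 : Measurable fun y : ℝ × ℝ => A y.1 * B y.2 :=
          (hAm.comp measurable_fst).mul (hBm.comp measurable_snd)
        rw [lintegral_add_left m1, lint_prod_mul hAm hBm, lint_prod_mul hBm hAm]
    _ ≤ 1 * 1 + 1 * 1 := by
        have b1 : ∫⁻ y, B y = 1 := gauss_lint
        rw [b1]
        exact add_le_add (mul_le_mul' rg_lint le_rfl) (mul_le_mul' le_rfl rg_lint)
    _ = 2 := by norm_num

/-- Young's inequality -/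
lemma young {c : ℝ × ℝ} (h1 : |c.1| ≤ 1) (h2 : |c.2| ≤ 1) {G : ℝ × ℝ → ℂ} (hG : Measurable G)
    {p : ℝ} (hp : 1 < p) : ∫⁻ x : ℝ × ℝ, ‖∫ y : ℝ × ℝ, ps c y * G (x - y)‖ₑ ^ p ≤
      2 ^ p * ∫⁻ x, ‖G x‖ₑ ^ p := by
  have hp0 : 0 < p := by linarith
  have m1 : Measurable fun q : (ℝ × ℝ) × (ℝ × ℝ) => ‖ps c q.2‖ₑ :=
    ((ps_meas c).comp measurable_snd).enorm
  have m2 : Measurable fun q : (ℝ × ℝ) × (ℝ × ℝ) => ‖G (q.1 - q.2)‖ₑ :=
    (hG.comp (f := fun q : (ℝ × ℝ) × (ℝ × ℝ) => q.1 - q.2) (by fun_prop)).enorm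
  have hm : Measurable (Function.uncurry fun x y : ℝ × ℝ => ‖ps c y‖ₑ * ‖G (x - y)‖ₑ) := m1.mul m2
  calc ∫⁻ x : ℝ × ℝ, ‖∫ y : ℝ × ℝ, ps c y * G (x - y)‖ₑ ^ p
      ≤ ∫⁻ x : ℝ × ℝ, (∫⁻ y : ℝ × ℝ, ‖ps c y‖ₑ * ‖G (x - y)‖ₑ) ^ p := by
        apply lintegral_mono
        intro x
        refine ENNReal.rpow_le_rpow ((enorm_integral_le_lintegral_enorm _).trans (le_of_eq ?_)) hp0.le
        congr 1
        ext y
        rw [enorm_mul]
    _ ≤ (∫⁻ y : ℝ × ℝ, (∫⁻ x : ℝ × ℝ, (‖ps c y‖ₑ * ‖G (x - y)‖ₑ) ^ p) ^ (1 / p)) ^ p :=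
        Pool.Agent.H438R2.PD.A5.mink volume volume
          (fun x y : ℝ × ℝ => ‖ps c y‖ₑ * ‖G (x - y)‖ₑ) hm p hp
    _ = (∫⁻ y : ℝ × ℝ, ‖ps c y‖ₑ * (∫⁻ x, ‖G x‖ₑ ^ p) ^ (1 / p)) ^ p := by
        congr 2
        ext y
        have e1 : ∀ x : ℝ × ℝ, (‖ps c y‖ₑ * ‖G (x - y)‖ₑ) ^ p = ‖ps c y‖ₑ ^ p * ‖G (x - y)‖ₑ ^ p :=
          fun x => ENNReal.mul_rpow_of_nonneg _ _ hp0.le
        simp only [e1]
        rw [lintegral_const_mul' _ _ (ENNReal.rpow_ne_top_of_nonneg hp0.le enorm_ne_top),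
          lintegral_sub_right_eq_self (fun x => ‖G x‖ₑ ^ p) y,
          ENNReal.mul_rpow_of_nonneg _ _ (by positivity), ← ENNReal.rpow_mul,
          mul_one_div_cancel hp0.ne', ENNReal.rpow_one]
    _ = (∫⁻ y : ℝ × ℝ, ‖ps c y‖ₑ) ^ p * ∫⁻ x, ‖G x‖ₑ ^ p := by
        rw [lintegral_mul_const _ (ps_meas c).enorm, ENNReal.mul_rpow_of_nonneg _ _ hp0.le,
          ← ENNReal.rpow_mul, one_div_mul_cancel hp0.ne', ENNReal.rpow_one]
    _ ≤ _ := mul_le_mul' (ENNReal.rpow_le_rpow (ps_norm h1 h2) hp0.le) le_rfl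

end Pool.Agent.R245.PB
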