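import Mathlib
set_option autoImplicit false

/-! The `L^1` modulus of continuity of functions of bounded variation. -/

namespace Pool.Agent.R245.PB

open MeasureTheory Set Filter
open scoped ENNReal Topology

lemma zsum_le {G : ℝ → ℂ} {A : ℝ≥0∞} (hv : eVariationOn G univ ≤ A) {h : ℝ} (hh : 0 < h)
    (s : ℝ) : ∑' n : ℤ, ‖G (s + (n + 1) * h) - G (s + n * h)‖ₑ ≤ A := by
  rw [ENNReal.tsum_eq_iSup_sum]
  refine iSup_le fun T => ?_
  set M : ℕ := T.sup Int.natAbs with hM
  set N : ℕ := M + 1 with hN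
  have hsub : T ⊆ (Finset.range (2 * N)).image (fun i : ℕ => (i : ℤ) - N) := by
    intro n hn
    have h1 : n.natAbs ≤ M := Finset.le_sup (f := Int.natAbs) hn
    rw [Finset.mem_image]
    refine ⟨(n + N).toNat, ?_, ?_⟩
    · rw [Finset.mem_range]
      omega
    · omega
  set u : ℕ → ℝ := fun i => s + ((i : ℝ) - N) * h with hu
  have hum : Monotone u := by
    intro i j hij
    have : (i : ℝ) ≤ j := by exact_mod_cast hij
    simp only [hu]
    nlinarith
  have h2 := eVariationOn.sum_le (f := G) (s := univ) (n := 2 * N) hum (fun i => mem_univ _)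
  calc ∑ n ∈ T, ‖G (s + (n + 1) * h) - G (s + n * h)‖ₑ
      ≤ ∑ n ∈ (Finset.range (2 * N)).image (fun i : ℕ => (i : ℤ) - N),
        ‖G (s + (n + 1) * h) - G (s + n * h)‖ₑ := Finset.sum_le_sum_of_subset hsub
    _ = ∑ i ∈ Finset.range (2 * N), edist (G (u (i + 1))) (G (u i)) := by
        rw [Finset.sum_image (by intro i _ j _ hij; simpa using hij)]
        apply Finset.sum_congr rfl
        intro i _
        rw [edist_eq_enorm_sub]
        simp only [hu]
        congr 3
        · push_cast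
          ring
        · push_cast
          ring
    _ ≤ A := h2.trans hv

lemma modul {G : ℝ → ℂ} (hG : Measurable G) {A : ℝ≥0∞} (hv : eVariationOn G univ ≤ A) {h : ℝ}
    (hh : 0 < h) : ∫⁻ s, ‖G (s + h) - G s‖ₑ ≤ ENNReal.ofReal h * A := by
  set Φ : ℝ → ℝ≥0∞ := fun s => ‖G (s + h) - G s‖ₑ with hΦ
  have hΦm : Measurable Φ := ((hG.comp (by fun_prop)).sub hG).enorm
  have hpiece : ∀ n : ℤ, ∫⁻ s in Ioc (n • h) ((n + 1) • h), Φ s =
      ∫⁻ s in Ioc 0 h, Φ (n * h + s) := by
    intro n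
    have h1 := (measurePreserving_add_left (volume : Measure ℝ) (n * h)).setLIntegral_comp_preimage
      (s := Ioc (n • h) ((n + 1) • h)) measurableSet_Ioc hΦm
    rw [← h1]
    have e : (fun x => (n : ℝ) * h + x) ⁻¹' Ioc (n • h) ((n + 1) • h) = Ioc 0 h := by
      ext x
      simp only [mem_preimage, mem_Ioc, zsmul_eq_mul]
      push_cast
      constructor
      · rintro ⟨a1, a2⟩
        constructor <;> nlinarith
      · rintro ⟨a1, a2⟩
        constructor <;> nlinarith
    rw [e]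
  calc ∫⁻ s, Φ s = ∫⁻ s in ⋃ n : ℤ, Ioc (n • h) ((n + 1) • h), Φ s := by
        rw [iUnion_Ioc_zsmul hh, setLIntegral_univ]
    _ = ∑' n : ℤ, ∫⁻ s in Ioc (n • h) ((n + 1) • h), Φ s :=
        lintegral_iUnion (fun n => measurableSet_Ioc) (pairwise_disjoint_Ioc_zsmul h) _
    _ = ∑' n : ℤ, ∫⁻ s in Ioc 0 h, Φ (n * h + s) := by simp only [hpiece]
    _ = ∫⁻ s in Ioc 0 h, ∑' n : ℤ, Φ (n * h + s) := by
        rw [lintegral_tsum]
        intro n
        exact (hΦm.comp (by fun_prop)).aemeasurable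
    _ ≤ ∫⁻ _ in Ioc 0 h, A := by
        apply lintegral_mono
        intro s
        refine le_trans (le_of_eq (tsum_congr fun n => ?_)) (zsum_le hv hh s)
        simp only [hΦ]
        congr 3
        · ring
        · ring
    _ = _ := by
        rw [setLIntegral_const, Real.volume_Ioc, sub_zero, mul_comm]

lemma modul' {G : ℝ → ℂ} (hG : Measurable G) {A : ℝ≥0∞} (hv : eVariationOn G univ ≤ A) (h : ℝ) :
    ∫⁻ s, ‖G (s + h) - G s‖ₑ ≤ ENNReal.ofReal |h| * A := by
  rcases lt_trichotomy h 0 with hh | hh | hh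
  · have h1 := modul hG hv (neg_pos.2 hh)
    rw [abs_of_neg hh]
    refine le_trans (le_of_eq ?_) h1
    have hm : Measurable fun s => ‖G (s + h) - G s‖ₑ := ((hG.comp (by fun_prop)).sub hG).enorm
    rw [← lintegral_add_right_eq_self _ (-h)]
    congr 1
    ext s
    rw [neg_add_cancel_right, ← enorm_neg, neg_sub]
  · rw [hh]
    simp
  · rw [abs_of_pos hh]
    exact modul hG hv hh

/-- bounded functions with a linear `L^1` modulus -/
structure BM (φ : ℝ → ℂ) (K0 K1 : ℝ) : Prop where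
  meas : Measurable φ
  k0 : 0 ≤ K0
  k1 : 0 ≤ K1
  le : ∀ s, ‖φ s‖ ≤ K0
  mod : ∀ h, ∫⁻ s, ‖φ (s + h) - φ s‖ₑ ≤ ENNReal.ofReal (K1 * |h|)

lemma BM.mul {φ ψ : ℝ → ℂ} {K0 K1 L0 L1 : ℝ} (h1 : BM φ K0 K1) (h2 : BM ψ L0 L1) :
    BM (fun s => φ s * ψ s) (K0 * L0) (K0 * L1 + K1 * L0) where
  meas := h1.meas.mul h2.meas
  k0 := mul_nonneg h1.k0 h2.k0
  k1 := add_nonneg (mul_nonneg h1.k0 h2.k1) (mul_nonneg h1.k1 h2.k0)
  le := by
    intro s
    rw [norm_mul]
    exact mul_le_mul (h1.le s) (h2.le s) (norm_nonneg _) h1.k0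
  mod := by
    intro h
    have m1 : Measurable fun s => ‖ψ (s + h) - ψ s‖ₑ :=
      ((h2.meas.comp (by fun_prop)).sub h2.meas).enorm
    have k0 := h1.k0
    have k1 := h1.k1
    have l0 := h2.k0
    have l1 := h2.k1
    calc ∫⁻ s, ‖φ (s + h) * ψ (s + h) - φ s * ψ s‖ₑ
        ≤ ∫⁻ s, (ENNReal.ofReal K0 * ‖ψ (s + h) - ψ s‖ₑ +
          ENNReal.ofReal L0 * ‖φ (s + h) - φ s‖ₑ) := by
          apply lintegral_mono
          intro s
          simp only
          have e : φ (s + h) * ψ (s + h) - φ s * ψ s = φ (s + h) * (ψ (s + h) - ψ s) +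
              ψ s * (φ (s + h) - φ s) := by ring
          rw [e]
          refine (enorm_add_le _ _).trans ?_
          rw [enorm_mul, enorm_mul]
          refine add_le_add (mul_le_mul' ?_ le_rfl) (mul_le_mul' ?_ le_rfl)
          · rw [← ofReal_norm]
            exact ENNReal.ofReal_le_ofReal (h1.le _)
          · rw [← ofReal_norm]
            exact ENNReal.ofReal_le_ofReal (h2.le _)
      _ = ENNReal.ofReal K0 * (∫⁻ s, ‖ψ (s + h) - ψ s‖ₑ) +
          ENNReal.ofReal L0 * ∫⁻ s, ‖φ (s + h) - φ s‖ₑ := by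
          rw [lintegral_add_left (m1.const_mul _), lintegral_const_mul' _ _ ENNReal.ofReal_ne_top,
            lintegral_const_mul' _ _ ENNReal.ofReal_ne_top]
      _ ≤ ENNReal.ofReal K0 * ENNReal.ofReal (L1 * |h|) +
          ENNReal.ofReal L0 * ENNReal.ofReal (K1 * |h|) :=
          add_le_add (mul_le_mul' le_rfl (h2.mod h)) (mul_le_mul' le_rfl (h1.mod h))
      _ = _ := by
          rw [← ENNReal.ofReal_mul k0, ← ENNReal.ofReal_mul l0,
            ← ENNReal.ofReal_add (by positivity) (by positivity)]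
          congr 1
          ring

lemma BM.sub {φ ψ : ℝ → ℂ} {K0 K1 L0 L1 : ℝ} (h1 : BM φ K0 K1) (h2 : BM ψ L0 L1) :
    BM (fun s => φ s - ψ s) (K0 + L0) (K1 + L1) where
  meas := h1.meas.sub h2.meas
  k0 := add_nonneg h1.k0 h2.k0
  k1 := add_nonneg h1.k1 h2.k1
  le := fun s => (norm_sub_le _ _).trans (add_le_add (h1.le s) (h2.le s))
  mod := by
    intro h
    have m1 : Measurable fun s => ‖φ (s + h) - φ s‖ₑ :=
      ((h1.meas.comp (by fun_prop)).sub h1.meas).enorm
    have k1 := h1.k1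
    have l1 := h2.k1
    calc ∫⁻ s, ‖φ (s + h) - ψ (s + h) - (φ s - ψ s)‖ₑ
        ≤ ∫⁻ s, (‖φ (s + h) - φ s‖ₑ + ‖ψ (s + h) - ψ s‖ₑ) := by
          apply lintegral_mono
          intro s
          simp only
          have e : φ (s + h) - ψ (s + h) - (φ s - ψ s) = (φ (s + h) - φ s) -
              (ψ (s + h) - ψ s) := by ring
          rw [e]
          exact enorm_sub_le
      _ = (∫⁻ s, ‖φ (s + h) - φ s‖ₑ) + ∫⁻ s, ‖ψ (s + h) - ψ s‖ₑ := lintegral_add_left m1 _
      _ ≤ ENNReal.ofReal (K1 * |h|) + ENNReal.ofReal (L1 * |h|) := add_le_add (h1.mod h) (h2.mod h)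
      _ = _ := by
          rw [← ENNReal.ofReal_add (by positivity) (by positivity)]
          congr 1
          ring

lemma BM.of_var {φ : ℝ → ℂ} (hφ : Measurable φ) {K A : ℝ} (hK : ∀ s, ‖φ s‖ ≤ K) (hA : 0 ≤ A)
    (hv : eVariationOn φ univ ≤ ENNReal.ofReal A) : BM φ K A where
  meas := hφ
  k0 := (norm_nonneg _).trans (hK 0)
  k1 := hA
  le := hK
  mod := by
    intro h
    refine (modul' hφ hv h).trans (le_of_eq ?_)
    rw [← ENNReal.ofReal_mul (abs_nonneg _), mul_comm]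

lemma var_mono {w : ℝ → ℝ} (hw : Monotone w) {a b : ℝ} (ha : ∀ s, a ≤ w s) (hb : ∀ s, w s ≤ b) :
    eVariationOn (fun s => (w s : ℂ)) univ ≤ ENNReal.ofReal (b - a) := by
  refine iSup_le ?_
  rintro ⟨n, u, hu, -⟩
  simp only
  have e : ∀ i, edist ((w (u (i + 1)) : ℂ)) (w (u i) : ℂ) =
      ENNReal.ofReal (w (u (i + 1)) - w (u i)) := by
    intro i
    rw [edist_eq_enorm_sub, ← Complex.ofReal_sub, ← ofReal_norm, Complex.norm_real,
      Real.norm_eq_abs, abs_of_nonneg (sub_nonneg.2 (hw (hu (Nat.le_succ i))))]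
  simp only [e]
  rw [← ENNReal.ofReal_sum_of_nonneg fun i _ => sub_nonneg.2 (hw (hu (Nat.le_succ i))),
    Finset.sum_range_sub (fun i => w (u i))]
  apply ENNReal.ofReal_le_ofReal
  linarith [ha (u 0), hb (u n)]

lemma var_anti {w : ℝ → ℝ} (hw : Antitone w) {a b : ℝ} (ha : ∀ s, a ≤ w s) (hb : ∀ s, w s ≤ b) :
    eVariationOn (fun s => (w s : ℂ)) univ ≤ ENNReal.ofReal (b - a) := by
  refine iSup_le ?_
  rintro ⟨n, u, hu, -⟩
  simp only
  have e : ∀ i, edist ((w (u (i + 1)) : ℂ)) (w (u i) : ℂ) =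
      ENNReal.ofReal (w (u i) - w (u (i + 1))) := by
    intro i
    rw [edist_comm, edist_eq_enorm_sub, ← Complex.ofReal_sub, ← ofReal_norm, Complex.norm_real,
      Real.norm_eq_abs, abs_of_nonneg (sub_nonneg.2 (hw (hu (Nat.le_succ i))))]
  simp only [e]
  rw [← ENNReal.ofReal_sum_of_nonneg fun i _ => sub_nonneg.2 (hw (hu (Nat.le_succ i))),
    Finset.sum_range_sub' (fun i => w (u i))]
  apply ENNReal.ofReal_le_ofReal
  linarith [ha (u n), hb (u 0)]

lemma BM.of_mono {w : ℝ → ℝ} (hw : Monotone w) {a b : ℝ} (h0 : 0 ≤ a) (ha : ∀ s, a ≤ w s)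
    (hb : ∀ s, w s ≤ b) : BM (fun s => (w s : ℂ)) b b := by
  refine BM.of_var (Complex.measurable_ofReal.comp hw.measurable) ?_
    (h0.trans ((ha 0).trans (hb 0))) ((var_mono hw ha hb).trans (ENNReal.ofReal_le_ofReal
      (by linarith)))
  intro s
  change ‖((w s : ℝ) : ℂ)‖ ≤ b
  rw [Complex.norm_real, Real.norm_eq_abs, abs_of_nonneg (h0.trans (ha s))]
  exact hb s

lemma BM.of_anti {w : ℝ → ℝ} (hw : Antitone w) {a b : ℝ} (h0 : 0 ≤ a) (ha : ∀ s, a ≤ w s)
    (hb : ∀ s, w s ≤ b) : BM (fun s => (w s : ℂ)) b b := by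
  refine BM.of_var (Complex.measurable_ofReal.comp hw.measurable) ?_
    (h0.trans ((ha 0).trans (hb 0))) ((var_anti hw ha hb).trans (ENNReal.ofReal_le_ofReal
      (by linarith)))
  intro s
  change ‖((w s : ℝ) : ℂ)‖ ≤ b
  rw [Complex.norm_real, Real.norm_eq_abs, abs_of_nonneg (h0.trans (ha s))]
  exact hb s

/-- the indicator of the annulus -/
noncomputable def ia (s : ℝ) : ℂ := (Ioc (1 / 4 : ℝ) 1).indicator (fun _ => (1 : ℂ)) s

lemma ia_BM : BM ia 2 2 := by
  have m1 : Monotone fun s : ℝ => (Ioi (1 / 4 : ℝ)).indicator (fun _ => (1 : ℝ)) s := by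
    intro s t hst
    simp only
    by_cases hs : s ∈ Ioi (1 / 4 : ℝ)
    · rw [indicator_of_mem hs, indicator_of_mem (show t ∈ Ioi (1 / 4 : ℝ) from
        lt_of_lt_of_le hs hst)]
    · rw [indicator_of_notMem hs]
      exact indicator_nonneg (fun _ _ => zero_le_one) _
  have m2 : Monotone fun s : ℝ => (Ioi (1 : ℝ)).indicator (fun _ => (1 : ℝ)) s := by
    intro s t hst
    simp only
    by_cases hs : s ∈ Ioi (1 : ℝ)
    · rw [indicator_of_mem hs, indicator_of_mem (show t ∈ Ioi (1 : ℝ) from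
        lt_of_lt_of_le hs hst)]
    · rw [indicator_of_notMem hs]
      exact indicator_nonneg (fun _ _ => zero_le_one) _
  have b1 := BM.of_mono m1 le_rfl (fun s => indicator_nonneg (fun _ _ => zero_le_one) _)
    (fun s => indicator_le_self' (fun _ _ => zero_le_one) s)
  have b2 := BM.of_mono m2 le_rfl (fun s => indicator_nonneg (fun _ _ => zero_le_one) _)
    (fun s => indicator_le_self' (fun _ _ => zero_le_one) s)
  have b3 := b1.sub b2
  have e : (fun s : ℝ => (((Ioi (1 / 4 : ℝ)).indicator (fun _ => (1 : ℝ)) s : ℝ) : ℂ) -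
      (((Ioi (1 : ℝ)).indicator (fun _ => (1 : ℝ)) s : ℝ) : ℂ)) = ia := by
    ext s
    unfold ia
    by_cases h1 : 1 / 4 < s
    · by_cases h2 : 1 < s
      · rw [indicator_of_mem (show s ∈ Ioi (1 / 4 : ℝ) from h1), indicator_of_mem
          (show s ∈ Ioi (1 : ℝ) from h2), indicator_of_notMem (fun h => by linarith [h.2]), sub_self]
      · rw [indicator_of_mem (show s ∈ Ioi (1 / 4 : ℝ) from h1), indicator_of_notMem
          (show s ∉ Ioi (1 : ℝ) from h2), indicator_of_mem (show s ∈ Ioc (1 / 4 : ℝ) 1 from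
            ⟨h1, not_lt.1 h2⟩)]
        simp
    · have h2 : ¬ 1 < s := by linarith
      rw [indicator_of_notMem (show s ∉ Ioi (1 / 4 : ℝ) from h1), indicator_of_notMem
          (show s ∉ Ioi (1 : ℝ) from h2), indicator_of_notMem (fun h => h1 h.1), sub_self]
  rw [e] at b3
  convert b3 using 1 <;> norm_num

/-- clamping -/
noncomputable def cl (s : ℝ) : ℝ := max (1 / 4) (min s 1)

lemma cl_mono : Monotone cl := by
  intro s t hst
  unfold cl
  exact max_le_max le_rfl (min_le_min hst le_rfl)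

lemma cl_ge (s : ℝ) : 1 / 4 ≤ cl s := le_max_left _ _
lemma cl_le (s : ℝ) : cl s ≤ 1 := max_le (by norm_num) (min_le_right _ _)
lemma cl_eq {s : ℝ} (h : s ∈ Ioc (1 / 4 : ℝ) 1) : cl s = s := by
  unfold cl
  rw [min_eq_left h.2, max_eq_right h.1.le]

/-- the two weights -/
noncomputable def kk1 (s : ℝ) : ℂ := ia s * (Real.exp (Real.pi * s) : ℝ)
noncomputable def kk2 (s : ℝ) : ℂ := ia s * (Real.exp (2 * Real.pi * s) / √s : ℝ)

lemma kk1_BM : ∃ K : ℝ, 0 < K ∧ BM kk1 K K := by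
  have m1 : Monotone fun s => Real.exp (Real.pi * cl s) := by
    intro s t hst
    apply Real.exp_le_exp.2
    exact mul_le_mul_of_nonneg_left (cl_mono hst) Real.pi_pos.le
  have b1 := BM.of_mono m1 le_rfl (fun s => (Real.exp_pos _).le) (b := Real.exp Real.pi) (fun s => by
    apply Real.exp_le_exp.2
    nlinarith [cl_le s, Real.pi_pos])
  have b2 := ia_BM.mul b1
  have e : (fun s => ia s * ((Real.exp (Real.pi * cl s) : ℝ) : ℂ)) = kk1 := by
    ext s
    unfold kk1
    by_cases hs : s ∈ Ioc (1 / 4 : ℝ) 1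
    · rw [cl_eq hs]
    · have : ia s = 0 := indicator_of_notMem hs _
      rw [this, zero_mul, zero_mul]
  rw [e] at b2
  refine ⟨4 * Real.exp Real.pi, by positivity, ?_⟩
  have hp : 0 < Real.exp Real.pi := Real.exp_pos _
  exact ⟨b2.meas, by positivity, by positivity, fun s => (b2.le s).trans (by linarith),
    fun h => (b2.mod h).trans (ENNReal.ofReal_le_ofReal
      (mul_le_mul_of_nonneg_right (by linarith) (abs_nonneg _)))⟩

lemma kk2_BM : ∃ K : ℝ, 0 < K ∧ BM kk2 K K := by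
  have m1 : Monotone fun s => Real.exp (2 * Real.pi * cl s) := by
    intro s t hst
    apply Real.exp_le_exp.2
    exact mul_le_mul_of_nonneg_left (cl_mono hst) (by positivity)
  have b1 := BM.of_mono m1 le_rfl (fun s => (Real.exp_pos _).le) (b := Real.exp (2 * Real.pi))
    (fun s => by
      apply Real.exp_le_exp.2
      nlinarith [cl_le s, Real.pi_pos])
  have m2 : Antitone fun s => 1 / √(cl s) := by
    intro s t hst
    have h0 : 0 < cl s := lt_of_lt_of_le (by norm_num) (cl_ge s)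
    exact one_div_le_one_div_of_le (Real.sqrt_pos.2 h0) (Real.sqrt_le_sqrt (cl_mono hst))
  have b2 := BM.of_anti m2 (a := 0) le_rfl (fun s => by positivity) (b := 2) (fun s => by
    have h1 : (1 / 2 : ℝ) ≤ √(cl s) := by
      rw [show (1 / 2 : ℝ) = √(1 / 4) by
        rw [show (1 / 4 : ℝ) = (1 / 2) ^ 2 by norm_num, Real.sqrt_sq (by norm_num)]]
      exact Real.sqrt_le_sqrt (cl_ge s)
    rw [div_le_iff₀ (by linarith)]
    linarith)
  have b3 := (ia_BM.mul b1).mul b2
  have e : (fun s => ia s * ((Real.exp (2 * Real.pi * cl s) : ℝ) : ℂ) * ((1 / √(cl s) : ℝ) : ℂ)) =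
      kk2 := by
    ext s
    unfold kk2
    by_cases hs : s ∈ Ioc (1 / 4 : ℝ) 1
    · rw [cl_eq hs]
      push_cast
      ring
    · have : ia s = 0 := indicator_of_notMem hs _
      rw [this, zero_mul, zero_mul, zero_mul]
  rw [e] at b3
  have hp : 0 < Real.exp (2 * Real.pi) := Real.exp_pos _
  refine ⟨12 * Real.exp (2 * Real.pi), by positivity, ?_⟩
  exact ⟨b3.meas, by positivity, by positivity, fun s => (b3.le s).trans (by linarith),
    fun h => (b3.mod h).trans (ENNReal.ofReal_le_ofReal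
      (mul_le_mul_of_nonneg_right (by linarith) (abs_nonneg _)))⟩

/-- the ray function in the variable `s = r ^ 2`, extended -/
noncomputable def ext2 (F : ℝ → ℂ) (s : ℝ) : ℂ := F √(max s (1 / 4))

lemma ext2_BM {F : ℝ → ℂ} (hF : Measurable F) {A : ℝ} (hA : 0 ≤ A)
    (hv : eVariationOn F (Ici (1 / 2)) ≤ ENNReal.ofReal A) {R : ℝ} (hR : ∀ r, R < r → F r = 0) :
    BM (ext2 F) A A := by
  have hq : (1 / 2 : ℝ) = √(1 / 4) := by
    rw [show (1 / 4 : ℝ) = (1 / 2) ^ 2 by norm_num, Real.sqrt_sq (by norm_num)]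
  have hge : ∀ s, (1 / 2 : ℝ) ≤ √(max s (1 / 4)) := by
    intro s
    rw [hq]
    exact Real.sqrt_le_sqrt (le_max_right _ _)
  refine BM.of_var ?_ ?_ hA ?_
  · unfold ext2
    exact hF.comp (by fun_prop)
  · intro s
    unfold ext2
    set r := √(max s (1 / 4)) with hr
    have h1 := eVariationOn.edist_le F (s := Ici (1 / 2)) (x := r) (y := max r (R + 1))
      (hge s) ((hge s).trans (le_max_left _ _))
    have h2 : F (max r (R + 1)) = 0 := hR _ (lt_of_lt_of_le (by linarith) (le_max_right _ _))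
    rw [h2, edist_zero_right, ← ofReal_norm] at h1
    exact (ENNReal.ofReal_le_ofReal_iff hA).1 (h1.trans hv)
  · refine le_trans ?_ hv
    have hm : MonotoneOn (fun s : ℝ => √(max s (1 / 4))) univ := by
      intro s _ t _ hst
      exact Real.sqrt_le_sqrt (max_le_max hst le_rfl)
    exact eVariationOn.comp_le_of_monotoneOn F (fun s : ℝ => √(max s (1 / 4))) hm
      (fun s _ => hge s)

end Pool.Agent.R245.PB
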