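import Mathlib
import Pool.Agent.R245.PB.Evn
import Pool.Agent.R245.PB.Mod
set_option autoImplicit false

/-! The fixed time estimate for functions on an annulus with bounded variation along the rays. -/

namespace Pool.Agent.R245.PB

open MeasureTheory Set Complex Filter Real
open scoped ENNReal Topology ComplexConjugate

/-- ray functions with a bound for the variation -/
structure Ray (F : ℝ → ℝ → ℂ) (V : ℝ → ℝ) : Prop where
  meas : Measurable fun p : ℝ × ℝ => F p.1 p.2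
  vmeas : Measurable V
  v0 : ∀ θ, 0 ≤ V θ
  zero : ∃ R, ∀ θ r, R < r → F θ r = 0
  var : ∀ θ, eVariationOn (F θ) (Ici (1 / 2)) ≤ ENNReal.ofReal (V θ)

/-- profile with weights -/
noncomputable def Pw (k : ℝ → ℂ) (c : ℝ → ℝ) (F : ℝ → ℝ → ℂ) (θ s : ℝ) : ℂ :=
  cexp (-π * s) * (c θ * (k s * ext2 (F θ) s))

variable {F : ℝ → ℝ → ℂ} {V : ℝ → ℝ}

lemma Ray.sec (h : Ray F V) (θ : ℝ) : Measurable (F θ) :=
  h.meas.comp (f := fun s : ℝ => (θ, s)) (by fun_prop)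

lemma ext2_jm (h : Measurable fun p : ℝ × ℝ => F p.1 p.2) :
    Measurable fun p : ℝ × ℝ => ext2 (F p.1) p.2 := by
  unfold ext2
  exact h.comp (f := fun p : ℝ × ℝ => (p.1, √(max p.2 (1 / 4)))) (by fun_prop)

lemma Ray.BM (h : Ray F V) (θ : ℝ) : BM (ext2 (F θ)) (V θ) (V θ) := by
  obtain ⟨R, hR⟩ := h.zero
  exact ext2_BM (h.sec θ) (h.v0 θ) (h.var θ) (hR θ)

/-- the normalised profile -/
noncomputable def Pn (K : ℝ) (k : ℝ → ℂ) (c : ℝ → ℝ) (F : ℝ → ℝ → ℂ) (V : ℝ → ℝ) (θ s : ℝ) : ℂ :=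
  ((c θ / (2 * K * V θ) : ℝ) : ℂ) * (k s * ext2 (F θ) s)

lemma Pn_Pr (h : Ray F V) {K : ℝ} (hK : 0 < K) {k : ℝ → ℂ} (hk : BM k K K)
    (hks : ∀ s, s ∉ Ioc (1 / 4 : ℝ) 1 → k s = 0) {c : ℝ → ℝ} (hc : Measurable c)
    (hc1 : ∀ θ, |c θ| ≤ 1) : Pr (Pn K k c F V) where
  meas := by
    unfold Pn
    refine Measurable.mul ?_ ((hk.meas.comp measurable_snd).mul (ext2_jm h.meas))
    refine Complex.measurable_ofReal.comp ?_
    exact (hc.comp measurable_fst).div ((h.vmeas.comp measurable_fst).const_mul _)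
  le := by
    intro θ s
    have hb := hk.mul (h.BM θ)
    have h1 := hb.le s
    unfold Pn
    rw [norm_mul, Complex.norm_real, Real.norm_eq_abs]
    rcases (h.v0 θ).eq_or_lt with hv | hv
    · rw [← hv, mul_zero, div_zero, abs_zero, zero_mul]
      norm_num
    · rw [abs_div, abs_of_pos (show 0 < 2 * K * V θ by positivity)]
      calc |c θ| / (2 * K * V θ) * ‖k s * ext2 (F θ) s‖ ≤ 1 / (2 * K * V θ) * (K * V θ) := by
            refine mul_le_mul ?_ h1 (norm_nonneg _) (by positivity)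
            exact div_le_div_of_nonneg_right (hc1 θ) (by positivity)
        _ = 1 / 2 := by field_simp
        _ ≤ 1 := by norm_num
  supp := by
    intro θ s hs
    unfold Pn
    rw [hks s (fun h => hs ⟨by linarith [h.1], h.2⟩)]
    ring
  mod := by
    intro θ η
    have hb := hk.mul (h.BM θ)
    have h1 := hb.mod η
    have e1 : ∀ s, ‖Pn K k c F V θ (s + η) - Pn K k c F V θ s‖ₑ =
        ENNReal.ofReal |c θ / (2 * K * V θ)| *
          ‖k (s + η) * ext2 (F θ) (s + η) - k s * ext2 (F θ) s‖ₑ := by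
      intro s
      unfold Pn
      rw [← mul_sub, enorm_mul, ← ofReal_norm (((c θ / (2 * K * V θ) : ℝ)) : ℂ), Complex.norm_real,
        Real.norm_eq_abs]
    simp only [e1]
    rw [lintegral_const_mul' _ _ ENNReal.ofReal_ne_top]
    refine (mul_le_mul' le_rfl h1).trans ?_
    rw [← ENNReal.ofReal_mul (abs_nonneg _)]
    apply ENNReal.ofReal_le_ofReal
    rcases (h.v0 θ).eq_or_lt with hv | hv
    · rw [← hv, mul_zero, div_zero, abs_zero, zero_mul]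
      exact abs_nonneg _
    · rw [abs_div, abs_of_pos (show 0 < 2 * K * V θ by positivity)]
      calc |c θ| / (2 * K * V θ) * ((K * V θ + K * V θ) * |η|)
          ≤ 1 / (2 * K * V θ) * ((K * V θ + K * V θ) * |η|) := by
            refine mul_le_mul_of_nonneg_right ?_ (by positivity)
            exact div_le_div_of_nonneg_right (hc1 θ) (by positivity)
        _ = |η| := by
            field_simp
            ring

lemma Pw_pfl (h : Ray F V) {K : ℝ} (hK : 0 < K) (k : ℝ → ℂ) (c : ℝ → ℝ) :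
    Pw k c F = pfl (Pn K k c F V) (fun θ => ((2 * K * V θ : ℝ) : ℂ)) := by
  ext θ s
  unfold Pw pfl Pn
  rcases (h.v0 θ).eq_or_lt with hv | hv
  · have h1 := (h.BM θ).le s
    rw [← hv] at h1
    have h2 : ext2 (F θ) s = 0 := norm_le_zero_iff.1 h1
    rw [h2, ← hv]
    simp
  · have h3 : ((2 * K * V θ : ℝ) : ℂ) * ((c θ / (2 * K * V θ) : ℝ) : ℂ) = (c θ : ℂ) := by
      rw [← Complex.ofReal_mul]
      congr 1
      field_simp
    rw [← h3]
    ring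

/-- the estimate for the odd part -/
theorem oddb {e : ℝ} (he0 : 0 < e) (he1 : e ≤ 1) {p : ℝ} (hp2 : 2 < p) (hp4 : p < 4) {K : ℝ}
    (hK : 0 < K) : ∃ C : ℝ, 0 < C ∧ ∀ (F : ℝ → ℝ → ℂ) (V : ℝ → ℝ), Ray F V → Integrable V mu →
    ∀ k : ℝ → ℂ, BM k K K → (∀ s, s ∉ Ioc (1 / 4 : ℝ) 1 → k s = 0) → ∀ c : ℝ → ℝ, Measurable c →
    (∀ θ, |c θ| ≤ 1) → ∀ t : ℝ,
    ∫⁻ x : ℝ × ℝ, ‖TT (Pw k c F) t x‖ₑ ^ p ≤
      ENNReal.ofReal (C * (1 + |t|) ^ (-((2 - e) * ((p - 2) / 2)))) *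
        ∫⁻ θ, ENNReal.ofReal (V θ) ^ p ∂mu := by
  obtain ⟨C, hC, hF⟩ := fxt he0 he1 hp2 hp4
  have hp0 : 0 < p := by linarith
  refine ⟨C * (2 * K) ^ p, by positivity, ?_⟩
  intro F V h hV k hk hks c hc hc1 t
  rw [Pw_pfl h hK k c]
  have hgI : Integrable (fun θ => ((2 * K * V θ : ℝ) : ℂ)) mu := (hV.const_mul (2 * K)).ofReal
  have hgm : Measurable (fun θ => ((2 * K * V θ : ℝ) : ℂ)) :=
    Complex.measurable_ofReal.comp (h.vmeas.const_mul _)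
  refine (hF _ (Pn_Pr h hK hk hks hc hc1) t _ hgm hgI).trans (le_of_eq ?_)
  have e1 : ∀ θ, ‖((2 * K * V θ : ℝ) : ℂ)‖ₑ ^ p = ENNReal.ofReal ((2 * K) ^ p) *
      ENNReal.ofReal (V θ) ^ p := by
    intro θ
    have := h.v0 θ
    rw [← ofReal_norm, Complex.norm_real, Real.norm_eq_abs, abs_of_nonneg (by positivity),
      ENNReal.ofReal_mul (by positivity), ENNReal.mul_rpow_of_nonneg _ _ hp0.le,
      ENNReal.ofReal_rpow_of_pos (by positivity)]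
  simp only [e1]
  rw [lintegral_const_mul' _ _ ENNReal.ofReal_ne_top, ← mul_assoc,
    ← ENNReal.ofReal_mul (by positivity)]
  congr 2
  ring

lemma Pw_meas (h : Ray F V) {k : ℝ → ℂ} (hk : Measurable k) {c : ℝ → ℝ} (hc : Measurable c) :
    Measurable fun p : ℝ × ℝ => Pw k c F p.1 p.2 := by
  unfold Pw
  refine Measurable.mul ?_ (Measurable.mul (Complex.measurable_ofReal.comp (hc.comp measurable_fst))
    ((hk.comp measurable_snd).mul (ext2_jm h.meas)))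
  apply Continuous.measurable
  fun_prop

lemma Pw_A (h : Ray F V) (hV : Integrable V mu) {K : ℝ} (hK : 0 < K) {k : ℝ → ℂ} (hk : BM k K K)
    (hks : ∀ s, s ∉ Ioc (1 / 4 : ℝ) 1 → k s = 0) {c : ℝ → ℝ} (hc : Measurable c)
    (hc1 : ∀ θ, |c θ| ≤ 1) : ∫⁻ θ, (∫⁻ s in Ioi (0:ℝ), ‖Pw k c F θ s‖ₑ) ∂mu < ⊤ := by
  rw [Pw_pfl h hK k c]
  exact pfl_A (Pn_Pr h hK hk hks hc hc1) ((hV.const_mul (2 * K)).ofReal (𝕜 := ℂ)).hasFiniteIntegral

lemma kk1_supp (s : ℝ) (hs : s ∉ Ioc (1 / 4 : ℝ) 1) : kk1 s = 0 := by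
  unfold kk1
  have : ia s = 0 := indicator_of_notMem hs _
  rw [this, zero_mul]

lemma kk2_supp (s : ℝ) (hs : s ∉ Ioc (1 / 4 : ℝ) 1) : kk2 s = 0 := by
  unfold kk2
  have : ia s = 0 := indicator_of_notMem hs _
  rw [this, zero_mul]

/-- the function on the annulus -/
noncomputable def fA (F : ℝ → ℝ → ℂ) : ℝ → ℝ → ℂ := fun θ s => ia s * ext2 (F θ) s

lemma fA_eq (F : ℝ → ℝ → ℂ) : fA F = Pw kk1 (fun _ => 1) F := by
  ext θ s
  unfold fA Pw kk1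
  have : cexp (-π * s) * ((Real.exp (π * s) : ℝ) : ℂ) = 1 := by
    rw [Complex.ofReal_exp, ← Complex.exp_add]
    push_cast
    rw [show (-(π : ℂ) * s + π * s) = 0 by ring, Complex.exp_zero]
  simp only [Complex.ofReal_one, one_mul]
  linear_combination (-(ia s * ext2 (F θ) s)) * this

lemma polar_fst (ξ : ℝ × ℝ) : √(ξ.1 ^ 2 + ξ.2 ^ 2) * Real.cos (polarCoord ξ).2 = ξ.1 := by
  have h : (polarCoord ξ).2 = Complex.arg (Complex.equivRealProd.symm ξ) := rfl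
  rw [h]
  have h1 := Complex.norm_mul_cos_arg (Complex.equivRealProd.symm ξ)
  have h2 : ‖Complex.equivRealProd.symm ξ‖ = √(ξ.1 ^ 2 + ξ.2 ^ 2) := by
    rw [Complex.norm_eq_sqrt_sq_add_sq]
    rfl
  rw [h2] at h1
  exact h1

lemma polar_snd (ξ : ℝ × ℝ) : √(ξ.1 ^ 2 + ξ.2 ^ 2) * Real.sin (polarCoord ξ).2 = ξ.2 := by
  have h : (polarCoord ξ).2 = Complex.arg (Complex.equivRealProd.symm ξ) := rfl
  rw [h]
  have h1 := Complex.norm_mul_sin_arg (Complex.equivRealProd.symm ξ)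
  have h2 : ‖Complex.equivRealProd.symm ξ‖ = √(ξ.1 ^ 2 + ξ.2 ^ 2) := by
    rw [Complex.norm_eq_sqrt_sq_add_sq]
    rfl
  rw [h2] at h1
  exact h1

lemma fA_split (F : ℝ → ℝ → ℂ) (ξ : ℝ × ℝ) :
    pf (fA F) ξ = ((((1:ℝ), (0:ℝ)) : ℝ × ℝ).1 * ξ.1 + (((1:ℝ), (0:ℝ)) : ℝ × ℝ).2 * ξ.2) *
      cexp (-π * (ξ.1 ^ 2 + ξ.2 ^ 2)) * pf (Pw kk2 Real.cos F) ξ +
      ((((0:ℝ), (1:ℝ)) : ℝ × ℝ).1 * ξ.1 + (((0:ℝ), (1:ℝ)) : ℝ × ℝ).2 * ξ.2) *
      cexp (-π * (ξ.1 ^ 2 + ξ.2 ^ 2)) * pf (Pw kk2 Real.sin F) ξ := by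
  have h1 := polar_fst ξ
  have h2 := polar_snd ξ
  unfold pf fA Pw kk2
  set s : ℝ := ξ.1 ^ 2 + ξ.2 ^ 2 with hs
  set θ : ℝ := (polarCoord ξ).2 with hθ
  by_cases hin : s ∈ Ioc (1 / 4 : ℝ) 1
  · have hs0 : 0 < s := by linarith [hin.1]
    have hq : 0 < √s := Real.sqrt_pos.2 hs0
    have e0 : ((ξ.1 : ℂ) ^ 2 + (ξ.2 : ℂ) ^ 2) = (s : ℂ) := by
      rw [hs]
      push_cast
      ring
    have e1 : (ξ.1 : ℂ) = (√s : ℂ) * (Real.cos θ : ℂ) := by
      rw [← Complex.ofReal_mul, h1]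
    have e2 : (ξ.2 : ℂ) = (√s : ℂ) * (Real.sin θ : ℂ) := by
      rw [← Complex.ofReal_mul, h2]
    rw [e0]
    have e3 : cexp (-π * s) * cexp (-π * s) * ((Real.exp (2 * π * s) : ℝ) : ℂ) = 1 := by
      rw [Complex.ofReal_exp, ← Complex.exp_add, ← Complex.exp_add]
      push_cast
      rw [show (-(π : ℂ) * s + -π * s + 2 * π * s) = 0 by ring, Complex.exp_zero]
    have e4 : ((Real.cos θ : ℝ) : ℂ) ^ 2 + ((Real.sin θ : ℝ) : ℂ) ^ 2 = 1 := by
      rw [← Complex.ofReal_pow, ← Complex.ofReal_pow, ← Complex.ofReal_add, Real.cos_sq_add_sin_sq,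
        Complex.ofReal_one]
    have hq' : (√s : ℂ) ≠ 0 := by exact_mod_cast hq.ne'
    rw [e1, e2]
    simp only [Complex.ofReal_one, Complex.ofReal_zero, one_mul, zero_mul, add_zero, zero_add]
    rw [Complex.ofReal_div]
    have e5 : (√s : ℂ) * (((Real.exp (2 * π * s) : ℝ) : ℂ) / (√s : ℂ)) =
        ((Real.exp (2 * π * s) : ℝ) : ℂ) := by
      field_simp
    calc ia s * ext2 (F θ) s = ia s * ext2 (F θ) s * ((((Real.cos θ : ℝ) : ℂ) ^ 2 +
          ((Real.sin θ : ℝ) : ℂ) ^ 2) * (cexp (-π * s) * cexp (-π * s) *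
            ((Real.exp (2 * π * s) : ℝ) : ℂ))) := by rw [e4, e3]; ring
      _ = _ := by
          linear_combination (-(ia s * ext2 (F θ) s * (((Real.cos θ : ℝ) : ℂ) ^ 2 +
            ((Real.sin θ : ℝ) : ℂ) ^ 2) * (cexp (-π * s) * cexp (-π * s)))) * e5
  · have : ia s = 0 := indicator_of_notMem hin _
    rw [this]
    ring

lemma three_pow (a b c : ℝ≥0∞) {p : ℝ} (hp : 0 ≤ p) :
    (a + b + c) ^ p ≤ 3 ^ p * (a ^ p + b ^ p + c ^ p) := by
  have h1 : a + b + c ≤ 3 * max a (max b c) := by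
    have : (3 : ℝ≥0∞) = 1 + 1 + 1 := by norm_num
    rw [this, add_mul, add_mul, one_mul]
    gcongr
    · exact le_max_left _ _
    · exact (le_max_left _ _).trans (le_max_right _ _)
    · exact (le_max_right _ _).trans (le_max_right _ _)
  refine (ENNReal.rpow_le_rpow h1 hp).trans ?_
  rw [ENNReal.mul_rpow_of_nonneg _ _ hp]
  refine mul_le_mul' le_rfl ?_
  rcases max_choice a (max b c) with h | h
  · rw [h]
    exact le_add_right le_self_add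
  · rw [h]
    rcases max_choice b c with h' | h'
    · rw [h', add_right_comm]
      exact le_add_self
    · rw [h']
      exact le_add_self

/-- the estimate on the annulus -/
theorem annR {e : ℝ} (he0 : 0 < e) (he1 : e ≤ 1) {p : ℝ} (hp2 : 2 < p) (hp4 : p < 4) :
    ∃ C : ℝ, 0 < C ∧ ∀ (F : ℝ → ℝ → ℂ) (V : ℝ → ℝ), Ray F V → Integrable V mu → ∀ t : ℝ,
    ∫⁻ x : ℝ × ℝ, ‖Ext (pf (fA F)) t x‖ₑ ^ p ≤
      ENNReal.ofReal (C * (1 + |t|) ^ (-((2 - e) * ((p - 2) / 2)))) *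
        ∫⁻ θ, ENNReal.ofReal (V θ) ^ p ∂mu := by
  obtain ⟨K1, hK1, hk1⟩ := kk1_BM
  obtain ⟨K2, hK2, hk2⟩ := kk2_BM
  obtain ⟨C1, hC1, h1⟩ := oddb he0 he1 hp2 hp4 hK1
  obtain ⟨C2, hC2, h2⟩ := oddb he0 he1 hp2 hp4 hK2
  have hp0 : 0 < p := by linarith
  refine ⟨3 ^ p * (C1 + 2 ^ p * C2 + 2 ^ p * C2), by positivity, ?_⟩
  intro F V h hV t
  have hone : ∀ θ : ℝ, |(fun _ => (1:ℝ)) θ| ≤ 1 := fun θ => by simp
  have hA1 := Pw_A h hV hK1 hk1 kk1_supp (c := fun _ => 1) measurable_const hone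
  have hm1 := Pw_meas h hk1.meas (c := fun _ => 1) measurable_const
  have hAc := Pw_A h hV hK2 hk2 kk2_supp Real.measurable_cos Real.abs_cos_le_one
  have hmc := Pw_meas h hk2.meas Real.measurable_cos
  have hAs := Pw_A h hV hK2 hk2 kk2_supp Real.measurable_sin Real.abs_sin_le_one
  have hms := Pw_meas h hk2.meas Real.measurable_sin
  have hmTc : Measurable (TT (Pw kk2 Real.cos F) t) := by
    have : TT (Pw kk2 Real.cos F) t = fun x => Ext (pf (Pw kk2 Real.cos F)) t x -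
        Ext (pf (Pw kk2 Real.cos F)) t (-x) := by
      ext x
      exact TT_eq hmc hAc t x
    rw [this]
    have hE := Ext_meas (pf_meas hmc) t
    exact hE.sub (hE.comp measurable_neg)
  have hmTs : Measurable (TT (Pw kk2 Real.sin F) t) := by
    have : TT (Pw kk2 Real.sin F) t = fun x => Ext (pf (Pw kk2 Real.sin F)) t x -
        Ext (pf (Pw kk2 Real.sin F)) t (-x) := by
      ext x
      exact TT_eq hms hAs t x
    rw [this]
    have hE := Ext_meas (pf_meas hms) t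
    exact hE.sub (hE.comp measurable_neg)
  -- the decomposition
  have hgi : ∀ {c : ℝ × ℝ} {Φ : ℝ → ℝ → ℂ}, (Measurable fun p : ℝ × ℝ => Φ p.1 p.2) →
      Integrable (pf Φ) → |c.1| ≤ 1 → |c.2| ≤ 1 → Integrable fun ξ : ℝ × ℝ =>
        (c.1 * ξ.1 + c.2 * ξ.2) * cexp (-π * (ξ.1 ^ 2 + ξ.2 ^ 2)) * pf Φ ξ := by
    intro c Φ hΦm hΦ hc1 hc2
    refine Integrable.bdd_mul (c := 2) hΦ ?_ (ae_of_all _ fun ξ => ?_)
    · apply Continuous.aestronglyMeasurable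
      fun_prop
    · rw [norm_mul, Complex.norm_exp]
      have e1 : (-(π : ℂ) * ((ξ.1 : ℂ) ^ 2 + (ξ.2 : ℂ) ^ 2)).re = -(π * (ξ.1 ^ 2 + ξ.2 ^ 2)) := by
        simp [pow_two]
      rw [e1]
      have e2 : ‖(c.1 : ℂ) * ξ.1 + c.2 * ξ.2‖ ≤ |ξ.1| + |ξ.2| := by
        refine (norm_add_le _ _).trans (add_le_add ?_ ?_)
        · rw [norm_mul, Complex.norm_real, Complex.norm_real, Real.norm_eq_abs, Real.norm_eq_abs]
          nlinarith [abs_nonneg ξ.1]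
        · rw [norm_mul, Complex.norm_real, Complex.norm_real, Real.norm_eq_abs, Real.norm_eq_abs]
          nlinarith [abs_nonneg ξ.2]
      have e3 : Real.exp (-(π * (ξ.1 ^ 2 + ξ.2 ^ 2))) ≤ 1 / (1 + (ξ.1 ^ 2 + ξ.2 ^ 2)) := by
        rw [Real.exp_neg, one_div]
        apply inv_anti₀ (by positivity)
        have q := Real.add_one_le_exp (π * (ξ.1 ^ 2 + ξ.2 ^ 2))
        nlinarith [Real.pi_gt_three, sq_nonneg ξ.1, sq_nonneg ξ.2]
      calc _ ≤ (|ξ.1| + |ξ.2|) * (1 / (1 + (ξ.1 ^ 2 + ξ.2 ^ 2))) :=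
            mul_le_mul e2 e3 (Real.exp_pos _).le (by positivity)
        _ ≤ 2 := by
            rw [mul_one_div, div_le_iff₀ (by positivity)]
            nlinarith [sq_nonneg (|ξ.1| - 1), sq_nonneg (|ξ.2| - 1), sq_abs ξ.1, sq_abs ξ.2]
  have hdec : ∀ x, ‖Ext (pf (fA F)) t x‖ₑ ≤ ‖TT (Pw kk1 (fun _ => 1) F) t x‖ₑ +
      ‖∫ y : ℝ × ℝ, ps (1, 0) y * TT (Pw kk2 Real.cos F) t (x - y)‖ₑ +
      ‖∫ y : ℝ × ℝ, ps (0, 1) y * TT (Pw kk2 Real.sin F) t (x - y)‖ₑ := by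
    intro x
    have d1 := TT_eq hm1 hA1 t x
    rw [← fA_eq] at d1
    have d2 : ∫ y : ℝ × ℝ, ps (1, 0) y * TT (Pw kk2 Real.cos F) t (x - y) =
        Ext (fun ξ => ((((1:ℝ), (0:ℝ)) : ℝ × ℝ).1 * ξ.1 + (((1:ℝ), (0:ℝ)) : ℝ × ℝ).2 * ξ.2) *
          cexp (-π * (ξ.1 ^ 2 + ξ.2 ^ 2)) * pf (Pw kk2 Real.cos F) ξ) t x +
        Ext (fun ξ => ((((1:ℝ), (0:ℝ)) : ℝ × ℝ).1 * ξ.1 + (((1:ℝ), (0:ℝ)) : ℝ × ℝ).2 * ξ.2) *
          cexp (-π * (ξ.1 ^ 2 + ξ.2 ^ 2)) * pf (Pw kk2 Real.cos F) ξ) t (-x) := by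
      rw [← even_part (1, 0) (pf_meas hmc) (pf_int hmc hAc) t x]
      congr 1
      ext y
      rw [TT_eq hmc hAc]
    have d3 : ∫ y : ℝ × ℝ, ps (0, 1) y * TT (Pw kk2 Real.sin F) t (x - y) =
        Ext (fun ξ => ((((0:ℝ), (1:ℝ)) : ℝ × ℝ).1 * ξ.1 + (((0:ℝ), (1:ℝ)) : ℝ × ℝ).2 * ξ.2) *
          cexp (-π * (ξ.1 ^ 2 + ξ.2 ^ 2)) * pf (Pw kk2 Real.sin F) ξ) t x +
        Ext (fun ξ => ((((0:ℝ), (1:ℝ)) : ℝ × ℝ).1 * ξ.1 + (((0:ℝ), (1:ℝ)) : ℝ × ℝ).2 * ξ.2) *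
          cexp (-π * (ξ.1 ^ 2 + ξ.2 ^ 2)) * pf (Pw kk2 Real.sin F) ξ) t (-x) := by
      rw [← even_part (0, 1) (pf_meas hms) (pf_int hms hAs) t x]
      congr 1
      ext y
      rw [TT_eq hms hAs]
    have d4 : ∀ y, Ext (pf (fA F)) t y =
        Ext (fun ξ => ((((1:ℝ), (0:ℝ)) : ℝ × ℝ).1 * ξ.1 + (((1:ℝ), (0:ℝ)) : ℝ × ℝ).2 * ξ.2) *
          cexp (-π * (ξ.1 ^ 2 + ξ.2 ^ 2)) * pf (Pw kk2 Real.cos F) ξ) t y +
        Ext (fun ξ => ((((0:ℝ), (1:ℝ)) : ℝ × ℝ).1 * ξ.1 + (((0:ℝ), (1:ℝ)) : ℝ × ℝ).2 * ξ.2) *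
          cexp (-π * (ξ.1 ^ 2 + ξ.2 ^ 2)) * pf (Pw kk2 Real.sin F) ξ) t y := by
      intro y
      unfold Ext
      rw [← integral_add]
      · congr 1
        ext ξ
        rw [fA_split F ξ]
        ring
      · exact (hgi (c := ((1:ℝ), (0:ℝ))) hmc (pf_int hmc hAc) (by norm_num) (by norm_num)).mul_bdd
          (c := 1) (ec_meas.comp (by fun_prop)).aestronglyMeasurable
          (ae_of_all _ fun s => (ec_norm _).le)
      · exact (hgi (c := ((0:ℝ), (1:ℝ))) hms (pf_int hms hAs) (by norm_num) (by norm_num)).mul_bdd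
          (c := 1) (ec_meas.comp (by fun_prop)).aestronglyMeasurable
          (ae_of_all _ fun s => (ec_norm _).le)
    have d5 : (2 : ℂ) * Ext (pf (fA F)) t x = TT (Pw kk1 (fun _ => 1) F) t x +
        (∫ y : ℝ × ℝ, ps (1, 0) y * TT (Pw kk2 Real.cos F) t (x - y)) +
        ∫ y : ℝ × ℝ, ps (0, 1) y * TT (Pw kk2 Real.sin F) t (x - y) := by
      rw [d2, d3, ← fA_eq, d1]
      have q1 := d4 x
      have q2 := d4 (-x)
      linear_combination q1 + q2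
    have d6 : ‖Ext (pf (fA F)) t x‖ₑ ≤ ‖(2 : ℂ) * Ext (pf (fA F)) t x‖ₑ := by
      rw [enorm_mul]
      refine le_mul_of_one_le_left' ?_
      rw [← ofReal_norm]
      norm_num
    rw [d5] at d6
    exact d6.trans ((enorm_add_le _ _).trans (add_le_add (enorm_add_le _ _) le_rfl))
  set w : ℝ := (1 + |t|) ^ (-((2 - e) * ((p - 2) / 2))) with hw
  have h1t : 0 < 1 + |t| := by positivity
  have hw0 : 0 < w := by positivity
  set Z := ∫⁻ θ, ENNReal.ofReal (V θ) ^ p ∂mu with hZ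
  have b1 := h1 F V h hV kk1 hk1 kk1_supp (fun _ => 1) measurable_const hone t
  have b2 := h2 F V h hV kk2 hk2 kk2_supp Real.cos Real.measurable_cos Real.abs_cos_le_one t
  have b3 := h2 F V h hV kk2 hk2 kk2_supp Real.sin Real.measurable_sin Real.abs_sin_le_one t
  have c2 := (young (c := (1, 0)) (by norm_num) (by norm_num) hmTc
    (show 1 < p by linarith)).trans (mul_le_mul' le_rfl b2)
  have c3 := (young (c := (0, 1)) (by norm_num) (by norm_num) hmTs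
    (show 1 < p by linarith)).trans (mul_le_mul' le_rfl b3)
  have hm1T : Measurable fun x => ‖TT (Pw kk1 (fun _ => 1) F) t x‖ₑ ^ p := by
    have : TT (Pw kk1 (fun _ => 1) F) t = fun x => Ext (pf (Pw kk1 (fun _ => 1) F)) t x -
        Ext (pf (Pw kk1 (fun _ => 1) F)) t (-x) := by
      ext x
      exact TT_eq hm1 hA1 t x
    rw [this]
    have hE := Ext_meas (pf_meas hm1) t
    exact ((hE.sub (hE.comp measurable_neg)).enorm).pow_const p
  have hm2T : Measurable fun x => ‖∫ y : ℝ × ℝ, ps (1, 0) y *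
      TT (Pw kk2 Real.cos F) t (x - y)‖ₑ ^ p := by
    have q : Measurable fun z : (ℝ × ℝ) × (ℝ × ℝ) => ps (1, 0) z.2 *
        TT (Pw kk2 Real.cos F) t (z.1 - z.2) :=
      ((ps_meas _).comp measurable_snd).mul (hmTc.comp (f := fun z : (ℝ × ℝ) × (ℝ × ℝ) => z.1 - z.2)
        (by fun_prop))
    exact ((q.stronglyMeasurable.integral_prod_right'
      (ν := (volume : Measure (ℝ × ℝ)))).measurable.enorm).pow_const p
  calc ∫⁻ x : ℝ × ℝ, ‖Ext (pf (fA F)) t x‖ₑ ^ p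
      ≤ ∫⁻ x : ℝ × ℝ, 3 ^ p * (‖TT (Pw kk1 (fun _ => 1) F) t x‖ₑ ^ p +
        ‖∫ y : ℝ × ℝ, ps (1, 0) y * TT (Pw kk2 Real.cos F) t (x - y)‖ₑ ^ p +
        ‖∫ y : ℝ × ℝ, ps (0, 1) y * TT (Pw kk2 Real.sin F) t (x - y)‖ₑ ^ p) := by
        apply lintegral_mono
        intro x
        exact (ENNReal.rpow_le_rpow (hdec x) hp0.le).trans (three_pow _ _ _ hp0.le)
    _ = 3 ^ p * ((∫⁻ x : ℝ × ℝ, ‖TT (Pw kk1 (fun _ => 1) F) t x‖ₑ ^ p) +
        (∫⁻ x : ℝ × ℝ, ‖∫ y : ℝ × ℝ, ps (1, 0) y * TT (Pw kk2 Real.cos F) t (x - y)‖ₑ ^ p) +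
        ∫⁻ x : ℝ × ℝ, ‖∫ y : ℝ × ℝ, ps (0, 1) y * TT (Pw kk2 Real.sin F) t (x - y)‖ₑ ^ p) := by
        have m12 : Measurable fun x => ‖TT (Pw kk1 (fun _ => 1) F) t x‖ₑ ^ p +
            ‖∫ y : ℝ × ℝ, ps (1, 0) y * TT (Pw kk2 Real.cos F) t (x - y)‖ₑ ^ p := hm1T.add hm2T
        rw [lintegral_const_mul' _ _ (ENNReal.rpow_ne_top_of_nonneg hp0.le (by norm_num)),
          lintegral_add_left m12, lintegral_add_left hm1T]
    _ ≤ 3 ^ p * (ENNReal.ofReal (C1 * w) * Z + 2 ^ p * (ENNReal.ofReal (C2 * w) * Z) +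
        2 ^ p * (ENNReal.ofReal (C2 * w) * Z)) :=
        mul_le_mul' le_rfl (add_le_add (add_le_add b1 c2) c3)
    _ = _ := by
        have e3 : (3 : ℝ≥0∞) ^ p = ENNReal.ofReal (3 ^ p) := by
          rw [← ENNReal.ofReal_rpow_of_pos (by norm_num)]
          norm_num
        have e2 : (2 : ℝ≥0∞) ^ p = ENNReal.ofReal (2 ^ p) := by
          rw [← ENNReal.ofReal_rpow_of_pos (by norm_num)]
          norm_num
        rw [e3, e2, ← mul_assoc (ENNReal.ofReal (2 ^ p)), ← ENNReal.ofReal_mul (by positivity),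
          ← add_mul, ← add_mul, ← mul_assoc, ← ENNReal.ofReal_add (by positivity) (by positivity),
          ← ENNReal.ofReal_add (by positivity) (by positivity), ← ENNReal.ofReal_mul (by positivity)]
        congr 2
        ring

end Pool.Agent.R245.PB
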