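import Mathlib
import Pool.Agent.R245.PB.Anl
set_option autoImplicit false

/-! Extended valued majorants; scaling of an annulus. -/

namespace Pool.Agent.R245.PB

open MeasureTheory Set Complex Filter Real
open scoped ENNReal Topology ComplexConjugate

lemma ext2_en {F : ℝ → ℂ} {A : ℝ≥0∞} (hv : eVariationOn F (Ici (1 / 2)) ≤ A) {R : ℝ}
    (hR : ∀ r, R < r → F r = 0) (s : ℝ) : ‖ext2 F s‖ₑ ≤ A := by
  have hq : (1 / 2 : ℝ) = √(1 / 4) := by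
    rw [show (1 / 4 : ℝ) = (1 / 2) ^ 2 by norm_num, Real.sqrt_sq (by norm_num)]
  have hge : (1 / 2 : ℝ) ≤ √(max s (1 / 4)) := by
    rw [hq]
    exact Real.sqrt_le_sqrt (le_max_right _ _)
  unfold ext2
  set r := √(max s (1 / 4)) with hr
  have h1 := eVariationOn.edist_le F (s := Ici (1 / 2)) (x := r) (y := max r (R + 1))
    hge (hge.trans (le_max_left _ _))
  have h2 : F (max r (R + 1)) = 0 := hR _ (lt_of_lt_of_le (by linarith) (le_max_right _ _))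
  rw [h2, edist_zero_right] at h1
  exact h1.trans hv

lemma fA_A {F : ℝ → ℝ → ℂ} {V : ℝ → ℝ≥0∞} (hz : ∃ R, ∀ θ r, R < r → F θ r = 0)
    (hv : ∀ θ, eVariationOn (F θ) (Ici (1 / 2)) ≤ V θ) (hV : ∫⁻ θ, V θ ∂mu < ⊤) :
    ∫⁻ θ, (∫⁻ s in Ioi (0:ℝ), ‖fA F θ s‖ₑ) ∂mu < ⊤ := by
  obtain ⟨R, hR⟩ := hz
  refine lt_of_le_of_lt (lintegral_mono fun θ => ?_) hV
  have hp : ∀ s, ‖fA F θ s‖ₑ ≤ (Ioc (1 / 4 : ℝ) 1).indicator (fun _ => V θ) s := by
    intro s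
    unfold fA ia
    by_cases hs : s ∈ Ioc (1 / 4 : ℝ) 1
    · rw [indicator_of_mem hs, indicator_of_mem hs, one_mul]
      exact ext2_en (hv θ) (hR θ) s
    · rw [indicator_of_notMem hs, indicator_of_notMem hs, zero_mul, enorm_zero]
  calc ∫⁻ s in Ioi (0:ℝ), ‖fA F θ s‖ₑ ≤ ∫⁻ s, ‖fA F θ s‖ₑ := setLIntegral_le_lintegral _ _
    _ ≤ ∫⁻ s, (Ioc (1 / 4 : ℝ) 1).indicator (fun _ => V θ) s := lintegral_mono hp
    _ = V θ * ENNReal.ofReal (1 - 1 / 4) := by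
        rw [lintegral_indicator measurableSet_Ioc, setLIntegral_const, Real.volume_Ioc]
    _ ≤ V θ * 1 := mul_le_mul' le_rfl (by rw [ENNReal.ofReal_le_one]; norm_num)
    _ = V θ := mul_one _

lemma fA_meas {F : ℝ → ℝ → ℂ} (h : Measurable fun p : ℝ × ℝ => F p.1 p.2) :
    Measurable fun p : ℝ × ℝ => fA F p.1 p.2 := by
  unfold fA
  exact (ia_BM.meas.comp measurable_snd).mul (ext2_jm h)

/-- the estimate on the annulus, with an extended valued majorant -/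
theorem annE {e : ℝ} (he0 : 0 < e) (he1 : e ≤ 1) {p : ℝ} (hp2 : 2 < p) (hp4 : p < 4) :
    ∃ C : ℝ, 0 < C ∧ ∀ (F : ℝ → ℝ → ℂ) (V : ℝ → ℝ≥0∞),
    (Measurable fun q : ℝ × ℝ => F q.1 q.2) → Measurable V → (∃ R, ∀ θ r, R < r → F θ r = 0) →
    (∀ θ, eVariationOn (F θ) (Ici (1 / 2)) ≤ V θ) → ∀ t : ℝ,
    ∫⁻ x : ℝ × ℝ, ‖Ext (pf (fA F)) t x‖ₑ ^ p ≤
      ENNReal.ofReal (C * (1 + |t|) ^ (-((2 - e) * ((p - 2) / 2)))) * ∫⁻ θ, V θ ^ p ∂mu := by
  obtain ⟨C, hC, hA⟩ := annR he0 he1 hp2 hp4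
  have hp0 : 0 < p := by linarith
  refine ⟨C, hC, ?_⟩
  intro F V hF hVm hz hv t
  have h1t : 0 < 1 + |t| := by positivity
  by_cases htop : ∫⁻ θ, V θ ^ p ∂mu = ⊤
  · rw [htop, ENNReal.mul_top]
    · exact le_top
    · simp only [ne_eq, ENNReal.ofReal_eq_zero, not_le]
      positivity
  have hV1 : ∫⁻ θ, V θ ∂mu < ⊤ := by
    have h1 := Pool.Agent.H438R2.PD.A5.jensenp mu V hVm.aemeasurable p (by linarith)
    by_contra hc
    have h2 : ∫⁻ θ, V θ ∂mu = ⊤ := by simpa using hc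
    rw [h2, ENNReal.top_rpow_of_pos hp0] at h1
    have h3 : (mu univ) ^ (p - 1) * ∫⁻ θ, V θ ^ p ∂mu < ⊤ := by
      apply ENNReal.mul_lt_top _ (lt_top_iff_ne_top.2 htop)
      exact ENNReal.rpow_lt_top_of_nonneg (by linarith) (measure_ne_top _ _)
    exact absurd (lt_of_le_of_lt h1 h3) (by simp)
  have hae : ∀ᵐ θ ∂mu, V θ < ⊤ := ae_lt_top hVm hV1.ne
  set B : Set ℝ := {θ | V θ < ⊤} with hB
  have hBm : MeasurableSet B := measurableSet_lt hVm measurable_const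
  set F' : ℝ → ℝ → ℂ := fun θ r => B.indicator (fun θ => F θ r) θ with hF'
  have hF'1 : ∀ θ ∈ B, F' θ = F θ := by
    intro θ hθ
    ext r
    simp only [hF']
    rw [indicator_of_mem hθ]
  have hF'0 : ∀ θ, θ ∉ B → F' θ = fun _ => 0 := by
    intro θ hθ
    ext r
    simp only [hF']
    rw [indicator_of_notMem hθ]
  have hRay : Ray F' (fun θ => (V θ).toReal) := by
    refine ⟨?_, hVm.ennreal_toReal, fun θ => ENNReal.toReal_nonneg, ?_, ?_⟩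
    · have e1 : (fun q : ℝ × ℝ => F' q.1 q.2) = (Prod.fst ⁻¹' B).indicator
          (fun q : ℝ × ℝ => F q.1 q.2) := by
        ext q
        by_cases hq : q.1 ∈ B
        · rw [hF'1 _ hq, indicator_of_mem (show q ∈ Prod.fst ⁻¹' B from hq)]
        · rw [hF'0 _ hq, indicator_of_notMem (show q ∉ Prod.fst ⁻¹' B from hq)]
      rw [e1]
      exact hF.indicator (measurable_fst hBm)
    · obtain ⟨R, hR⟩ := hz
      refine ⟨R, fun θ r hr => ?_⟩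
      by_cases hθ : θ ∈ B
      · rw [hF'1 _ hθ]
        exact hR θ r hr
      · rw [hF'0 _ hθ]
    · intro θ
      by_cases hθ : θ ∈ B
      · rw [hF'1 _ hθ, ENNReal.ofReal_toReal (ne_of_lt hθ)]
        exact hv θ
      · rw [hF'0 _ hθ]
        have : eVariationOn (fun _ : ℝ => (0:ℂ)) (Ici (1 / 2)) = 0 := by
          apply eVariationOn.constant_on
          intro a ha b hb
          obtain ⟨_, _, rfl⟩ := ha
          obtain ⟨_, _, rfl⟩ := hb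
          rfl
        rw [this]
        exact zero_le
  have hVI : Integrable (fun θ => (V θ).toReal) mu :=
    integrable_toReal_of_lintegral_ne_top hVm.aemeasurable hV1.ne
  have hfin := hA F' _ hRay hVI t
  have e1 : ∫⁻ θ, ENNReal.ofReal (V θ).toReal ^ p ∂mu = ∫⁻ θ, V θ ^ p ∂mu := by
    apply lintegral_congr_ae
    filter_upwards [hae] with θ hθ
    rw [ENNReal.ofReal_toReal hθ.ne]
  rw [e1] at hfin
  have hm1 := fA_meas hF
  have hm2 := fA_meas hRay.meas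
  have hA1 := fA_A hz hv hV1
  have hA2 : ∫⁻ θ, (∫⁻ s in Ioi (0:ℝ), ‖fA F' θ s‖ₑ) ∂mu < ⊤ := by
    refine lt_of_le_of_lt (le_of_eq ?_) hA1
    apply lintegral_congr_ae
    filter_upwards [hae] with θ hθ
    unfold fA
    rw [hF'1 θ hθ]
  have e2 : ∀ x, Ext (pf (fA F)) t x = Ext (pf (fA F')) t x := by
    intro x
    rw [Ext_polar hm1 hA1, Ext_polar hm2 hA2]
    apply integral_congr_ae
    filter_upwards [hae] with θ hθ
    unfold pg fA
    simp only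
    rw [hF'1 θ hθ]
  simp only [e2]
  exact hfin

/-- the polar average of a majorant -/
lemma polar_avg {v : ℝ × ℝ → ℝ≥0∞} (hv : Measurable v) :
    ∫⁻ σ in Ioo (1 / 4 : ℝ) (1 / 2), ENNReal.ofReal σ *
      ∫⁻ θ, v (σ * Real.cos θ, σ * Real.sin θ) ∂mu ≤ ∫⁻ ξ, v ξ := by
  rw [← lintegral_comp_polarCoord_symm, targ]
  have hm : Measurable fun p : ℝ × ℝ => ENNReal.ofReal p.1 • v (polarCoord.symm p) := by
    have h1 : Measurable fun p : ℝ × ℝ => (p.1 * Real.cos p.2, p.1 * Real.sin p.2) := by fun_prop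
    exact (by fun_prop : Measurable fun p : ℝ × ℝ => ENNReal.ofReal p.1).smul (hv.comp h1)
  rw [lintegral_prod _ hm.aemeasurable]
  have h2 : Ioo (1 / 4 : ℝ) (1 / 2) ⊆ Ioi 0 := fun σ hσ => by
    have : (1 / 4 : ℝ) < σ := hσ.1
    exact show (0:ℝ) < σ by linarith
  refine le_trans (le_of_eq ?_) (lintegral_mono_set h2)
  apply lintegral_congr
  intro σ
  rw [← lintegral_const_mul' _ _ ENNReal.ofReal_ne_top]
  rfl

/-- squared length -/
def nsq (ξ : ℝ × ℝ) : ℝ := ξ.1 ^ 2 + ξ.2 ^ 2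

/-- the annulus -/
def Ap (ρ : ℝ) : Set (ℝ × ℝ) := {ξ | ρ ^ 2 / 4 < nsq ξ ∧ nsq ξ ≤ ρ ^ 2}

lemma nsq_meas : Measurable nsq := by
  unfold nsq
  fun_prop

lemma Ap_meas (ρ : ℝ) : MeasurableSet (Ap ρ) :=
  (measurableSet_lt measurable_const nsq_meas).inter (measurableSet_le nsq_meas measurable_const)

lemma nsq_smul (c : ℝ) (ξ : ℝ × ℝ) : nsq (c • ξ) = c ^ 2 * nsq ξ := by
  unfold nsq
  simp only [Prod.smul_fst, Prod.smul_snd, smul_eq_mul]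
  ring

/-- the ray functions of `f` at scale `ρ` -/
noncomputable def Fr (f : ℝ × ℝ → ℂ) (ρ θ r : ℝ) : ℂ :=
  f (ρ * r * Real.cos θ, ρ * r * Real.sin θ)

lemma Fr_pf (f : ℝ × ℝ → ℂ) {ρ : ℝ} (hρ : 0 < ρ) (η : ℝ × ℝ) :
    pf (fA (Fr f ρ)) η = (Ap ρ).indicator f (ρ • η) := by
  unfold pf fA ia ext2 Fr
  have h1 := polar_fst η
  have h2 := polar_snd η
  have hn : nsq (ρ • η) = ρ ^ 2 * (η.1 ^ 2 + η.2 ^ 2) := nsq_smul ρ η
  by_cases hin : η.1 ^ 2 + η.2 ^ 2 ∈ Ioc (1 / 4 : ℝ) 1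
  · have hA : ρ • η ∈ Ap ρ := by
      constructor
      · rw [hn]
        have := hin.1
        have h3 : 0 < ρ ^ 2 := by positivity
        nlinarith
      · rw [hn]
        have := hin.2
        have h3 : 0 < ρ ^ 2 := by positivity
        nlinarith
    rw [indicator_of_mem hin, indicator_of_mem hA, one_mul, max_eq_left hin.1.le, mul_assoc,
      mul_assoc, h1, h2]
    rfl
  · have hA : ρ • η ∉ Ap ρ := by
      rintro ⟨a1, a2⟩
      rw [hn] at a1 a2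
      have h3 : 0 < ρ ^ 2 := by positivity
      apply hin
      constructor
      · by_contra hc
        have : η.1 ^ 2 + η.2 ^ 2 ≤ 1 / 4 := not_lt.1 hc
        nlinarith
      · by_contra hc
        have : 1 < η.1 ^ 2 + η.2 ^ 2 := not_le.1 hc
        nlinarith
    rw [indicator_of_notMem hin, indicator_of_notMem hA, zero_mul]

lemma int_scale2 {ρ : ℝ} (hρ : 0 < ρ) (G : ℝ × ℝ → ℂ) :
    ∫ ξ : ℝ × ℝ, G ξ = (ρ ^ 2 : ℝ) * ∫ η : ℝ × ℝ, G (ρ • η) := by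
  have h := Measure.integral_comp_smul (μ := (volume : Measure (ℝ × ℝ))) G ρ
  have hd : Module.finrank ℝ (ℝ × ℝ) = 2 := by simp
  rw [hd, abs_of_pos (by positivity)] at h
  rw [h, Complex.real_smul, ← mul_assoc, ← Complex.ofReal_mul, mul_inv_cancel₀ (by positivity),
    Complex.ofReal_one, one_mul]

lemma lint_scale2 {ρ : ℝ} (hρ : 0 < ρ) {G : ℝ × ℝ → ℝ≥0∞} (hG : Measurable G) :
    ∫⁻ η : ℝ × ℝ, G (ρ • η) = ENNReal.ofReal (ρ ^ 2)⁻¹ * ∫⁻ ξ, G ξ := by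
  have h1 := lintegral_map (μ := (volume : Measure (ℝ × ℝ))) hG (measurable_const_smul ρ)
  have hd : Module.finrank ℝ (ℝ × ℝ) = 2 := by simp
  rw [Measure.map_addHaar_smul volume hρ.ne', lintegral_smul_measure, smul_eq_mul, hd,
    abs_of_pos (by positivity)] at h1
  exact h1.symm

lemma lint_scale1 {ρ : ℝ} (hρ : 0 < ρ) {G : ℝ → ℝ≥0∞} (hG : Measurable G) :
    ∫⁻ t : ℝ, G (ρ * t) = ENNReal.ofReal ρ⁻¹ * ∫⁻ t, G t := by
  have h := lint_scale (inv_pos.2 hρ) hG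
  rw [inv_inv] at h
  exact h

lemma Ext_scale (f : ℝ × ℝ → ℂ) {ρ : ℝ} (hρ : 0 < ρ) (t : ℝ) (x : ℝ × ℝ) :
    Ext ((Ap ρ).indicator f) t x = (ρ ^ 2 : ℝ) * Ext (pf (fA (Fr f ρ))) (ρ ^ 2 * t) (ρ • x) := by
  unfold Ext
  rw [int_scale2 hρ]
  congr 2
  ext η
  rw [Fr_pf f hρ]
  congr 2
  simp only [Prod.smul_fst, Prod.smul_snd, smul_eq_mul]
  ring

lemma Fr_var {f : ℝ × ℝ → ℂ} {v : ℝ × ℝ → ℝ≥0∞}
    (hv : ∀ ξ, eVariationOn (fun s : ℝ => f (s • ξ)) (Ici 1) ≤ v ξ) (ρ : ℝ) {σ : ℝ}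
    (hσ : 0 < σ) (hσ2 : σ ≤ 1 / 2) (θ : ℝ) :
    eVariationOn (Fr f ρ θ) (Ici (1 / 2)) ≤ v (ρ • (σ * Real.cos θ, σ * Real.sin θ)) := by
  refine le_trans ?_ (hv _)
  have hm : MonotoneOn (fun r : ℝ => r / σ) (Ici (1 / 2)) := by
    intro r _ r' _ hr
    exact div_le_div_of_nonneg_right hr hσ.le
  have hmaps : MapsTo (fun r : ℝ => r / σ) (Ici (1 / 2)) (Ici 1) := by
    intro r hr
    have h1 : (1 / 2 : ℝ) ≤ r := hr
    change 1 ≤ r / σ
    rw [le_div_iff₀ hσ]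
    linarith
  have h := eVariationOn.comp_le_of_monotoneOn
    (fun s : ℝ => f (s • (ρ • (σ * Real.cos θ, σ * Real.sin θ)))) (fun r : ℝ => r / σ) hm hmaps
  refine le_trans (le_of_eq ?_) h
  congr 1
  ext r
  unfold Fr
  simp only [Function.comp, Prod.smul_mk, smul_eq_mul]
  congr 2
  · field_simp
  · field_simp

/-- the estimate for an annulus of any size -/
theorem annS {e : ℝ} (he0 : 0 < e) (he1 : e ≤ 1) {p : ℝ} (hp2 : 2 < p) (hp4 : p < 4) :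
    ∃ C : ℝ, 0 < C ∧ ∀ (f : ℝ × ℝ → ℂ) (v : ℝ × ℝ → ℝ≥0∞) (R : ℝ), Measurable f → Measurable v →
    (∀ ξ, R ^ 2 < nsq ξ → f ξ = 0) →
    (∀ ξ, eVariationOn (fun s : ℝ => f (s • ξ)) (Ici 1) ≤ v ξ) → ∀ ρ : ℝ, 0 < ρ → ∀ t : ℝ,
    ∫⁻ x : ℝ × ℝ, ‖Ext ((Ap ρ).indicator f) t x‖ₑ ^ p ≤
      ENNReal.ofReal (C * ρ ^ (2 * p - 4) *
        (1 + |ρ ^ 2 * t|) ^ (-((2 - e) * ((p - 2) / 2)))) * ∫⁻ ξ, v ξ ^ p := by
  obtain ⟨C, hC, hA⟩ := annE he0 he1 hp2 hp4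
  have hp0 : 0 < p := by linarith
  refine ⟨32 / 3 * C, by positivity, ?_⟩
  intro f v R hf hvm hR hv ρ hρ t
  set w : ℝ := (1 + |ρ ^ 2 * t|) ^ (-((2 - e) * ((p - 2) / 2))) with hw
  have hw0 : 0 < w := by positivity
  have hFm : Measurable fun q : ℝ × ℝ => Fr f ρ q.1 q.2 := by
    unfold Fr
    exact hf.comp (by fun_prop)
  have hFz : ∃ R', ∀ θ r, R' < r → Fr f ρ θ r = 0 := by
    refine ⟨|R| / ρ, fun θ r hr => hR _ ?_⟩
    have h1 : |R| < ρ * r := by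
      rw [div_lt_iff₀ hρ] at hr
      linarith
    have h2 : nsq (ρ * r * Real.cos θ, ρ * r * Real.sin θ) = (ρ * r) ^ 2 := by
      unfold nsq
      have := Real.sin_sq_add_cos_sq θ
      simp only
      linear_combination (ρ * r) ^ 2 * this
    rw [h2, ← sq_abs R]
    exact pow_lt_pow_left₀ h1 (abs_nonneg _) two_ne_zero
  set X := ∫⁻ x : ℝ × ℝ, ‖Ext (pf (fA (Fr f ρ))) (ρ ^ 2 * t) x‖ₑ ^ p with hX
  have hvp : Measurable fun ξ => v (ρ • ξ) ^ p :=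
    (hvm.comp (measurable_const_smul ρ)).pow_const p
  have h1 : ∀ σ ∈ Ioo (1 / 4 : ℝ) (1 / 2), X ≤ ENNReal.ofReal (C * w) *
      ∫⁻ θ, v (ρ • (σ * Real.cos θ, σ * Real.sin θ)) ^ p ∂mu := by
    intro σ hσ
    have hσ1 : (1 / 4 : ℝ) < σ := hσ.1
    have hσ2 : σ < 1 / 2 := hσ.2
    refine hA (Fr f ρ) (fun θ => v (ρ • (σ * Real.cos θ, σ * Real.sin θ))) hFm
      (hvm.comp ?_) hFz (fun θ => Fr_var hv ρ (by linarith) (by linarith) θ) (ρ ^ 2 * t)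
    apply Continuous.measurable
    fun_prop
  have h2 : ENNReal.ofReal (3 / 32) * X ≤ ENNReal.ofReal (C * w) * ∫⁻ ξ, v (ρ • ξ) ^ p := by
    have e1 : ENNReal.ofReal (3 / 32) = ∫⁻ σ in Ioo (1 / 4 : ℝ) (1 / 2), ENNReal.ofReal σ := by
      rw [← ofReal_integral_eq_lintegral_ofReal]
      · congr 1
        rw [← integral_Ioc_eq_integral_Ioo, ← intervalIntegral.integral_of_le (by norm_num),
          integral_id]
        norm_num
      · exact (continuous_id.integrableOn_Icc).mono_set Ioo_subset_Icc_self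
      · refine (ae_restrict_iff' measurableSet_Ioo).2 (ae_of_all _ fun σ hσ => ?_)
        have : (1 / 4 : ℝ) < σ := hσ.1
        change (0:ℝ) ≤ σ
        linarith
    rw [e1, ← lintegral_mul_const _ (by fun_prop)]
    calc ∫⁻ σ in Ioo (1 / 4 : ℝ) (1 / 2), ENNReal.ofReal σ * X
        ≤ ∫⁻ σ in Ioo (1 / 4 : ℝ) (1 / 2), ENNReal.ofReal (C * w) * (ENNReal.ofReal σ *
          ∫⁻ θ, v (ρ • (σ * Real.cos θ, σ * Real.sin θ)) ^ p ∂mu) := by
          apply setLIntegral_mono' measurableSet_Ioo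
          intro σ hσ
          rw [mul_left_comm]
          exact mul_le_mul' le_rfl (h1 σ hσ)
      _ = ENNReal.ofReal (C * w) * ∫⁻ σ in Ioo (1 / 4 : ℝ) (1 / 2), (ENNReal.ofReal σ *
          ∫⁻ θ, v (ρ • (σ * Real.cos θ, σ * Real.sin θ)) ^ p ∂mu) :=
          lintegral_const_mul' _ _ ENNReal.ofReal_ne_top
      _ ≤ _ := mul_le_mul' le_rfl (polar_avg hvp)
  have h3 : X ≤ ENNReal.ofReal (32 / 3 * C * w * (ρ ^ 2)⁻¹) * ∫⁻ ξ, v ξ ^ p := by
    have e1 := lint_scale2 hρ (hvm.pow_const p)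
    rw [e1] at h2
    calc X = ENNReal.ofReal (32 / 3) * (ENNReal.ofReal (3 / 32) * X) := by
          rw [← mul_assoc, ← ENNReal.ofReal_mul (by norm_num)]
          norm_num
      _ ≤ ENNReal.ofReal (32 / 3) * (ENNReal.ofReal (C * w) *
          (ENNReal.ofReal (ρ ^ 2)⁻¹ * ∫⁻ ξ, v ξ ^ p)) := mul_le_mul' le_rfl h2
      _ = _ := by
          rw [← mul_assoc, ← mul_assoc, ← ENNReal.ofReal_mul (by norm_num),
            ← ENNReal.ofReal_mul (by positivity)]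
          congr 2
          ring
  have hEm : Measurable fun x => ‖Ext (pf (fA (Fr f ρ))) (ρ ^ 2 * t) x‖ₑ ^ p :=
    (Ext_meas (pf_meas (fA_meas hFm)) _).enorm.pow_const p
  calc ∫⁻ x : ℝ × ℝ, ‖Ext ((Ap ρ).indicator f) t x‖ₑ ^ p
      = ∫⁻ x : ℝ × ℝ, ENNReal.ofReal (ρ ^ 2) ^ p *
        (fun x => ‖Ext (pf (fA (Fr f ρ))) (ρ ^ 2 * t) x‖ₑ ^ p) (ρ • x) := by
        congr 1
        ext x
        rw [Ext_scale f hρ, enorm_mul, ENNReal.mul_rpow_of_nonneg _ _ hp0.le,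
          ← ofReal_norm (((ρ ^ 2 : ℝ)) : ℂ), Complex.norm_real, Real.norm_eq_abs,
          abs_of_pos (by positivity)]
    _ = ENNReal.ofReal (ρ ^ 2) ^ p * (ENNReal.ofReal (ρ ^ 2)⁻¹ * X) := by
        rw [lintegral_const_mul' _ _ (ENNReal.rpow_ne_top_of_nonneg hp0.le ENNReal.ofReal_ne_top),
          lint_scale2 hρ hEm]
    _ ≤ ENNReal.ofReal (ρ ^ 2) ^ p * (ENNReal.ofReal (ρ ^ 2)⁻¹ *
        (ENNReal.ofReal (32 / 3 * C * w * (ρ ^ 2)⁻¹) * ∫⁻ ξ, v ξ ^ p)) :=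
        mul_le_mul' le_rfl (mul_le_mul' le_rfl h3)
    _ = _ := by
        rw [ENNReal.ofReal_rpow_of_pos (by positivity), ← mul_assoc, ← mul_assoc,
          ← ENNReal.ofReal_mul (by positivity), ← ENNReal.ofReal_mul (by positivity)]
        congr 2
        have e4 : ρ ^ (2 * p - 4) = (ρ ^ 2) ^ p * (ρ ^ 2)⁻¹ * (ρ ^ 2)⁻¹ := by
          rw [Real.rpow_sub hρ, Real.rpow_mul hρ.le]
          have e5 : ρ ^ (4:ℝ) = ρ ^ 2 * ρ ^ 2 := by
            rw [show (4:ℝ) = ((4:ℕ):ℝ) by norm_num, Real.rpow_natCast]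
            ring
          have e6 : ρ ^ (2:ℝ) = ρ ^ 2 := by
            rw [show (2:ℝ) = ((2:ℕ):ℝ) by norm_num, Real.rpow_natCast]
          rw [e5, e6, div_eq_mul_inv, mul_inv, mul_assoc]
        rw [e4]
        ring

end Pool.Agent.R245.PB
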