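import Mathlib
import Pool.Agent.R245.PB.Dya
set_option autoImplicit false

/-! Summation over the annuli and integration in time. -/

namespace Pool.Agent.R245.PB

open MeasureTheory Set Complex Filter Real
open scoped ENNReal Topology ComplexConjugate

/-- the extension operator in space and time -/
noncomputable def E3 (f : ℝ × ℝ → ℂ) (z : ℝ × (ℝ × ℝ)) : ℂ := Ext f z.1 z.2

lemma E3_meas {f : ℝ × ℝ → ℂ} (hf : Measurable f) : Measurable (E3 f) := by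
  unfold E3 Ext
  have h1 : Measurable fun q : (ℝ × (ℝ × ℝ)) × (ℝ × ℝ) =>
      f q.2 * ec (q.2.1 * q.1.2.1 + q.2.2 * q.1.2.2 + (q.2.1 ^ 2 + q.2.2 ^ 2) * q.1.1) := by
    refine (hf.comp measurable_snd).mul (ec_meas.comp ?_)
    apply Continuous.measurable
    fun_prop
  exact (h1.stronglyMeasurable.integral_prod_right' (ν := (volume : Measure (ℝ × ℝ)))).measurable

lemma E3_lint {f : ℝ × ℝ → ℂ} (hf : Measurable f) (p : ℝ) :
    ∫⁻ z, ‖E3 f z‖ₑ ^ p = ∫⁻ t, ∫⁻ x, ‖Ext f t x‖ₑ ^ p :=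
  lintegral_prod (fun z : ℝ × (ℝ × ℝ) => ‖E3 f z‖ₑ ^ p)
    ((E3_meas hf).enorm.pow_const p).aemeasurable

lemma time_fin {b : ℝ} (hb : 1 < b) : ∫⁻ t : ℝ, ENNReal.ofReal ((1 + |t|) ^ (-b)) < ⊤ := by
  have h := finite_integral_one_add_norm (E := ℝ) (μ := volume) (r := b) (by simpa using hb)
  exact h

/-- one annulus in space and time -/
theorem annT {p : ℝ} (hp3 : 3 < p) (hp4 : p < 4) :
    ∃ C : ℝ, 0 < C ∧ ∀ (f : ℝ × ℝ → ℂ) (v : ℝ × ℝ → ℝ≥0∞) (R : ℝ), Measurable f → Measurable v →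
    (∀ ξ, R ^ 2 < nsq ξ → f ξ = 0) →
    (∀ ξ, eVariationOn (fun s : ℝ => f (s • ξ)) (Ici 1) ≤ v ξ) → ∀ ρ : ℝ, 0 < ρ →
    ∫⁻ z, ‖E3 ((Ap ρ).indicator f) z‖ₑ ^ p ≤
      ENNReal.ofReal (C * ρ ^ (2 * p - 6)) * ∫⁻ ξ, v ξ ^ p := by
  have hp2 : 0 < p - 2 := by linarith
  set e : ℝ := (p - 3) / (p - 2) with he
  have he0 : 0 < e := div_pos (by linarith) hp2
  have he1 : e ≤ 1 := by
    rw [he, div_le_one hp2]
    linarith
  obtain ⟨C, hC, hA⟩ := annS he0 he1 (show 2 < p by linarith) hp4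
  have hbe : (2 - e) * ((p - 2) / 2) = (p - 1) / 2 := by
    rw [he]
    field_simp
    ring
  have hb : 1 < (p - 1) / 2 := by linarith
  have hT := time_fin hb
  set T := ∫⁻ t : ℝ, ENNReal.ofReal ((1 + |t|) ^ (-((p - 1) / 2))) with hTd
  have hTm : Measurable fun t : ℝ => ENNReal.ofReal ((1 + |t|) ^ (-((p - 1) / 2))) :=
    (Measurable.pow_const (by fun_prop) _).ennreal_ofReal
  obtain ⟨τ, hT0, hT2⟩ : ∃ τ : ℝ, 0 ≤ τ ∧ T = ENNReal.ofReal τ :=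
    ⟨T.toReal, ENNReal.toReal_nonneg, (ENNReal.ofReal_toReal hT.ne).symm⟩
  refine ⟨C * (τ + 1), by positivity, ?_⟩
  intro f v R hf hvm hR hv ρ hρ
  rw [E3_lint (hf.indicator (Ap_meas ρ))]
  have h1 : ∀ t, ∫⁻ x : ℝ × ℝ, ‖Ext ((Ap ρ).indicator f) t x‖ₑ ^ p ≤
      (ENNReal.ofReal (C * ρ ^ (2 * p - 4)) * ∫⁻ ξ, v ξ ^ p) *
        (fun t : ℝ => ENNReal.ofReal ((1 + |t|) ^ (-((p - 1) / 2)))) (ρ ^ 2 * t) := by
    intro t
    refine (hA f v R hf hvm hR hv ρ hρ t).trans (le_of_eq ?_)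
    rw [hbe, ENNReal.ofReal_mul (by positivity), mul_right_comm]
  refine (lintegral_mono h1).trans ?_
  have hTc : Measurable fun t : ℝ =>
      (fun t : ℝ => ENNReal.ofReal ((1 + |t|) ^ (-((p - 1) / 2)))) (ρ ^ 2 * t) :=
    hTm.comp (by fun_prop)
  rw [lintegral_const_mul _ hTc, lint_scale1 (by positivity) hTm, ← hTd, mul_assoc,
    mul_comm (∫⁻ ξ, v ξ ^ p), ← mul_assoc]
  refine mul_le_mul' ?_ le_rfl
  rw [hT2, ← ENNReal.ofReal_mul (by positivity), ← ENNReal.ofReal_mul (by positivity)]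
  apply ENNReal.ofReal_le_ofReal
  have e4 : ρ ^ (2 * p - 6) = ρ ^ (2 * p - 4) * (ρ ^ 2)⁻¹ := by
    rw [show 2 * p - 6 = (2 * p - 4) - 2 by ring, Real.rpow_sub hρ]
    have e6 : ρ ^ (2:ℝ) = ρ ^ 2 := by
      rw [show (2:ℝ) = ((2:ℕ):ℝ) by norm_num, Real.rpow_natCast]
    rw [e6, div_eq_mul_inv]
  rw [e4]
  have h5 : 0 < ρ ^ (2 * p - 4) * (ρ ^ 2)⁻¹ := by positivity
  calc C * ρ ^ (2 * p - 4) * ((ρ ^ 2)⁻¹ * τ) =
        (C * (ρ ^ (2 * p - 4) * (ρ ^ 2)⁻¹)) * τ := by ring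
    _ ≤ (C * (ρ ^ (2 * p - 4) * (ρ ^ 2)⁻¹)) * (τ + 1) :=
        mul_le_mul_of_nonneg_left (by linarith) (by positivity)
    _ = _ := by ring

/-- the radii -/
noncomputable def rk (R : ℝ) (k : ℕ) : ℝ := R * (1 / 2) ^ k

lemma rk_pos {R : ℝ} (hR : 0 < R) (k : ℕ) : 0 < rk R k := by unfold rk; positivity

lemma rk_sq (R : ℝ) (k : ℕ) : rk R k ^ 2 = R ^ 2 * (1 / 4) ^ k := by
  unfold rk
  rw [mul_pow, ← pow_mul, mul_comm k 2, pow_mul]
  norm_num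

lemma Ap_disj {R : ℝ} (hR : 0 < R) : Pairwise (Function.onFun Disjoint fun k : ℕ => Ap (rk R k)) := by
  have key : ∀ j k : ℕ, j < k → Disjoint (Ap (rk R j)) (Ap (rk R k)) := by
    intro j k hjk
    rw [Set.disjoint_left]
    rintro ξ ⟨a1, -⟩ ⟨-, a2⟩
    rw [rk_sq] at a1 a2
    have h1 : (1 / 4 : ℝ) ^ k ≤ (1 / 4) ^ (j + 1) :=
      pow_le_pow_of_le_one (by norm_num) (by norm_num) hjk
    have h2 : (1 / 4 : ℝ) ^ (j + 1) = (1 / 4) ^ j * (1 / 4) := pow_succ _ _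
    have h3 : 0 < R ^ 2 := by positivity
    nlinarith
  intro j k hjk
  rcases lt_or_gt_of_ne hjk with h | h
  · exact key j k h
  · exact (key k j h).symm

lemma Ap_union {R : ℝ} (hR : 0 < R) {ξ : ℝ × ℝ} (h0 : 0 < nsq ξ) (h1 : nsq ξ ≤ R ^ 2) :
    ξ ∈ ⋃ k : ℕ, Ap (rk R k) := by
  have hR2 : 0 < R ^ 2 := by positivity
  obtain ⟨n, hn1, hn2⟩ := exists_nat_pow_near_of_lt_one (x := nsq ξ / R ^ 2) (y := 1 / 4)
    (div_pos h0 hR2) ((div_le_one hR2).2 h1) (by norm_num) (by norm_num)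
  rw [mem_iUnion]
  refine ⟨n, ?_, ?_⟩
  · rw [rk_sq]
    rw [lt_div_iff₀ hR2, pow_succ] at hn1
    linarith
  · rw [rk_sq]
    rw [div_le_iff₀ hR2] at hn2
    linarith

lemma f_le_v {f : ℝ × ℝ → ℂ} {v : ℝ × ℝ → ℝ≥0∞} {R : ℝ} (hR : ∀ ξ, R ^ 2 < nsq ξ → f ξ = 0)
    (hv : ∀ ξ, eVariationOn (fun s : ℝ => f (s • ξ)) (Ici 1) ≤ v ξ) {ξ : ℝ × ℝ}
    (h0 : 0 < nsq ξ) : ‖f ξ‖ₑ ≤ v ξ := by
  set s : ℝ := max 1 ((R ^ 2 + 1) / nsq ξ) with hs
  have hs1 : 1 ≤ s := le_max_left _ _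
  have h1 := eVariationOn.edist_le (fun s : ℝ => f (s • ξ)) (s := Ici 1) (x := 1) (y := s)
    (mem_Ici.2 le_rfl) (mem_Ici.2 hs1)
  have h2 : f (s • ξ) = 0 := by
    apply hR
    rw [nsq_smul]
    have h3 : (R ^ 2 + 1) / nsq ξ ≤ s := le_max_right _ _
    rw [div_le_iff₀ h0] at h3
    have h4 : s ≤ s ^ 2 := by nlinarith
    nlinarith
  simp only [one_smul, h2, edist_zero_right] at h1
  exact h1.trans (hv ξ)

lemma nsq_null : ∀ᵐ ξ : ℝ × ℝ, 0 < nsq ξ := by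
  have h : ∀ᵐ ξ : ℝ × ℝ, ξ ≠ 0 := by
    simp [ae_iff]
  filter_upwards [h] with ξ hξ
  unfold nsq
  have h2 : ¬ (ξ.1 = 0 ∧ ξ.2 = 0) := fun hc => hξ (Prod.ext hc.1 hc.2)
  by_cases h1 : ξ.1 = 0
  · have h3 : ξ.2 ≠ 0 := fun h4 => h2 ⟨h1, h4⟩
    positivity
  · positivity

/-- the main estimate for functions of bounded variation along the rays from the origin -/
theorem main0 {p : ℝ} (hp3 : 3 < p) (hp4 : p < 4) :
    ∃ C : ℝ, 0 < C ∧ ∀ (f : ℝ × ℝ → ℂ) (v : ℝ × ℝ → ℝ≥0∞) (R : ℝ), 0 < R → Measurable f →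
    Measurable v → (∀ ξ, R ^ 2 < nsq ξ → f ξ = 0) →
    (∀ ξ, eVariationOn (fun s : ℝ => f (s • ξ)) (Ici 1) ≤ v ξ) →
    ∫⁻ z, ‖E3 f z‖ₑ ^ p ≤ ENNReal.ofReal (C * R ^ (2 * p - 6)) * ∫⁻ ξ, v ξ ^ p := by
  obtain ⟨C, hC, hA⟩ := annT hp3 hp4
  have hp0 : 0 < p := by linarith
  set γ : ℝ := (2 * p - 6) / p with hγ
  have hγ0 : 0 < γ := div_pos (by linarith) hp0
  set q : ℝ := (1 / 2 : ℝ) ^ γ with hq
  have hq0 : 0 < q := by positivity
  have hq1 : q < 1 := Real.rpow_lt_one (by norm_num) (by norm_num) hγ0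
  have h1q : 0 < 1 - q := by linarith
  refine ⟨C * ((1 - q)⁻¹) ^ p, by positivity, ?_⟩
  intro f v R hR0 hf hvm hR hv
  set Z := ∫⁻ ξ, v ξ ^ p with hZ
  by_cases htop : Z = ⊤
  · rw [htop, ENNReal.mul_top]
    · exact le_top
    · simp only [ne_eq, ENNReal.ofReal_eq_zero, not_le]
      positivity
  -- integrability of `f`
  set B : Set (ℝ × ℝ) := {ξ | nsq ξ ≤ R ^ 2} with hB
  have hBm : MeasurableSet B := measurableSet_le nsq_meas measurable_const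
  have hBfin : volume B < ⊤ := by
    have hsub : B ⊆ Icc (-R) R ×ˢ Icc (-R) R := by
      intro ξ hξ
      have h1 : ξ.1 ^ 2 + ξ.2 ^ 2 ≤ R ^ 2 := hξ
      refine ⟨abs_le.1 (abs_le_of_sq_le_sq (by nlinarith [sq_nonneg ξ.2]) hR0.le),
        abs_le.1 (abs_le_of_sq_le_sq (by nlinarith [sq_nonneg ξ.1]) hR0.le)⟩
    refine lt_of_le_of_lt (measure_mono hsub) ?_
    rw [Measure.volume_eq_prod, Measure.prod_prod, Real.volume_Icc]
    exact ENNReal.mul_lt_top ENNReal.ofReal_lt_top ENNReal.ofReal_lt_top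
  have hfI : Integrable f := by
    refine ⟨hf.aestronglyMeasurable, ?_⟩
    have e1 : ∫⁻ ξ, ‖f ξ‖ₑ = ∫⁻ ξ in B, ‖f ξ‖ₑ := by
      rw [← lintegral_indicator hBm]
      congr 1
      ext ξ
      by_cases hξ : ξ ∈ B
      · rw [indicator_of_mem hξ]
      · rw [indicator_of_notMem hξ, hR ξ (not_le.1 hξ), enorm_zero]
    have j1 := Pool.Agent.H438R2.PD.A5.jensenp (volume.restrict B) (fun ξ => ‖f ξ‖ₑ)
      hf.enorm.aemeasurable p (by linarith)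
    have j2 : ∫⁻ ξ in B, ‖f ξ‖ₑ ^ p ≤ Z := by
      refine (setLIntegral_le_lintegral _ _).trans ?_
      apply lintegral_mono_ae
      filter_upwards [nsq_null] with ξ hξ
      exact ENNReal.rpow_le_rpow (f_le_v hR hv hξ) hp0.le
    change ∫⁻ ξ, ‖f ξ‖ₑ < ⊤
    rw [e1]
    by_contra hc
    have h2 : ∫⁻ ξ in B, ‖f ξ‖ₑ = ⊤ := by simpa using hc
    rw [h2, ENNReal.top_rpow_of_pos hp0, Measure.restrict_apply_univ] at j1
    have h3 : (volume B) ^ (p - 1) * ∫⁻ ξ in B, ‖f ξ‖ₑ ^ p < ⊤ := by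
      apply ENNReal.mul_lt_top
      · exact ENNReal.rpow_lt_top_of_nonneg (by linarith) hBfin.ne
      · exact lt_of_le_of_lt j2 (lt_top_iff_ne_top.2 htop)
    exact absurd (lt_of_le_of_lt j1 h3) (by simp)
  -- the series
  have hser : ∀ z, ‖E3 f z‖ₑ ≤ ∑' k : ℕ, ‖E3 ((Ap (rk R k)).indicator f) z‖ₑ := by
    intro z
    set g : ℝ × ℝ → ℂ := fun ξ => f ξ * ec (ξ.1 * z.2.1 + ξ.2 * z.2.2 + (ξ.1 ^ 2 + ξ.2 ^ 2) * z.1)
      with hg
    have hgI : Integrable g := hfI.mul_bdd (c := 1) (ec_meas.comp (by fun_prop)).aestronglyMeasurable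
      (ae_of_all _ fun s => (ec_norm _).le)
    have hS := hasSum_integral_iUnion (f := g) (fun k : ℕ => Ap_meas (rk R k)) (Ap_disj hR0)
      hgI.integrableOn
    have e1 : ∀ k : ℕ, ∫ ξ in Ap (rk R k), g ξ = E3 ((Ap (rk R k)).indicator f) z := by
      intro k
      rw [← integral_indicator (Ap_meas _)]
      unfold E3 Ext
      congr 1
      ext ξ
      by_cases hξ : ξ ∈ Ap (rk R k)
      · rw [indicator_of_mem hξ, indicator_of_mem hξ]
      · rw [indicator_of_notMem hξ, indicator_of_notMem hξ, zero_mul]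
    have e2 : ∫ ξ in ⋃ k : ℕ, Ap (rk R k), g ξ = E3 f z := by
      have h1 : E3 f z = ∫ ξ, g ξ := rfl
      rw [h1, ← integral_indicator (MeasurableSet.iUnion fun k => Ap_meas _)]
      apply integral_congr_ae
      filter_upwards [nsq_null] with ξ hξ
      by_cases hm : ξ ∈ ⋃ k : ℕ, Ap (rk R k)
      · rw [indicator_of_mem hm]
      · rw [indicator_of_notMem hm]
        have : R ^ 2 < nsq ξ := by
          by_contra hc
          exact hm (Ap_union hR0 hξ (not_lt.1 hc))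
        rw [hg]
        simp only
        rw [hR ξ this, zero_mul]
    rw [e2] at hS
    simp only [e1] at hS
    have hlim := hS.tendsto_sum_nat.enorm
    refine le_of_tendsto' hlim fun n => ?_
    exact (enorm_sum_le _ _).trans (ENNReal.sum_le_tsum _)
  have hk : ∀ k : ℕ, (∫⁻ z, ‖E3 ((Ap (rk R k)).indicator f) z‖ₑ ^ p) ^ (1 / p) ≤
      (ENNReal.ofReal (C * R ^ (2 * p - 6)) * Z) ^ (1 / p) * ENNReal.ofReal (q ^ k) := by
    intro k
    have h1 := hA f v R hf hvm hR hv (rk R k) (rk_pos hR0 k)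
    refine (ENNReal.rpow_le_rpow h1 (by positivity)).trans (le_of_eq ?_)
    have e1 : C * rk R k ^ (2 * p - 6) = (C * R ^ (2 * p - 6)) * (q ^ k) ^ p := by
      have e2 : (q ^ k) ^ p = ((1 / 2 : ℝ) ^ k) ^ (2 * p - 6) := by
        rw [hq, ← Real.rpow_natCast, ← Real.rpow_mul (by positivity),
          ← Real.rpow_mul (by positivity), ← Real.rpow_natCast, ← Real.rpow_mul (by positivity)]
        congr 1
        rw [hγ]
        field_simp
      rw [e2]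
      unfold rk
      rw [Real.mul_rpow hR0.le (by positivity)]
      ring
    rw [e1, ENNReal.ofReal_mul (by positivity), mul_right_comm,
      ENNReal.mul_rpow_of_nonneg _ _ (by positivity)]
    congr 1
    rw [← ENNReal.ofReal_rpow_of_nonneg (by positivity) hp0.le, ← ENNReal.rpow_mul,
      mul_one_div_cancel hp0.ne', ENNReal.rpow_one]
  have hsum : ∑' k : ℕ, ENNReal.ofReal (q ^ k) = ENNReal.ofReal ((1 - q)⁻¹) := by
    rw [← ENNReal.ofReal_tsum_of_nonneg (fun k => by positivity)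
      (summable_geometric_of_lt_one hq0.le hq1), tsum_geometric_of_lt_one hq0.le hq1]
  calc ∫⁻ z, ‖E3 f z‖ₑ ^ p
      ≤ ∫⁻ z, (∑' k : ℕ, ‖E3 ((Ap (rk R k)).indicator f) z‖ₑ) ^ p := by
        apply lintegral_mono
        intro z
        exact ENNReal.rpow_le_rpow (hser z) hp0.le
    _ ≤ (∑' k : ℕ, (∫⁻ z, ‖E3 ((Ap (rk R k)).indicator f) z‖ₑ ^ p) ^ (1 / p)) ^ p :=
        Pool.Agent.TH335.RF.mink volume p (by linarith) _
          fun k => (E3_meas (hf.indicator (Ap_meas _))).enorm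
    _ ≤ (∑' k : ℕ, (ENNReal.ofReal (C * R ^ (2 * p - 6)) * Z) ^ (1 / p) *
        ENNReal.ofReal (q ^ k)) ^ p :=
        ENNReal.rpow_le_rpow (ENNReal.tsum_le_tsum hk) hp0.le
    _ = _ := by
        rw [ENNReal.tsum_mul_left, hsum, ENNReal.mul_rpow_of_nonneg _ _ hp0.le, ← ENNReal.rpow_mul,
          one_div_mul_cancel hp0.ne', ENNReal.rpow_one,
          ENNReal.ofReal_rpow_of_nonneg (by positivity) hp0.le, mul_right_comm,
          ← ENNReal.ofReal_mul (by positivity)]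
        congr 2
        ring

end Pool.Agent.R245.PB
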