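import Mathlib
import Pool.Agent.R245.PB.Sm
set_option autoImplicit false

/-! Any centre; the conventions of the problem. -/

namespace Pool.Agent.R245.PB

open MeasureTheory Set Complex Filter Real
open scoped ENNReal Topology ComplexConjugate RealInnerProductSpace

lemma Ext_gal (f : ℝ × ℝ → ℂ) (a : ℝ × ℝ) (t : ℝ) (x : ℝ × ℝ) :
    Ext f t x = ec (a.1 * x.1 + a.2 * x.2 + (a.1 ^ 2 + a.2 ^ 2) * t) *
      Ext (fun η => f (a + η)) t (x + (2 * t) • a) := by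
  unfold Ext
  rw [← integral_const_mul, ← integral_add_left_eq_self _ a]
  congr 1
  ext η
  have e : ec ((a + η).1 * x.1 + (a + η).2 * x.2 + ((a + η).1 ^ 2 + (a + η).2 ^ 2) * t) =
      ec (a.1 * x.1 + a.2 * x.2 + (a.1 ^ 2 + a.2 ^ 2) * t) *
        ec (η.1 * (x + (2 * t) • a).1 + η.2 * (x + (2 * t) • a).2 + (η.1 ^ 2 + η.2 ^ 2) * t) := by
    rw [← ec_add]
    congr 1
    simp only [Prod.fst_add, Prod.snd_add, Prod.smul_fst, Prod.smul_snd, smul_eq_mul]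
    ring
  rw [e]
  ring

lemma E3_gal {f : ℝ × ℝ → ℂ} (hf : Measurable f) (a : ℝ × ℝ) (p : ℝ) :
    ∫⁻ z, ‖E3 f z‖ₑ ^ p = ∫⁻ z, ‖E3 (fun η => f (a + η)) z‖ₑ ^ p := by
  have hf2 : Measurable fun η => f (a + η) := hf.comp (measurable_const_add a)
  rw [E3_lint hf, E3_lint hf2]
  congr 1
  ext t
  have e1 : ∀ x, ‖Ext f t x‖ₑ = ‖Ext (fun η => f (a + η)) t (x + (2 * t) • a)‖ₑ := by
    intro x
    rw [Ext_gal f a t x, enorm_mul, ← ofReal_norm (ec _), ec_norm, ENNReal.ofReal_one, one_mul]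
  simp only [e1]
  exact lintegral_add_right_eq_self (fun x => ‖Ext (fun η => f (a + η)) t x‖ₑ ^ p) _

/-- the main estimate, any centre -/
theorem mainG {p : ℝ} (hp3 : 3 < p) (hp4 : p < 4) :
    ∃ C : ℝ, 0 < C ∧ ∀ (a : ℝ × ℝ) (f : ℝ × ℝ → ℂ) (v : ℝ × ℝ → ℝ≥0∞) (R : ℝ), 0 < R →
    Measurable f → Measurable v → (∀ ξ, R ^ 2 < nsq (ξ - a) → f ξ = 0) →
    (∀ ξ, eVariationOn (fun s : ℝ => f (a + s • (ξ - a))) (Ici 1) ≤ v ξ) →
    ∫⁻ z, ‖E3 f z‖ₑ ^ p ≤ ENNReal.ofReal (C * R ^ (2 * p - 6)) * ∫⁻ ξ, v ξ ^ p := by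
  obtain ⟨C, hC, hM⟩ := main0 hp3 hp4
  refine ⟨C, hC, ?_⟩
  intro a f v R hR0 hf hvm hR hv
  rw [E3_gal hf a]
  have h := hM (fun η => f (a + η)) (fun η => v (a + η)) R hR0 (hf.comp (measurable_const_add a))
    (hvm.comp (measurable_const_add a)) (by
      intro ξ hξ
      apply hR
      rwa [add_sub_cancel_left]) (by
      intro ξ
      have := hv (a + ξ)
      rwa [add_sub_cancel_left] at this)
  refine h.trans (le_of_eq ?_)
  congr 1
  exact lintegral_add_left_eq_self (fun ξ => v ξ ^ p) a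

/-- coordinates of space, last coordinate first -/
noncomputable def c3 : EuclideanSpace ℝ (Fin 3) ≃ᵐ ℝ × (ℝ × ℝ) :=
  ((MeasurableEquiv.toLp 2 (Fin 3 → ℝ)).symm.trans
    (MeasurableEquiv.piFinSuccAbove (fun _ => ℝ) 2)).trans
      ((MeasurableEquiv.refl ℝ).prodCongr MeasurableEquiv.finTwoArrow)

lemma c3_apply (v : EuclideanSpace ℝ (Fin 3)) : c3 v = (v 2, (v 0, v 1)) := rfl

lemma c3_mp : MeasurePreserving c3 (volume : Measure (EuclideanSpace ℝ (Fin 3))) volume := by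
  have h1 := PiLp.volume_preserving_ofLp (Fin 3)
  have h2 := volume_preserving_piFinSuccAbove (fun _ : Fin 3 => ℝ) 2
  have h3 := (MeasurePreserving.id (volume : Measure ℝ)).prod (volume_preserving_finTwoArrow ℝ)
  exact h3.comp (h2.comp h1)

lemma lint_scale3 {c : ℝ} (hc : c ≠ 0) {G : ℝ × (ℝ × ℝ) → ℝ≥0∞} (hG : Measurable G) :
    ∫⁻ z, G (c • z) = ENNReal.ofReal |(c ^ 3)⁻¹| * ∫⁻ z, G z := by
  have h1 := lintegral_map (μ := (volume : Measure (ℝ × (ℝ × ℝ)))) hG (measurable_const_smul c)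
  have hd : Module.finrank ℝ (ℝ × (ℝ × ℝ)) = 3 := by simp
  have h22 : (volume : Measure (ℝ × ℝ)).IsAddHaarMeasure := inferInstance
  have h23 : (volume : Measure (ℝ × (ℝ × ℝ))).IsAddHaarMeasure :=
    inferInstanceAs ((volume : Measure ℝ).prod (volume : Measure (ℝ × ℝ))).IsAddHaarMeasure
  rw [Measure.map_addHaar_smul volume hc, lintegral_smul_measure, smul_eq_mul, hd] at h1
  exact h1.symm

/-- the parametrisation of the paraboloid -/
noncomputable def Ph3 (x : EuclideanSpace ℝ (Fin 2)) : EuclideanSpace ℝ (Fin 3) :=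
  !₂[x 0, x 1, x 0 ^ 2 + x 1 ^ 2]

/-- the extension operator in the conventions of the problem -/
noncomputable def ext3 (f : EuclideanSpace ℝ (Fin 2) → ℂ) (ξ : EuclideanSpace ℝ (Fin 3)) : ℂ :=
  ∫ x, cexp (-(I * ((⟪Ph3 x, ξ⟫ : ℝ) : ℂ))) * f x

lemma ext3_eq (f : EuclideanSpace ℝ (Fin 2) → ℂ) (ξ : EuclideanSpace ℝ (Fin 3)) :
    ext3 f ξ = E3 (fun y => f (pl.symm y)) ((-(2 * π)⁻¹ : ℝ) • c3 ξ) := by
  unfold ext3 E3 Ext
  rw [← pl_mp.integral_comp pl.measurableEmbedding]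
  congr 1
  ext x
  beta_reduce
  rw [MeasurableEquiv.symm_apply_apply, mul_comm]
  congr 1
  unfold ec
  congr 1
  rw [pl_apply, c3_apply]
  have e1 : (⟪Ph3 x, ξ⟫ : ℝ) = x 0 * ξ 0 + x 1 * ξ 1 + (x 0 ^ 2 + x 1 ^ 2) * ξ 2 := by
    rw [PiLp.inner_apply, Fin.sum_univ_three]
    simp [Ph3]
    ring
  rw [e1]
  simp only [Prod.smul_mk, smul_eq_mul]
  have hpi : (π : ℂ) ≠ 0 := by exact_mod_cast Real.pi_ne_zero
  push_cast
  field_simp
  ring

/-- the main estimate in the conventions of the problem -/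
theorem mainP {p : ℝ} (hp3 : 3 < p) (hp4 : p < 4) :
    ∃ C : ℝ, 0 < C ∧ ∀ (a : EuclideanSpace ℝ (Fin 2)) (R : ℝ) (f : EuclideanSpace ℝ (Fin 2) → ℂ)
    (v : EuclideanSpace ℝ (Fin 2) → ℝ≥0∞), 0 < R →
    Measurable f → Measurable v → (∀ x, R < ‖x - a‖ → f x = 0) →
    (∀ x, eVariationOn (fun s : ℝ => f (a + s • (x - a))) (Ici 1) ≤ v x) →
    ∫⁻ ξ, ‖ext3 f ξ‖ₑ ^ p ≤ ENNReal.ofReal (C * R ^ (2 * p - 6)) * ∫⁻ x, v x ^ p := by
  obtain ⟨C, hC, hM⟩ := mainG hp3 hp4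
  have hc : (-(2 * π)⁻¹ : ℝ) ≠ 0 := by
    rw [neg_ne_zero]
    positivity
  refine ⟨|((-(2 * π)⁻¹ : ℝ) ^ 3)⁻¹| * C, by positivity, ?_⟩
  intro a R f v hR0 hf hvm hR hv
  set f' : ℝ × ℝ → ℂ := fun y => f (pl.symm y) with hf'
  set v' : ℝ × ℝ → ℝ≥0∞ := fun y => v (pl.symm y) with hv'
  have hf'm : Measurable f' := hf.comp pl.symm.measurable
  have hv'm : Measurable v' := hvm.comp pl.symm.measurable
  have hlin : ∀ (y : ℝ × ℝ) (s : ℝ), pl.symm (pl a + s • (y - pl a)) = a + s • (pl.symm y - a) := by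
    intro y s
    apply pl.injective
    rw [MeasurableEquiv.apply_symm_apply]
    have h1 : ∀ w : EuclideanSpace ℝ (Fin 2), pl (a + s • (w - a)) = pl a + s • (pl w - pl a) := by
      intro w
      simp only [pl_apply]
      ext <;> simp
    rw [h1, MeasurableEquiv.apply_symm_apply]
  have h := hM (pl a) f' v' R hR0 hf'm hv'm (by
      intro y hy
      apply hR
      have e1 : nsq (y - pl a) = ‖pl.symm y - a‖ ^ 2 := by
        obtain ⟨w, rfl⟩ := pl.surjective y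
        rw [MeasurableEquiv.symm_apply_apply, EuclideanSpace.norm_sq_eq, Fin.sum_univ_two]
        unfold nsq
        simp [pl_apply]
      rw [e1] at hy
      exact lt_of_pow_lt_pow_left₀ 2 (norm_nonneg _) hy) (by
      intro y
      have h1 := hv (pl.symm y)
      refine le_trans (le_of_eq ?_) h1
      congr 1
      ext s
      simp only [hf', hlin])
  have e2 : ∫⁻ ξ, ‖ext3 f ξ‖ₑ ^ p = ENNReal.ofReal |((-(2 * π)⁻¹ : ℝ) ^ 3)⁻¹| *
      ∫⁻ z, ‖E3 f' z‖ₑ ^ p := by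
    have hm : Measurable fun z => ‖E3 f' z‖ₑ ^ p := (E3_meas hf'm).enorm.pow_const p
    have hm2 : Measurable fun z : ℝ × (ℝ × ℝ) => ‖E3 f' ((-(2 * π)⁻¹ : ℝ) • z)‖ₑ ^ p :=
      hm.comp (measurable_const_smul _)
    rw [← lint_scale3 hc hm, ← c3_mp.lintegral_comp hm2]
    apply lintegral_congr
    intro ξ
    rw [ext3_eq]
  have e3 : ∫⁻ y, v' y ^ p = ∫⁻ x, v x ^ p := by
    rw [← pl_mp.lintegral_comp (hv'm.pow_const p)]
    apply lintegral_congr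
    intro x
    simp only [hv']
    rw [MeasurableEquiv.symm_apply_apply]
  rw [e2]
  refine (mul_le_mul' le_rfl h).trans (le_of_eq ?_)
  rw [e3, ← mul_assoc, ← ENNReal.ofReal_mul (abs_nonneg _), mul_assoc]

/-- nonincreasing functions -/
lemma var_ray {w : ℝ → ℝ} (h0 : ∀ s, 1 ≤ s → 0 ≤ w s)
    (hw : ∀ s t, 1 ≤ s → s ≤ t → w t ≤ w s) :
    eVariationOn (fun s => (w s : ℂ)) (Ici 1) ≤ ENNReal.ofReal (w 1) := by
  refine iSup_le ?_
  rintro ⟨n, u, hu, us⟩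
  simp only
  have e : ∀ i, edist ((w (u (i + 1)) : ℂ)) (w (u i) : ℂ) =
      ENNReal.ofReal (w (u i) - w (u (i + 1))) := by
    intro i
    rw [edist_comm, edist_eq_enorm_sub, ← Complex.ofReal_sub, ← ofReal_norm, Complex.norm_real,
      Real.norm_eq_abs, abs_of_nonneg (sub_nonneg.2 (hw _ _ (us i) (hu (Nat.le_succ i))))]
  simp only [e]
  rw [← ENNReal.ofReal_sum_of_nonneg fun i _ => sub_nonneg.2
    (hw _ _ (us i) (hu (Nat.le_succ i))), Finset.sum_range_sub' (fun i => w (u i))]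
  apply ENNReal.ofReal_le_ofReal
  have h1 := h0 (u n) (us n)
  have h2 := hw 1 (u 0) le_rfl (us 0)
  linarith

end Pool.Agent.R245.PB
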